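import Pool.Agent.N1F.Defs

/-!
N1F, block A6: the absolute estimate on a box with four sizes.
-/

namespace Pool.Agent.N1F

open MeasureTheory Set Metric Pool.Agent.MP_6cbfb8_an Pool.Agent.MST Pool.Agent.N1
open scoped ENNReal Real ContDiff

/-- Absolute estimate on a box. -/
theorem a6_abs (c : ℝ) (hc : 0 < c) : ∃ C : ℝ, 0 ≤ C ∧ ∀ T : ℝ, 0 < T → ∀ (M : V × V → ℂ)
    (e1 e2 d1 d2 f0 : ℝ), Measurable M → (∀ q, ‖M q‖ ≤ 1) → 0 ≤ e1 → 0 ≤ e2 → 0 ≤ d1 → 0 ≤ d2 →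
    0 ≤ f0 →
    (∀ q, M q ≠ 0 → Wr c q.1 q.2 ≠ 0 → |q.1.1| ≤ e1 ∧ |q.2.1| ≤ e2 ∧ |q.1.2.2| ≤ d1 ∧
      |q.2.2.2| ≤ d2 ∧ f0 ≤ |Fr c q.1 q.2|) →
    ‖FF c T M‖ ≤ C * T * (e1 * e2 * (d1 * d2)) / (1 + T * f0) ^ 3 := by
  obtain ⟨C, hC, h⟩ := FF_abs c hc
  refine ⟨64 * C, by positivity, ?_⟩
  intro T hT M e1 e2 d1 d2 f0 hM hM1 he1 he2 hd1 hd2 hf0 hs
  have h1 := h T hT M {q : V × V | |q.1.1| ≤ e1 ∧ |q.2.1| ≤ e2 ∧ |q.1.2.2| ≤ d1 ∧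
    |q.2.2.2| ≤ d2 ∧ |q.1.2.1| ≤ 1 ∧ |q.2.2.1| ≤ 1 ∧ f0 ≤ |Fr c q.1 q.2|} f0
    (64 * (e1 * e2 * (d1 * d2))) hM hM1 ?_ (by positivity) ?_ hf0 ?_
  · refine h1.trans (le_of_eq ?_)
    ring
  · intro q hq hW
    obtain ⟨h2, h3, h4, h5, h6⟩ := hs q hq hW
    have h7 : wf c q.1.2.1 q.2.2.1 ≠ 0 := by
      intro h8
      apply hW
      unfold Wr
      rw [h8]
      simp
    have h8 := m2_wf_ne hc h7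
    have h9 : 0 ≤ c ^ 2 / 4 := by positivity
    refine ⟨h2, h3, h4, h5, ?_, ?_, h6⟩
    · rw [← sq_le_one_iff_abs_le_one]
      nlinarith [sq_nonneg q.2.2.1]
    · rw [← sq_le_one_iff_abs_le_one]
      nlinarith [sq_nonneg q.1.2.1]
  · have h2 : {q : V × V | |q.1.1| ≤ e1 ∧ |q.2.1| ≤ e2 ∧ |q.1.2.2| ≤ d1 ∧ |q.2.2.2| ≤ d2 ∧
        |q.1.2.1| ≤ 1 ∧ |q.2.2.1| ≤ 1 ∧ f0 ≤ |Fr c q.1 q.2|} ⊆
        (Icc (-e1) e1 ×ˢ Icc (-1) 1 ×ˢ Icc (-d1) d1) ×ˢ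
          (Icc (-e2) e2 ×ˢ Icc (-1) 1 ×ˢ Icc (-d2) d2) := by
      rintro q ⟨h2, h3, h4, h5, h6, h7, -⟩
      exact ⟨⟨abs_le.1 h2, abs_le.1 h6, abs_le.1 h4⟩, abs_le.1 h3, abs_le.1 h7, abs_le.1 h5⟩
    refine (measure_mono h2).trans (le_of_eq ?_)
    have p1 : 0 ≤ (1 - -1 : ℝ) * (d1 - -d1) := by nlinarith
    have p2 : 0 ≤ (e1 - -e1) * ((1 - -1 : ℝ) * (d1 - -d1)) := mul_nonneg (by linarith) p1
    rw [Measure.volume_eq_prod, Measure.prod_prod, Measure.volume_eq_prod, Measure.prod_prod,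
      Measure.prod_prod, Measure.volume_eq_prod, Measure.prod_prod, Measure.prod_prod,
      Real.volume_Icc, Real.volume_Icc, Real.volume_Icc, Real.volume_Icc, Real.volume_Icc,
      ← ENNReal.ofReal_mul (by norm_num), ← ENNReal.ofReal_mul (by linarith),
      ← ENNReal.ofReal_mul (by norm_num), ← ENNReal.ofReal_mul (by linarith),
      ← ENNReal.ofReal_mul p2]
    congr 1
    ring
  · rintro q ⟨-, -, -, -, -, -, h2⟩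
    exact h2

/-- The estimate of a box on which `|F|` is large. -/
theorem a6_dom (c : ℝ) (hc : 0 < c) (c1 : ℝ) (hc1 : 0 < c1) : ∃ C : ℝ, 0 ≤ C ∧
    ∀ T : ℝ, 0 < T → ∀ (M : V × V → ℂ) (e1 e2 d1 d2 t : ℝ), Measurable M →
    (∀ q, ‖M q‖ ≤ 1) → 0 ≤ e1 → 0 ≤ e2 → 0 ≤ d1 → 0 ≤ d2 → 0 ≤ t →
    e1 * e2 * (d1 * d2) ≤ 16 * t ^ 2 →
    (∀ q, M q ≠ 0 → Wr c q.1 q.2 ≠ 0 → |q.1.1| ≤ e1 ∧ |q.2.1| ≤ e2 ∧ |q.1.2.2| ≤ d1 ∧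
      |q.2.2.2| ≤ d2 ∧ c1 * t ≤ |Fr c q.1 q.2|) →
    ‖FF c T M‖ ≤ C / T := by
  obtain ⟨C, hC, h⟩ := a6_abs c hc
  refine ⟨16 * C / c1 ^ 2, by positivity, ?_⟩
  intro T hT M e1 e2 d1 d2 t hM hM1 he1 he2 hd1 hd2 ht hv hs
  have h1 := h T hT M e1 e2 d1 d2 (c1 * t) hM hM1 he1 he2 hd1 hd2 (by positivity) hs
  refine h1.trans ?_
  set X : ℝ := T * (c1 * t) with hX
  have hX0 : 0 ≤ X := by positivity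
  rw [div_le_iff₀ (by positivity)]
  have h3 : X ^ 2 ≤ (1 + X) ^ 3 := by nlinarith [pow_nonneg hX0 3, pow_nonneg hX0 2]
  calc C * T * (e1 * e2 * (d1 * d2)) ≤ C * T * (16 * t ^ 2) := by gcongr
    _ = 16 * C / c1 ^ 2 / T * X ^ 2 := by
        rw [hX]
        field_simp
    _ ≤ 16 * C / c1 ^ 2 / T * (1 + X) ^ 3 := by gcongr

/-- The estimate of a thin box. -/
theorem a6_low (c : ℝ) (hc : 0 < c) : ∃ C : ℝ, 0 ≤ C ∧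
    ∀ T : ℝ, 0 < T → ∀ (M : V × V → ℂ) (e1 e2 d1 d2 : ℝ), Measurable M →
    (∀ q, ‖M q‖ ≤ 1) → 0 ≤ e1 → 0 ≤ e2 → 0 ≤ d1 → 0 ≤ d2 →
    e1 * e2 * (d1 * d2) ≤ 2 / T ^ 2 →
    (∀ q, M q ≠ 0 → Wr c q.1 q.2 ≠ 0 → |q.1.1| ≤ e1 ∧ |q.2.1| ≤ e2 ∧ |q.1.2.2| ≤ d1 ∧
      |q.2.2.2| ≤ d2) →
    ‖FF c T M‖ ≤ C / T := by
  obtain ⟨C, hC, h⟩ := a6_abs c hc
  refine ⟨2 * C, by positivity, ?_⟩
  intro T hT M e1 e2 d1 d2 hM hM1 he1 he2 hd1 hd2 hv hs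
  have h1 := h T hT M e1 e2 d1 d2 0 hM hM1 he1 he2 hd1 hd2 le_rfl (fun q hq hW => by
    obtain ⟨a1, a2, a3, a4⟩ := hs q hq hW
    exact ⟨a1, a2, a3, a4, abs_nonneg _⟩)
  refine h1.trans ?_
  rw [mul_zero, add_zero, one_pow, div_one]
  calc C * T * (e1 * e2 * (d1 * d2)) ≤ C * T * (2 / T ^ 2) := by gcongr
    _ = 2 * C / T := by
        field_simp

end Pool.Agent.N1F
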