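import Pool.Agent.N1F.Defs

/-!
N1F, block A6: from caps to dyadic pieces.
-/

namespace Pool.Agent.N1F

open MeasureTheory Set Metric Pool.Agent.MP_6cbfb8_an Pool.Agent.MST Pool.Agent.N1
open scoped ENNReal Real ContDiff

/-- the caps -/
noncomputable def a6_cp (al r : ℝ) (G : ℝ → ℂ) (i : ℕ) (a : ℝ) : ℂ :=
  g2_cut (fun a : ℝ => a / al) 2 r G i a

theorem a6_cp_meas (al r : ℝ) {G : ℝ → ℂ} (hG : Measurable G) (i : ℕ) :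
    Measurable (a6_cp al r G i) :=
  g2_cut_meas (by fun_prop) _ _ hG _

theorem a6_cp_norm (al r : ℝ) {G : ℝ → ℂ} (hG : ∀ a, ‖G a‖ ≤ 1) (i : ℕ) (a : ℝ) :
    ‖a6_cp al r G i a‖ ≤ 1 := g2_cut_norm _ _ _ hG _ _

theorem a6_cp_abs {al a : ℝ} (hal : 0 < al) (h1 : al ≤ a) (h2 : a ≤ 2 * al) : |a / al| ≤ 2 := by
  rw [abs_of_nonneg (div_nonneg (by linarith) hal.le), div_le_iff₀ hal]
  exact h2

theorem a6_cp_cap {al r : ℝ} (hal : 0 < al) (hr : 0 < r) {G : ℝ → ℂ}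
    (hG : ∀ a, G a ≠ 0 → al ≤ a ∧ a ≤ 2 * al) (i : ℕ) : ∃ x : ℝ, CapG al r x (a6_cp al r G i) := by
  by_cases h : ∃ a, a6_cp al r G i a ≠ 0
  · obtain ⟨x, hx⟩ := h
    obtain ⟨h1, h2⟩ := g2_cut_ne hx
    have h5 := hG x h2
    refine ⟨x, fun a ha => ?_⟩
    obtain ⟨g1, g2⟩ := g2_cut_ne ha
    have g5 := hG a g2
    refine ⟨g5.1, g5.2, ?_⟩
    have h6 := g2_ix_near (R := 2) hr (a6_cp_abs hal g5.1 g5.2) (a6_cp_abs hal h5.1 h5.2)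
      (g1.trans h1.symm)
    rw [← sub_div, abs_div, abs_of_pos hal, div_le_iff₀ hal] at h6
    exact h6
  · push Not at h
    exact ⟨0, fun a ha => absurd (h a) ha⟩

theorem a6_cp_sum {al r : ℝ} (hal : 0 < al) (hr : 0 < r) {G : ℝ → ℂ}
    (hG : ∀ a, G a ≠ 0 → al ≤ a ∧ a ≤ 2 * al) (a : ℝ) :
    ∑ i ∈ Finset.range (⌊2 * 2 / r⌋₊ + 1), a6_cp al r G i a = G a := by
  refine g2_cut_sum (fun a : ℝ => a / al) 2 r hr G ?_ a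
  intro u hu
  have h5 := hG u hu
  exact a6_cp_abs hal h5.1 h5.2

/-- The conclusion of `capF`. -/
def CapEst (c : ℝ) : Prop := ∃ r : ℝ, 0 < r ∧ ∃ C : ℝ, 0 ≤ C ∧ ∀ T : ℝ, 1 ≤ T →
    ∀ al be : ℝ, 0 < al → al ≤ 1 → 0 < be → be ≤ 1 → al * be ≤ r →
    ∀ (x1 x2 : ℝ) (G₁ G₂ : ℝ → ℂ), Measurable G₁ → Measurable G₂ →
    (∀ a, ‖G₁ a‖ ≤ 1) → (∀ a, ‖G₂ a‖ ≤ 1) → CapG al r x1 G₁ → CapG be r x2 G₂ →
    ∫⁻ t in Icc T (2 * T), ∫⁻ ξ : ℝ × ℝ, ‖Eo c G₁ G₂ t ξ‖ₑ ^ 4 ≤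
      ENNReal.ofReal (C * (1 + Real.log T) ^ 12 / T)

/-- The conclusion of `L4two`. -/
def TwoEst (c c' : ℝ) : Prop := ∃ C : ℝ, 0 ≤ C ∧ ∀ T : ℝ, 1 ≤ T →
    ∀ G₁ G₂ : ℝ → ℂ, Measurable G₁ → Measurable G₂ → (∀ a, ‖G₁ a‖ ≤ 1) → (∀ b, ‖G₂ b‖ ≤ 1) →
    (∀ a, G₁ a ≠ 0 → c' ≤ a) → (∀ b, G₂ b ≠ 0 → c' ≤ b) →
    ∫⁻ t in Icc T (2 * T), ∫⁻ ξ : ℝ × ℝ, ‖Eo c G₁ G₂ t ξ‖ₑ ^ 4 ≤
      ENNReal.ofReal (C * (1 + Real.log T) ^ 8 / T)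

/-- Dyadic pieces, from caps. -/
theorem L4P_of (c : ℝ) (hc : 0 < c) (hcap : CapEst c) (htwo : ∀ c' : ℝ, 0 < c' → TwoEst c c') :
    ∃ C : ℝ, 0 ≤ C ∧ ∀ T : ℝ, 1 ≤ T →
    ∀ al be : ℝ, 0 < al → al ≤ 1 → 0 < be → be ≤ 1 →
    ∀ G₁ G₂ : ℝ → ℂ, Measurable G₁ → Measurable G₂ → (∀ a, ‖G₁ a‖ ≤ 1) → (∀ b, ‖G₂ b‖ ≤ 1) →
    (∀ a, G₁ a ≠ 0 → al ≤ a ∧ a ≤ 2 * al) → (∀ b, G₂ b ≠ 0 → be ≤ b ∧ b ≤ 2 * be) →
    ∫⁻ t in Icc T (2 * T), ∫⁻ ξ : ℝ × ℝ, ‖Eo c G₁ G₂ t ξ‖ₑ ^ 4 ≤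
      ENNReal.ofReal (C * (1 + Real.log T) ^ 12 / T) := by
  obtain ⟨r, hr, C, hC, hcap⟩ := hcap
  obtain ⟨C', hC', htwo⟩ := htwo r hr
  set n : ℕ := ⌊2 * 2 / r⌋₊ + 1 with hn
  set s : Finset (ℕ × ℕ) := Finset.range n ×ˢ Finset.range n with hs
  refine ⟨(s.card : ℝ) ^ 5 * C + C', by positivity, ?_⟩
  intro T hT al be hal hal1 hbe hbe1 G₁ G₂ h1 h2 b1 b2 s1 s2
  have hT0 : 0 < T := by linarith
  have hL : 0 ≤ Real.log T := Real.log_nonneg hT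
  rcases le_or_gt (al * be) r with hab | hab
  · have hsum : ∀ t ξ, Eo c G₁ G₂ t ξ =
        ∑ p ∈ s, Eo c (a6_cp al r G₁ p.1) (a6_cp be r G₂ p.2) t ξ := by
      intro t ξ
      unfold Eo
      rw [← integral_finsetSum s fun p _ => m2_Eo_int c hc (a6_cp al r G₁ p.1)
        (a6_cp be r G₂ p.2) (a6_cp_meas al r h1 _) (a6_cp_meas be r h2 _)
        (a6_cp_norm al r b1 _) (a6_cp_norm be r b2 _) t ξ]
      congr 1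
      funext x
      rw [← a6_cp_sum hal hr s1 x.1, ← a6_cp_sum hbe hr s2 x.2, Finset.sum_mul_sum,
        ← Finset.sum_product', Finset.sum_mul, Finset.sum_mul, Finset.sum_mul]
    simp only [hsum]
    refine (m2_lint_sum s (fun p z => Eo c (a6_cp al r G₁ p.1) (a6_cp be r G₂ p.2) z.1 z.2)
      (fun p _ => m2_Eo_meas c hc _ _ (a6_cp_meas al r h1 _) (a6_cp_meas be r h2 _))
      (Icc T (2 * T)) (ENNReal.ofReal (C * (1 + Real.log T) ^ 12 / T)) ?_).trans ?_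
    · intro p _
      obtain ⟨x1, hx1⟩ := a6_cp_cap hal hr s1 p.1
      obtain ⟨x2, hx2⟩ := a6_cp_cap hbe hr s2 p.2
      exact hcap T hT al be hal hal1 hbe hbe1 hab x1 x2 _ _ (a6_cp_meas al r h1 _)
        (a6_cp_meas be r h2 _) (a6_cp_norm al r b1 _) (a6_cp_norm be r b2 _) hx1 hx2
    · have e1 : (s.card : ℝ≥0∞) ^ 4 * (s.card * ENNReal.ofReal (C * (1 + Real.log T) ^ 12 / T)) =
          ENNReal.ofReal ((s.card : ℝ) ^ 5 * C * (1 + Real.log T) ^ 12 / T) := by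
        rw [show (s.card : ℝ) ^ 5 * C * (1 + Real.log T) ^ 12 / T =
          (s.card : ℝ) ^ 4 * (s.card * (C * (1 + Real.log T) ^ 12 / T)) by ring,
          ENNReal.ofReal_mul (by positivity), ENNReal.ofReal_mul (by positivity),
          ENNReal.ofReal_pow (by positivity), ENNReal.ofReal_natCast]
      rw [e1]
      apply ENNReal.ofReal_le_ofReal
      gcongr
      linarith
  · have g1 : r ≤ al := by nlinarith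
    have g2 : r ≤ be := by nlinarith
    refine (htwo T hT G₁ G₂ h1 h2 b1 b2 (fun a ha => g1.trans (s1 a ha).1)
      (fun b hb => g2.trans (s2 b hb).1)).trans ?_
    apply ENNReal.ofReal_le_ofReal
    have h5 : (1 + Real.log T) ^ 8 ≤ (1 + Real.log T) ^ 12 :=
      pow_le_pow_right₀ (by linarith) (by norm_num)
    have h6 : 0 ≤ (s.card : ℝ) ^ 5 * C := by positivity
    gcongr
    linarith

end Pool.Agent.N1F
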