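import Pool.Agent.FN.S4
import Pool.Agent.N1F.A6y

/-!
N1F, block D: from dyadic pieces to everything.
-/

namespace Pool.Agent.N1F

open MeasureTheory Set Metric Pool.Agent.MP_6cbfb8_an Pool.Agent.MST Pool.Agent.N1
open scoped ENNReal Real ContDiff

/-- The hypothesis of the soft part. -/
theorem FN_L4P_of (c : ℝ)
    (h : ∃ C : ℝ, 0 ≤ C ∧ ∀ T : ℝ, 1 ≤ T →
      ∀ al be : ℝ, 0 < al → al ≤ 1 → 0 < be → be ≤ 1 →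
      ∀ G₁ G₂ : ℝ → ℂ, Measurable G₁ → Measurable G₂ → (∀ a, ‖G₁ a‖ ≤ 1) → (∀ b, ‖G₂ b‖ ≤ 1) →
      (∀ a, G₁ a ≠ 0 → al ≤ a ∧ a ≤ 2 * al) → (∀ b, G₂ b ≠ 0 → be ≤ b ∧ b ≤ 2 * be) →
      ∫⁻ t in Icc T (2 * T), ∫⁻ ξ : ℝ × ℝ, ‖Eo c G₁ G₂ t ξ‖ₑ ^ 4 ≤
        ENNReal.ofReal (C * (1 + Real.log T) ^ 12 / T)) : FN.L4P c := by
  obtain ⟨C, hC, H⟩ := h
  refine ⟨C, hC, 12, ?_⟩
  intro T hT m n hm hm1 hn hn1 G₁ G₂ h1 h2 b1 b2 s1 s2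
  have hT0 : 0 < T := by linarith
  have hp : 0 < T ^ (-(1 / 2) : ℝ) := Real.rpow_pos_of_pos hT0 _
  exact H T hT m n (hp.trans_le hm) hm1 (hp.trans_le hn) hn1 G₁ G₂ h1 h2 b1 b2 s1 s2

end Pool.Agent.N1F
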