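import Pool.Agent.N1F.E0

/-!
N1F, block A4. LEMMA E0: the phase of a rectangle is the sum of four terms of known sign and size.
-/

namespace Pool.Agent.N1F

open Pool.Agent.N1

/-- `x` is one of the four points `a, a - y, a - z, a - y - z`, where `u = (y, a, z)`. -/
def Pt4 (u : V) (x : ℝ) : Prop :=
  x = u.2.1 ∨ x = u.2.1 - u.1 ∨ x = u.2.1 - u.2.2 ∨ x = u.2.1 - u.1 - u.2.2

/-- Exact four-term formula. -/
theorem Fr_four (c : ℝ) (hc : 0 < c) (u v : V)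
    (h : ∀ x y, Pt4 u x → Pt4 v y → c ^ 2 / 8 ≤ 1 - x ^ 2 - y ^ 2) :
    Fr c u v = -(u.1 * u.2.2 * E1f (1 - (v.2.1 - v.2.2) ^ 2) u.2.1 u.1 u.2.2 +
      v.1 * v.2.2 * E1f (1 - (u.2.1 - u.1) ^ 2) v.2.1 v.1 v.2.2 +
      u.1 * v.2.2 * ((u.2.1 + (u.2.1 - u.1)) * (v.2.1 + (v.2.1 - v.2.2)) *
        E3f (u.2.1 ^ 2) ((u.2.1 - u.1) ^ 2) (v.2.1 ^ 2) ((v.2.1 - v.2.2) ^ 2)) +
      v.1 * u.2.2 * (((u.2.1 - u.1) + (u.2.1 - u.1 - u.2.2)) *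
        ((v.2.1 - v.2.2) + (v.2.1 - v.1 - v.2.2)) *
        E3f ((u.2.1 - u.1 - u.2.2) ^ 2) ((u.2.1 - u.1) ^ 2) ((v.2.1 - v.1 - v.2.2) ^ 2)
          ((v.2.1 - v.2.2) ^ 2))) := by
  have hm : 0 < c ^ 2 / 8 := by positivity
  obtain ⟨y1, a, z1⟩ := u
  obtain ⟨y2, b, z2⟩ := v
  simp only at h ⊢
  have p1 : Pt4 (y1, a, z1) a := Or.inl rfl
  have p2 : Pt4 (y1, a, z1) (a - y1) := Or.inr (Or.inl rfl)
  have p3 : Pt4 (y1, a, z1) (a - z1) := Or.inr (Or.inr (Or.inl rfl))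
  have p4 : Pt4 (y1, a, z1) (a - y1 - z1) := Or.inr (Or.inr (Or.inr rfl))
  have q1 : Pt4 (y2, b, z2) b := Or.inl rfl
  have q2 : Pt4 (y2, b, z2) (b - y2) := Or.inr (Or.inl rfl)
  have q3 : Pt4 (y2, b, z2) (b - z2) := Or.inr (Or.inr (Or.inl rfl))
  have q4 : Pt4 (y2, b, z2) (b - y2 - z2) := Or.inr (Or.inr (Or.inr rfl))
  have pos : ∀ x y, Pt4 (y1, a, z1) x → Pt4 (y2, b, z2) y → 0 < 1 - x ^ 2 - y ^ 2 :=
    fun x y hx hy => lt_of_lt_of_le hm (h x y hx hy)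
  have hF : Fr c (y1, a, z1) (y2, b, z2) = √(1 - a ^ 2 - b ^ 2) -
      √(1 - (a - y1) ^ 2 - (b - y2) ^ 2) - √(1 - (a - z1) ^ 2 - (b - z2) ^ 2) +
      √(1 - (a - y1 - z1) ^ 2 - (b - y2 - z2) ^ 2) := by
    unfold Fr
    simp only
    rw [qf_eq c hc _ _ (h _ _ p1 q1), qf_eq c hc _ _ (h _ _ p2 q2), qf_eq c hc _ _ (h _ _ p3 q3),
      qf_eq c hc _ _ (h _ _ p4 q4)]
  have sw : ∀ x y : ℝ, 1 - x ^ 2 - y ^ 2 = 1 - y ^ 2 - x ^ 2 := fun x y => by ring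
  have T1 := diff_one (1 - (b - z2) ^ 2) a y1 z1 (by rw [sw]; exact pos _ _ p1 q3)
    (by rw [sw]; exact pos _ _ p2 q3) (by rw [sw]; exact pos _ _ p3 q3)
    (by rw [sw]; exact pos _ _ p4 q3)
  have T2 := diff_one (1 - (a - y1) ^ 2) b y2 z2 (pos _ _ p2 q1) (pos _ _ p2 q2) (pos _ _ p2 q3)
    (pos _ _ p2 q4)
  have T3 := diff_mix (a ^ 2) ((a - y1) ^ 2) (b ^ 2) ((b - z2) ^ 2) (pos _ _ p1 q1) (pos _ _ p2 q1)
    (pos _ _ p1 q3) (pos _ _ p2 q3)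
  have T4 := diff_mix ((a - y1 - z1) ^ 2) ((a - y1) ^ 2) ((b - y2 - z2) ^ 2) ((b - z2) ^ 2)
    (pos _ _ p4 q4) (pos _ _ p2 q4) (pos _ _ p4 q3) (pos _ _ p2 q3)
  rw [sw a (b - z2)] at T3
  rw [sw (a - y1) (b - z2)] at T3 T4
  rw [sw (a - y1 - z1) (b - z2)] at T4
  rw [sw (b - z2) (a - y1)] at T3 T4
  rw [sw (b - z2) (a - y1)] at T1
  rw [hF]
  generalize E1f (1 - (b - z2) ^ 2) a y1 z1 = e1 at *
  generalize E1f (1 - (a - y1) ^ 2) b y2 z2 = e2 at *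
  generalize E3f (a ^ 2) ((a - y1) ^ 2) (b ^ 2) ((b - z2) ^ 2) = e3 at *
  generalize E3f ((a - y1 - z1) ^ 2) ((a - y1) ^ 2) ((b - y2 - z2) ^ 2) ((b - z2) ^ 2) = e4 at *
  rw [sw (b - z2) a, sw (b - z2) (a - z1), sw (b - z2) (a - y1 - z1)] at T1
  rw [sw (b - z2) a] at T3
  rw [sw (b - z2) (a - y1 - z1)] at T4
  linear_combination T1 + T2 + T3 + T4

/-- LEMMA E0. -/
theorem E_four (c : ℝ) (hc : 0 < c) : ∃ C0 : ℝ, 1 ≤ C0 ∧ ∀ (al be : ℝ) (u v : V),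
    0 < al → 0 < be → (∀ x, Pt4 u x → al / 2 ≤ x ∧ x ≤ 4 * al) →
    (∀ y, Pt4 v y → be / 2 ≤ y ∧ y ≤ 4 * be) →
    (∀ x y, Pt4 u x → Pt4 v y → c ^ 2 / 8 ≤ 1 - x ^ 2 - y ^ 2) →
    ∃ e1 e2 e3 e4 : ℝ, (1 / C0 ≤ e1 ∧ e1 ≤ C0) ∧ (1 / C0 ≤ e2 ∧ e2 ≤ C0) ∧
      (1 / C0 ≤ e3 ∧ e3 ≤ C0) ∧ (1 / C0 ≤ e4 ∧ e4 ≤ C0) ∧
      Fr c u v = -(u.1 * u.2.2 * e1 + v.1 * v.2.2 * e2 + al * be * (u.1 * v.2.2) * e3 +
        al * be * (v.1 * u.2.2) * e4) := by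
  set m : ℝ := c ^ 2 / 8 with hm
  have hm0 : 0 < m := by positivity
  refine ⟨16 / m ^ 3 + 4, by
    have : 0 < 16 / m ^ 3 := by positivity
    linarith, ?_⟩
  intro al be u v hal hbe hu hv h
  have hF := Fr_four c hc u v h
  obtain ⟨y1, a, z1⟩ := u
  obtain ⟨y2, b, z2⟩ := v
  simp only at hF ⊢
  have p1 : Pt4 (y1, a, z1) a := Or.inl rfl
  have p2 : Pt4 (y1, a, z1) (a - y1) := Or.inr (Or.inl rfl)
  have p3 : Pt4 (y1, a, z1) (a - z1) := Or.inr (Or.inr (Or.inl rfl))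
  have p4 : Pt4 (y1, a, z1) (a - y1 - z1) := Or.inr (Or.inr (Or.inr rfl))
  have q1 : Pt4 (y2, b, z2) b := Or.inl rfl
  have q2 : Pt4 (y2, b, z2) (b - y2) := Or.inr (Or.inl rfl)
  have q3 : Pt4 (y2, b, z2) (b - z2) := Or.inr (Or.inr (Or.inl rfl))
  have q4 : Pt4 (y2, b, z2) (b - y2 - z2) := Or.inr (Or.inr (Or.inr rfl))
  have px : ∀ x, Pt4 (y1, a, z1) x → 0 ≤ x := fun x hx => by linarith [(hu x hx).1]
  have py : ∀ y, Pt4 (y2, b, z2) y → 0 ≤ y := fun y hy => by linarith [(hv y hy).1]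
  have sw : ∀ x y : ℝ, 1 - x ^ 2 - y ^ 2 = 1 - y ^ 2 - x ^ 2 := fun x y => by ring
  have B1 := E1f_bd (1 - (b - z2) ^ 2) a y1 z1 m hm0 (by nlinarith [sq_nonneg (b - z2)])
    (by rw [sw]; exact h _ _ p1 q3) (by rw [sw]; exact h _ _ p2 q3) (by rw [sw]; exact h _ _ p3 q3)
    (by rw [sw]; exact h _ _ p4 q3) (px _ p1) (px _ p2) (px _ p3) (px _ p4)
  have B2 := E1f_bd (1 - (a - y1) ^ 2) b y2 z2 m hm0 (by nlinarith [sq_nonneg (a - y1)])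
    (h _ _ p2 q1) (h _ _ p2 q2) (h _ _ p2 q3) (h _ _ p2 q4) (py _ q1) (py _ q2) (py _ q3)
    (py _ q4)
  have B3 := E3f_bd (a ^ 2) ((a - y1) ^ 2) (b ^ 2) ((b - z2) ^ 2) m hm0 (sq_nonneg _) (sq_nonneg _)
    (sq_nonneg _) (sq_nonneg _) (h _ _ p1 q1) (h _ _ p2 q1) (h _ _ p1 q3) (h _ _ p2 q3)
  have B4 := E3f_bd ((a - y1 - z1) ^ 2) ((a - y1) ^ 2) ((b - y2 - z2) ^ 2) ((b - z2) ^ 2) m hm0
    (sq_nonneg _) (sq_nonneg _) (sq_nonneg _) (sq_nonneg _) (h _ _ p4 q4) (h _ _ p2 q4)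
    (h _ _ p4 q3) (h _ _ p2 q3)
  have hC4 : (4 : ℝ) ≤ 16 / m ^ 3 + 4 := by
    have : 0 < 16 / m ^ 3 := by positivity
    linarith
  have hC : ∀ e : ℝ, 1 / 4 ≤ e → 1 / (16 / m ^ 3 + 4) ≤ e := by
    intro e he
    refine le_trans ?_ he
    exact one_div_le_one_div_of_le (by norm_num) hC4
  have h2m : 2 / m ^ 3 ≤ 16 / m ^ 3 + 4 := by
    have : 2 / m ^ 3 ≤ 16 / m ^ 3 := by
      apply div_le_div_of_nonneg_right (by norm_num) (by positivity)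
    linarith
  -- the mixed factors
  have mix : ∀ s t e : ℝ, al ≤ s → s ≤ 8 * al → be ≤ t → t ≤ 8 * be → 1 / 4 ≤ e →
      e ≤ 1 / (4 * m ^ 3) →
      1 / (16 / m ^ 3 + 4) ≤ s * t * e / (al * be) ∧ s * t * e / (al * be) ≤ 16 / m ^ 3 + 4 := by
    intro s t e hs hs' ht ht' he he'
    have hab : 0 < al * be := mul_pos hal hbe
    constructor
    · apply hC
      rw [le_div_iff₀ hab]
      have h1 : al * be ≤ s * t := mul_le_mul hs ht hbe.le (by linarith)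
      nlinarith
    · rw [div_le_iff₀ hab]
      have h1 : s * t ≤ 64 * (al * be) := by
        have := mul_le_mul hs' ht' (by linarith) (by positivity)
        nlinarith
      have h0 : 0 ≤ s * t := by
        apply mul_nonneg <;> linarith
      calc s * t * e ≤ 64 * (al * be) * (1 / (4 * m ^ 3)) :=
            mul_le_mul h1 he' (by linarith) (by positivity)
        _ = 16 / m ^ 3 * (al * be) := by
            field_simp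
            norm_num
        _ ≤ (16 / m ^ 3 + 4) * (al * be) := by nlinarith
  obtain ⟨ha1, ha1'⟩ := hu _ p1
  obtain ⟨ha2, ha2'⟩ := hu _ p2
  obtain ⟨ha4, ha4'⟩ := hu _ p4
  obtain ⟨hb1, hb1'⟩ := hv _ q1
  obtain ⟨hb3, hb3'⟩ := hv _ q3
  obtain ⟨hb4, hb4'⟩ := hv _ q4
  have M3 := mix (a + (a - y1)) (b + (b - z2)) _ (by linarith) (by linarith) (by linarith)
    (by linarith) B3.1 B3.2
  have M4 := mix ((a - y1) + (a - y1 - z1)) ((b - z2) + (b - y2 - z2)) _ (by linarith)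
    (by linarith) (by linarith) (by linarith) B4.1 B4.2
  refine ⟨_, _, _, _, ⟨hC _ (by linarith [B1.1]), le_trans B1.2 h2m⟩,
    ⟨hC _ (by linarith [B2.1]), le_trans B2.2 h2m⟩, M3, M4, ?_⟩
  rw [hF]
  field_simp

/-- If one of the four terms dominates, it controls the phase. -/
theorem E_dom (c : ℝ) (hc : 0 < c) : ∃ K c1 : ℝ, 1 ≤ K ∧ 0 < c1 ∧ ∀ (al be : ℝ) (u v : V),
    0 < al → 0 < be → (∀ x, Pt4 u x → al / 2 ≤ x ∧ x ≤ 4 * al) →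
    (∀ y, Pt4 v y → be / 2 ≤ y ∧ y ≤ 4 * be) →
    (∀ x y, Pt4 u x → Pt4 v y → c ^ 2 / 8 ≤ 1 - x ^ 2 - y ^ 2) →
    (K * |v.1 * v.2.2| ≤ |u.1 * u.2.2| → K * (al * be * |u.1 * v.2.2|) ≤ |u.1 * u.2.2| →
      K * (al * be * |v.1 * u.2.2|) ≤ |u.1 * u.2.2| → c1 * |u.1 * u.2.2| ≤ |Fr c u v|) ∧
    (K * |u.1 * u.2.2| ≤ |v.1 * v.2.2| → K * (al * be * |u.1 * v.2.2|) ≤ |v.1 * v.2.2| →
      K * (al * be * |v.1 * u.2.2|) ≤ |v.1 * v.2.2| → c1 * |v.1 * v.2.2| ≤ |Fr c u v|) ∧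
    (K * |u.1 * u.2.2| ≤ al * be * |u.1 * v.2.2| → K * |v.1 * v.2.2| ≤ al * be * |u.1 * v.2.2| →
      K * (al * be * |v.1 * u.2.2|) ≤ al * be * |u.1 * v.2.2| →
      c1 * (al * be * |u.1 * v.2.2|) ≤ |Fr c u v|) ∧
    (K * |u.1 * u.2.2| ≤ al * be * |v.1 * u.2.2| → K * |v.1 * v.2.2| ≤ al * be * |v.1 * u.2.2| →
      K * (al * be * |u.1 * v.2.2|) ≤ al * be * |v.1 * u.2.2| →
      c1 * (al * be * |v.1 * u.2.2|) ≤ |Fr c u v|) := by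
  obtain ⟨C0, hC0, H⟩ := E_four c hc
  have hC0' : 0 < C0 := by linarith
  refine ⟨6 * C0 ^ 2, 1 / (2 * C0), by nlinarith, by positivity, ?_⟩
  intro al be u v hal hbe hu hv h
  obtain ⟨e1, e2, e3, e4, ⟨l1, r1⟩, ⟨l2, r2⟩, ⟨l3, r3⟩, ⟨l4, r4⟩, hF⟩ := H al be u v hal hbe hu hv h
  have hab : 0 < al * be := mul_pos hal hbe
  have pe : ∀ e : ℝ, 1 / C0 ≤ e → 0 < e := fun e he => lt_of_lt_of_le (by positivity) he
  -- general statement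
  have gen : ∀ x1 x2 x3 x4 f1 f2 f3 f4 : ℝ, 1 / C0 ≤ f1 → 0 < f2 → f2 ≤ C0 → 0 < f3 →
      f3 ≤ C0 → 0 < f4 → f4 ≤ C0 → 6 * C0 ^ 2 * |x2| ≤ |x1| → 6 * C0 ^ 2 * |x3| ≤ |x1| →
      6 * C0 ^ 2 * |x4| ≤ |x1| →
      1 / (2 * C0) * |x1| ≤ |x1 * f1 + x2 * f2 + x3 * f3 + x4 * f4| := by
    intro x1 x2 x3 x4 f1 f2 f3 f4 g1 g2 g2' g3 g3' g4 g4' k2 k3 k4
    have b : ∀ x f : ℝ, 0 < f → f ≤ C0 → 6 * C0 ^ 2 * |x| ≤ |x1| → |x * f| ≤ |x1| / (6 * C0) := by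
      intro x f hf hf' hx
      rw [abs_mul, abs_of_pos hf, le_div_iff₀ (by positivity)]
      calc |x| * f * (6 * C0) ≤ |x| * C0 * (6 * C0) := by gcongr
        _ = 6 * C0 ^ 2 * |x| := by ring
        _ ≤ |x1| := hx
    have b2 := b x2 f2 g2 g2' k2
    have b3 := b x3 f3 g3 g3' k3
    have b4 := b x4 f4 g4 g4' k4
    have b1 : |x1| / C0 ≤ |x1 * f1| := by
      rw [abs_mul, abs_of_pos (pe f1 g1), div_eq_mul_one_div]
      exact mul_le_mul_of_nonneg_left g1 (abs_nonneg _)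
    have hsum : |x1 * f1| ≤ |x1 * f1 + x2 * f2 + x3 * f3 + x4 * f4| + |x2 * f2| + |x3 * f3| +
        |x4 * f4| := by
      have e : x1 * f1 = (x1 * f1 + x2 * f2 + x3 * f3 + x4 * f4) + (-(x2 * f2)) + (-(x3 * f3)) +
          (-(x4 * f4)) := by ring
      calc |x1 * f1| = |(x1 * f1 + x2 * f2 + x3 * f3 + x4 * f4) + (-(x2 * f2)) + (-(x3 * f3)) +
          (-(x4 * f4))| := by rw [← e]
        _ ≤ |(x1 * f1 + x2 * f2 + x3 * f3 + x4 * f4) + (-(x2 * f2)) + (-(x3 * f3))| +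
            |-(x4 * f4)| := abs_add_le _ _
        _ ≤ |(x1 * f1 + x2 * f2 + x3 * f3 + x4 * f4) + (-(x2 * f2))| + |-(x3 * f3)| +
            |-(x4 * f4)| := by gcongr; exact abs_add_le _ _
        _ ≤ |x1 * f1 + x2 * f2 + x3 * f3 + x4 * f4| + |-(x2 * f2)| + |-(x3 * f3)| +
            |-(x4 * f4)| := by gcongr; exact abs_add_le _ _
        _ = _ := by simp only [abs_neg]
    have e1 : 1 / (2 * C0) * |x1| = |x1| / C0 - |x1| / (6 * C0) - |x1| / (6 * C0) -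
        |x1| / (6 * C0) := by
      field_simp
      ring
    rw [e1]
    linarith
  have habs : |Fr c u v| = |u.1 * u.2.2 * e1 + v.1 * v.2.2 * e2 + al * be * (u.1 * v.2.2) * e3 +
        al * be * (v.1 * u.2.2) * e4| := by rw [hF, abs_neg]
  have m3 : |al * be * (u.1 * v.2.2)| = al * be * |u.1 * v.2.2| := by
    rw [abs_mul, abs_of_pos hab]
  have m4 : |al * be * (v.1 * u.2.2)| = al * be * |v.1 * u.2.2| := by
    rw [abs_mul, abs_of_pos hab]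
  refine ⟨fun k2 k3 k4 => ?_, fun k2 k3 k4 => ?_, fun k2 k3 k4 => ?_, fun k2 k3 k4 => ?_⟩
  · rw [habs]
    exact gen _ _ _ _ e1 e2 e3 e4 l1 (pe _ l2) r2 (pe _ l3) r3 (pe _ l4) r4 k2
      (by rw [m3]; exact k3) (by rw [m4]; exact k4)
  · have := gen (v.1 * v.2.2) (u.1 * u.2.2) (al * be * (u.1 * v.2.2)) (al * be * (v.1 * u.2.2))
      e2 e1 e3 e4 l2 (pe _ l1) r1 (pe _ l3) r3 (pe _ l4) r4 k2 (by rw [m3]; exact k3)
      (by rw [m4]; exact k4)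
    rw [habs]
    convert this using 2
    ring
  · have := gen (al * be * (u.1 * v.2.2)) (u.1 * u.2.2) (v.1 * v.2.2) (al * be * (v.1 * u.2.2))
      e3 e1 e2 e4 l3 (pe _ l1) r1 (pe _ l2) r2 (pe _ l4) r4 (by rw [m3]; exact k2)
      (by rw [m3]; exact k3) (by rw [m3, m4]; exact k4)
    rw [habs, ← m3]
    convert this using 2
    ring
  · have := gen (al * be * (v.1 * u.2.2)) (u.1 * u.2.2) (v.1 * v.2.2) (al * be * (u.1 * v.2.2))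
      e4 e1 e2 e3 l4 (pe _ l1) r1 (pe _ l2) r2 (pe _ l3) r3 (by rw [m4]; exact k2)
      (by rw [m4]; exact k3) (by rw [m3, m4]; exact k4)
    rw [habs, ← m4]
    convert this using 2
    ring

/-- The cross points are in the disc too. -/
theorem cross (c : ℝ) (hc : 0 < c) (u v : V) (hu : ∀ x, Pt4 u x → 0 ≤ x)
    (hv : ∀ y, Pt4 v y → 0 ≤ y) (hW : Wr c u v ≠ 0) (h1 : |u.1| + |u.2.2| ≤ c ^ 2 / 64)
    (h2 : |v.1| + |v.2.2| ≤ c ^ 2 / 64) :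
    ∀ x y, Pt4 u x → Pt4 v y → c ^ 2 / 8 ≤ 1 - x ^ 2 - y ^ 2 := by
  have hw : wf c u.2.1 v.2.1 ≠ 0 := by
    intro h0
    apply hW
    unfold Wr
    rw [h0]
    ring
  have hd := wf_ne c hc _ _ hw
  have g : ∀ (u : V) (x : ℝ), (∀ x, Pt4 u x → 0 ≤ x) → u.2.1 ≤ 1 → |u.1| + |u.2.2| ≤ c ^ 2 / 64 →
      c ≤ 2 → Pt4 u x → x ^ 2 ≤ u.2.1 ^ 2 + 3 * (c ^ 2 / 64) := by
    intro u x hu ha h1 hc2 hx
    have h0 : 0 ≤ u.2.1 := hu _ (Or.inl rfl)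
    have hx0 : 0 ≤ x := hu x hx
    have hx1 : x ≤ u.2.1 + c ^ 2 / 64 := by
      have k1 := neg_abs_le u.1
      have k2 := neg_abs_le u.2.2
      have k3 := abs_nonneg u.1
      have k4 := abs_nonneg u.2.2
      rcases hx with hx | hx | hx | hx <;> rw [hx] <;> linarith
    have hc4 : c ^ 2 / 64 ≤ 1 := by nlinarith
    nlinarith [mul_nonneg h0 (sub_nonneg.2 hc4), sq_nonneg c]
  have ha1 : u.2.1 ≤ 1 := by nlinarith [sq_nonneg v.2.1, sq_nonneg c]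
  have hb1 : v.2.1 ≤ 1 := by nlinarith [sq_nonneg u.2.1, sq_nonneg c]
  have hc2 : c ≤ 2 := by nlinarith [sq_nonneg u.2.1, sq_nonneg v.2.1]
  intro x y hx hy
  have k1 := g u x hu ha1 h1 hc2 hx
  have k2 := g v y hv hb1 h2 hc2 hy
  nlinarith

end Pool.Agent.N1F
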