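import Pool.Agent.N1F.Defs
import Pool.Agent.N1F.E1

/-!
N1F, block A4: E_DDF. If one of the four terms dominates, it controls the phase (unscaled form of
the interface).
-/

namespace Pool.Agent.N1F

open MeasureTheory Set Metric Pool.Agent.MP_6cbfb8_an Pool.Agent.MST Pool.Agent.N1
open scoped ENNReal Real ContDiff

/-- The four points lie in `[al / 2, 4 al]`. -/
theorem Pt4_rng (al r : ℝ) (u : V) (hal : 0 < al) (hr : r ≤ 1 / 4) (hG : Ge al u)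
    (h2 : u.2.1 ≤ 2 * al) (h3 : |u.1| ≤ r * al) (h4 : |u.2.2| ≤ r * al) :
    ∀ x, Pt4 u x → al / 2 ≤ x ∧ x ≤ 4 * al := by
  obtain ⟨g1, g2, g3, g4⟩ := hG
  have h3' : |u.1| ≤ 1 / 4 * al := h3.trans (by nlinarith)
  have h4' : |u.2.2| ≤ 1 / 4 * al := h4.trans (by nlinarith)
  obtain ⟨a1, a2⟩ := abs_le.1 h3'
  obtain ⟨b1, b2⟩ := abs_le.1 h4'
  intro x hx
  rcases hx with hx | hx | hx | hx <;> rw [hx] <;> constructor <;> linarith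

/-- Dominance: one of the four terms is much larger than the others. Four points in `[al, 2 al]`
resp. `[be, 2 be]`, small caps. -/
theorem E_DDF (c : ℝ) (hc : 0 < c) : ∃ K r c1 : ℝ, 1 ≤ K ∧ 0 < r ∧ 0 < c1 ∧ ∀ al be : ℝ,
    0 < al → al ≤ 1 → 0 < be → be ≤ 1 → ∀ q : V × V,
    (Ge al q.1 ∧ q.1.2.1 ≤ 2 * al ∧ |q.1.1| ≤ r * al ∧ |q.1.2.2| ≤ r * al) →
    (Ge be q.2 ∧ q.2.2.1 ≤ 2 * be ∧ |q.2.1| ≤ r * be ∧ |q.2.2.2| ≤ r * be) →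
    Wr c q.1 q.2 ≠ 0 →
    (K * (|q.2.1| * |q.2.2.2|) ≤ |q.1.1| * |q.1.2.2| →
      K * (al * be * (|q.1.1| * |q.2.2.2|)) ≤ |q.1.1| * |q.1.2.2| →
      K * (al * be * (|q.2.1| * |q.1.2.2|)) ≤ |q.1.1| * |q.1.2.2| →
      c1 * (|q.1.1| * |q.1.2.2|) ≤ |Fr c q.1 q.2|) ∧
    (K * (|q.1.1| * |q.1.2.2|) ≤ |q.2.1| * |q.2.2.2| →
      K * (al * be * (|q.1.1| * |q.2.2.2|)) ≤ |q.2.1| * |q.2.2.2| →
      K * (al * be * (|q.2.1| * |q.1.2.2|)) ≤ |q.2.1| * |q.2.2.2| →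
      c1 * (|q.2.1| * |q.2.2.2|) ≤ |Fr c q.1 q.2|) ∧
    (K * (|q.1.1| * |q.1.2.2|) ≤ al * be * (|q.1.1| * |q.2.2.2|) →
      K * (|q.2.1| * |q.2.2.2|) ≤ al * be * (|q.1.1| * |q.2.2.2|) →
      K * (|q.2.1| * |q.1.2.2|) ≤ |q.1.1| * |q.2.2.2| →
      c1 * (al * be * (|q.1.1| * |q.2.2.2|)) ≤ |Fr c q.1 q.2|) ∧
    (K * (|q.1.1| * |q.1.2.2|) ≤ al * be * (|q.2.1| * |q.1.2.2|) →
      K * (|q.2.1| * |q.2.2.2|) ≤ al * be * (|q.2.1| * |q.1.2.2|) →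
      K * (|q.1.1| * |q.2.2.2|) ≤ |q.2.1| * |q.1.2.2| →
      c1 * (al * be * (|q.2.1| * |q.1.2.2|)) ≤ |Fr c q.1 q.2|) := by
  obtain ⟨K, c1, hK, hc1, H⟩ := E_dom c hc
  refine ⟨K, min (1 / 4) (c ^ 2 / 128), c1, hK, by positivity, hc1, ?_⟩
  intro al be hal hal1 hbe hbe1 q hu hv hW
  obtain ⟨u1, u2, u3, u4⟩ := hu
  obtain ⟨v1, v2, v3, v4⟩ := hv
  have hr1 : min (1 / 4 : ℝ) (c ^ 2 / 128) ≤ 1 / 4 := min_le_left _ _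
  have hr2 : min (1 / 4 : ℝ) (c ^ 2 / 128) ≤ c ^ 2 / 128 := min_le_right _ _
  have hr0 : 0 ≤ min (1 / 4 : ℝ) (c ^ 2 / 128) := by positivity
  have hPu := Pt4_rng al _ q.1 hal hr1 u1 u2 u3 u4
  have hPv := Pt4_rng be _ q.2 hbe hr1 v1 v2 v3 v4
  have sm : ∀ x t : ℝ, 0 < x → x ≤ 1 → t ≤ min (1 / 4 : ℝ) (c ^ 2 / 128) * x →
      t ≤ c ^ 2 / 128 := by
    intro x t hx hx1 ht
    have : min (1 / 4 : ℝ) (c ^ 2 / 128) * x ≤ min (1 / 4 : ℝ) (c ^ 2 / 128) * 1 :=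
      mul_le_mul_of_nonneg_left hx1 hr0
    linarith
  have hcr := cross c hc q.1 q.2 (fun x hx => by linarith [(hPu x hx).1])
    (fun y hy => by linarith [(hPv y hy).1]) hW
    (by linarith [sm al _ hal hal1 u3, sm al _ hal hal1 u4])
    (by linarith [sm be _ hbe hbe1 v3, sm be _ hbe hbe1 v4])
  obtain ⟨k1, k2, k3, k4⟩ := H al be q.1 q.2 hal hbe hPu hPv hcr
  have hab : 0 < al * be := mul_pos hal hbe
  simp only [abs_mul] at k1 k2 k3 k4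
  refine ⟨k1, k2, fun h1 h2 h3 => k3 h1 h2 ?_, fun h1 h2 h3 => k4 h1 h2 ?_⟩
  · calc K * (al * be * (|q.2.1| * |q.1.2.2|)) = al * be * (K * (|q.2.1| * |q.1.2.2|)) := by ring
      _ ≤ _ := mul_le_mul_of_nonneg_left h3 hab.le
  · calc K * (al * be * (|q.1.1| * |q.2.2.2|)) = al * be * (K * (|q.1.1| * |q.2.2.2|)) := by ring
      _ ≤ _ := mul_le_mul_of_nonneg_left h3 hab.le

end Pool.Agent.N1F
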