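import Pool.Agent.N1F.A2

/-!
N1F, block A2: Proposition I, end of the proof.
-/

namespace Pool.Agent.N1F

open MeasureTheory Set Metric Pool.Agent.MP_6cbfb8_an Pool.Agent.MST Pool.Agent.N1
open scoped ENNReal Real ContDiff Topology

lemma sc_ball (s1 s2 s3 y x z δ R : ℝ) (hs1 : 0 < s1) (hs2 : 0 < s2) (hs3 : 0 < s3)
    (hδ : δ < R) (a : V) (h : LB s1 s2 s3 y x z δ (Sc3 s1 s2 s3 a)) :
    a ∈ ball ((y, x, z) : V) R := by
  obtain ⟨h1, h2, h3⟩ := h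
  have e1 : (Sc3 s1 s2 s3 a).1 / s1 = a.1 := by
    show s1 * a.1 / s1 = a.1
    field_simp
  have e2 : (Sc3 s1 s2 s3 a).2.1 / s2 = a.2.1 := by
    show s2 * a.2.1 / s2 = a.2.1
    field_simp
  have e3 : (Sc3 s1 s2 s3 a).2.2 / s3 = a.2.2 := by
    show s3 * a.2.2 / s3 = a.2.2
    field_simp
  rw [e1] at h1
  rw [e2] at h2
  rw [e3] at h3
  rw [mem_ball, Prod.dist_eq, Prod.dist_eq, max_lt_iff, max_lt_iff, Real.dist_eq, Real.dist_eq,
    Real.dist_eq]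
  exact ⟨by linarith, by linarith, by linarith⟩

lemma AB_small (A B A0 B0 δ : ℝ) (hA : 0 ≤ A) (hA1 : A ≤ 1) (hB : 0 ≤ B) (hB1 : B ≤ 1)
    (h : A0 * B0 = 0) (h1 : |A - A0| < δ) (h2 : |B - B0| < δ) : A * B < δ := by
  rcases mul_eq_zero.1 h with k | k
  · rw [k, sub_zero, abs_of_nonneg hA] at h1
    nlinarith
  · rw [k, sub_zero, abs_of_nonneg hB] at h2
    nlinarith

theorem propI (c : ℝ) (hc : 0 < c) (A0 B0 : ℝ) (x0 y0 z0 : ℝ × ℝ) (hb : Bs c A0 B0 x0)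
    (hy1 : y0.1 ≠ 0) (hy2 : y0.2 ≠ 0) (hz1 : z0.1 ≠ 0) (hz2 : z0.2 ≠ 0) (k1 : ℝ) (hk1 : 0 ≤ k1) :
    ∃ δ : ℝ, 0 < δ ∧ ∃ C : ℝ, 0 ≤ C ∧ ∀ T al be ρ₁ ρ₂ γ₁ γ₂ : ℝ, 0 < T → Sz al be A0 B0 δ →
      0 < ρ₁ → ρ₁ < δ → 0 < ρ₂ → ρ₂ < δ → 0 < γ₁ → γ₁ < δ → 0 < γ₂ → γ₂ < δ →
      al ^ 2 * ρ₁ * γ₁ = be ^ 2 * ρ₂ * γ₂ → |be ^ 2 * γ₂ / γ₁ - k1| < δ →
      be ^ 2 * ρ₂ / ρ₁ ≤ be ^ 2 * γ₂ / γ₁ →
      ∀ A B : V → ℂ, Measurable A → Measurable B → (∀ a, ‖A a‖ ≤ 1) → (∀ b, ‖B b‖ ≤ 1) →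
      (∀ u, A u ≠ 0 → LB (al * ρ₁) al (al * γ₁) y0.1 x0.1 z0.1 δ u) →
      (∀ v, B v ≠ 0 → LB (be * ρ₂) be (be * γ₂) y0.2 x0.2 z0.2 δ v) →
      ‖FF c T (tp A B)‖ ≤ C / T := by
  obtain ⟨r, hrp, g, B1, hgid, δh, hδh, Ch, hCh, H⟩ := A2_loc c hc A0 B0 x0 y0 z0 hb hy1 hy2 hz1
    hz2 k1 hk1
  have hAB0 : A0 * B0 = 0 := hb.2.2.1
  set R : ℝ := min r δh with hR
  have hRp : 0 < R := lt_min hrp hδh
  set δ2 : ℝ := if 0 < k1 then min (k1 / 2) (δh * k1 ^ 2 / 8) else 1 with hδ2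
  have hδ2p : 0 < δ2 := by
    rw [hδ2]
    split_ifs with h
    · exact lt_min (by positivity) (by positivity)
    · exact one_pos
  refine ⟨min (min (R / 2) 1) δ2, lt_min (lt_min (by positivity) one_pos) hδ2p, Ch * (k1 + 1),
    by positivity, ?_⟩
  intro T al be ρ₁ ρ₂ γ₁ γ₂ hT hSz hρ₁ hρ₁' hρ₂ hρ₂' hγ₁ hγ₁' hγ₂ hγ₂' heq hk hle A B hA hB hA1
    hB1 hAs hBs
  set δ : ℝ := min (min (R / 2) 1) δ2 with hδ
  have hδR : δ ≤ R / 2 := (min_le_left _ _).trans (min_le_left _ _)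
  have hδ1 : δ ≤ 1 := (min_le_left _ _).trans (min_le_right _ _)
  have hδδ2 : δ ≤ δ2 := min_le_right _ _
  have hRr : R ≤ r := min_le_left _ _
  have hRh : R ≤ δh := min_le_right _ _
  obtain ⟨hal, hal1, hbe, hbe1, hA0, hB0⟩ := hSz
  set k : ℝ := be ^ 2 * γ₂ / γ₁ with hkdef
  set kk : ℝ := be ^ 2 * ρ₂ / ρ₁ with hkkdef
  have hkp : 0 < k := by positivity
  have hkkp : 0 < kk := by positivity
  have hprod : k * kk = al ^ 2 * be ^ 2 := by
    rw [hkdef, hkkdef]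
    field_simp
    linear_combination -heq
  have hABs : al ^ 2 * be ^ 2 < δ := AB_small (al ^ 2) (be ^ 2) A0 B0 δ (by positivity)
    (by nlinarith) (by positivity) (by nlinarith) hAB0 hA0 hB0
  set κ : ℝ := k / (k1 + 1) with hκ
  set ε : ℝ := kk / k with hε
  have hκp : 0 < κ := by positivity
  have hεp : 0 < ε := by positivity
  have hk1p : 0 < k1 + 1 := by positivity
  have hκ1 : κ ≤ 1 := by
    rw [hκ, div_le_one hk1p]
    have := (abs_lt.1 hk).2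
    linarith
  have hε1 : ε ≤ 1 := by
    rw [hε, div_le_one hkp]
    exact hle
  have hor : ε < δh ∨ κ < δh := by
    by_cases h0 : 0 < k1
    · left
      rw [hδ2, if_pos h0] at hδδ2
      have e1 : δ ≤ k1 / 2 := hδδ2.trans (min_le_left _ _)
      have e2 : δ ≤ δh * k1 ^ 2 / 8 := hδδ2.trans (min_le_right _ _)
      have e3 : k1 / 2 ≤ k := by
        have := (abs_lt.1 hk).1
        linarith
      have e4 : ε * k ^ 2 = al ^ 2 * be ^ 2 := by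
        rw [hε, ← hprod]
        field_simp
      by_contra h5
      push Not at h5
      have e5 : δh * (k1 / 2) ^ 2 ≤ ε * k ^ 2 := by
        apply mul_le_mul h5 _ (by positivity) hεp.le
        exact pow_le_pow_left₀ (by positivity) e3 2
      nlinarith [mul_pos hδh (pow_pos h0 2)]
    · right
      have h1 : k1 = 0 := le_antisymm (not_lt.1 h0) hk1
      rw [hκ, h1, zero_add, div_one]
      rw [h1, sub_zero, abs_of_pos hkp] at hk
      linarith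
  have hsq : √ε = al * be / k := by
    have : ε = (al * be / k) ^ 2 := by
      rw [hε, div_pow, mul_pow, ← hprod]
      field_simp
    rw [this]
    exact Real.sqrt_sq (by positivity)
  set p : P7 := pI (al ^ 2) (be ^ 2) ρ₁ γ₁ ρ₂ γ₂ k with hp
  have hpR : p ∈ ball (pI A0 B0 0 0 0 0 k1) R := by
    apply pI_dist
    · exact hRp
    · linarith
    · linarith
    · rw [sub_zero, abs_of_pos hρ₁]; linarith
    · rw [sub_zero, abs_of_pos hγ₁]; linarith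
    · rw [sub_zero, abs_of_pos hρ₂]; linarith
    · rw [sub_zero, abs_of_pos hγ₂]; linarith
    · linarith
  have hAb : ∀ a, A (Sc3 (al * ρ₁) al (al * γ₁) a) ≠ 0 → a ∈ ball ((y0.1, x0.1, z0.1) : V) R :=
    fun a ha => sc_ball _ _ _ _ _ _ δ R (by positivity) hal (by positivity) (by linarith) a
      (hAs _ ha)
  have hBb : ∀ b, B (Sc3 (be * ρ₂) be (be * γ₂) b) ≠ 0 → b ∈ ball ((y0.2, x0.2, z0.2) : V) R :=
    fun b hb => sc_ball _ _ _ _ _ _ δ R (by positivity) hbe (by positivity) (by linarith) b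
      (hBs _ hb)
  have hm : 0 < al ^ 2 * ρ₁ * γ₁ := by positivity
  rw [FF_nf c T hT (al * ρ₁) al (al * γ₁) (be * ρ₂) be (be * γ₂) (by positivity) hal
    (by positivity) (by positivity) hbe (by positivity) A B (al ^ 2 * ρ₁ * γ₁)
    (fun q => -UI c (p, q.1, q.2))
    (fun q => omI c (p, q.1) - sgI c (p, q.2) + κ * ((k1 + 1) * alI c (p, q.1) *
          beI c (p, q.2) + ε * ((k1 + 1) * g (p, q.1, q.2))))
    (fun q => WI c (p, q.1, q.2)) ?_]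
  · have h1 := H p (ball_subset_ball hRh hpR) κ ε (T * (al ^ 2 * ρ₁ * γ₁)) hκp hκ1 hεp hε1 hor
      (by positivity) (fun a => A (Sc3 (al * ρ₁) al (al * γ₁) a))
      (fun b => B (Sc3 (be * ρ₂) be (be * γ₂) b))
      (hA.comp (by unfold Sc3; fun_prop)) (hB.comp (by unfold Sc3; fun_prop))
      (fun a => hA1 _) (fun b => hB1 _)
      (fun a ha => ball_subset_ball hRh (hAb a ha)) (fun b hb => ball_subset_ball hRh (hBb b hb))
    rw [norm_mul, Complex.norm_real, Real.norm_eq_abs, abs_of_pos (by positivity)]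
    refine (mul_le_mul_of_nonneg_left h1 (by positivity)).trans (le_of_eq ?_)
    rw [hsq, hκ]
    have hkne := hkp.ne'
    have e1 : (T * (al ^ 2 * ρ₁ * γ₁)) ^ 2 * (k / (k1 + 1)) * (al * be / k) =
        T ^ 2 * (al ^ 2 * ρ₁ * γ₁) * (be ^ 2 * ρ₂ * γ₂) * (al * be) / (k1 + 1) := by
      rw [← heq]
      field_simp
    rw [e1]
    field_simp
  · intro a b ha hb
    have hx : ((p, a, b) : P7 × V × V) ∈ ball ((pI A0 B0 0 0 0 0 k1, (y0.1, x0.1, z0.1),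
        (y0.2, x0.2, z0.2)) : P7 × V × V) r := by
      rw [mem_ball, Prod.dist_eq, Prod.dist_eq]
      exact max_lt ((mem_ball.1 hpR).trans_le hRr) (max_lt ((mem_ball.1 (hAb a ha)).trans_le hRr)
        ((mem_ball.1 (hBb b hb)).trans_le hRr))
    have hok := B1 _ hx
    have hU := UI_pos c hc _ hok
    refine ⟨neg_ne_zero.2 hU.ne', ?_, ?_⟩
    · have h1 := Fr_nf c hc al be ρ₁ ρ₂ γ₁ γ₂ k a b hok
      have h2 := hgid _ hx kk (by
        show al ^ 2 * be ^ 2 = k * kk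
        exact hprod.symm)
      have e6 : p 6 = k := rfl
      have h3 : Fr c (Sc3 (al * ρ₁) al (al * γ₁) a) (Sc3 (be * ρ₂) be (be * γ₂) b) =
          al ^ 2 * ρ₁ * γ₁ * P11 c (p, a, b) + be ^ 2 * ρ₂ * γ₂ * P22 c (p, a, b) +
          al ^ 2 * be ^ 2 * ρ₁ * γ₂ * P12 c (p, a, b) +
          al ^ 2 * be ^ 2 * γ₁ * ρ₂ * P21 c (p, a, b) := h1
      rw [h3]
      have h4 : P11 c (p, a, b) + P22 c (p, a, b) + k * P12 c (p, a, b) + kk * P21 c (p, a, b) =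
        -(UI c (p, a, b) * (omI c (p, a) - sgI c (p, b) + k * (alI c (p, a) * beI c (p, b)) +
            kk * g (p, a, b))) := h2
      have e1 : al ^ 2 * be ^ 2 * ρ₁ * γ₂ = al ^ 2 * ρ₁ * γ₁ * k := by
        rw [hkdef]
        field_simp
      have e2 : al ^ 2 * be ^ 2 * γ₁ * ρ₂ = al ^ 2 * ρ₁ * γ₁ * kk := by
        rw [hkkdef]
        field_simp
      have e3 : κ * (k1 + 1) = k := by
        rw [hκ]
        field_simp
      have e4 : κ * (k1 + 1) * ε = kk := by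
        rw [e3, hε]
        field_simp
      rw [e1, e2, ← heq]
      show _ = al ^ 2 * ρ₁ * γ₁ * (-UI c (p, a, b) * (omI c (p, a) - sgI c (p, b) +
        κ * ((k1 + 1) * alI c (p, a) * beI c (p, b) + ε * ((k1 + 1) * g (p, a, b)))))
      linear_combination (al ^ 2 * ρ₁ * γ₁) * h4 + (al ^ 2 * ρ₁ * γ₁) * UI c (p, a, b) *
        (alI c (p, a) * beI c (p, b)) * e3 + (al ^ 2 * ρ₁ * γ₁) * UI c (p, a, b) *
        g (p, a, b) * e4
    · exact WI_eq c al be ρ₁ γ₁ ρ₂ γ₂ k a b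

end Pool.Agent.N1F
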