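import Pool.Agent.N1F.PropF

/-!
N1F, block A3: `propNF` and `propDF`.
-/

namespace Pool.Agent.N1F

open MeasureTheory Set Metric Pool.Agent.MP_6cbfb8_an Pool.Agent.MST Pool.Agent.N1
open scoped ENNReal Real ContDiff Topology

lemma pf_Sz_mono {al be A0 B0 δ δ' : ℝ} (h : δ ≤ δ') (hs : Sz al be A0 B0 δ) :
    Sz al be A0 B0 δ' :=
  ⟨hs.1, hs.2.1, hs.2.2.1, hs.2.2.2.1, hs.2.2.2.2.1.trans_le h, hs.2.2.2.2.2.trans_le h⟩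

lemma pf_LB_mono {sy sx sz y x z δ δ' : ℝ} {u : V} (h : δ ≤ δ') (hs : LB sy sx sz y x z δ u) :
    LB sy sx sz y x z δ' u :=
  ⟨hs.1.trans h, hs.2.1.trans h, hs.2.2.trans h⟩

theorem propNF (c : ℝ) (hc : 0 < c) (A0 B0 : ℝ) (x0 y0 z0 : ℝ × ℝ) (hb : Bs c A0 B0 x0)
    (hy1 : y0.1 ≠ 0) (hy2 : y0.2 ≠ 0) (hz1 : z0.1 ≠ 0) (hz2 : z0.2 ≠ 0) :
    ∃ δ : ℝ, 0 < δ ∧ ∃ C : ℝ, 0 ≤ C ∧ ∀ T al be ρ γ : ℝ, 0 < T → Sz al be A0 B0 δ →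
      0 < ρ → ρ < δ → 0 < γ → γ < δ →
      ∀ A B : V → ℂ, Measurable A → Measurable B → (∀ a, ‖A a‖ ≤ 1) → (∀ b, ‖B b‖ ≤ 1) →
      (∀ u, A u ≠ 0 → LB (al * be ^ 2 * ρ) al (al * γ) y0.1 x0.1 z0.1 δ u) →
      (∀ v, B v ≠ 0 → LB (be * ρ) be (be * al ^ 2 * γ) y0.2 x0.2 z0.2 δ v) →
      ‖FF c T (tp A B)‖ ≤ C / T := by
  obtain ⟨δ, hδ, C, hC, h⟩ := propF c hc A0 B0 x0 y0 z0 hb hy1 hy2 hz1 hz2 1 zero_le_one le_rfl 1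
  refine ⟨min δ 1, lt_min hδ one_pos, C, hC, ?_⟩
  intro T al be ρ γ hT hSz hρ hρδ hγ hγδ A B hA hB hA1 hB1 hAs hBs
  have hle : min δ 1 ≤ δ := min_le_left _ _
  refine h T al be ρ γ 1 hT (pf_Sz_mono hle hSz) hρ (hρδ.trans_le hle) hγ (hγδ.trans_le hle)
    one_pos le_rfl (by simpa using hδ) ?_ A B hA hB hA1 hB1 (fun u hu => pf_LB_mono hle (hAs u hu))
    (fun v hv => pf_LB_mono hle ?_)
  · rw [mul_one]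
    exact (hγδ.trans_le (min_le_right _ _)).le
  · rw [mul_one]
    exact hBs v hv

theorem propDF (c : ℝ) (hc : 0 < c) (A0 B0 : ℝ) (x0 y0 z0 : ℝ × ℝ) (hb : Bs c A0 B0 x0)
    (hy1 : y0.1 ≠ 0) (hy2 : y0.2 ≠ 0) (hz1 : z0.1 ≠ 0) (hz2 : z0.2 ≠ 0) (C5 : ℝ) :
    ∃ δ : ℝ, 0 < δ ∧ ∃ C : ℝ, 0 ≤ C ∧ ∀ T al be ρ γ κ : ℝ, 0 < T → Sz al be A0 B0 δ →
      0 < ρ → ρ < δ → 0 < γ → γ < δ → 0 < κ → κ < δ → γ ≤ C5 * κ →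
      ∀ A B : V → ℂ, Measurable A → Measurable B → (∀ a, ‖A a‖ ≤ 1) → (∀ b, ‖B b‖ ≤ 1) →
      (∀ u, A u ≠ 0 → LB (al * be ^ 2 * ρ) al (al * γ) y0.1 x0.1 z0.1 δ u) →
      (∀ v, B v ≠ 0 → LB (be * ρ) be (be * al ^ 2 * κ * γ) y0.2 x0.2 z0.2 δ v) →
      ‖FF c T (tp A B)‖ ≤ C / T := by
  obtain ⟨δ, hδ, C, hC, h⟩ := propF c hc A0 B0 x0 y0 z0 hb hy1 hy2 hz1 hz2 0 le_rfl zero_le_one C5
  refine ⟨min δ 1, lt_min hδ one_pos, C, hC, ?_⟩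
  intro T al be ρ γ κ hT hSz hρ hρδ hγ hγδ hκ hκδ hγκ A B hA hB hA1 hB1 hAs hBs
  have hle : min δ 1 ≤ δ := min_le_left _ _
  exact h T al be ρ γ κ hT (pf_Sz_mono hle hSz) hρ (hρδ.trans_le hle) hγ (hγδ.trans_le hle)
    hκ (hκδ.trans_le (min_le_right _ _)).le
    (by rw [sub_zero, abs_of_pos hκ]; exact hκδ.trans_le hle) hγκ A B hA hB hA1 hB1
    (fun u hu => pf_LB_mono hle (hAs u hu)) (fun v hv => pf_LB_mono hle (hBs v hv))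

end Pool.Agent.N1F
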