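import Pool.Agent.N1F.G2c
import Pool.Agent.N1F.A2c
import Pool.Agent.N1F.PropF2

/-!
N1F, block G2: the final statements.
-/

namespace Pool.Agent.N1F

open MeasureTheory Set Metric Pool.Agent.MP_6cbfb8_an Pool.Agent.MST Pool.Agent.N1
open scoped ENNReal Real ContDiff

theorem propI2 (c : ℝ) (hc : 0 < c) (K : ℝ) (hK : 1 ≤ K) :
    ∃ δ : ℝ, 0 < δ ∧ ∃ C : ℝ, 0 ≤ C ∧ ∀ T al be ρ₁ ρ₂ γ₁ γ₂ : ℝ, 0 < T →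
      0 < al → al ≤ 1 → 0 < be → be ≤ 1 → al * be ≤ δ →
      0 < ρ₁ → ρ₁ < δ → 0 < ρ₂ → ρ₂ < δ → 0 < γ₁ → γ₁ < δ → 0 < γ₂ → γ₂ < δ →
      al ^ 2 * ρ₁ * γ₁ ≤ K * (be ^ 2 * ρ₂ * γ₂) → be ^ 2 * ρ₂ * γ₂ ≤ K * (al ^ 2 * ρ₁ * γ₁) →
      be ^ 2 * γ₂ ≤ K * γ₁ → be ^ 2 * ρ₂ ≤ K * ρ₁ →
      ∀ A B : V → ℂ, Measurable A → Measurable B → (∀ a, ‖A a‖ ≤ 1) → (∀ b, ‖B b‖ ≤ 1) →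
      (∀ u, A u ≠ 0 → GB (al * ρ₁) al (al * γ₁) K u) →
      (∀ v, B v ≠ 0 → GB (be * ρ₂) be (be * γ₂) K v) →
      ‖FF c T (tp A B)‖ ≤ C / T :=
  propI2_of c hc K hK (fun A0 B0 x0 y0 z0 hb hy1 hy2 hz1 hz2 k1 hk1 =>
    propI c hc A0 B0 x0 y0 z0 hb hy1 hy2 hz1 hz2 k1 hk1)

theorem propNF2 (c : ℝ) (hc : 0 < c) (A0 B0 : ℝ) (x0 y0 : ℝ × ℝ) (hb : Bs c A0 B0 x0)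
    (hy1 : y0.1 ≠ 0) (hy2 : y0.2 ≠ 0) (C7 : ℝ) (hC7 : 1 ≤ C7) :
    ∃ δ : ℝ, 0 < δ ∧ ∃ C : ℝ, 0 ≤ C ∧ ∀ T al be ρ γ : ℝ, 0 < T → Sz al be A0 B0 δ →
      0 < ρ → ρ < δ → 0 < γ → γ < δ →
      ∀ A B : V → ℂ, Measurable A → Measurable B → (∀ a, ‖A a‖ ≤ 1) → (∀ b, ‖B b‖ ≤ 1) →
      (∀ u, A u ≠ 0 → |u.1 / (al * be ^ 2 * ρ) - y0.1| ≤ δ ∧ |u.2.1 / al - x0.1| ≤ δ ∧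
        1 / C7 ≤ |u.2.2 / (al * γ)| ∧ |u.2.2 / (al * γ)| ≤ C7) →
      (∀ v, B v ≠ 0 → |v.1 / (be * ρ) - y0.2| ≤ δ ∧ |v.2.1 / be - x0.2| ≤ δ ∧
        1 / C7 ≤ |v.2.2 / (be * al ^ 2 * γ)| ∧ |v.2.2 / (be * al ^ 2 * γ)| ≤ C7) →
      ‖FF c T (tp A B)‖ ≤ C / T :=
  propNF2_of c hc A0 B0 x0 y0 C7 hC7 (fun z0 hz1 hz2 =>
    propNF c hc A0 B0 x0 y0 z0 hb hy1 hy2 hz1 hz2)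

theorem propDF2 (c : ℝ) (hc : 0 < c) (A0 B0 : ℝ) (x0 y0 : ℝ × ℝ) (hb : Bs c A0 B0 x0)
    (hy1 : y0.1 ≠ 0) (hy2 : y0.2 ≠ 0) (C5 C7 : ℝ) (hC7 : 1 ≤ C7) :
    ∃ δ : ℝ, 0 < δ ∧ ∃ C : ℝ, 0 ≤ C ∧ ∀ T al be ρ γ κ : ℝ, 0 < T → Sz al be A0 B0 δ →
      0 < ρ → ρ < δ → 0 < γ → γ < δ → 0 < κ → κ < δ → γ ≤ C5 * κ →
      ∀ A B : V → ℂ, Measurable A → Measurable B → (∀ a, ‖A a‖ ≤ 1) → (∀ b, ‖B b‖ ≤ 1) →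
      (∀ u, A u ≠ 0 → |u.1 / (al * be ^ 2 * ρ) - y0.1| ≤ δ ∧ |u.2.1 / al - x0.1| ≤ δ ∧
        1 / C7 ≤ |u.2.2 / (al * γ)| ∧ |u.2.2 / (al * γ)| ≤ C7) →
      (∀ v, B v ≠ 0 → |v.1 / (be * ρ) - y0.2| ≤ δ ∧ |v.2.1 / be - x0.2| ≤ δ ∧
        1 / C7 ≤ |v.2.2 / (be * al ^ 2 * κ * γ)| ∧ |v.2.2 / (be * al ^ 2 * κ * γ)| ≤ C7) →
      ‖FF c T (tp A B)‖ ≤ C / T :=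
  propDF2_of c hc A0 B0 x0 y0 C5 C7 hC7 (fun z0 hz1 hz2 =>
    propDF c hc A0 B0 x0 y0 z0 hb hy1 hy2 hz1 hz2 C5)

end Pool.Agent.N1F
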