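import Pool.Agent.N1F.Defs
import Pool.Agent.FN.S5

/-!
N1F, A7: `L4two`.
-/

namespace Pool.Agent.N1F

open MeasureTheory Set Metric Pool.Agent.MP_6cbfb8_an Pool.Agent.MST Pool.Agent.N1
open scoped ENNReal Real ContDiff

/-- N1 with the amplitude of `c` and the smaller constant `c'` in the supports. -/
theorem L4two (c c' : ℝ) (hc : 0 < c) (hc' : 0 < c') : ∃ C : ℝ, 0 ≤ C ∧ ∀ T : ℝ, 1 ≤ T →
    ∀ G₁ G₂ : ℝ → ℂ, Measurable G₁ → Measurable G₂ → (∀ a, ‖G₁ a‖ ≤ 1) → (∀ b, ‖G₂ b‖ ≤ 1) →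
    (∀ a, G₁ a ≠ 0 → c' ≤ a) → (∀ b, G₂ b ≠ 0 → c' ≤ b) →
    ∫⁻ t in Icc T (2 * T), ∫⁻ ξ : ℝ × ℝ, ‖Eo c G₁ G₂ t ξ‖ₑ ^ 4 ≤
      ENNReal.ofReal (C * (1 + Real.log T) ^ 8 / T) := by
  have hc1 : 0 < min (c / 2) c' := lt_min (by positivity) hc'
  obtain ⟨C, hC, H⟩ := FN.change_cut c (min (c / 2) c') hc hc1 (min_le_left _ _) (L4 _ hc1)
  exact ⟨C, hC, fun T hT G₁ G₂ h1 h2 b1 b2 s1 s2 => H T hT G₁ G₂ h1 h2 b1 b2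
    (fun a ha => (min_le_right _ _).trans (s1 a ha)) (fun b hb => (min_le_right _ _).trans (s2 b hb))⟩

end Pool.Agent.N1F
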