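import Pool.Agent.N1F.A5N
import Pool.Agent.N1F.DF4
import Pool.Agent.N1.M2b

/-!
N1F, block A5: the global estimate for outer differences of type N.
-/

namespace Pool.Agent.N1F

open MeasureTheory Set Metric Pool.Agent.MP_6cbfb8_an Pool.Agent.MST Pool.Agent.N1
open scoped ENNReal Real ContDiff

/-- The local estimate at the base point `P = ((A0, B0), (x0, y0))`. -/
def tf_P (c : ℝ) (P : (ℝ × ℝ) × ((ℝ × ℝ) × (ℝ × ℝ))) (δ C : ℝ) : Prop :=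
  ∀ T : ℝ, 1 ≤ T → ∀ al be : ℝ, Sz al be P.1.1 P.1.2 δ → ∀ ρ : ℝ, 0 < ρ → ρ < δ →
      ∀ α β : ℝ × ℝ → ℂ, Measurable α → Measurable β → (∀ p, ‖α p‖ ≤ 1) → (∀ p, ‖β p‖ ≤ 1) →
      (∀ p, α p ≠ 0 → |p.1 / (al * be ^ 2 * ρ) - P.2.2.1| ≤ δ ∧ |p.2 / al - P.2.1.1| ≤ δ) →
      (∀ p, β p ≠ 0 → |p.1 / (be * ρ) - P.2.2.2| ≤ δ ∧ |p.2 / be - P.2.1.2| ≤ δ) →
      Th c T (pd α β) ≤ ENNReal.ofReal (C * (1 + Real.log T) ^ 5 / T)

theorem tf_P_mono (c : ℝ) (x : (ℝ × ℝ) × ((ℝ × ℝ) × (ℝ × ℝ))) (δ δ' C C' : ℝ) (hδδ : δ' ≤ δ)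
    (hCC : C ≤ C') (h : tf_P c x δ C) : tf_P c x δ' C' := by
  intro T hT al be hSz ρ hρ hρδ α β hα hβ hα1 hβ1 hαs hβs
  refine (h T hT al be ⟨hSz.1, hSz.2.1, hSz.2.2.1, hSz.2.2.2.1, hSz.2.2.2.2.1.trans_le hδδ,
    hSz.2.2.2.2.2.trans_le hδδ⟩ ρ hρ (hρδ.trans_le hδδ) α β hα hβ hα1 hβ1 ?_ ?_).trans ?_
  · intro p hp
    have h2 := hαs p hp
    exact ⟨h2.1.trans hδδ, h2.2.trans hδδ⟩
  · intro p hp
    have h2 := hβs p hp
    exact ⟨h2.1.trans hδδ, h2.2.trans hδδ⟩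
  · have h3 : 0 ≤ Real.log T := Real.log_nonneg hT
    have h4 : 0 < T := by linarith
    apply ENNReal.ofReal_le_ofReal
    gcongr

theorem tf_P_shift (c : ℝ) (x x' : (ℝ × ℝ) × ((ℝ × ℝ) × (ℝ × ℝ))) (δ C : ℝ) (_hδ : 0 < δ)
    (hd : dist x' x ≤ δ / 2) (h : tf_P c x δ C) : tf_P c x' (δ / 2) C := by
  rw [Prod.dist_eq, Prod.dist_eq, Prod.dist_eq, Prod.dist_eq, Prod.dist_eq, max_le_iff, max_le_iff,
    max_le_iff, max_le_iff, max_le_iff, Real.dist_eq,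
    Real.dist_eq, Real.dist_eq, Real.dist_eq, Real.dist_eq, Real.dist_eq] at hd
  obtain ⟨⟨d1, d2⟩, ⟨d3, d4⟩, d5, d6⟩ := hd
  intro T hT al be hSz ρ hρ hρδ α β hα hβ hα1 hβ1 hαs hβs
  obtain ⟨s1, s2, s3, s4, s5, s6⟩ := hSz
  refine h T hT al be ⟨s1, s2, s3, s4, ?_, ?_⟩ ρ hρ (by linarith) α β hα hβ hα1 hβ1 ?_ ?_
  · have := abs_sub_le (al ^ 2) x'.1.1 x.1.1
    linarith
  · have := abs_sub_le (be ^ 2) x'.1.2 x.1.2
    linarith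
  · intro p hp
    have h2 := hαs p hp
    have h3 := abs_sub_le (p.1 / (al * be ^ 2 * ρ)) x'.2.2.1 x.2.2.1
    have h4 := abs_sub_le (p.2 / al) x'.2.1.1 x.2.1.1
    constructor <;> linarith
  · intro p hp
    have h2 := hβs p hp
    have h3 := abs_sub_le (p.1 / (be * ρ)) x'.2.2.2 x.2.2.2
    have h4 := abs_sub_le (p.2 / be) x'.2.1.2 x.2.1.2
    constructor <;> linarith

/-- The set of base points. -/
def tf_K (c K : ℝ) : Set ((ℝ × ℝ) × ((ℝ × ℝ) × (ℝ × ℝ))) :=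
  {P | (0 ≤ P.1.1 ∧ P.1.1 ≤ 1 ∧ 0 ≤ P.1.2 ∧ P.1.2 ≤ 1 ∧ P.1.1 * P.1.2 = 0) ∧
    (1 ≤ P.2.1.1 ∧ P.2.1.1 ≤ 2 ∧ 1 ≤ P.2.1.2 ∧ P.2.1.2 ≤ 2) ∧
    P.1.1 * P.2.1.1 ^ 2 + P.1.2 * P.2.1.2 ^ 2 ≤ 1 - c ^ 2 / 4 ∧
    (1 / K ≤ |P.2.2.1| ∧ |P.2.2.1| ≤ K ∧ 1 / K ≤ |P.2.2.2| ∧ |P.2.2.2| ≤ K)}

theorem tf_K_compact (c K : ℝ) : IsCompact (tf_K c K) := by
  have h1 : tf_K c K ⊆ (Icc 0 1 ×ˢ Icc 0 1) ×ˢ ((Icc 1 2 ×ˢ Icc 1 2) ×ˢ
      (Icc (-K) K ×ˢ Icc (-K) K)) := by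
    rintro P ⟨⟨a1, a2, a3, a4, -⟩, ⟨b1, b2, b3, b4⟩, -, -, c2, -, c4⟩
    exact ⟨⟨⟨a1, a2⟩, ⟨a3, a4⟩⟩, ⟨⟨b1, b2⟩, ⟨b3, b4⟩⟩, abs_le.1 c2, abs_le.1 c4⟩
  refine ((isCompact_Icc.prod isCompact_Icc).prod ((isCompact_Icc.prod isCompact_Icc).prod
    (isCompact_Icc.prod isCompact_Icc))).of_isClosed_subset ?_ h1
  unfold tf_K
  simp only [setOf_and]
  refine IsClosed.inter (IsClosed.inter ?_ (IsClosed.inter ?_ (IsClosed.inter ?_ (IsClosed.inter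
    ?_ ?_)))) (IsClosed.inter (IsClosed.inter ?_ (IsClosed.inter ?_ (IsClosed.inter ?_ ?_)))
    (IsClosed.inter ?_ (IsClosed.inter ?_ (IsClosed.inter ?_ (IsClosed.inter ?_ ?_)))))
  · exact isClosed_le (by fun_prop) (by fun_prop)
  · exact isClosed_le (by fun_prop) (by fun_prop)
  · exact isClosed_le (by fun_prop) (by fun_prop)
  · exact isClosed_le (by fun_prop) (by fun_prop)
  · exact isClosed_eq (by fun_prop) (by fun_prop)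
  · exact isClosed_le (by fun_prop) (by fun_prop)
  · exact isClosed_le (by fun_prop) (by fun_prop)
  · exact isClosed_le (by fun_prop) (by fun_prop)
  · exact isClosed_le (by fun_prop) (by fun_prop)
  · exact isClosed_le (by fun_prop) (by fun_prop)
  · exact isClosed_le (by fun_prop) (by fun_prop)
  · exact isClosed_le (by fun_prop) (by fun_prop)
  · exact isClosed_le (by fun_prop) (by fun_prop)
  · exact isClosed_le (by fun_prop) (by fun_prop)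

theorem tf_loc (c : ℝ) (hc : 0 < c) (K : ℝ) (hK : 1 ≤ K) : ∃ δ : ℝ, 0 < δ ∧ ∃ C : ℝ, 0 ≤ C ∧
    ∀ P ∈ tf_K c K, tf_P c P δ C := by
  refine g2_unif (tf_K_compact c K) (tf_P c) ?_ ?_ ?_
  · intro x δ δ' C C' _ hδδ hCC h
    exact tf_P_mono c x δ δ' C C' hδδ hCC h
  · rintro ⟨⟨A0, B0⟩, x0, y0⟩ ⟨⟨a1, a2, a3, a4, a5⟩, ⟨b1, b2, b3, b4⟩, b5, c1, c2, c3, c4⟩
    have hK0 : 0 < 1 / K := by positivity
    have hy1 : y0.1 ≠ 0 := abs_pos.1 (hK0.trans_le c1)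
    have hy2 : y0.2 ≠ 0 := abs_pos.1 (hK0.trans_le c3)
    have hb : Bs c A0 B0 x0 := ⟨a1, a3, a5, by simp only at b1; linarith,
      by simp only at b3; linarith, b5⟩
    by_cases hN : nb B0 x0 y0 = 0
    · exact TH_DF c hc A0 B0 x0 y0 hb hy1 hy2 hN
    · exact TH_NF c hc A0 B0 x0 y0 hb hy1 hy2 hN
  · intro x x' δ C hδ hd h
    exact tf_P_shift c x x' δ C hδ hd h

theorem tf_cell (c : ℝ) (hc : 0 < c) (K : ℝ) (hK : 1 ≤ K) (δ C : ℝ) (hδ : 0 < δ)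
    (hP : ∀ P ∈ tf_K c K, tf_P c P δ C) (T : ℝ) (hT : 1 ≤ T) (al be : ℝ) (hal : 0 < al)
    (hal1 : al ≤ 1) (hbe : 0 < be) (hbe1 : be ≤ 1) (hab : al * be ≤ δ / (8 * K)) (ρ : ℝ)
    (hρ : 0 < ρ) (x0 : ℝ × ℝ) (α β : ℝ × ℝ → ℂ) (hα : Measurable α) (hβ : Measurable β)
    (hα1 : ∀ p, ‖α p‖ ≤ 1) (hβ1 : ∀ p, ‖β p‖ ≤ 1)
    (hαs : CapS al (δ / (8 * K)) x0.1 (al * be ^ 2 * ρ) K α)
    (hβs : CapS be (δ / (8 * K)) x0.2 (be * ρ) K β)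
    (hαd : ∀ p p', α p ≠ 0 → α p' ≠ 0 →
      |p.1 / (al * be ^ 2 * ρ) - p'.1 / (al * be ^ 2 * ρ)| ≤ δ)
    (hβd : ∀ p p', β p ≠ 0 → β p' ≠ 0 → |p.1 / (be * ρ) - p'.1 / (be * ρ)| ≤ δ) :
    Th c T (pd α β) ≤ ENNReal.ofReal (C * (1 + Real.log T) ^ 5 / T) := by
  by_cases hne : ∀ y x : ℝ × ℝ, pd α β (y, x) ≠ 0 →
      wf c x.1 x.2 * wf c (x.1 - y.1) (x.2 - y.2) = 0
  · rw [m2_Th_zero c T _ hne]
    exact zero_le
  push Not at hne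
  obtain ⟨y, x, h1, h2⟩ := hne
  unfold pd at h1
  simp only at h1
  have h3 := left_ne_zero_of_mul h1
  have h4 := right_ne_zero_of_mul h1
  obtain ⟨u1, u2, u3, u4, u5, u6, u7, u8⟩ := hαs _ h3
  obtain ⟨v1, v2, v3, v4, v5, v6, v7, v8⟩ := hβs _ h4
  simp only at u1 u2 u3 u4 u5 u6 u7 u8 v1 v2 v3 v4 v5 v6 v7 v8
  have h7 := m2_wf_ne hc (left_ne_zero_of_mul h2)
  have hK0 : 0 < K := by linarith
  have hr : δ / (8 * K) * K = δ / 8 := by field_simp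
  have hrle : δ / (8 * K) ≤ δ / 8 := by
    apply div_le_div_of_nonneg_left hδ.le (by norm_num)
    linarith
  -- `ρ < δ`
  have hρδ : ρ < δ := by
    have h8 : |y.2| ≤ 2 * (δ / (8 * K) * be) := by
      have h9 := abs_sub_le x.2 x0.2 (x.2 - y.2)
      have h10 : x.2 - (x.2 - y.2) = y.2 := by ring
      rw [h10, abs_sub_comm x0.2] at h9
      linarith
    have hbr : 0 < be * ρ := by positivity
    rw [abs_div, abs_of_pos hbr, le_div_iff₀ hbr] at v7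
    have h11 : be * ρ ≤ K * |y.2| := by
      have h12 := mul_le_mul_of_nonneg_left v7 hK0.le
      have h13 : K * (1 / K * (be * ρ)) = be * ρ := by field_simp
      linarith
    have h14 : be * ρ ≤ be * (δ / 4) := by
      calc be * ρ ≤ K * |y.2| := h11
        _ ≤ K * (2 * (δ / (8 * K) * be)) := by gcongr
        _ = 2 * (δ / (8 * K) * K) * be := by ring
        _ = be * (δ / 4) := by rw [hr]; ring
    have h15 := le_of_mul_le_mul_left h14 hbe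
    linarith
  -- the base point
  obtain ⟨A0, B0, hA0, hA1, hB0, hB1, hAB, hsA, hsB, hle1, hle2⟩ : ∃ A0 B0 : ℝ, 0 ≤ A0 ∧ A0 ≤ 1 ∧
      0 ≤ B0 ∧ B0 ≤ 1 ∧ A0 * B0 = 0 ∧ |al ^ 2 - A0| < δ ∧ |be ^ 2 - B0| < δ ∧ A0 ≤ al ^ 2 ∧
      B0 ≤ be ^ 2 := by
    rcases le_total al be with hle | hle
    · refine ⟨0, be ^ 2, le_rfl, zero_le_one, by positivity, by nlinarith, zero_mul _, ?_, ?_,
        by positivity, le_rfl⟩
      · rw [sub_zero, abs_of_nonneg (by positivity)]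
        nlinarith
      · simpa using hδ
    · refine ⟨al ^ 2, 0, by positivity, by nlinarith, le_rfl, zero_le_one, mul_zero _, ?_, ?_,
        le_rfl, by positivity⟩
      · simpa using hδ
      · rw [sub_zero, abs_of_nonneg (by positivity)]
        nlinarith
  have hmem : ((A0, B0), ((x.1 / al, x.2 / be), (y.1 / (al * be ^ 2 * ρ), y.2 / (be * ρ)))) ∈
      tf_K c K := by
    refine ⟨⟨hA0, hA1, hB0, hB1, hAB⟩, ⟨?_, ?_, ?_, ?_⟩, ?_, u7, u8, v7, v8⟩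
    · exact (one_le_div hal).2 u1
    · exact (div_le_iff₀ hal).2 u2
    · exact (one_le_div hbe).2 v1
    · exact (div_le_iff₀ hbe).2 v2
    · simp only
      have e1 : A0 * (x.1 / al) ^ 2 ≤ x.1 ^ 2 := by
        calc A0 * (x.1 / al) ^ 2 ≤ al ^ 2 * (x.1 / al) ^ 2 := by gcongr
          _ = x.1 ^ 2 := by field_simp
      have e2 : B0 * (x.2 / be) ^ 2 ≤ x.2 ^ 2 := by
        calc B0 * (x.2 / be) ^ 2 ≤ be ^ 2 * (x.2 / be) ^ 2 := by gcongr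
          _ = x.2 ^ 2 := by field_simp
      linarith
  refine hP _ hmem T hT al be ⟨hal, hal1, hbe, hbe1, hsA, hsB⟩ ρ hρ hρδ α β hα hβ hα1 hβ1 ?_ ?_
  · intro p hp
    refine ⟨hαd p (y.1, x.1) hp h3, ?_⟩
    obtain ⟨-, -, -, -, w5, -⟩ := hαs p hp
    simp only
    rw [← sub_div, abs_div, abs_of_pos hal, div_le_iff₀ hal]
    have h9 := abs_sub_le p.2 x0.1 x.1
    rw [abs_sub_comm x0.1] at h9
    nlinarith
  · intro p hp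
    refine ⟨hβd p (y.2, x.2) hp h4, ?_⟩
    obtain ⟨-, -, -, -, w5, -⟩ := hβs p hp
    simp only
    rw [← sub_div, abs_div, abs_of_pos hbe, div_le_iff₀ hbe]
    have h9 := abs_sub_le p.2 x0.2 x.2
    rw [abs_sub_comm x0.2] at h9
    nlinarith

/-- The global estimate for outer differences of type N. -/
theorem THF (c : ℝ) (hc : 0 < c) (K : ℝ) (hK : 1 ≤ K) : ∃ r : ℝ, 0 < r ∧ ∃ C : ℝ, 0 ≤ C ∧
    ∀ T : ℝ, 1 ≤ T → ∀ al be : ℝ, 0 < al → al ≤ 1 → 0 < be → be ≤ 1 → al * be ≤ r →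
    ∀ ρ : ℝ, 0 < ρ → ∀ x0 : ℝ × ℝ, ∀ α β : ℝ × ℝ → ℂ, Measurable α → Measurable β →
      (∀ p, ‖α p‖ ≤ 1) → (∀ p, ‖β p‖ ≤ 1) →
      CapS al r x0.1 (al * be ^ 2 * ρ) K α → CapS be r x0.2 (be * ρ) K β →
      Th c T (pd α β) ≤ ENNReal.ofReal (C * (1 + Real.log T) ^ 5 / T) := by
  obtain ⟨δ, hδ, C, hC, hP⟩ := tf_loc c hc K hK
  have hK0 : 0 < K := by linarith
  set n1 : ℕ := ⌊2 * K / δ⌋₊ + 1 with hn1
  refine ⟨δ / (8 * K), by positivity, (n1 : ℝ) ^ 2 * n1 ^ 2 * C, by positivity, ?_⟩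
  intro T hT al be hal hal1 hbe hbe1 hab ρ hρ x0 α β hα hβ hα1 hβ1 hαs hβs
  have hT0 : 0 < T := by linarith
  have hφ1 : Measurable fun p : ℝ × ℝ => p.1 / (al * be ^ 2 * ρ) := by fun_prop
  have hφ2 : Measurable fun p : ℝ × ℝ => p.1 / (be * ρ) := by fun_prop
  have hc1 := m2_cut_fin (φ := fun p : ℝ × ℝ => p.1 / (al * be ^ 2 * ρ)) (R := K) hδ (A := α)
    (fun u hu => (hαs u hu).2.2.2.2.2.2.2)
  have hc2 := m2_cut_fin (φ := fun p : ℝ × ℝ => p.1 / (be * ρ)) (R := K) hδ (A := β)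
    (fun u hu => (hβs u hu).2.2.2.2.2.2.2)
  set KK : ℝ≥0∞ := ENNReal.ofReal (C * (1 + Real.log T) ^ 5 / T) with hKK
  have key : ∀ (i : ℕ) (k : ℕ), Th c T (pd
      (g2_cut (fun p : ℝ × ℝ => p.1 / (al * be ^ 2 * ρ)) K δ α i)
      (g2_cut (fun p : ℝ × ℝ => p.1 / (be * ρ)) K δ β k)) ≤ KK := by
    intro i k
    refine tf_cell c hc K hK δ C hδ hP T hT al be hal hal1 hbe hbe1 hab ρ hρ x0 _ _
      (g2_cut_meas hφ1 _ _ hα _)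
      (g2_cut_meas hφ2 _ _ hβ _) (g2_cut_norm _ _ _ hα1 _) (g2_cut_norm _ _ _ hβ1 _) ?_ ?_ ?_ ?_
    · intro p hp
      exact hαs p (g2_cut_ne hp).2
    · intro p hp
      exact hβs p (g2_cut_ne hp).2
    · intro p p' hp hp'
      have h1 := g2_cut_ne hp
      have h2 := g2_cut_ne hp'
      exact g2_ix_near hδ (hαs p h1.2).2.2.2.2.2.2.2 (hαs p' h2.2).2.2.2.2.2.2.2
        (h1.1.trans h2.1.symm)
    · intro p p' hp hp'
      have h1 := g2_cut_ne hp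
      have h2 := g2_cut_ne hp'
      exact g2_ix_near hδ (hβs p h1.2).2.2.2.2.2.2.2 (hβs p' h2.2).2.2.2.2.2.2.2
        (h1.1.trans h2.1.symm)
  have key2 : ∀ i : ℕ, Th c T (pd (g2_cut (fun p : ℝ × ℝ => p.1 / (al * be ^ 2 * ρ)) K δ α i) β) ≤
      n1 * (n1 * KK) := by
    intro i
    rw [Th_comm]
    rw [← hc2]
    refine m2_Th_split c hc T hT0 n1 _ _ (fun k => g2_cut_meas hφ2 _ _ hβ _)
      (g2_cut_meas hφ1 _ _ hα _) (fun k => g2_cut_norm _ _ _ hβ1 _) (g2_cut_norm _ _ _ hα1 _) KK ?_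
    intro k
    rw [Th_comm]
    exact key i k
  have key3 : Th c T (pd α β) ≤ n1 * (n1 * (n1 * (n1 * KK))) := by
    rw [← hc1]
    exact m2_Th_split c hc T hT0 n1 _ _ (fun i => g2_cut_meas hφ1 _ _ hα _) hβ
      (fun i => g2_cut_norm _ _ _ hα1 _) hβ1 _ (fun i => key2 i)
  refine key3.trans (le_of_eq ?_)
  rw [hKK]
  rw [show (n1 : ℝ) ^ 2 * n1 ^ 2 * C * (1 + Real.log T) ^ 5 / T =
    n1 * (n1 * (n1 * (n1 * (C * (1 + Real.log T) ^ 5 / T)))) by ring]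
  rw [ENNReal.ofReal_mul (by positivity), ENNReal.ofReal_mul (by positivity),
    ENNReal.ofReal_mul (by positivity), ENNReal.ofReal_mul (by positivity),
    ENNReal.ofReal_natCast]

end Pool.Agent.N1F
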