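import Pool.Agent.N1F.CHf
import Pool.Agent.N1F.THF
import Pool.Agent.N1F.G2w
import Pool.Agent.N1F.E2
import Pool.Agent.N1F.A6x
import Pool.Agent.N1F.A6y
import Pool.Agent.N1F.L4two
import Pool.Agent.N1F.D1

/-!
N1F: the dyadic pieces.
-/

namespace Pool.Agent.N1F

open MeasureTheory Set Metric Pool.Agent.MP_6cbfb8_an Pool.Agent.MST Pool.Agent.N1
open scoped ENNReal Real ContDiff

theorem capF (c : ℝ) (hc : 0 < c) : CapEst c := by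
  refine capF_of c hc ?_ ?_ ?_ (a6_abs c hc)
  · obtain ⟨K, r, c1, h1, h2, h3, h4⟩ := E_DDF c hc
    exact ⟨K, r, c1, h1, h2, h3, h4⟩
  · intro K hK
    exact THF c hc K hK
  · intro K hK
    exact propI2 c hc K hK

theorem L4P (c : ℝ) (hc : 0 < c) : ∃ C : ℝ, 0 ≤ C ∧ ∀ T : ℝ, 1 ≤ T →
    ∀ al be : ℝ, 0 < al → al ≤ 1 → 0 < be → be ≤ 1 →
    ∀ G₁ G₂ : ℝ → ℂ, Measurable G₁ → Measurable G₂ → (∀ a, ‖G₁ a‖ ≤ 1) → (∀ b, ‖G₂ b‖ ≤ 1) →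
    (∀ a, G₁ a ≠ 0 → al ≤ a ∧ a ≤ 2 * al) → (∀ b, G₂ b ≠ 0 → be ≤ b ∧ b ≤ 2 * be) →
    ∫⁻ t in Icc T (2 * T), ∫⁻ ξ : ℝ × ℝ, ‖Eo c G₁ G₂ t ξ‖ₑ ^ 4 ≤
      ENNReal.ofReal (C * (1 + Real.log T) ^ 12 / T) :=
  L4P_of c hc (capF c hc) (fun c' hc' => L4two c c' hc hc')

end Pool.Agent.N1F
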