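import Pool.Agent.N1F.HLa
import Pool.Agent.N1.Cell
import Pool.Agent.N1.GE
import Pool.Agent.N1.HL4

/-!
N1F, block A2: the oscillatory estimate with two couplings, all ratios.
-/

namespace Pool.Agent.N1F

open MeasureTheory Set Metric Pool.Agent.MP_6cbfb8_an Pool.Agent.MST Pool.Agent.N1
open scoped ENNReal Real ContDiff Topology

/-- A triangular basis for three independent functionals. -/
lemma tri_basis (f1 f2 f3 : V →L[ℝ] ℝ) (h : ∀ u, f1 u = 0 → f2 u = 0 → f3 u = 0 → u = 0) :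
    ∃ u1 u2 u3 : V, f1 u1 = 1 ∧ (f1 u2 = 0 ∧ f2 u2 = 1) ∧ (f1 u3 = 0 ∧ f2 u3 = 0 ∧ f3 u3 = 1) := by
  set L : V →ₗ[ℝ] V := (f1.toLinearMap.prod (f2.toLinearMap.prod f3.toLinearMap)) with hL
  have hinj : Function.Injective L := by
    rw [← LinearMap.ker_eq_bot, LinearMap.ker_eq_bot']
    intro u hu
    have h1 : L u = (f1 u, f2 u, f3 u) := rfl
    rw [h1, Prod.mk_eq_zero, Prod.mk_eq_zero] at hu
    exact h u hu.1 hu.2.1 hu.2.2
  have hs : Function.Surjective L := LinearMap.injective_iff_surjective.1 hinj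
  obtain ⟨u1, h1⟩ := hs (1, 0, 0)
  obtain ⟨u2, h2⟩ := hs (0, 1, 0)
  obtain ⟨u3, h3⟩ := hs (0, 0, 1)
  have e : ∀ u, L u = (f1 u, f2 u, f3 u) := fun u => rfl
  rw [e, Prod.mk.injEq, Prod.mk.injEq] at h1 h2 h3
  exact ⟨u1, u2, u3, h1.1, ⟨h2.1, h2.2.1⟩, h3.1, h3.2.1, h3.2.2⟩

/-- Mixed derivative of a sum of two products. -/
lemma der2 (l1 l2 m1 m2 : V → ℝ) (a0 b0 : V) (ε : ℝ) (G : V × V → ℝ)
    (hG : ∀ᶠ q in 𝓝 (a0, b0), G q = l1 q.1 * m1 q.2 + ε * (l2 q.1 * m2 q.2))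
    (h1 : DifferentiableAt ℝ l1 a0) (h2 : DifferentiableAt ℝ l2 a0)
    (k1 : DifferentiableAt ℝ m1 b0) (k2 : DifferentiableAt ℝ m2 b0) (u e : V) :
    fderiv ℝ (fun b => fderiv ℝ (fun a => G (a, b)) a0 u) b0 e =
      fderiv ℝ l1 a0 u * fderiv ℝ m1 b0 e + ε * (fderiv ℝ l2 a0 u * fderiv ℝ m2 b0 e) := by
  have h3 := sep_2 G (fun _ => 0) l1 (fun a => ε * l2 a) (fun _ => 0) m1 m2 a0 b0
    (by filter_upwards [hG] with q hq; rw [hq]; ring)
    (differentiableAt_const _) h1 (h2.const_mul ε) (differentiableAt_const _) k1 k2 u e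
  rw [h3, fderiv_const_mul h2]
  simp only [smul_apply, smul_eq_mul]
  ring

theorem HLI {P : Type*} [NormedAddCommGroup P] [NormedSpace ℝ P] [FiniteDimensional ℝ P]
    (w l : P × V → ℝ) (σ m : P × V → ℝ) (g : P × V × V → ℝ) (l2 m2 : V → ℝ)
    (c : ℝ × P × V × V → ℝ) (p0 : P) (a0 b0 : V) (r s0 s1 : ℝ)
    (hr : 0 < r) (hs0 : 0 < s0)
    (hw : ContDiffOn ℝ ∞ w (ball (p0, a0) r)) (hl : ContDiffOn ℝ ∞ l (ball (p0, a0) r))
    (hσ : ContDiffOn ℝ ∞ σ (ball (p0, b0) r)) (hm : ContDiffOn ℝ ∞ m (ball (p0, b0) r))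
    (hg : ContDiffOn ℝ ∞ g (ball (p0, a0, b0) r))
    (hc : ContDiffOn ℝ ∞ c (univ ×ˢ ball (p0, a0, b0) r))
    (hcs : ∀ s, ∀ q ∈ ball (p0, a0, b0) r, c (s, q) ≠ 0 → s0 ≤ |s| ∧ |s| ≤ s1)
    (hl2 : DifferentiableAt ℝ l2 a0) (hm2 : DifferentiableAt ℝ m2 b0)
    (hg0 : ∀ᶠ q in 𝓝 (a0, b0), g (p0, q.1, q.2) = l2 q.1 * m2 q.2)
    (ha : ∀ u, fderiv ℝ (fun a => w (p0, a)) a0 u = 0 → fderiv ℝ (fun a => l (p0, a)) a0 u = 0 →
      fderiv ℝ l2 a0 u = 0 → u = 0)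
    (hb : ∀ u, fderiv ℝ (fun b => σ (p0, b)) b0 u = 0 → fderiv ℝ (fun b => m (p0, b)) b0 u = 0 →
      fderiv ℝ m2 b0 u = 0 → u = 0)
    (h1 : fderiv ℝ (fun a => w (p0, a)) a0 (1, 0, 0) ≠ 0)
    (h2 : fderiv ℝ (fun b => σ (p0, b)) b0 (1, 0, 0) ≠ 0) :
    ∃ δ : ℝ, 0 < δ ∧ ∃ C : ℝ, 0 ≤ C ∧ ∀ p ∈ ball p0 δ, ∀ κ ε lam : ℝ, 0 < κ → κ ≤ 1 → 0 < ε →
      ε ≤ 1 → (ε < δ ∨ κ < δ) → 0 < lam →
      ∀ A B : V → ℂ, Measurable A → Measurable B → (∀ a, ‖A a‖ ≤ 1) → (∀ b, ‖B b‖ ≤ 1) →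
      (∀ a, A a ≠ 0 → a ∈ ball a0 δ) → (∀ b, B b ≠ 0 → b ∈ ball b0 δ) →
      ‖∫ q : V × V, A q.1 * B q.2 * ∫ s : ℝ, ((c (s, p, q.1, q.2) : ℝ) : ℂ) *
        ex (lam * (s * (w (p, q.1) - σ (p, q.2) + κ * (l (p, q.1) * m (p, q.2) +
          ε * g (p, q.1, q.2)))))‖ ≤ C / (lam ^ 2 * κ * √ε) := by
  -- differentiability at the base point
  have hl' : DifferentiableAt ℝ (fun a => l (p0, a)) a0 := by
    have h3 : ContDiffAt ℝ ∞ l (p0, a0) := hl.contDiffAt (ball_mem_nhds _ hr)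
    have h4 : ContDiffAt ℝ ∞ (fun a => l (p0, a)) a0 :=
      h3.comp a0 (contDiffAt_const.prodMk contDiffAt_id)
    exact h4.differentiableAt (by simp)
  have hm' : DifferentiableAt ℝ (fun b => m (p0, b)) b0 := by
    have h3 : ContDiffAt ℝ ∞ m (p0, b0) := hm.contDiffAt (ball_mem_nhds _ hr)
    have h4 : ContDiffAt ℝ ∞ (fun b => m (p0, b)) b0 :=
      h3.comp b0 (contDiffAt_const.prodMk contDiffAt_id)
    exact h4.differentiableAt (by simp)
  obtain ⟨u1, u2, u3, hu1, ⟨hu21, hu22⟩, hu31, hu32, hu33⟩ := tri_basis _ _ _ ha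
  obtain ⟨e1, e2, e3, he1, ⟨he21, he22⟩, he31, he32, he33⟩ := tri_basis _ _ _ hb
  have hnd : fderiv ℝ (fun b => fderiv ℝ (fun a => g (p0, a, b)) a0 u3) b0 e3 ≠ 0 := by
    have h3 := der2 (fun _ => 0) l2 (fun _ => 0) m2 a0 b0 1 (fun q => g (p0, q.1, q.2))
      (by filter_upwards [hg0] with q hq; rw [hq]; ring)
      (differentiableAt_const _) hl2 (differentiableAt_const _) hm2 u3 e3
    simp only at h3
    rw [h3, hu33, he33]
    simp
  obtain ⟨δa, hδa, Ca, hCa, hA⟩ := HLa w l σ m g c p0 a0 b0 r s0 s1 hr hs0 hw hl hσ hm hg hc hcs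
    u1 u2 u3 e1 e2 e3 (by rw [hu1]; exact one_ne_zero) hu21 (by rw [hu22]; exact one_ne_zero)
    hu31 hu32 (by rw [he1]; exact one_ne_zero) he21 (by rw [he22]; exact one_ne_zero) he31 he32 hnd
  -- compactness for the other ratios
  have hk : ∃ δ : ℝ, 0 < δ ∧ ∃ C : ℝ, 0 ≤ C ∧ ∀ ε0 ∈ Icc δa 1, ∀ p ∈ ball p0 δ, ∀ κ ε lam : ℝ,
      0 < κ → κ < δ → |ε - ε0| < δ → 0 < lam →
      ∀ A B : V → ℂ, Measurable A → Measurable B → (∀ a, ‖A a‖ ≤ 1) → (∀ b, ‖B b‖ ≤ 1) →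
      (∀ a, A a ≠ 0 → a ∈ ball a0 δ) → (∀ b, B b ≠ 0 → b ∈ ball b0 δ) →
      ‖∫ q : V × V, A q.1 * B q.2 * ∫ s : ℝ, ((c (s, p, q.1, q.2) : ℝ) : ℂ) *
        ex (lam * (s * (w (p, q.1) - σ (p, q.2) + κ * (l (p, q.1) * m (p, q.2) +
          ε * g (p, q.1, q.2)))))‖ ≤ C / (lam ^ 2 * κ) := by
    refine g2_unif isCompact_Icc (fun ε0 δ C => ∀ p ∈ ball p0 δ, ∀ κ ε lam : ℝ,
      0 < κ → κ < δ → |ε - ε0| < δ → 0 < lam →
      ∀ A B : V → ℂ, Measurable A → Measurable B → (∀ a, ‖A a‖ ≤ 1) → (∀ b, ‖B b‖ ≤ 1) →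
      (∀ a, A a ≠ 0 → a ∈ ball a0 δ) → (∀ b, B b ≠ 0 → b ∈ ball b0 δ) →
      ‖∫ q : V × V, A q.1 * B q.2 * ∫ s : ℝ, ((c (s, p, q.1, q.2) : ℝ) : ℂ) *
        ex (lam * (s * (w (p, q.1) - σ (p, q.2) + κ * (l (p, q.1) * m (p, q.2) +
          ε * g (p, q.1, q.2)))))‖ ≤ C / (lam ^ 2 * κ)) ?_ ?_ ?_
    · intro ε0 δ δ' C C' hδ' hδδ hCC h p hp κ ε lam hκ hκδ hε hlam A B hA' hB' hA1 hB1 hAs hBs
      refine (h p (ball_subset_ball hδδ hp) κ ε lam hκ (hκδ.trans_le hδδ) (hε.trans_le hδδ) hlam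
        A B hA' hB' hA1 hB1 (fun a ha => ball_subset_ball hδδ (hAs a ha))
        (fun b hb => ball_subset_ball hδδ (hBs b hb))).trans ?_
      gcongr
    · intro ε0 hε0
      have hp1 : ∀ q : (P × ℝ) × V, q ∈ ball ((p0, ε0), a0) r → ((q.1.1, q.2) : P × V) ∈
          ball (p0, a0) r := by
        intro q hq
        rw [mem_ball, Prod.dist_eq, max_lt_iff, Prod.dist_eq, max_lt_iff] at hq
        rw [mem_ball, Prod.dist_eq, max_lt_iff]
        exact ⟨hq.1.1, hq.2⟩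
      have hp1' : ∀ q : (P × ℝ) × V, q ∈ ball ((p0, ε0), b0) r → ((q.1.1, q.2) : P × V) ∈
          ball (p0, b0) r := by
        intro q hq
        rw [mem_ball, Prod.dist_eq, max_lt_iff, Prod.dist_eq, max_lt_iff] at hq
        rw [mem_ball, Prod.dist_eq, max_lt_iff]
        exact ⟨hq.1.1, hq.2⟩
      have hp2 : ∀ q : (P × ℝ) × V × V, q ∈ ball ((p0, ε0), a0, b0) r →
          ((q.1.1, q.2.1, q.2.2) : P × V × V) ∈ ball (p0, a0, b0) r := by
        intro q hq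
        rw [mem_ball, Prod.dist_eq, max_lt_iff, Prod.dist_eq, max_lt_iff] at hq
        rw [mem_ball, Prod.dist_eq, max_lt_iff]
        exact ⟨hq.1.1, hq.2⟩
      have hp3 : ∀ q : (P × ℝ) × V × V, q ∈ ball ((p0, ε0), a0, b0) r →
          ((q.1.1, q.2.1) : P × V) ∈ ball (p0, a0) r ∧ ((q.1.1, q.2.2) : P × V) ∈
            ball (p0, b0) r := by
        intro q hq
        rw [mem_ball, Prod.dist_eq, max_lt_iff, Prod.dist_eq, max_lt_iff, Prod.dist_eq,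
          max_lt_iff] at hq
        constructor
        · rw [mem_ball, Prod.dist_eq]
          exact max_lt hq.1.1 hq.2.1
        · rw [mem_ball, Prod.dist_eq]
          exact max_lt hq.1.1 hq.2.2
      obtain ⟨δ, hδ, C, hC, h3⟩ := HLk (P := P × ℝ) (fun x => w (x.1.1, x.2))
        (fun x => σ (x.1.1, x.2))
        (fun x => l (x.1.1, x.2.1) * m (x.1.1, x.2.2) + x.1.2 * g (x.1.1, x.2.1, x.2.2))
        (fun x => c (x.1, x.2.1.1, x.2.2.1, x.2.2.2)) (p0, ε0) a0 b0 r s0 s1 hr hs0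
        (hw.comp (by fun_prop) hp1) (hσ.comp (by fun_prop) hp1')
        (((hl.comp (f := fun x : (P × ℝ) × V × V => (x.1.1, x.2.1)) (by fun_prop)
            (fun q hq => (hp3 q hq).1)).mul
          (hm.comp (f := fun x : (P × ℝ) × V × V => (x.1.1, x.2.2)) (by fun_prop)
            (fun q hq => (hp3 q hq).2))).add
          ((by fun_prop : ContDiffOn ℝ ∞ (fun x : (P × ℝ) × V × V => x.1.2) _).mul
            (hg.comp (f := fun x : (P × ℝ) × V × V => (x.1.1, x.2.1, x.2.2)) (by fun_prop) hp2)))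
        (hc.comp (f := fun x : ℝ × (P × ℝ) × V × V => (x.1, x.2.1.1, x.2.2.1, x.2.2.2))
          (by fun_prop) (fun q hq => ⟨mem_univ _, hp2 _ hq.2⟩))
        (fun s q hq h => hcs s _ (hp2 q hq) h) h1 h2 (by
          intro u hu1' hu2'
          have h4 : ∀ e : V, fderiv ℝ (fun b => fderiv ℝ (fun a => l (p0, a) * m (p0, b) +
              ε0 * g (p0, a, b)) a0 u) b0 e = fderiv ℝ (fun a => l (p0, a)) a0 u *
              fderiv ℝ (fun b => m (p0, b)) b0 e + ε0 * (fderiv ℝ l2 a0 u * fderiv ℝ m2 b0 e) :=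
            fun e => der2 (fun a => l (p0, a)) l2 (fun b => m (p0, b)) m2 a0 b0 ε0
              (fun q => l (p0, q.1) * m (p0, q.2) + ε0 * g (p0, q.1, q.2))
              (by filter_upwards [hg0] with q hq; rw [hq]) hl' hl2 hm' hm2 u e
          have h5 := hu2' e3 he31
          have h6 := hu2' e2 he21
          simp only at h5 h6
          rw [h4, he32, he33] at h5
          rw [h4, he22] at h6
          have hε0' : ε0 ≠ 0 := (hδa.trans_le hε0.1).ne'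
          have h7 : fderiv ℝ l2 a0 u = 0 := by
            have : ε0 * fderiv ℝ l2 a0 u = 0 := by linarith
            exact (mul_eq_zero.1 this).resolve_left hε0'
          rw [h7] at h6
          exact ha u hu1' (by linarith) h7)
      refine ⟨δ, hδ, C, hC, ?_⟩
      intro p hp κ ε lam hκ hκδ hε hlam A B hA' hB' hA1 hB1 hAs hBs
      exact h3 (p, ε) (by
        rw [mem_ball, Prod.dist_eq, max_lt_iff]
        exact ⟨hp, hε⟩) κ lam hκ hκδ hlam A B hA' hB' hA1 hB1 hAs hBs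
    · intro ε0 ε0' δ C hδ hd h p hp κ ε lam hκ hκδ hε hlam A B hA' hB' hA1 hB1 hAs hBs
      have hδ2 : δ / 2 ≤ δ := by linarith
      refine h p (ball_subset_ball hδ2 hp) κ ε lam hκ (hκδ.trans_le hδ2) ?_ hlam
        A B hA' hB' hA1 hB1 (fun a ha => ball_subset_ball hδ2 (hAs a ha))
        (fun b hb => ball_subset_ball hδ2 (hBs b hb))
      rw [Real.dist_eq] at hd
      have h4 := abs_sub_le ε ε0' ε0
      linarith
  obtain ⟨δk, hδk, Ck, hCk, hK⟩ := hk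
  refine ⟨min δa δk, lt_min hδa hδk, max Ca Ck, le_max_of_le_left hCa, ?_⟩
  intro p hp κ ε lam hκ hκ1 hε hε1 hor hlam A B hA' hB' hA1 hB1 hAs hBs
  have hsq : 0 < √ε := Real.sqrt_pos.2 hε
  by_cases hc1 : ε < δa
  · refine (hA p (ball_subset_ball (min_le_left _ _) hp) κ ε lam hκ hκ1 hε hc1 hlam A B hA' hB'
      hA1 hB1 (fun a ha => ball_subset_ball (min_le_left _ _) (hAs a ha))
      (fun b hb => ball_subset_ball (min_le_left _ _) (hBs b hb))).trans ?_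
    gcongr
    exact le_max_left _ _
  · push Not at hc1
    have hκδ : κ < δk := by
      rcases hor with h | h
      · exact absurd (h.trans_le (min_le_left _ _)) (not_lt.2 hc1)
      · exact h.trans_le (min_le_right _ _)
    refine (hK ε ⟨hc1, hε1⟩ p (ball_subset_ball (min_le_right _ _) hp) κ ε lam hκ hκδ
      (by rw [sub_self, abs_zero]; exact hδk) hlam A B hA' hB'
      hA1 hB1 (fun a ha => ball_subset_ball (min_le_right _ _) (hAs a ha))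
      (fun b hb => ball_subset_ball (min_le_right _ _) (hBs b hb))).trans ?_
    have h5 : √ε ≤ 1 := Real.sqrt_le_one.2 hε1
    have h6 : lam ^ 2 * κ * √ε ≤ lam ^ 2 * κ := by
      have : 0 < lam ^ 2 * κ := by positivity
      nlinarith
    exact div_le_div₀ (le_max_of_le_left hCa) (le_max_right _ _) (by positivity) h6

end Pool.Agent.N1F
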