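import Pool.Agent.N1F.P1a

/-!
N1F, Proposition I: the functions of the normal form, smoothness.

Parameters `p : Fin 7 → ℝ`: `p 0 = A`, `p 1 = B`, `p 2 = ρ₁`, `p 3 = γ₁`, `p 4 = ρ₂`, `p 5 = γ₂`,
`p 6 = κ₁`.
-/

namespace Pool.Agent.N1F

open MeasureTheory Set Metric Pool.Agent.MP_6cbfb8_an Pool.Agent.MST Pool.Agent.N1
open scoped ENNReal Real ContDiff Topology

/-- Parameters. -/
abbrev P7 : Type := Fin 7 → ℝ

/-- Boolean to real. -/
def bt (e : Bool) : ℝ := if e then 1 else 0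

/-- The four points in the first coordinate (scaled). -/
noncomputable def Xi (e f : Bool) (x : P7 × V) : ℝ :=
  x.2.2.1 - bt e * (x.1 2 * x.2.1) - bt f * (x.1 3 * x.2.2.2)

/-- The four points in the second coordinate (scaled). -/
noncomputable def Wi (e f : Bool) (x : P7 × V) : ℝ :=
  x.2.2.1 - bt e * (x.1 4 * x.2.1) - bt f * (x.1 5 * x.2.2.2)

/-- The pair `(p, a)`. -/
def prA (x : P7 × V × V) : P7 × V := (x.1, x.2.1)

/-- The pair `(p, b)`. -/
def prB (x : P7 × V × V) : P7 × V := (x.1, x.2.2)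

/-- Good points, first coordinate. -/
def okA (c : ℝ) (x : P7 × V) : Prop := ∀ e f : Bool, c ^ 2 / 8 < 1 - x.1 0 * Xi e f x ^ 2 - 0

/-- Good points, second coordinate. -/
def okB (c : ℝ) (x : P7 × V) : Prop := ∀ e f : Bool, c ^ 2 / 8 < 1 - x.1 1 * Wi e f x ^ 2 - 0

/-- Good points. -/
def okI (c : ℝ) (x : P7 × V × V) : Prop :=
  okA c (prA x) ∧ okB c (prB x) ∧ ∀ e f e' f' : Bool,
    c ^ 2 / 8 < 1 - x.1 0 * Xi e f (prA x) ^ 2 - x.1 1 * Wi e' f' (prB x) ^ 2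

/-- `ω` -/
noncomputable def omI (c : ℝ) (x : P7 × V) : ℝ :=
  x.2.1 * x.2.2.2 * E1 c (x.1 0) (Xi false false x) (Xi true false x) (Xi false true x)
    (Xi true true x) 0 * Qs c (x.1 0 * Xi true false x ^ 2) 0

/-- `σ` -/
noncomputable def sgI (c : ℝ) (x : P7 × V) : ℝ :=
  -(x.2.1 * x.2.2.2 * E1 c (x.1 1) (Wi false false x) (Wi true false x) (Wi false true x)
    (Wi true true x) 0 * Qs c (x.1 1 * Wi false true x ^ 2) 0)

/-- `α₁` -/
noncomputable def alI (c : ℝ) (x : P7 × V) : ℝ :=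
  x.2.1 * (Xi false false x + Xi true false x) / (Qs c (x.1 0 * Xi false false x ^ 2) 0 *
    (Qs c (x.1 0 * Xi false false x ^ 2) 0 + Qs c (x.1 0 * Xi true false x ^ 2) 0))

/-- `β₁` -/
noncomputable def beI (c : ℝ) (x : P7 × V) : ℝ :=
  x.2.2.2 * (Wi false false x + Wi false true x) / (Qs c (x.1 1 * Wi false false x ^ 2) 0 *
    (Qs c (x.1 1 * Wi false false x ^ 2) 0 + Qs c (x.1 1 * Wi false true x ^ 2) 0))

/-- The unit. -/
noncomputable def UI (c : ℝ) (x : P7 × V × V) : ℝ :=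
  (1 - x.1 0 * Xi true false (prA x) ^ 2) * (1 - x.1 1 * Wi false true (prB x) ^ 2) /
    Qs c (x.1 0 * Xi true false (prA x) ^ 2) (x.1 1 * Wi false true (prB x) ^ 2) ^ 3

noncomputable def P11 (c : ℝ) (x : P7 × V × V) : ℝ :=
  -(x.2.1.1 * x.2.1.2.2 * E1 c (x.1 0) (Xi false false (prA x)) (Xi true false (prA x))
    (Xi false true (prA x)) (Xi true true (prA x)) (x.1 1 * Wi false true (prB x) ^ 2))

noncomputable def P22 (c : ℝ) (x : P7 × V × V) : ℝ :=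
  -(x.2.2.1 * x.2.2.2.2 * E1 c (x.1 1) (Wi false false (prB x)) (Wi true false (prB x))
    (Wi false true (prB x)) (Wi true true (prB x)) (x.1 0 * Xi true false (prA x) ^ 2))

noncomputable def P12 (c : ℝ) (x : P7 × V × V) : ℝ :=
  -(x.2.1.1 * x.2.2.2.2 * E3 c (x.1 0) (x.1 1) (Xi false false (prA x)) (Xi true false (prA x))
    (Wi false false (prB x)) (Wi false true (prB x)))

noncomputable def P21 (c : ℝ) (x : P7 × V × V) : ℝ :=
  -(x.2.1.2.2 * x.2.2.1 * E3 c (x.1 0) (x.1 1) (Xi true false (prA x)) (Xi true true (prA x))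
    (Wi false true (prB x)) (Wi true true (prB x)))

/-- The remainder that is divisible by `A B`. -/
noncomputable def RI (c : ℝ) (x : P7 × V × V) : ℝ :=
  P11 c x + P22 c x + x.1 6 * P12 c x +
    UI c x * (omI c (prA x) - sgI c (prB x) + x.1 6 * (alI c (prA x) * beI c (prB x)))

/-! ### smoothness -/

lemma Qs_cd {Q : Type*} [NormedAddCommGroup Q] [NormedSpace ℝ Q] (c : ℝ) (hc : 0 < c)
    {f g : Q → ℝ} {x : Q} (hf : ContDiffAt ℝ ∞ f x) (hg : ContDiffAt ℝ ∞ g x) :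
    ContDiffAt ℝ ∞ (fun y => Qs c (f y) (g y)) x := by
  unfold Qs
  have h1 : ContDiffAt ℝ ∞ (fun y => 1 - f y - g y) x := (contDiffAt_const.sub hf).sub hg
  exact (Sq_smooth c hc).contDiffAt.comp x h1

lemma E1_cd {Q : Type*} [NormedAddCommGroup Q] [NormedSpace ℝ Q] (c : ℝ) (hc : 0 < c)
    {A x1 x2 x3 x4 s : Q → ℝ} {x : Q} (hA : ContDiffAt ℝ ∞ A x) (h1 : ContDiffAt ℝ ∞ x1 x)
    (h2 : ContDiffAt ℝ ∞ x2 x) (h3 : ContDiffAt ℝ ∞ x3 x) (h4 : ContDiffAt ℝ ∞ x4 x)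
    (hs : ContDiffAt ℝ ∞ s x)
    (k1 : c ^ 2 / 8 < 1 - A x * x1 x ^ 2 - s x) (k2 : c ^ 2 / 8 < 1 - A x * x2 x ^ 2 - s x)
    (k3 : c ^ 2 / 8 < 1 - A x * x3 x ^ 2 - s x) (k4 : c ^ 2 / 8 < 1 - A x * x4 x ^ 2 - s x) :
    ContDiffAt ℝ ∞ (fun y => E1 c (A y) (x1 y) (x2 y) (x3 y) (x4 y) (s y)) x := by
  have q1 := Qs_cd c hc (hA.mul (h1.pow 2)) hs
  have q2 := Qs_cd c hc (hA.mul (h2.pow 2)) hs
  have q3 := Qs_cd c hc (hA.mul (h3.pow 2)) hs
  have q4 := Qs_cd c hc (hA.mul (h4.pow 2)) hs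
  have p1 := Qs_pos c hc _ _ k1.le
  have p2 := Qs_pos c hc _ _ k2.le
  have p3 := Qs_pos c hc _ _ k3.le
  have p4 := Qs_pos c hc _ _ k4.le
  unfold E1
  refine ContDiffAt.div (ContDiffAt.add (ContDiffAt.mul (hA.mul (h1.add h2))
    (ContDiffAt.add (ContDiffAt.div (h1.add h3) (q1.add q3) ?_)
      (ContDiffAt.div (h2.add h4) (q2.add q4) ?_))) (contDiffAt_const.mul (q1.add q2)))
    ((q1.add q2).mul (q3.add q4)) ?_
  · exact (add_pos p1 p3).ne'
  · exact (add_pos p2 p4).ne'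
  · exact (mul_pos (add_pos p1 p2) (add_pos p3 p4)).ne'

lemma E3_cd {Q : Type*} [NormedAddCommGroup Q] [NormedSpace ℝ Q] (c : ℝ) (hc : 0 < c)
    {A B x1 x2 w1 w2 : Q → ℝ} {x : Q} (hA : ContDiffAt ℝ ∞ A x) (hB : ContDiffAt ℝ ∞ B x)
    (h1 : ContDiffAt ℝ ∞ x1 x) (h2 : ContDiffAt ℝ ∞ x2 x) (h3 : ContDiffAt ℝ ∞ w1 x)
    (h4 : ContDiffAt ℝ ∞ w2 x)
    (k1 : c ^ 2 / 8 < 1 - A x * x1 x ^ 2 - B x * w1 x ^ 2)
    (k2 : c ^ 2 / 8 < 1 - A x * x2 x ^ 2 - B x * w1 x ^ 2)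
    (k3 : c ^ 2 / 8 < 1 - A x * x1 x ^ 2 - B x * w2 x ^ 2)
    (k4 : c ^ 2 / 8 < 1 - A x * x2 x ^ 2 - B x * w2 x ^ 2) :
    ContDiffAt ℝ ∞ (fun y => E3 c (A y) (B y) (x1 y) (x2 y) (w1 y) (w2 y)) x := by
  have q1 := Qs_cd c hc (hA.mul (h1.pow 2)) (hB.mul (h3.pow 2))
  have q2 := Qs_cd c hc (hA.mul (h2.pow 2)) (hB.mul (h3.pow 2))
  have q3 := Qs_cd c hc (hA.mul (h1.pow 2)) (hB.mul (h4.pow 2))
  have q4 := Qs_cd c hc (hA.mul (h2.pow 2)) (hB.mul (h4.pow 2))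
  have p1 := Qs_pos c hc _ _ k1.le
  have p2 := Qs_pos c hc _ _ k2.le
  have p3 := Qs_pos c hc _ _ k3.le
  have p4 := Qs_pos c hc _ _ k4.le
  unfold E3
  refine ContDiffAt.div (ContDiffAt.mul ((h1.add h2).mul (h3.add h4))
    (ContDiffAt.add (ContDiffAt.div contDiffAt_const (q1.add q3) ?_)
      (ContDiffAt.div contDiffAt_const (q2.add q4) ?_)))
    ((q1.add q2).mul (q3.add q4)) ?_
  · exact (add_pos p1 p3).ne'
  · exact (add_pos p2 p4).ne'
  · exact (mul_pos (add_pos p1 p2) (add_pos p3 p4)).ne'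

lemma Xi_cd (e f : Bool) : ContDiff ℝ ∞ (Xi e f) := by
  unfold Xi
  fun_prop

lemma Wi_cd (e f : Bool) : ContDiff ℝ ∞ (Wi e f) := by
  unfold Wi
  fun_prop

lemma prA_cd : ContDiff ℝ ∞ prA := by
  unfold prA
  fun_prop

lemma prB_cd : ContDiff ℝ ∞ prB := by
  unfold prB
  fun_prop

lemma XA_cd (e f : Bool) : ContDiff ℝ ∞ fun x : P7 × V × V => Xi e f (prA x) :=
  (Xi_cd e f).comp prA_cd

lemma WB_cd (e f : Bool) : ContDiff ℝ ∞ fun x : P7 × V × V => Wi e f (prB x) :=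
  (Wi_cd e f).comp prB_cd

lemma pi_cd {Q : Type*} [NormedAddCommGroup Q] [NormedSpace ℝ Q] (i : Fin 7) :
    ContDiff ℝ ∞ fun x : P7 × Q => x.1 i := by
  fun_prop

lemma omI_cd (c : ℝ) (hc : 0 < c) (x : P7 × V) (h : okA c x) : ContDiffAt ℝ ∞ (omI c) x := by
  have e := E1_cd c hc (pi_cd 0).contDiffAt (Xi_cd false false).contDiffAt
    (Xi_cd true false).contDiffAt (Xi_cd false true).contDiffAt (Xi_cd true true).contDiffAt
    (contDiffAt_const (c := (0:ℝ))) (h _ _) (h _ _) (h _ _) (h _ _)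
  have q := Qs_cd c hc (x := x) ((pi_cd 0).contDiffAt.mul ((Xi_cd true false).contDiffAt.pow 2))
    (contDiffAt_const (c := (0:ℝ)))
  exact ((by fun_prop : ContDiffAt ℝ ∞ (fun x : P7 × V => x.2.1 * x.2.2.2) x).mul e).mul q

lemma sgI_cd (c : ℝ) (hc : 0 < c) (x : P7 × V) (h : okB c x) : ContDiffAt ℝ ∞ (sgI c) x := by
  have e := E1_cd c hc (pi_cd 1).contDiffAt (Wi_cd false false).contDiffAt
    (Wi_cd true false).contDiffAt (Wi_cd false true).contDiffAt (Wi_cd true true).contDiffAt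
    (contDiffAt_const (c := (0:ℝ))) (h _ _) (h _ _) (h _ _) (h _ _)
  have q := Qs_cd c hc (x := x) ((pi_cd 1).contDiffAt.mul ((Wi_cd false true).contDiffAt.pow 2))
    (contDiffAt_const (c := (0:ℝ)))
  exact (((by fun_prop : ContDiffAt ℝ ∞ (fun x : P7 × V => x.2.1 * x.2.2.2) x).mul e).mul q).neg

lemma alI_cd (c : ℝ) (hc : 0 < c) (x : P7 × V) (h : okA c x) : ContDiffAt ℝ ∞ (alI c) x := by
  have q1 := Qs_cd c hc (x := x) ((pi_cd 0).contDiffAt.mul ((Xi_cd false false).contDiffAt.pow 2))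
    (contDiffAt_const (c := (0:ℝ)))
  have q2 := Qs_cd c hc (x := x) ((pi_cd 0).contDiffAt.mul ((Xi_cd true false).contDiffAt.pow 2))
    (contDiffAt_const (c := (0:ℝ)))
  have p1 := Qs_pos c hc _ _ (h false false).le
  have p2 := Qs_pos c hc _ _ (h true false).le
  unfold alI
  refine ContDiffAt.div (ContDiffAt.mul (by fun_prop) ((Xi_cd false false).contDiffAt.add
    (Xi_cd true false).contDiffAt)) (q1.mul (q1.add q2)) ?_
  exact (mul_pos p1 (add_pos p1 p2)).ne'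

lemma beI_cd (c : ℝ) (hc : 0 < c) (x : P7 × V) (h : okB c x) : ContDiffAt ℝ ∞ (beI c) x := by
  have q1 := Qs_cd c hc (x := x) ((pi_cd 1).contDiffAt.mul ((Wi_cd false false).contDiffAt.pow 2))
    (contDiffAt_const (c := (0:ℝ)))
  have q2 := Qs_cd c hc (x := x) ((pi_cd 1).contDiffAt.mul ((Wi_cd false true).contDiffAt.pow 2))
    (contDiffAt_const (c := (0:ℝ)))
  have p1 := Qs_pos c hc _ _ (h false false).le
  have p2 := Qs_pos c hc _ _ (h false true).le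
  unfold beI
  refine ContDiffAt.div (ContDiffAt.mul (by fun_prop) ((Wi_cd false false).contDiffAt.add
    (Wi_cd false true).contDiffAt)) (q1.mul (q1.add q2)) ?_
  exact (mul_pos p1 (add_pos p1 p2)).ne'

lemma UI_pos (c : ℝ) (hc : 0 < c) (x : P7 × V × V) (h : okI c x) : 0 < UI c x := by
  obtain ⟨h1, h2, h3⟩ := h
  have hc8 : 0 < c ^ 2 / 8 := by positivity
  have k1 := h1 true false
  have k2 := h2 false true
  have k3 := Qs_pos c hc _ _ (h3 true false false true).le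
  unfold UI
  simp only [prA, prB, sub_zero] at k1 k2 k3 ⊢
  exact div_pos (mul_pos (by linarith) (by linarith)) (pow_pos k3 3)

lemma UI_cd (c : ℝ) (hc : 0 < c) (x : P7 × V × V) (h : okI c x) : ContDiffAt ℝ ∞ (UI c) x := by
  obtain ⟨h1, h2, h3⟩ := h
  have q := Qs_cd c hc (x := x) ((pi_cd 0).contDiffAt.mul ((XA_cd true false).contDiffAt.pow 2))
    ((pi_cd 1).contDiffAt.mul ((WB_cd false true).contDiffAt.pow 2))
  have k3 := Qs_pos c hc _ _ (h3 true false false true).le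
  unfold UI
  refine ContDiffAt.div (ContDiffAt.mul
    (contDiffAt_const.sub ((pi_cd 0).contDiffAt.mul ((XA_cd true false).contDiffAt.pow 2)))
    (contDiffAt_const.sub ((pi_cd 1).contDiffAt.mul ((WB_cd false true).contDiffAt.pow 2))))
    (q.pow 3) (pow_pos k3 3).ne'

lemma P11_cd (c : ℝ) (hc : 0 < c) (x : P7 × V × V) (h : okI c x) : ContDiffAt ℝ ∞ (P11 c) x := by
  obtain ⟨h1, h2, h3⟩ := h
  have e := E1_cd c hc (x := x) (pi_cd 0).contDiffAt (XA_cd false false).contDiffAt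
    (XA_cd true false).contDiffAt (XA_cd false true).contDiffAt (XA_cd true true).contDiffAt
    ((pi_cd 1).contDiffAt.mul ((WB_cd false true).contDiffAt.pow 2))
    (h3 _ _ _ _) (h3 _ _ _ _) (h3 _ _ _ _) (h3 _ _ _ _)
  exact ((by fun_prop : ContDiffAt ℝ ∞ (fun x : P7 × V × V => x.2.1.1 * x.2.1.2.2) x).mul e).neg

lemma P22_cd (c : ℝ) (hc : 0 < c) (x : P7 × V × V) (h : okI c x) : ContDiffAt ℝ ∞ (P22 c) x := by
  obtain ⟨h1, h2, h3⟩ := h
  have e := E1_cd c hc (x := x) (pi_cd 1).contDiffAt (WB_cd false false).contDiffAt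
    (WB_cd true false).contDiffAt (WB_cd false true).contDiffAt (WB_cd true true).contDiffAt
    ((pi_cd 0).contDiffAt.mul ((XA_cd true false).contDiffAt.pow 2))
    (by have := h3 true false false false; linarith) (by have := h3 true false true false; linarith)
    (by have := h3 true false false true; linarith) (by have := h3 true false true true; linarith)
  exact ((by fun_prop : ContDiffAt ℝ ∞ (fun x : P7 × V × V => x.2.2.1 * x.2.2.2.2) x).mul e).neg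

lemma P12_cd (c : ℝ) (hc : 0 < c) (x : P7 × V × V) (h : okI c x) : ContDiffAt ℝ ∞ (P12 c) x := by
  obtain ⟨h1, h2, h3⟩ := h
  have e := E3_cd c hc (x := x) (pi_cd 0).contDiffAt (pi_cd 1).contDiffAt
    (XA_cd false false).contDiffAt (XA_cd true false).contDiffAt
    (WB_cd false false).contDiffAt (WB_cd false true).contDiffAt
    (h3 _ _ _ _) (h3 _ _ _ _) (h3 _ _ _ _) (h3 _ _ _ _)
  exact ((by fun_prop : ContDiffAt ℝ ∞ (fun x : P7 × V × V => x.2.1.1 * x.2.2.2.2) x).mul e).neg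

lemma P21_cd (c : ℝ) (hc : 0 < c) (x : P7 × V × V) (h : okI c x) : ContDiffAt ℝ ∞ (P21 c) x := by
  obtain ⟨h1, h2, h3⟩ := h
  have e := E3_cd c hc (x := x) (pi_cd 0).contDiffAt (pi_cd 1).contDiffAt
    (XA_cd true false).contDiffAt (XA_cd true true).contDiffAt
    (WB_cd false true).contDiffAt (WB_cd true true).contDiffAt
    (h3 _ _ _ _) (h3 _ _ _ _) (h3 _ _ _ _) (h3 _ _ _ _)
  exact ((by fun_prop : ContDiffAt ℝ ∞ (fun x : P7 × V × V => x.2.1.2.2 * x.2.2.1) x).mul e).neg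

lemma RI_cd (c : ℝ) (hc : 0 < c) (x : P7 × V × V) (h : okI c x) : ContDiffAt ℝ ∞ (RI c) x := by
  have a1 := (omI_cd c hc _ h.1).comp x prA_cd.contDiffAt
  have a2 := (sgI_cd c hc _ h.2.1).comp x prB_cd.contDiffAt
  have a3 := (alI_cd c hc _ h.1).comp x prA_cd.contDiffAt
  have a4 := (beI_cd c hc _ h.2.1).comp x prB_cd.contDiffAt
  exact (((P11_cd c hc x h).add (P22_cd c hc x h)).add ((pi_cd 6).contDiffAt.mul
    (P12_cd c hc x h))).add ((UI_cd c hc x h).mul ((a1.sub a2).add ((pi_cd 6).contDiffAt.mul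
      (a3.mul a4))))

/-! ### openness -/

lemma okA_ev (c : ℝ) (x : P7 × V) (h : okA c x) : ∀ᶠ y in 𝓝 x, okA c y := by
  unfold okA
  rw [Filter.eventually_all]
  intro e
  rw [Filter.eventually_all]
  intro f
  have h1 : ContinuousAt (fun y : P7 × V => 1 - y.1 0 * Xi e f y ^ 2 - 0) x :=
    ((contDiff_const.sub ((pi_cd 0).mul ((Xi_cd e f).pow 2))).sub
      contDiff_const).continuous.continuousAt
  exact h1.eventually (lt_mem_nhds (h e f))

lemma okB_ev (c : ℝ) (x : P7 × V) (h : okB c x) : ∀ᶠ y in 𝓝 x, okB c y := by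
  unfold okB
  rw [Filter.eventually_all]
  intro e
  rw [Filter.eventually_all]
  intro f
  have h1 : ContinuousAt (fun y : P7 × V => 1 - y.1 1 * Wi e f y ^ 2 - 0) x :=
    ((contDiff_const.sub ((pi_cd 1).mul ((Wi_cd e f).pow 2))).sub
      contDiff_const).continuous.continuousAt
  exact h1.eventually (lt_mem_nhds (h e f))

lemma okI_ev (c : ℝ) (x : P7 × V × V) (h : okI c x) : ∀ᶠ y in 𝓝 x, okI c y := by
  obtain ⟨h1, h2, h3⟩ := h
  have a1 : ∀ᶠ y in 𝓝 x, okA c (prA y) := prA_cd.continuous.continuousAt.eventually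
    (okA_ev c _ h1)
  have a2 : ∀ᶠ y in 𝓝 x, okB c (prB y) := prB_cd.continuous.continuousAt.eventually
    (okB_ev c _ h2)
  have a3 : ∀ᶠ y in 𝓝 x, ∀ e f e' f' : Bool,
      c ^ 2 / 8 < 1 - y.1 0 * Xi e f (prA y) ^ 2 - y.1 1 * Wi e' f' (prB y) ^ 2 := by
    rw [Filter.eventually_all]
    intro e
    rw [Filter.eventually_all]
    intro f
    rw [Filter.eventually_all]
    intro e'
    rw [Filter.eventually_all]
    intro f'
    have k : ContinuousAt (fun y : P7 × V × V =>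
        1 - y.1 0 * Xi e f (prA y) ^ 2 - y.1 1 * Wi e' f' (prB y) ^ 2) x :=
      ((contDiff_const.sub ((pi_cd 0).mul ((XA_cd e f).pow 2))).sub
        ((pi_cd 1).mul ((WB_cd e' f').pow 2))).continuous.continuousAt
    exact k.eventually (lt_mem_nhds (h3 e f e' f'))
  filter_upwards [a1, a2, a3] with y b1 b2 b3
  exact ⟨b1, b2, b3⟩

end Pool.Agent.N1F
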