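import Pool.Agent.N1F.Sc3
import Pool.Agent.N1F.P1b
import Pool.Agent.N1.GN2

/-!
N1F, block A2: the four-linear form in scaled variables, amplitude.
-/

namespace Pool.Agent.N1F

open MeasureTheory Set Metric Pool.Agent.MP_6cbfb8_an Pool.Agent.MST Pool.Agent.N1
open scoped ENNReal Real ContDiff Topology

/-- The four-linear form in scaled variables. -/
theorem FF_nf (c T : ℝ) (hT : 0 < T) (s1 s2 s3 t1 t2 t3 : ℝ) (hs1 : 0 < s1) (hs2 : 0 < s2)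
    (hs3 : 0 < s3) (ht1 : 0 < t1) (ht2 : 0 < t2) (ht3 : 0 < t3) (A B : V → ℂ) (m : ℝ)
    (Ef Ff Wf : V × V → ℝ)
    (h : ∀ a b, A (Sc3 s1 s2 s3 a) ≠ 0 → B (Sc3 t1 t2 t3 b) ≠ 0 → Ef (a, b) ≠ 0 ∧
      Fr c (Sc3 s1 s2 s3 a) (Sc3 t1 t2 t3 b) = m * (Ef (a, b) * Ff (a, b)) ∧
      Wr c (Sc3 s1 s2 s3 a) (Sc3 t1 t2 t3 b) = Wf (a, b)) :
    FF c T (tp A B) = (((s1 * s2 * s3) * (t1 * t2 * t3) * T : ℝ) : ℂ) *
      ∫ q : V × V, A (Sc3 s1 s2 s3 q.1) * B (Sc3 t1 t2 t3 q.2) * ∫ s : ℝ,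
        ((Wf q * (chi (s / Ef q) / |Ef q|) : ℝ) : ℂ) * ex (T * m * (s * Ff q)) := by
  unfold FF
  rw [integral_scale3 _ s1 s2 s3 t1 t2 t3 hs1 hs2 hs3 ht1 ht2 ht3, Complex.ofReal_mul _ T,
    mul_assoc _ ((T : ℝ) : ℂ), ← integral_const_mul ((T : ℝ) : ℂ)]
  congr 1
  refine integral_congr_ae (Filter.Eventually.of_forall fun q => ?_)
  simp only [tp]
  by_cases hq : A (Sc3 s1 s2 s3 q.1) = 0
  · rw [hq]; simp
  by_cases hq' : B (Sc3 t1 t2 t3 q.2) = 0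
  · rw [hq']; simp
  obtain ⟨h1, h2, h3⟩ := h q.1 q.2 hq hq'
  rw [Kt_scale T _ (Ef q) (Ff q) hT h1 m h2, h3]
  have h5 : ∀ s : ℝ, ((Wf q * (chi (s / Ef q) / |Ef q|) : ℝ) : ℂ) *
      ex (T * m * (s * Ff q)) = ((Wf q : ℝ) : ℂ) * (((chi (s / Ef q) / |Ef q| : ℝ) : ℂ) *
        ex (T * m * (s * Ff q))) := by
    intro s
    rw [Complex.ofReal_mul]
    ring
  simp only [h5]
  rw [integral_const_mul]
  ring

/-- The amplitude in scaled variables. -/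
noncomputable def WI (c : ℝ) (x : P7 × V × V) : ℝ :=
  sma c (1 - x.1 0 * Xi false false (prA x) ^ 2 - x.1 1 * Wi false false (prB x) ^ 2) *
    sma c (1 - x.1 0 * Xi true false (prA x) ^ 2 - x.1 1 * Wi true false (prB x) ^ 2) *
    sma c (1 - x.1 0 * Xi false true (prA x) ^ 2 - x.1 1 * Wi false true (prB x) ^ 2) *
    sma c (1 - x.1 0 * Xi true true (prA x) ^ 2 - x.1 1 * Wi true true (prB x) ^ 2)

/-- The parameters. -/
def pI (A B r1 g1 r2 g2 k : ℝ) : P7 := ![A, B, r1, g1, r2, g2, k]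

lemma WI_eq (c al be r1 g1 r2 g2 k : ℝ) (a b : V) :
    Wr c (Sc3 (al * r1) al (al * g1) a) (Sc3 (be * r2) be (be * g2) b) =
      WI c (pI (al ^ 2) (be ^ 2) r1 g1 r2 g2 k, a, b) := by
  unfold Wr WI wf Sc3 Xi Wi prA prB pI bt
  simp only [Matrix.cons_val_zero, Matrix.cons_val_one, Matrix.cons_val, if_true, if_false,
    Bool.false_eq_true, one_mul, zero_mul, sub_zero]
  congr 1
  · congr 1
    · congr 1
      · congr 1
        ring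
      · congr 1
        ring
    · congr 1
      ring
  · congr 1
    ring

/-- The amplitude. -/
noncomputable def amI (c : ℝ) (Ef : P7 × V × V → ℝ) (x : ℝ × P7 × V × V) : ℝ :=
  WI c x.2 * (chi (x.1 / Ef x.2) / |Ef x.2|)

lemma amI_smooth (c : ℝ) (hc : 0 < c) (Ef : P7 × V × V → ℝ) (S : Set (P7 × V × V))
    (hE : ContDiffOn ℝ ∞ Ef S) (hE0 : ∀ x ∈ S, Ef x ≠ 0) :
    ContDiffOn ℝ ∞ (amI c Ef) (univ ×ˢ S) := by
  have h1 : ContDiffOn ℝ ∞ (fun x : ℝ × P7 × V × V => Ef x.2) (univ ×ˢ S) :=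
    hE.comp contDiff_snd.contDiffOn (fun x hx => hx.2)
  have hs := sma_smooth c hc
  have hk : ∀ e f : Bool, ContDiff ℝ ∞ fun x : P7 × V × V =>
      sma c (1 - x.1 0 * Xi e f (prA x) ^ 2 - x.1 1 * Wi e f (prB x) ^ 2) := fun e f =>
    hs.comp ((contDiff_const.sub ((pi_cd 0).mul ((XA_cd e f).pow 2))).sub
      ((pi_cd 1).mul ((WB_cd e f).pow 2)))
  have h2 : ContDiff ℝ ∞ (fun x : ℝ × P7 × V × V => WI c x.2) := by
    have : ContDiff ℝ ∞ (WI c) := ((((hk _ _).mul (hk _ _)).mul (hk _ _)).mul (hk _ _))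
    exact this.comp contDiff_snd
  have h4 : ContDiffOn ℝ ∞ (fun x : ℝ × P7 × V × V => chi (x.1 / Ef x.2)) (univ ×ˢ S) :=
    chi_smooth.comp_contDiffOn (contDiff_fst.contDiffOn.div h1 (fun x hx => hE0 _ hx.2))
  have h5 : ContDiffOn ℝ ∞ (fun x : ℝ × P7 × V × V => |Ef x.2|) (univ ×ˢ S) := by
    intro x hx
    exact (contDiffAt_abs (hE0 _ hx.2)).comp_contDiffWithinAt x (h1 x hx)
  exact h2.contDiffOn.mul (h4.div h5 (fun x hx => abs_ne_zero.2 (hE0 _ hx.2)))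

lemma amI_supp (c : ℝ) (Ef : P7 × V × V → ℝ) (e0 e1 s : ℝ) (q : P7 × V × V)
    (he0 : 0 < e0) (h0 : e0 ≤ |Ef q|) (h1 : |Ef q| ≤ e1) (h : amI c Ef (s, q) ≠ 0) :
    e0 / 2 ≤ |s| ∧ |s| ≤ 3 * e1 := by
  have hchi : chi (s / Ef q) ≠ 0 := by
    intro h2
    apply h
    unfold amI
    simp only
    rw [h2, zero_div, mul_zero]
  obtain ⟨g1, g2⟩ := chi_zero _ hchi
  have hE : 0 < |Ef q| := lt_of_lt_of_le he0 h0
  have h3 : |s| = |s / Ef q| * |Ef q| := by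
    rw [abs_div]
    field_simp
  have h4 : |s / Ef q| = s / Ef q := abs_of_nonneg (by linarith)
  rw [h4] at h3
  rw [h3]
  constructor
  · nlinarith
  · nlinarith

end Pool.Agent.N1F
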