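import Pool.Agent.N1F.P1e
import Pool.Agent.N1F.A2s
import Pool.Agent.N1F.A2h

/-!
N1F, block A2: Proposition I.
-/

namespace Pool.Agent.N1F

open MeasureTheory Set Metric Pool.Agent.MP_6cbfb8_an Pool.Agent.MST Pool.Agent.N1
open scoped ENNReal Real ContDiff Topology

lemma pI_dist (A B r1 g1 r2 g2 k A' B' r1' g1' r2' g2' k' R : ℝ) (hR : 0 < R)
    (h0 : |A - A'| < R) (h1 : |B - B'| < R) (h2 : |r1 - r1'| < R) (h3 : |g1 - g1'| < R)
    (h4 : |r2 - r2'| < R) (h5 : |g2 - g2'| < R) (h6 : |k - k'| < R) :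
    pI A B r1 g1 r2 g2 k ∈ ball (pI A' B' r1' g1' r2' g2' k') R := by
  rw [mem_ball, dist_pi_lt_iff hR]
  intro i
  rw [Real.dist_eq]
  fin_cases i
  · exact h0
  · exact h1
  · exact h2
  · exact h3
  · exact h4
  · exact h5
  · exact h6

lemma base_ok (c : ℝ) (hc : 0 < c) (A0 B0 k : ℝ) (x0 y0 z0 : ℝ × ℝ) (hb : Bs c A0 B0 x0) :
    okI c (pI A0 B0 0 0 0 0 k, ((y0.1, x0.1, z0.1) : V), ((y0.2, x0.2, z0.2) : V)) := by
  obtain ⟨h1, h2, h3, h4, h5, h6⟩ := hb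
  have hc2 : 0 < c ^ 2 := by positivity
  have e1 : 0 ≤ A0 * x0.1 ^ 2 := by positivity
  have e2 : 0 ≤ B0 * x0.2 ^ 2 := by positivity
  refine ⟨?_, ?_, ?_⟩
  · intro e f
    simp only [prA, Xi, pI, Matrix.cons_val_zero, Matrix.cons_val, zero_mul, mul_zero, sub_zero]
    linarith
  · intro e f
    simp only [prB, Wi, pI, Matrix.cons_val_one, Matrix.cons_val, zero_mul, mul_zero, sub_zero]
    linarith
  · intro e f e' f'
    simp only [prA, prB, Xi, Wi, pI, Matrix.cons_val_zero, Matrix.cons_val_one, Matrix.cons_val,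
      zero_mul, mul_zero, sub_zero]
    linarith

/-- The oscillatory estimate near a base point. -/
theorem A2_loc (c : ℝ) (hc : 0 < c) (A0 B0 : ℝ) (x0 y0 z0 : ℝ × ℝ) (hb : Bs c A0 B0 x0)
    (hy1 : y0.1 ≠ 0) (hy2 : y0.2 ≠ 0) (hz1 : z0.1 ≠ 0) (hz2 : z0.2 ≠ 0) (k1 : ℝ) (hk1 : 0 ≤ k1) :
    ∃ r : ℝ, 0 < r ∧ ∃ g : P7 × V × V → ℝ,
    (∀ x ∈ ball ((pI A0 B0 0 0 0 0 k1, (y0.1, x0.1, z0.1), (y0.2, x0.2, z0.2)) : P7 × V × V) r,
      okI c x) ∧
    (∀ x ∈ ball ((pI A0 B0 0 0 0 0 k1, (y0.1, x0.1, z0.1), (y0.2, x0.2, z0.2)) : P7 × V × V) r,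
      ∀ κ₂ : ℝ, x.1 0 * x.1 1 = x.1 6 * κ₂ →
        P11 c x + P22 c x + x.1 6 * P12 c x + κ₂ * P21 c x =
          -(UI c x * (omI c (prA x) - sgI c (prB x) + x.1 6 * (alI c (prA x) * beI c (prB x)) +
            κ₂ * g x))) ∧
    ∃ δ : ℝ, 0 < δ ∧ ∃ C : ℝ, 0 ≤ C ∧ ∀ p ∈ ball (pI A0 B0 0 0 0 0 k1) δ, ∀ κ ε lam : ℝ,
      0 < κ → κ ≤ 1 → 0 < ε → ε ≤ 1 → (ε < δ ∨ κ < δ) → 0 < lam →
      ∀ A B : V → ℂ, Measurable A → Measurable B → (∀ a, ‖A a‖ ≤ 1) → (∀ b, ‖B b‖ ≤ 1) →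
      (∀ a, A a ≠ 0 → a ∈ ball ((y0.1, x0.1, z0.1) : V) δ) →
      (∀ b, B b ≠ 0 → b ∈ ball ((y0.2, x0.2, z0.2) : V) δ) →
      ‖∫ q : V × V, A q.1 * B q.2 * ∫ s : ℝ,
        ((amI c (fun x => -UI c x) (s, p, q.1, q.2) : ℝ) : ℂ) *
        ex (lam * (s * (omI c (p, q.1) - sgI c (p, q.2) + κ * ((k1 + 1) * alI c (p, q.1) *
          beI c (p, q.2) + ε * ((k1 + 1) * g (p, q.1, q.2))))))‖ ≤ C / (lam ^ 2 * κ * √ε) := by
  have hok := base_ok c hc A0 B0 k1 x0 y0 z0 hb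
  obtain ⟨hA0, hB0, hAB0, hx1, hx2, hxx⟩ := hb
  set a0 : V := (y0.1, x0.1, z0.1) with ha0
  set b0 : V := (y0.2, x0.2, z0.2) with hb0
  set p0 : P7 := pI A0 B0 0 0 0 0 k1 with hp0
  have q0 : p0 0 = A0 := rfl
  have q1 : p0 1 = B0 := rfl
  have q2 : p0 2 = 0 := rfl
  have q3 : p0 3 = 0 := rfl
  have q4 : p0 4 = 0 := rfl
  have q5 : p0 5 = 0 := rfl
  obtain ⟨r0, hr0, g, hg, hgok, hgid, hgb⟩ := nfI c hc p0 a0 b0 hok
  -- the unit near the base point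
  set Ef : P7 × V × V → ℝ := fun x => -UI c x with hEf
  set e : ℝ := UI c (p0, a0, b0) with he
  have he0 : 0 < e := UI_pos c hc _ hok
  have hEc : ContinuousAt (UI c) (p0, a0, b0) := (UI_cd c hc _ hok).continuousAt
  have ev : ∀ᶠ x in 𝓝 (p0, a0, b0), e / 2 ≤ UI c x ∧ UI c x ≤ 2 * e := by
    filter_upwards [hEc.eventually (lt_mem_nhds (show e / 2 < e by linarith)),
      hEc.eventually (gt_mem_nhds (show e < 2 * e by linarith))] with x d2 d3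
    exact ⟨d2.le, d3.le⟩
  obtain ⟨r', hr', hball⟩ := g_ball ev
  set r : ℝ := min r0 r' with hr
  have hrp : 0 < r := lt_min hr0 hr'
  have B1 : ∀ x ∈ ball (p0, a0, b0) r, okI c x := fun x hx =>
    hgok x (ball_subset_ball (min_le_left _ _) hx)
  have B2 : ∀ x ∈ ball (p0, a0, b0) r, e / 2 ≤ UI c x ∧ UI c x ≤ 2 * e := fun x hx =>
    hball x (ball_subset_ball (min_le_right _ _) hx)
  have BA : ∀ x : P7 × V, x ∈ ball (p0, a0) r → okA c x := by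
    intro x hx
    have h1 : ((x.1, x.2, b0) : P7 × V × V) ∈ ball (p0, a0, b0) r := by
      rw [mem_ball, Prod.dist_eq, max_lt_iff] at hx
      rw [mem_ball, Prod.dist_eq, Prod.dist_eq]
      exact max_lt hx.1 (max_lt hx.2 (by rw [dist_self]; exact hrp))
    exact (B1 _ h1).1
  have BB : ∀ x : P7 × V, x ∈ ball (p0, b0) r → okB c x := by
    intro x hx
    have h1 : ((x.1, a0, x.2) : P7 × V × V) ∈ ball (p0, a0, b0) r := by
      rw [mem_ball, Prod.dist_eq, max_lt_iff] at hx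
      rw [mem_ball, Prod.dist_eq, Prod.dist_eq]
      exact max_lt hx.1 (max_lt (by rw [dist_self]; exact hrp) hx.2)
    exact (B1 _ h1).2.1
  have hc2 : 0 < c ^ 2 := by positivity
  have hD0 : 0 < 1 - A0 * a0.2.1 ^ 2 := by
    have : 0 ≤ B0 * x0.2 ^ 2 := by positivity
    show 0 < 1 - A0 * x0.1 ^ 2
    linarith
  have hD1 : 0 < 1 - B0 * b0.2.1 ^ 2 := by
    have : 0 ≤ A0 * x0.1 ^ 2 := by positivity
    show 0 < 1 - B0 * x0.2 ^ 2
    linarith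
  have evA : ∀ᶠ a in 𝓝 a0, okA c (p0, a) := by
    have h2 : Filter.Tendsto (fun a : V => (p0, a)) (𝓝 a0) (𝓝 (p0, a0)) :=
      (by fun_prop : Continuous fun a : V => (p0, a)).tendsto a0
    exact h2.eventually (okA_ev c _ hok.1)
  have evB : ∀ᶠ b in 𝓝 b0, okB c (p0, b) := by
    have h2 : Filter.Tendsto (fun b : V => (p0, b)) (𝓝 b0) (𝓝 (p0, b0)) :=
      (by fun_prop : Continuous fun b : V => (p0, b)).tendsto b0
    exact h2.eventually (okB_ev c _ hok.2.1)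
  have ew : (fun a => omI c (p0, a)) =ᶠ[𝓝 a0] f0 A0 := by
    filter_upwards [evA] with a h
    exact omI_base c hc (p0, a) h q2 q3
  have el : (fun a => (k1 + 1) * alI c (p0, a)) =ᶠ[𝓝 a0] fun a => (k1 + 1) * f1 A0 a := by
    filter_upwards [evA] with a h
    have h3 : alI c (p0, a) = f1 A0 a := alI_base c hc (p0, a) h q2 q3
    rw [h3]
  have es : (fun b => sgI c (p0, b)) =ᶠ[𝓝 b0] fun b => -f0 B0 b := by
    filter_upwards [evB] with b h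
    exact sgI_base c hc (p0, b) h q4 q5
  have em : (fun b => beI c (p0, b)) =ᶠ[𝓝 b0] f2 B0 := by
    filter_upwards [evB] with b h
    exact beI_base c hc (p0, b) h q4 q5
  have hk1' : k1 + 1 ≠ 0 := by positivity
  have hne : ∀ x ∈ ball (p0, a0, b0) r, Ef x ≠ 0 := by
    intro x hx
    have := (B2 x hx).1
    have h2 : 0 < UI c x := by linarith
    exact neg_ne_zero.2 h2.ne'
  have hcs : ∀ s, ∀ q ∈ ball (p0, a0, b0) r, amI c Ef (s, q) ≠ 0 → e / 2 / 2 ≤ |s| ∧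
      |s| ≤ 3 * (2 * e) := by
    intro s q hq h
    have h1 := B2 q hq
    have h2 : |Ef q| = UI c q := by
      show |-UI c q| = UI c q
      rw [abs_neg, abs_of_pos (by linarith)]
    exact amI_supp c Ef (e / 2) (2 * e) s q (by linarith) (by rw [h2]; exact h1.1)
      (by rw [h2]; exact h1.2) h
  have hg0 : ∀ᶠ q in 𝓝 (a0, b0), (k1 + 1) * g (p0, q.1, q.2) =
      ((k1 + 1) * f2 A0 q.1) * f1 B0 q.2 := by
    have h2 : Filter.Tendsto (fun q : V × V => ((p0, q.1, q.2) : P7 × V × V)) (𝓝 (a0, b0))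
        (𝓝 (p0, a0, b0)) :=
      (by fun_prop : Continuous fun q : V × V => ((p0, q.1, q.2) : P7 × V × V)).tendsto (a0, b0)
    filter_upwards [h2.eventually (ball_mem_nhds _ hr0)] with q hq
    rw [hgb _ hq q2 q3 q4 q5]
    show (k1 + 1) * (f2 A0 q.1 * f1 B0 q.2) = _
    ring
  have d1 : DifferentiableAt ℝ (f1 A0) a0 := f1_diff A0 a0 hD0.ne'
  have d2 : DifferentiableAt ℝ (f2 A0) a0 := f2_diff A0 a0 hD0.ne'
  have ha : ∀ u, fderiv ℝ (fun a => omI c (p0, a)) a0 u = 0 →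
      fderiv ℝ (fun a => (k1 + 1) * alI c (p0, a)) a0 u = 0 →
      fderiv ℝ (fun a => (k1 + 1) * f2 A0 a) a0 u = 0 → u = 0 := by
    intro u h1 h2 h3
    rw [ew.fderiv_eq] at h1
    rw [el.fderiv_eq, fderiv_const_mul d1] at h2
    rw [fderiv_const_mul d2] at h3
    rw [smul_apply, smul_eq_mul] at h2 h3
    exact f_indep A0 a0 u hD0.ne' hy1 hx1.ne' hz1 h1 ((mul_eq_zero.1 h2).resolve_left hk1')
      ((mul_eq_zero.1 h3).resolve_left hk1')
  have hb' : ∀ u, fderiv ℝ (fun b => sgI c (p0, b)) b0 u = 0 →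
      fderiv ℝ (fun b => beI c (p0, b)) b0 u = 0 →
      fderiv ℝ (f1 B0) b0 u = 0 → u = 0 := by
    intro u h1 h2 h3
    rw [es.fderiv_eq, fderiv_fun_neg, neg_apply, neg_eq_zero] at h1
    rw [em.fderiv_eq] at h2
    exact f_indep B0 b0 u hD1.ne' hy2 hx2.ne' hz2 h1 h3 h2
  have h1 : fderiv ℝ (fun a => omI c (p0, a)) a0 (1, 0, 0) ≠ 0 := by
    rw [ew.fderiv_eq, f0_fd A0 a0 _ hD0.ne']
    refine div_ne_zero ?_ (pow_ne_zero 2 hD0.ne')
    have : z0.1 * (1 - A0 * a0.2.1 ^ 2) ≠ 0 := mul_ne_zero hz1 hD0.ne'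
    intro h
    apply this
    show a0.2.2 * (1 - A0 * a0.2.1 ^ 2) = 0
    simp only at h
    linear_combination h
  have h2 : fderiv ℝ (fun b => sgI c (p0, b)) b0 (1, 0, 0) ≠ 0 := by
    rw [es.fderiv_eq, fderiv_fun_neg, neg_apply, f0_fd B0 b0 _ hD1.ne',
      neg_ne_zero]
    refine div_ne_zero ?_ (pow_ne_zero 2 hD1.ne')
    have : z0.2 * (1 - B0 * b0.2.1 ^ 2) ≠ 0 := mul_ne_zero hz2 hD1.ne'
    intro h
    apply this
    show b0.2.2 * (1 - B0 * b0.2.1 ^ 2) = 0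
    simp only at h
    linear_combination h
  refine ⟨r, hrp, g, B1, fun x hx => hgid x (ball_subset_ball (min_le_left _ _) hx), ?_⟩
  have hamI : ContDiffOn ℝ ∞ (amI c Ef) (univ ×ˢ ball (p0, a0, b0) r) :=
    amI_smooth c hc _ _ (fun x hx => ((UI_cd c hc x (B1 x hx)).neg).contDiffWithinAt) hne
  have hwd : ContDiffOn ℝ ∞ (omI c) (ball (p0, a0) r) :=
    fun x hx => (omI_cd c hc x (BA x hx)).contDiffWithinAt
  have hld : ContDiffOn ℝ ∞ (fun x => (k1 + 1) * alI c x) (ball (p0, a0) r) :=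
    fun x hx => (contDiffAt_const.mul (alI_cd c hc x (BA x hx))).contDiffWithinAt
  have hsd : ContDiffOn ℝ ∞ (sgI c) (ball (p0, b0) r) :=
    fun x hx => (sgI_cd c hc x (BB x hx)).contDiffWithinAt
  have hmd : ContDiffOn ℝ ∞ (beI c) (ball (p0, b0) r) :=
    fun x hx => (beI_cd c hc x (BB x hx)).contDiffWithinAt
  have hgd : ContDiffOn ℝ ∞ (fun x => (k1 + 1) * g x) (ball (p0, a0, b0) r) :=
    contDiffOn_const.mul (hg.mono (ball_subset_ball (min_le_left _ _)))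
  exact HLI (omI c) (fun x => (k1 + 1) * alI c x) (sgI c) (beI c)
    (fun x => (k1 + 1) * g x) (fun a => (k1 + 1) * f2 A0 a) (f1 B0) (amI c Ef) p0 a0 b0 r
    (e / 2 / 2) (3 * (2 * e)) hrp (by positivity) hwd hld hsd hmd hgd hamI hcs
    (d2.const_mul _) (f1_diff B0 b0 hD1.ne') hg0 ha hb' h1 h2

end Pool.Agent.N1F
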