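import Pool.Agent.N1.GA
import Pool.Agent.N1F.P1b

/-!
N1F, block A3: local versions of Hadamard's lemma.
-/

namespace Pool.Agent.N1F

open MeasureTheory Set Metric Pool.Agent.MP_6cbfb8_an Pool.Agent.MST Pool.Agent.N1
open scoped ENNReal Real ContDiff Topology

lemma had_mem {E : Type*} [NormedAddCommGroup E] (t : ℝ) (e e0 : E) (r : ℝ)
    (h : (t, e) ∈ ball ((0 : ℝ), e0) r) : ((0 : ℝ), e) ∈ ball ((0 : ℝ), e0) r := by
  rw [mem_ball, Prod.dist_eq, max_lt_iff] at h ⊢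
  simp only at h ⊢
  exact ⟨lt_of_le_of_lt (by rw [dist_self]; exact dist_nonneg) h.1, h.2⟩

lemma had_neg {E : Type*} [NormedAddCommGroup E] (t : ℝ) (e e0 : E) (r : ℝ)
    (h : (t, e) ∈ ball ((0 : ℝ), e0) r) : (-t, e) ∈ ball ((0 : ℝ), e0) r := by
  rw [mem_ball, Prod.dist_eq, max_lt_iff] at h ⊢
  simp only [dist_zero_right, norm_neg] at h ⊢
  exact h

/-- Division by the first variable, local version with an arbitrary base value. -/
theorem had1 {E : Type*} [NormedAddCommGroup E] [NormedSpace ℝ E] [FiniteDimensional ℝ E]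
    (D : ℝ × E → ℝ) (t0 : ℝ) (e0 : E) (r : ℝ) (hr : 0 < r)
    (hD : ContDiffOn ℝ ∞ D (ball (t0, e0) r))
    (h0 : ∀ e, ((0 : ℝ), e) ∈ ball (t0, e0) r → D (0, e) = 0) :
    ∃ r' : ℝ, 0 < r' ∧ r' ≤ r ∧ ∃ G : ℝ × E → ℝ, ContDiffOn ℝ ∞ G (ball (t0, e0) r') ∧
      ∀ x ∈ ball (t0, e0) r', D x = x.1 * G x := by
  by_cases ht : t0 = 0
  · subst ht
    obtain ⟨g, hg, hgD⟩ := ext_smooth D (0, e0) r hr hD
    have h1 : ContDiff ℝ ∞ (fun z : ℝ × E => g z - g (0, z.2)) :=
      hg.sub (hg.comp (contDiff_const.prodMk contDiff_snd))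
    obtain ⟨k, hk, e1⟩ := hadamard _ h1 (by intro q; simp)
    refine ⟨r / 2, by linarith, by linarith, k, hk.contDiffOn, ?_⟩
    rintro ⟨t, e⟩ hx
    have hx0 := had_mem t e e0 _ hx
    have h2 := e1 t e
    simp only at h2
    rw [hgD _ hx, hgD _ hx0, h0 e (ball_subset_ball (by linarith) hx0), sub_zero] at h2
    exact h2
  · have ht' : 0 < |t0| := abs_pos.2 ht
    refine ⟨min r (|t0| / 2), lt_min hr (by linarith), min_le_left _ _, fun x => D x / x.1,
      ?_, ?_⟩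
    · refine ContDiffOn.div (hD.mono (ball_subset_ball (min_le_left _ _))) contDiff_fst.contDiffOn ?_
      intro x hx h
      rw [mem_ball, Prod.dist_eq, max_lt_iff, Real.dist_eq, h, zero_sub, abs_neg] at hx
      have := lt_of_lt_of_le hx.1 (min_le_right _ _)
      linarith
    · intro x hx
      have hx1 : x.1 ≠ 0 := by
        intro h
        rw [mem_ball, Prod.dist_eq, max_lt_iff, Real.dist_eq, h, zero_sub, abs_neg] at hx
        have := lt_of_lt_of_le hx.1 (min_le_right _ _)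
        linarith
      simp only
      field_simp

/-- Even functions, local version. -/
theorem had_even {E : Type*} [NormedAddCommGroup E] [NormedSpace ℝ E] [FiniteDimensional ℝ E]
    (D : ℝ × E → ℝ) (e0 : E) (r : ℝ) (hr : 0 < r)
    (hD : ContDiffOn ℝ ∞ D (ball ((0 : ℝ), e0) r))
    (h0 : ∀ t e, (t, e) ∈ ball ((0 : ℝ), e0) r → D (-t, e) = D (t, e)) :
    ∃ k : ℝ × E → ℝ, ContDiff ℝ ∞ k ∧
      ∀ t e, (t, e) ∈ ball ((0 : ℝ), e0) (r / 2) → D (t, e) = D (0, e) + t ^ 2 * k (t, e) := by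
  obtain ⟨g, hg, hgD⟩ := ext_smooth D (0, e0) r hr hD
  have h1 : ContDiff ℝ ∞ (fun z : ℝ × E => (g z + g (-z.1, z.2)) / 2) :=
    (hg.add (hg.comp (contDiff_fst.neg.prodMk contDiff_snd))).div_const 2
  obtain ⟨k, hk, e1⟩ := hadamard_even _ h1 (by intro ρ q; simp only [neg_neg]; ring)
  refine ⟨k, hk, ?_⟩
  intro t e hx
  have hx0 := had_mem t e e0 _ hx
  have hxn := had_neg t e e0 _ hx
  have h2 := e1 t e
  simp only [neg_zero] at h2
  rw [hgD _ hx, hgD _ hx0, hgD _ hxn, h0 t e (ball_subset_ball (by linarith) hx)] at h2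
  linarith

/-- Density argument. -/
theorem dens {M : Type*} [NormedAddCommGroup M] [NormedSpace ℝ M] (f g : M → ℝ) (U : Set M)
    (hU : IsOpen U) (hf : ContinuousOn f U) (hg : ContinuousOn g U) (S : Set M) (d : M)
    (hS : ∀ x, ∀ᶠ t in 𝓝[≠] (0 : ℝ), x + t • d ∈ S)
    (h : ∀ x ∈ U, x ∈ S → f x = g x) : ∀ x ∈ U, f x = g x := by
  intro x hx
  have hc : ContinuousAt (fun t : ℝ => x + t • d) 0 := by fun_prop
  have h0 : x + (0 : ℝ) • d = x := by simp
  have e1 : ∀ᶠ t in 𝓝 (0 : ℝ), x + t • d ∈ U := by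
    apply hc.eventually
    simp only [zero_smul, add_zero]
    exact hU.mem_nhds hx
  have key := g_ext (f := fun t : ℝ => f (x + t • d)) (g := fun t : ℝ => g (x + t • d)) ?_ ?_ ?_
  · simpa using key
  · refine ContinuousAt.comp_of_eq (hf.continuousAt (hU.mem_nhds hx)) hc h0
  · refine ContinuousAt.comp_of_eq (hg.continuousAt (hU.mem_nhds hx)) hc h0
  · filter_upwards [nhdsWithin_le_nhds e1, hS x] with t h1 h2
    exact h _ h1 h2

lemma ev_ne (x : ℝ) : ∀ᶠ t in 𝓝[≠] (0 : ℝ), x + t ≠ 0 := by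
  by_cases hx : x = 0
  · subst hx
    filter_upwards [self_mem_nhdsWithin] with t ht
    simpa using ht
  · have hc : ContinuousAt (fun t : ℝ => x + t) 0 := by fun_prop
    have h1 : ∀ᶠ t in 𝓝 (0 : ℝ), x + t ≠ 0 := hc.eventually_ne (by simpa using hx)
    exact nhdsWithin_le_nhds h1

end Pool.Agent.N1F
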