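import Pool.Agent.N1F.A3a

/-!
N1F, block A3: special values of the divided differences.
-/

namespace Pool.Agent.N1F

open MeasureTheory Set Metric Pool.Agent.MP_6cbfb8_an Pool.Agent.MST Pool.Agent.N1
open scoped ENNReal Real ContDiff Topology

/-- (1) -/
lemma E1_v1 (c : ℝ) (x1 x2 x3 x4 s : ℝ) (hq : 0 < Qs c 0 s) :
    E1 c 0 x1 x2 x3 x4 s = 1 / Qs c 0 s := by
  unfold E1
  simp only [zero_mul]
  field_simp
  ring

/-- (2) -/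
lemma E1_v2 (c : ℝ) (hc : 0 < c) (A x x' s : ℝ) (hx : 0 < x) (hx' : 0 < x')
    (h1 : c ^ 2 / 8 < 1 - A * x ^ 2 - s) (h2 : c ^ 2 / 8 < 1 - A * x' ^ 2 - s) :
    E1 c A x x' x x' s = (1 - s) * (x + x') / (Qs c (A * x ^ 2) s * Qs c (A * x' ^ 2) s *
      (x * Qs c (A * x' ^ 2) s + x' * Qs c (A * x ^ 2) s)) := by
  have p1 := Qs_pos c hc _ _ h1.le
  have p2 := Qs_pos c hc _ _ h2.le
  have q1 := Qs_sq c hc _ _ h1.le
  have q2 := Qs_sq c hc _ _ h2.le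
  unfold E1
  set r := Qs c (A * x ^ 2) s
  set t := Qs c (A * x' ^ 2) s
  rw [div_eq_div_iff (by positivity) (by positivity)]
  field_simp
  have h3 : A * x ^ 2 = 1 - s - r ^ 2 := by linarith
  have h4 : A * x' ^ 2 = 1 - s - t ^ 2 := by linarith
  linear_combination ((x + x') * t ^ 2 + 2 * x' * r * t) * h3 +
    ((x + x') * r ^ 2 + 2 * x * r * t) * h4

/-- (3) -/
lemma E1_v3 (c : ℝ) (A X X' s : ℝ) (h1 : 0 < Qs c (A * X ^ 2) s) (h2 : 0 < Qs c (A * X' ^ 2) s) :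
    E1 c A X X X' X' s = (A * X * (X + X') / (Qs c (A * X ^ 2) s + Qs c (A * X' ^ 2) s) +
      Qs c (A * X ^ 2) s) / (Qs c (A * X ^ 2) s * Qs c (A * X' ^ 2) s) := by
  unfold E1
  set r := Qs c (A * X ^ 2) s
  set t := Qs c (A * X' ^ 2) s
  field_simp
  ring

/-- (4) -/
lemma E3_v4 (c : ℝ) (B X X' w w' : ℝ) (h1 : 0 < Qs c 0 (B * w ^ 2))
    (h2 : 0 < Qs c 0 (B * w' ^ 2)) :
    E3 c 0 B X X' w w' = (X + X') * (w + w') / (2 * Qs c 0 (B * w ^ 2) * Qs c 0 (B * w' ^ 2) *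
      (Qs c 0 (B * w ^ 2) + Qs c 0 (B * w' ^ 2))) := by
  unfold E3
  simp only [zero_mul]
  set r := Qs c 0 (B * w ^ 2)
  set t := Qs c 0 (B * w' ^ 2)
  field_simp
  ring

/-- (5) -/
lemma E3_v5 (c : ℝ) (A X X' w w' : ℝ) (h1 : 0 < Qs c (A * X ^ 2) 0)
    (h2 : 0 < Qs c (A * X' ^ 2) 0) :
    E3 c A 0 X X' w w' = (X + X') * (w + w') / (2 * Qs c (A * X ^ 2) 0 * Qs c (A * X' ^ 2) 0 *
      (Qs c (A * X ^ 2) 0 + Qs c (A * X' ^ 2) 0)) := by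
  unfold E3
  simp only [zero_mul]
  set r := Qs c (A * X ^ 2) 0
  set t := Qs c (A * X' ^ 2) 0
  field_simp
  ring

/-- (6) -/
lemma E3_v6 (c : ℝ) (A B x w w' : ℝ) (h1 : 0 < Qs c (A * x ^ 2) (B * w ^ 2))
    (h2 : 0 < Qs c (A * x ^ 2) (B * w' ^ 2)) :
    E3 c A B x x w w' = x * (w + w') / (Qs c (A * x ^ 2) (B * w ^ 2) *
      Qs c (A * x ^ 2) (B * w' ^ 2) *
      (Qs c (A * x ^ 2) (B * w ^ 2) + Qs c (A * x ^ 2) (B * w' ^ 2))) := by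
  unfold E3
  set r := Qs c (A * x ^ 2) (B * w ^ 2)
  set t := Qs c (A * x ^ 2) (B * w' ^ 2)
  field_simp

end Pool.Agent.N1F
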