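import Pool.Agent.N1.M2g
import Pool.Agent.N1.W4

/-!
N1F: product densities without cut-offs near the coordinate axes. Definitions.

`al`, `be` are the sizes of the two coordinates, `A = al ^ 2`, `B = be ^ 2`.
-/

namespace Pool.Agent.N1F

open MeasureTheory Set Metric Pool.Agent.MP_6cbfb8_an Pool.Agent.MST Pool.Agent.N1
open scoped ENNReal Real ContDiff

/-- A local block in one coordinate: `u = (y, a, z)`. -/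
def LB (sy sx sz y x z δ : ℝ) (u : V) : Prop :=
  |u.1 / sy - y| ≤ δ ∧ |u.2.1 / sx - x| ≤ δ ∧ |u.2.2 / sz - z| ≤ δ

/-- A global block in one coordinate: `u = (y, a, z)`. -/
def GB (sy sx sz K : ℝ) (u : V) : Prop :=
  (1 / K ≤ |u.1 / sy| ∧ |u.1 / sy| ≤ K) ∧ (1 / K ≤ u.2.1 / sx ∧ u.2.1 / sx ≤ K) ∧
    (1 / K ≤ |u.2.2 / sz| ∧ |u.2.2 / sz| ≤ K)

/-- The base points. -/
def Bs (c A B : ℝ) (x : ℝ × ℝ) : Prop :=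
  0 ≤ A ∧ 0 ≤ B ∧ A * B = 0 ∧ 0 < x.1 ∧ 0 < x.2 ∧ A * x.1 ^ 2 + B * x.2 ^ 2 ≤ 1 - c ^ 2 / 4

/-- The value at the base point of the function whose zero is dangerous. -/
noncomputable def nb (B : ℝ) (x y : ℝ × ℝ) : ℝ :=
  2 * y.1 / x.1 + 2 * y.2 * x.2 / (1 - B * x.2 ^ 2)

/-- Neighbourhood of a base point, type N: `y = (al be² ρ y₁', be ρ y₂')`. -/
def NbF (al be δ ρ : ℝ) (x0 y0 : ℝ × ℝ) (q : V × V) : Prop :=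
  |q.1.1 / (al * be ^ 2 * ρ) - y0.1| ≤ δ ∧ |q.2.1 / (be * ρ) - y0.2| ≤ δ ∧
    |q.1.2.1 / al - x0.1| ≤ δ ∧ |q.2.2.1 / be - x0.2| ≤ δ ∧
    |q.1.2.2 / al| ≤ δ ∧ |q.2.2.2 / be| ≤ δ

/-- Admissible sizes near `(A0, B0)`. -/
def Sz (al be A0 B0 δ : ℝ) : Prop :=
  0 < al ∧ al ≤ 1 ∧ 0 < be ∧ be ≤ 1 ∧ |al ^ 2 - A0| < δ ∧ |be ^ 2 - B0| < δ

/-- Support of a family `α (y, a)` in a cap of length `r al` inside `[al, 2 al]`, with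
`|y| ≤ r al` automatically. -/
def CapS (al r x sy K : ℝ) (α : ℝ × ℝ → ℂ) : Prop :=
  ∀ p, α p ≠ 0 → al ≤ p.2 ∧ p.2 ≤ 2 * al ∧ al ≤ p.2 - p.1 ∧ p.2 - p.1 ≤ 2 * al ∧
    |p.2 - x| ≤ r * al ∧ |p.2 - p.1 - x| ≤ r * al ∧ 1 / K ≤ |p.1 / sy| ∧ |p.1 / sy| ≤ K

/-- Support of `G` in a cap. -/
def CapG (al r x : ℝ) (G : ℝ → ℂ) : Prop :=
  ∀ a, G a ≠ 0 → al ≤ a ∧ a ≤ 2 * al ∧ |a - x| ≤ r * al

end Pool.Agent.N1F
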