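import Pool.Agent.N1F.A3b
import Pool.Agent.N1F.Defs

/-!
N1F, block A3: the normal form, definitions and special values.
-/

namespace Pool.Agent.N1F

open MeasureTheory Set Metric Pool.Agent.MP_6cbfb8_an Pool.Agent.MST Pool.Agent.N1
open scoped ENNReal Real ContDiff Topology

/-- The variables `(A, B, ρ, γ, κ, a, b)`; `a`, `b` in midpoint form. -/
abbrev MM : Type := ℝ × ℝ × ℝ × ℝ × ℝ × V × V

/-- Points in the first coordinate. -/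
noncomputable def px : Fin 7 → MM → ℝ :=
  ![fun x => x.2.2.2.2.2.1.2.1 + x.2.2.2.1 * x.2.2.2.2.2.1.2.2 / 2,
    fun x => x.2.2.2.2.2.1.2.1 + x.2.2.2.1 * x.2.2.2.2.2.1.2.2 / 2 -
      x.2.1 * x.2.2.1 * x.2.2.2.2.2.1.1,
    fun x => x.2.2.2.2.2.1.2.1 - x.2.2.2.1 * x.2.2.2.2.2.1.2.2 / 2,
    fun x => x.2.2.2.2.2.1.2.1 - x.2.2.2.1 * x.2.2.2.2.2.1.2.2 / 2 -
      x.2.1 * x.2.2.1 * x.2.2.2.2.2.1.1,
    fun x => x.2.2.2.2.2.1.2.1,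
    fun x => x.2.2.2.2.2.1.2.1 - x.2.1 * x.2.2.1 * x.2.2.2.2.2.1.1,
    fun _ => 0]

/-- Points in the second coordinate. -/
noncomputable def pw : Fin 7 → MM → ℝ :=
  ![fun x => x.2.2.2.2.2.2.2.1 + x.1 * x.2.2.2.2.1 * x.2.2.2.1 * x.2.2.2.2.2.2.2.2 / 2,
    fun x => x.2.2.2.2.2.2.2.1 + x.1 * x.2.2.2.2.1 * x.2.2.2.1 * x.2.2.2.2.2.2.2.2 / 2 -
      x.2.2.1 * x.2.2.2.2.2.2.1,
    fun x => x.2.2.2.2.2.2.2.1 - x.1 * x.2.2.2.2.1 * x.2.2.2.1 * x.2.2.2.2.2.2.2.2 / 2,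
    fun x => x.2.2.2.2.2.2.2.1 - x.1 * x.2.2.2.2.1 * x.2.2.2.1 * x.2.2.2.2.2.2.2.2 / 2 -
      x.2.2.1 * x.2.2.2.2.2.2.1,
    fun x => x.2.2.2.2.2.2.2.1,
    fun x => x.2.2.2.2.2.2.2.1 - x.2.2.1 * x.2.2.2.2.2.2.1,
    fun _ => 0]

/-- Good points. -/
def gd (c : ℝ) (x : MM) : Prop :=
  (∀ i j : Fin 7, c ^ 2 / 8 < 1 - x.1 * px i x ^ 2 - x.2.1 * pw j x ^ 2) ∧
  (∀ i : Fin 7, i ≠ 6 → 0 < px i x) ∧ (∀ j : Fin 7, j ≠ 6 → 0 < pw j x) ∧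
  x.2.2.2.2.2.1.2.2 ≠ 0

/-- `√(1 - A X_i² - B W_j²)` -/
noncomputable def qq (c : ℝ) (i j : Fin 7) (x : MM) : ℝ :=
  Qs c (x.1 * px i x ^ 2) (x.2.1 * pw j x ^ 2)

/-- The divided phase. -/
noncomputable def Fh (c : ℝ) (x : MM) : ℝ :=
  -(x.2.2.2.2.2.1.1 * x.2.2.2.2.2.1.2.2 *
      E1 c x.1 (px 0 x) (px 1 x) (px 2 x) (px 3 x) (x.2.1 * pw 2 x ^ 2) +
    x.2.2.2.2.1 * (x.2.2.2.2.2.2.1 * x.2.2.2.2.2.2.2.2 *
      E1 c x.2.1 (pw 0 x) (pw 1 x) (pw 2 x) (pw 3 x) (x.1 * px 1 x ^ 2)) +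
    x.1 * x.2.1 * x.2.2.2.2.1 * (x.2.2.2.2.2.1.1 * x.2.2.2.2.2.2.2.2 *
      E3 c x.1 x.2.1 (px 0 x) (px 1 x) (pw 0 x) (pw 2 x)) +
    x.2.2.2.2.2.1.2.2 * x.2.2.2.2.2.2.1 *
      E3 c x.1 x.2.1 (px 1 x) (px 3 x) (pw 2 x) (pw 3 x))

/-- `w` -/
noncomputable def kA (c : ℝ) (x : MM) : ℝ :=
  x.2.2.2.2.2.1.1 * (qq c 0 6 x + qq c 2 6 x) / (px 0 x * qq c 2 6 x + px 2 x * qq c 0 6 x)

/-- `l` -/
noncomputable def hA (c : ℝ) (x : MM) : ℝ :=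
  (qq c 0 6 x + qq c 2 6 x) ^ 2 / (4 * px 4 x * x.2.2.2.2.2.1.2.2)

/-- `-σ` -/
noncomputable def sB (c : ℝ) (x : MM) : ℝ :=
  x.2.2.2.2.2.2.1 * (pw 4 x + pw 5 x) / (qq c 6 4 x * (qq c 6 5 x + qq c 6 4 x))

/-- `m` -/
noncomputable def fB (c : ℝ) (x : MM) : ℝ :=
  x.2.2.2.2.2.2.2.2 * (x.2.2.2.2.2.2.1 * (pw 4 x + pw 5 x)) /
    (qq c 6 4 x * (pw 4 x * qq c 6 5 x + pw 5 x * qq c 6 4 x))

/-- The unit. -/
noncomputable def vV (c : ℝ) (x : MM) : ℝ :=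
  qq c 6 4 x * (px 4 x * qq c 6 5 x + px 5 x * qq c 6 4 x) * qq c 4 6 x ^ 3 *
      (2 * px 4 x * x.2.2.2.2.2.1.2.2) /
    (qq c 4 4 x * qq c 5 5 x * (px 4 x * qq c 5 5 x + px 5 x * qq c 4 4 x) *
      (qq c 0 6 x * qq c 2 6 x * (qq c 0 6 x + qq c 2 6 x)))

/-- The remainder. -/
noncomputable def Dd (c : ℝ) (x : MM) : ℝ :=
  Fh c x / (-vV c x) - (kA c x + sB c x + x.2.2.2.2.1 * (hA c x * fB c x))

lemma px_cd (i : Fin 7) : ContDiff ℝ ∞ (px i) := by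
  unfold px
  fin_cases i <;> simp only [Fin.zero_eta, Fin.mk_one, Fin.reduceFinMk, Matrix.cons_val] <;>
    fun_prop

lemma pw_cd (i : Fin 7) : ContDiff ℝ ∞ (pw i) := by
  unfold pw
  fin_cases i <;> simp only [Fin.zero_eta, Fin.mk_one, Fin.reduceFinMk, Matrix.cons_val] <;>
    fun_prop

lemma qq_pos (c : ℝ) (hc : 0 < c) (x : MM) (h : gd c x) (i j : Fin 7) : 0 < qq c i j x :=
  Qs_pos c hc _ _ (h.1 i j).le

lemma qq_sq (c : ℝ) (hc : 0 < c) (x : MM) (h : gd c x) (i j : Fin 7) :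
    qq c i j x ^ 2 = 1 - x.1 * px i x ^ 2 - x.2.1 * pw j x ^ 2 :=
  Qs_sq c hc _ _ (h.1 i j).le

lemma vV_pos (c : ℝ) (hc : 0 < c) (x : MM) (h : gd c x) : vV c x ≠ 0 := by
  have q := qq_pos c hc x h
  have p4 := h.2.1 4 (by decide)
  have p5 := h.2.1 5 (by decide)
  have hz := h.2.2.2
  unfold vV
  have h1 := q 6 4
  have h2 := q 6 5
  have h3 := q 4 6
  have h4 := q 4 4
  have h5 := q 5 5
  have h6 := q 0 6
  have h7 := q 2 6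
  apply div_ne_zero
  · refine mul_ne_zero (by positivity) (mul_ne_zero (by positivity) hz)
  · positivity

lemma qq_cd (c : ℝ) (hc : 0 < c) (i j : Fin 7) : ContDiff ℝ ∞ (qq c i j) := by
  rw [contDiff_iff_contDiffAt]
  intro x
  exact Qs_cd c hc (contDiffAt_fst.mul ((px_cd i).contDiffAt.pow 2))
    ((by fun_prop : ContDiffAt ℝ ∞ (fun x : MM => x.2.1) x).mul ((pw_cd j).contDiffAt.pow 2))

lemma Fh_cd (c : ℝ) (hc : 0 < c) (x : MM) (h : gd c x) : ContDiffAt ℝ ∞ (Fh c) x := by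
  have hA : ContDiffAt ℝ ∞ (fun x : MM => x.1) x := by fun_prop
  have hB : ContDiffAt ℝ ∞ (fun x : MM => x.2.1) x := by fun_prop
  have hX : ∀ i, ContDiffAt ℝ ∞ (px i) x := fun i => (px_cd i).contDiffAt
  have hW : ∀ i, ContDiffAt ℝ ∞ (pw i) x := fun i => (pw_cd i).contDiffAt
  have h1 := h.1
  have e1 := E1_cd c hc hA (hX 0) (hX 1) (hX 2) (hX 3) (hB.mul ((hW 2).pow 2)) (h1 0 2) (h1 1 2)
    (h1 2 2) (h1 3 2)
  have k : ∀ i j : Fin 7, c ^ 2 / 8 < 1 - x.2.1 * pw j x ^ 2 - x.1 * px i x ^ 2 := by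
    intro i j
    have := h1 i j
    linarith
  have e2 := E1_cd c hc hB (hW 0) (hW 1) (hW 2) (hW 3) (hA.mul ((hX 1).pow 2)) (k 1 0) (k 1 1)
    (k 1 2) (k 1 3)
  have e3 := E3_cd c hc hA hB (hX 0) (hX 1) (hW 0) (hW 2) (h1 0 0) (h1 1 0) (h1 0 2) (h1 1 2)
  have e4 := E3_cd c hc hA hB (hX 1) (hX 3) (hW 2) (hW 3) (h1 1 2) (h1 3 2) (h1 1 3) (h1 3 3)
  exact (((((by fun_prop : ContDiffAt ℝ ∞ (fun x : MM => x.2.2.2.2.2.1.1 *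
    x.2.2.2.2.2.1.2.2) x).mul e1).add
    ((by fun_prop : ContDiffAt ℝ ∞ (fun x : MM => x.2.2.2.2.1) x).mul
      ((by fun_prop : ContDiffAt ℝ ∞ (fun x : MM => x.2.2.2.2.2.2.1 *
    x.2.2.2.2.2.2.2.2) x).mul e2))).add
    ((by fun_prop : ContDiffAt ℝ ∞ (fun x : MM => x.1 * x.2.1 * x.2.2.2.2.1) x).mul
      ((by fun_prop : ContDiffAt ℝ ∞ (fun x : MM => x.2.2.2.2.2.1.1 *
    x.2.2.2.2.2.2.2.2) x).mul e3))).add
    ((by fun_prop : ContDiffAt ℝ ∞ (fun x : MM => x.2.2.2.2.2.1.2.2 *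
    x.2.2.2.2.2.2.1) x).mul e4)).neg

lemma kA_cd (c : ℝ) (hc : 0 < c) (x : MM) (h : gd c x) : ContDiffAt ℝ ∞ (kA c) x := by
  have hX : ∀ i, ContDiffAt ℝ ∞ (px i) x := fun i => (px_cd i).contDiffAt
  have hq : ∀ i j, ContDiffAt ℝ ∞ (qq c i j) x := fun i j => (qq_cd c hc i j).contDiffAt
  have q := qq_pos c hc x h
  have p0 := h.2.1 0 (by decide)
  have p2 := h.2.1 2 (by decide)
  have q1 := q 0 6
  have q2 := q 2 6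
  exact ContDiffAt.div ((by fun_prop : ContDiffAt ℝ ∞ (fun x : MM => x.2.2.2.2.2.1.1) x).mul
    ((hq 0 6).add (hq 2 6))) (((hX 0).mul (hq 2 6)).add ((hX 2).mul (hq 0 6))) (by positivity)

lemma hA_cd (c : ℝ) (hc : 0 < c) (x : MM) (h : gd c x) : ContDiffAt ℝ ∞ (hA c) x := by
  have hX : ∀ i, ContDiffAt ℝ ∞ (px i) x := fun i => (px_cd i).contDiffAt
  have hq : ∀ i j, ContDiffAt ℝ ∞ (qq c i j) x := fun i j => (qq_cd c hc i j).contDiffAt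
  have p4 := h.2.1 4 (by decide)
  have hz := h.2.2.2
  exact ContDiffAt.div (((hq 0 6).add (hq 2 6)).pow 2) ((contDiffAt_const.mul (hX 4)).mul
    (by fun_prop : ContDiffAt ℝ ∞ (fun x : MM => x.2.2.2.2.2.1.2.2) x))
    (mul_ne_zero (by positivity) hz)

lemma sB_cd (c : ℝ) (hc : 0 < c) (x : MM) (h : gd c x) : ContDiffAt ℝ ∞ (sB c) x := by
  have hW : ∀ i, ContDiffAt ℝ ∞ (pw i) x := fun i => (pw_cd i).contDiffAt
  have hq : ∀ i j, ContDiffAt ℝ ∞ (qq c i j) x := fun i j => (qq_cd c hc i j).contDiffAt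
  have q := qq_pos c hc x h
  have q1 := q 6 4
  have q2 := q 6 5
  exact ContDiffAt.div ((by fun_prop : ContDiffAt ℝ ∞ (fun x : MM => x.2.2.2.2.2.2.1) x).mul
    ((hW 4).add (hW 5))) ((hq 6 4).mul ((hq 6 5).add (hq 6 4))) (by positivity)

lemma fB_cd (c : ℝ) (hc : 0 < c) (x : MM) (h : gd c x) : ContDiffAt ℝ ∞ (fB c) x := by
  have hW : ∀ i, ContDiffAt ℝ ∞ (pw i) x := fun i => (pw_cd i).contDiffAt
  have hq : ∀ i j, ContDiffAt ℝ ∞ (qq c i j) x := fun i j => (qq_cd c hc i j).contDiffAt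
  have q := qq_pos c hc x h
  have q1 := q 6 4
  have q2 := q 6 5
  have p4 := h.2.2.1 4 (by decide)
  have p5 := h.2.2.1 5 (by decide)
  exact ContDiffAt.div ((by fun_prop : ContDiffAt ℝ ∞ (fun x : MM => x.2.2.2.2.2.2.2.2) x).mul
    ((by fun_prop : ContDiffAt ℝ ∞ (fun x : MM => x.2.2.2.2.2.2.1) x).mul
    ((hW 4).add (hW 5)))) ((hq 6 4).mul (((hW 4).mul (hq 6 5)).add ((hW 5).mul (hq 6 4))))
    (by positivity)

lemma vV_cd (c : ℝ) (hc : 0 < c) (x : MM) (h : gd c x) : ContDiffAt ℝ ∞ (vV c) x := by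
  have hX : ∀ i, ContDiffAt ℝ ∞ (px i) x := fun i => (px_cd i).contDiffAt
  have hq : ∀ i j, ContDiffAt ℝ ∞ (qq c i j) x := fun i j => (qq_cd c hc i j).contDiffAt
  have q := qq_pos c hc x h
  have p4 := h.2.1 4 (by decide)
  have p5 := h.2.1 5 (by decide)
  have h4 := q 4 4
  have h5 := q 5 5
  have h6 := q 0 6
  have h7 := q 2 6
  exact ContDiffAt.div ((((hq 6 4).mul (((hX 4).mul (hq 6 5)).add ((hX 5).mul (hq 6 4)))).mul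
    ((hq 4 6).pow 3)).mul ((contDiffAt_const.mul (hX 4)).mul
    (by fun_prop : ContDiffAt ℝ ∞ (fun x : MM => x.2.2.2.2.2.1.2.2) x)))
    ((((hq 4 4).mul (hq 5 5)).mul (((hX 4).mul (hq 5 5)).add ((hX 5).mul (hq 4 4)))).mul
      (((hq 0 6).mul (hq 2 6)).mul ((hq 0 6).add (hq 2 6)))) (by positivity)

lemma Dd_cd (c : ℝ) (hc : 0 < c) (x : MM) (h : gd c x) : ContDiffAt ℝ ∞ (Dd c) x :=
  (ContDiffAt.div (Fh_cd c hc x h) (vV_cd c hc x h).neg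
    (neg_ne_zero.2 (vV_pos c hc x h))).sub
    (((kA_cd c hc x h).add (sB_cd c hc x h)).add
      ((by fun_prop : ContDiffAt ℝ ∞ (fun x : MM => x.2.2.2.2.1) x).mul
        ((hA_cd c hc x h).mul (fB_cd c hc x h))))

end Pool.Agent.N1F
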