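import Pool.Agent.N1F.A3c

/-!
N1F, block A3: the remainder vanishes at `A = 0`, at `B = 0`, and at `κ = γ = 0`.
-/

namespace Pool.Agent.N1F

open MeasureTheory Set Metric Pool.Agent.MP_6cbfb8_an Pool.Agent.MST Pool.Agent.N1
open scoped ENNReal Real ContDiff Topology

lemma gd_c8 (c : ℝ) (x : MM) (h : gd c x) : c ^ 2 / 8 ≤ 1 := by
  have := h.1 6 6
  have h6 : px 6 x = 0 := rfl
  have h7 : pw 6 x = 0 := rfl
  rw [h6, h7] at this
  linarith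

lemma Dd_A0 (c : ℝ) (hc : 0 < c) (x : MM) (h : gd c x) (hA : x.1 = 0) : Dd c x = 0 := by
  obtain ⟨A, B, ρ, γ, κ, ⟨y1, a, z1⟩, ⟨y2, b, z2⟩⟩ := x
  simp only at hA
  subst hA
  have c8 := gd_c8 c _ h
  have r1 := qq_pos c hc _ h 6 4
  have r2 := qq_pos c hc _ h 6 5
  have s1 := qq_sq c hc _ h 6 4
  have s2 := qq_sq c hc _ h 6 5
  have g1 := h.1 6 4
  have g2 := h.1 6 5
  have xa := h.2.1 4 (by decide)
  have xm := h.2.1 5 (by decide)
  have wa := h.2.2.1 4 (by decide)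
  have wm := h.2.2.1 5 (by decide)
  have hz : z1 ≠ 0 := h.2.2.2
  unfold Dd Fh kA hA sB fB vV
  unfold qq at *
  set x : MM := (0, B, ρ, γ, κ, (y1, a, z1), (y2, b, z2)) with hx
  have W0 : pw 0 x = b := by show b + 0 * κ * γ * z2 / 2 = b; ring
  have W2 : pw 2 x = b := by show b - 0 * κ * γ * z2 / 2 = b; ring
  have W4 : pw 4 x = b := rfl
  have W1 : pw 1 x = pw 5 x := by
    show b + 0 * κ * γ * z2 / 2 - ρ * y2 = b - ρ * y2; ring
  have W3 : pw 3 x = pw 5 x := by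
    show b - 0 * κ * γ * z2 / 2 - ρ * y2 = b - ρ * y2; ring
  have W5 : pw 5 x = b - ρ * y2 := rfl
  have W6 : pw 6 x = 0 := rfl
  have X13 : px 1 x + px 3 x = 2 * px 5 x := by
    show a + γ * z1 / 2 - B * ρ * y1 + (a - γ * z1 / 2 - B * ρ * y1) = 2 * (a - B * ρ * y1)
    ring
  have X4 : px 4 x = a := rfl
  have X02 : px 0 x + px 2 x = 2 * a := by
    show a + γ * z1 / 2 + (a - γ * z1 / 2) = 2 * a
    ring
  have X5 : px 5 x = a - B * ρ * y1 := rfl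
  rw [W4] at r1 s1 g1 wa
  have hx1 : x.1 = 0 := rfl
  have hx2 : x.2.1 = B := rfl
  have hx3 : x.2.2.2.2.2.1 = (y1, a, z1) := rfl
  have hx4 : x.2.2.2.2.2.2 = (y2, b, z2) := rfl
  have hx5 : x.2.2.2.2.1 = κ := rfl
  rw [hx1, hx2, hx3, hx4, hx5, W0, W1, W2, W3, W4]
  rw [hx1, hx2] at r1 r2 s1 s2 g1 g2
  rw [W6]
  simp only [zero_mul, mul_zero, ne_eq, OfNat.ofNat_ne_zero, not_false_eq_true, zero_pow] at *
  rw [E1_v1 c _ _ _ _ _ r1, Qs_zero c hc c8]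
  have g1' : c ^ 2 / 8 < 1 - B * b ^ 2 - 0 := by linarith
  have g2' : c ^ 2 / 8 < 1 - B * pw 5 x ^ 2 - 0 := by linarith
  rw [E1_v2 c hc B b (pw 5 x) 0 wa wm g1' g2', E3_v4 c B _ _ _ _ r1 r2, X13]
  rw [Qs_comm c (B * b ^ 2) 0, Qs_comm c (B * pw 5 x ^ 2) 0]
  set r := Qs c 0 (B * b ^ 2)
  set t := Qs c 0 (B * pw 5 x ^ 2)
  have hrt : t ^ 2 - r ^ 2 = B * ρ * y2 * (b + pw 5 x) := by
    rw [s1, s2, W5]; ring
  have xs : px 0 x * 1 + px 2 x * 1 = 2 * a := by rw [mul_one, mul_one]; exact X02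
  rw [xs, X4]
  rw [X4] at xa
  have hyy : B * ρ * y1 = a - px 5 x := by rw [X5]; ring
  have d1 : a * t + px 5 x * r ≠ 0 := by positivity
  have d2 : b * t + pw 5 x * r ≠ 0 := by positivity
  field_simp
  linear_combination (8 * (t + r) * z1 * (b * t + r * pw 5 x) * y1) * hrt +
    (8 * (t + r) * z1 * (b * t + r * pw 5 x) * y2 * (b + pw 5 x)) * hyy

lemma Dd_B0 (c : ℝ) (hc : 0 < c) (x : MM) (h : gd c x) (hB : x.2.1 = 0) : Dd c x = 0 := by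
  obtain ⟨A, B, ρ, γ, κ, ⟨y1, a, z1⟩, ⟨y2, b, z2⟩⟩ := x
  simp only at hB
  subst hB
  have c8 := gd_c8 c _ h
  have r1 := qq_pos c hc _ h 0 6
  have r2 := qq_pos c hc _ h 2 6
  have r3 := qq_pos c hc _ h 4 6
  have s1 := qq_sq c hc _ h 0 6
  have s2 := qq_sq c hc _ h 2 6
  have s3 := qq_sq c hc _ h 4 6
  have x0 := h.2.1 0 (by decide)
  have x2 := h.2.1 2 (by decide)
  have xa := h.2.1 4 (by decide)
  have wa := h.2.2.1 4 (by decide)
  have wm := h.2.2.1 5 (by decide)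
  have hz : z1 ≠ 0 := h.2.2.2
  unfold Dd Fh kA hA sB fB vV
  unfold qq at *
  set x : MM := (A, 0, ρ, γ, κ, (y1, a, z1), (y2, b, z2)) with hx
  have X1 : px 1 x = px 0 x := by
    show a + γ * z1 / 2 - 0 * ρ * y1 = a + γ * z1 / 2; ring
  have X3 : px 3 x = px 2 x := by
    show a - γ * z1 / 2 - 0 * ρ * y1 = a - γ * z1 / 2; ring
  have X5 : px 5 x = px 4 x := by
    show a - 0 * ρ * y1 = a; ring
  have X4 : px 4 x = a := rfl
  have X6 : px 6 x = 0 := rfl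
  have X0 : px 0 x = a + γ * z1 / 2 := rfl
  have X2 : px 2 x = a - γ * z1 / 2 := rfl
  have W6 : pw 6 x = 0 := rfl
  have W23 : pw 2 x + pw 3 x = 2 * b - ρ * y2 - A * κ * γ * z2 := by
    show b - A * κ * γ * z2 / 2 + (b - A * κ * γ * z2 / 2 - ρ * y2) = _
    ring
  have W45 : pw 4 x + pw 5 x = 2 * b - ρ * y2 := by
    show b + (b - ρ * y2) = _
    ring
  have hx1 : x.1 = A := rfl
  have hx2 : x.2.1 = 0 := rfl
  have hx3 : x.2.2.2.2.2.1 = (y1, a, z1) := rfl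
  have hx4 : x.2.2.2.2.2.2 = (y2, b, z2) := rfl
  have hx5 : x.2.2.2.2.1 = κ := rfl
  rw [hx1, hx2, hx3, hx4, hx5, X1, X3, X5]
  rw [hx1, hx2, W6] at r1 r2 r3 s1 s2 s3
  rw [X6]
  simp only [zero_mul, mul_zero, ne_eq, OfNat.ofNat_ne_zero, not_false_eq_true, zero_pow] at *
  rw [E1_v3 c A _ _ _ r1 r2, E1_v1 c _ _ _ _ _ (by
    rw [Qs_comm]; exact r1), Qs_comm c 0 (A * px 0 x ^ 2), E3_v5 c A _ _ _ _ r1 r2, Qs_zero c hc c8,
    W23]
  set r := Qs c (A * px 0 x ^ 2) 0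
  set t := Qs c (A * px 2 x ^ 2) 0
  set p := Qs c (A * px 4 x ^ 2) 0
  have f1 : pw 4 x * 1 + pw 5 x * 1 = 2 * b - ρ * y2 := by rw [mul_one, mul_one]; exact W45
  have f2 : 0 < 2 * b - ρ * y2 := by rw [← W45]; positivity
  rw [f1, W45]
  have hrt : t ^ 2 - r ^ 2 = 2 * A * γ * z1 * a := by
    rw [s1, s2, X0, X2]; ring
  rw [X4]
  rw [X4] at xa
  have d1 : px 0 x * t + px 2 x * r ≠ 0 := by positivity
  have X02 : px 0 x + px 2 x = 2 * a := by rw [X0, X2]; ring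
  set S := 2 * b - ρ * y2 with hS
  rw [X02]
  field_simp
  linear_combination (8 * y1 * z1 * (px 0 x * t + r * px 2 x + px 2 x * t)) * s1 +
    (8 * y1 * z1 * px 0 x * r) * s2 -
    8 * y1 * z1 * ((px 0 x * t + r * px 2 x) * A * px 0 x - (r + t)) * X02 +
    (4 * y2 * z2 * κ * (px 0 x * t + r * px 2 x)) * hrt

end Pool.Agent.N1F
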