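import Pool.Agent.N1F.A3c

/-!
N1F, block A3: the remainder at `κ = γ = 0` and at `ρ = γ = 0`.
-/

namespace Pool.Agent.N1F

open MeasureTheory Set Metric Pool.Agent.MP_6cbfb8_an Pool.Agent.MST Pool.Agent.N1
open scoped ENNReal Real ContDiff Topology

lemma Dd_g0 (c : ℝ) (hc : 0 < c) (x : MM) (h : gd c x) (hγ : x.2.2.2.1 = 0)
    (hκ : x.2.2.2.2.1 = 0) (hB : x.2.1 ≠ 0) (hρ : x.2.2.1 ≠ 0) : Dd c x = 0 := by
  obtain ⟨A, B, ρ, γ, κ, ⟨y1, a, z1⟩, ⟨y2, b, z2⟩⟩ := x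
  simp only at hκ hγ hB hρ
  subst hκ
  subst hγ
  have r1 := qq_pos c hc _ h 6 4
  have r2 := qq_pos c hc _ h 6 5
  have r3 := qq_pos c hc _ h 4 6
  have q1 := qq_pos c hc _ h 4 4
  have q2 := qq_pos c hc _ h 5 4
  have q3 := qq_pos c hc _ h 5 5
  have s1 := qq_sq c hc _ h 6 4
  have s2 := qq_sq c hc _ h 6 5
  have t1 := qq_sq c hc _ h 4 4
  have t2 := qq_sq c hc _ h 5 4
  have t3 := qq_sq c hc _ h 5 5
  have g1 := h.1 4 4
  have g2 := h.1 5 4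
  have g3 := h.1 5 5
  have xa := h.2.1 4 (by decide)
  have xm := h.2.1 5 (by decide)
  have wa := h.2.2.1 4 (by decide)
  have wm := h.2.2.1 5 (by decide)
  have hz : z1 ≠ 0 := h.2.2.2
  unfold Dd Fh kA hA sB fB vV
  unfold qq at *
  set x : MM := (A, B, ρ, 0, 0, (y1, a, z1), (y2, b, z2)) with hx
  have X0 : px 0 x = a := by show a + 0 * z1 / 2 = a; ring
  have X2 : px 2 x = a := by show a - 0 * z1 / 2 = a; ring
  have X1 : px 1 x = px 5 x := by show a + 0 * z1 / 2 - B * ρ * y1 = a - B * ρ * y1; ring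
  have X3 : px 3 x = px 5 x := by show a - 0 * z1 / 2 - B * ρ * y1 = a - B * ρ * y1; ring
  have X5 : px 5 x = a - B * ρ * y1 := rfl
  have X4 : px 4 x = a := rfl
  have X6 : px 6 x = 0 := rfl
  have W0 : pw 0 x = b := by show b + A * 0 * 0 * z2 / 2 = b; ring
  have W2 : pw 2 x = b := by show b - A * 0 * 0 * z2 / 2 = b; ring
  have W1 : pw 1 x = pw 5 x := by show b + A * 0 * 0 * z2 / 2 - ρ * y2 = b - ρ * y2; ring
  have W3 : pw 3 x = pw 5 x := by show b - A * 0 * 0 * z2 / 2 - ρ * y2 = b - ρ * y2; ring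
  have W5 : pw 5 x = b - ρ * y2 := rfl
  have W4 : pw 4 x = b := rfl
  have W6 : pw 6 x = 0 := rfl
  have hx1 : x.1 = A := rfl
  have hx2 : x.2.1 = B := rfl
  have hx3 : x.2.2.2.2.2.1 = (y1, a, z1) := rfl
  have hx4 : x.2.2.2.2.2.2 = (y2, b, z2) := rfl
  have hx5 : x.2.2.2.2.1 = 0 := rfl
  rw [hx1, hx2, hx3, hx4, hx5, X0, X1, X2, X3, X4, W0, W1, W2, W3, W4]
  rw [X6, W6]
  simp only [hx1, hx2, X4, W4, X6, W6, ne_eq, OfNat.ofNat_ne_zero, not_false_eq_true, zero_pow,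
    mul_zero] at r1 r2 r3 q1 q2 q3 s1 s2 t1 t2 t3 g1 g2 g3 xa wa
  simp only [ne_eq, OfNat.ofNat_ne_zero, not_false_eq_true, zero_pow, mul_zero]
  rw [E1_v2 c hc A a (px 5 x) (B * b ^ 2) xa xm g1 g2, E3_v6 c A B _ _ _ q2 q3]
  set Rp := Qs c 0 (B * b ^ 2)
  set Rm := Qs c 0 (B * pw 5 x ^ 2)
  set P := Qs c (A * a ^ 2) 0
  set Q := Qs c (A * a ^ 2) (B * b ^ 2)
  set Q1 := Qs c (A * px 5 x ^ 2) (B * b ^ 2)
  set Q2 := Qs c (A * px 5 x ^ 2) (B * pw 5 x ^ 2)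
  have hBρ : B * ρ ≠ 0 := mul_ne_zero hB hρ
  set x5 := px 5 x
  set w5 := pw 5 x
  have hy1 : B * ρ * y1 = a - x5 := by rw [X5]; ring
  have hy2 : B * ρ * y2 * (b + w5) = B * (b ^ 2 - w5 ^ 2) := by rw [W5]; ring
  have L1 : B * ρ * (y1 * ((1 - B * b ^ 2) * (a + x5) / (Q * Q1 * (a * Q1 + x5 * Q)))) =
      a / Q - x5 / Q1 := by
    have e : B * ρ * (y1 * ((1 - B * b ^ 2) * (a + x5) / (Q * Q1 * (a * Q1 + x5 * Q)))) =
      (B * ρ * y1) * ((1 - B * b ^ 2) * (a + x5)) / (Q * Q1 * (a * Q1 + x5 * Q)) := by ring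
    rw [e, hy1, div_sub_div _ _ q1.ne' q2.ne', div_eq_div_iff (by positivity) (by positivity)]
    linear_combination (-(Q * Q1) * a ^ 2) * t2 + (Q * Q1 * x5 ^ 2) * t1
  have L2 : B * ρ * (y2 * (x5 * (b + w5) / (Q1 * Q2 * (Q1 + Q2)))) = x5 / Q1 - x5 / Q2 := by
    have e : B * ρ * (y2 * (x5 * (b + w5) / (Q1 * Q2 * (Q1 + Q2)))) =
      (B * ρ * y2 * (b + w5)) * x5 / (Q1 * Q2 * (Q1 + Q2)) := by ring
    rw [e, hy2, div_sub_div _ _ q2.ne' q3.ne', div_eq_div_iff (by positivity) (by positivity)]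
    linear_combination (Q1 * Q2 * x5) * t2 - (Q1 * Q2 * x5) * t3
  have L3 : B * ρ * (y1 / a + y2 * (b + w5) / (Rp * (Rm + Rp))) =
      (a * Rm - x5 * Rp) / (a * Rp) := by
    have e : B * ρ * (y1 / a + y2 * (b + w5) / (Rp * (Rm + Rp))) =
      (B * ρ * y1) / a + (B * ρ * y2 * (b + w5)) / (Rp * (Rm + Rp)) := by ring
    rw [e, hy1, hy2]
    have e2 : B * (b ^ 2 - w5 ^ 2) = (Rm - Rp) * (Rm + Rp) := by
      linear_combination s1 - s2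
    rw [e2]
    field_simp
    ring
  have L4 : Rp * (a * Rm + x5 * Rp) * a / (Q * Q2 * (a * Q2 + x5 * Q)) *
      ((a * Rm - x5 * Rp) / (a * Rp)) = a / Q - x5 / Q2 := by
    rw [div_mul_div_comm, div_sub_div _ _ q1.ne' q3.ne', div_eq_div_iff (by positivity)
      (by positivity)]
    have e3 : a ^ 2 * Rm ^ 2 - x5 ^ 2 * Rp ^ 2 = a ^ 2 * Q2 ^ 2 - x5 ^ 2 * Q ^ 2 := by
      rw [s1, s2, t1, t3]; ring
    linear_combination (Rp * a * Q * Q2) * e3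
  have hV : Rp * (a * Rm + x5 * Rp) * P ^ 3 * (2 * a * z1) /
      (Q * Q2 * (a * Q2 + x5 * Q) * (P * P * (P + P))) =
      z1 * (Rp * (a * Rm + x5 * Rp) * a / (Q * Q2 * (a * Q2 + x5 * Q))) := by
    field_simp
    ring
  have hk : y1 * (P + P) / (a * P + a * P) = y1 / a := by
    field_simp
  have hVne : z1 * (Rp * (a * Rm + x5 * Rp) * a / (Q * Q2 * (a * Q2 + x5 * Q))) ≠ 0 :=
    mul_ne_zero hz (by positivity)
  rw [hV, hk]
  set V1 := Rp * (a * Rm + x5 * Rp) * a / (Q * Q2 * (a * Q2 + x5 * Q)) with hV1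
  set F1 := (1 - B * b ^ 2) * (a + x5) / (Q * Q1 * (a * Q1 + x5 * Q))
  set F2 := x5 * (b + w5) / (Q1 * Q2 * (Q1 + Q2))
  set S2 := y2 * (b + w5) / (Rp * (Rm + Rp))
  have key : y1 * F1 + y2 * F2 = V1 * (y1 / a + S2) := by
    apply mul_left_cancel₀ hBρ
    have : B * ρ * (V1 * (y1 / a + S2)) = V1 * (B * ρ * (y1 / a + S2)) := by ring
    rw [this, L3, L4]
    linear_combination L1 + L2
  have hV1ne : V1 ≠ 0 := right_ne_zero_of_mul hVne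
  simp only [zero_mul, add_zero]
  rw [sub_eq_zero, div_eq_iff (neg_ne_zero.2 hVne)]
  linear_combination (-z1) * key

lemma Dd_base (c : ℝ) (hc : 0 < c) (x : MM) (h : gd c x) (hρ : x.2.2.1 = 0)
    (hγ : x.2.2.2.1 = 0) : Dd c x = x.1 * x.2.1 * (x.2.2.2.2.1 *
      (x.2.2.2.2.2.1.1 / x.2.2.2.2.2.1.2.2 * (x.2.2.2.2.2.2.2.1 * x.2.2.2.2.2.2.2.2 /
        (1 - x.2.1 * x.2.2.2.2.2.2.2.1 ^ 2)))) := by
  obtain ⟨A, B, ρ, γ, κ, ⟨y1, a, z1⟩, ⟨y2, b, z2⟩⟩ := x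
  simp only at hρ hγ
  subst hρ
  subst hγ
  have r1 := qq_pos c hc _ h 6 4
  have r3 := qq_pos c hc _ h 4 6
  have q1 := qq_pos c hc _ h 4 4
  have s1 := qq_sq c hc _ h 6 4
  have s3 := qq_sq c hc _ h 4 6
  have t1 := qq_sq c hc _ h 4 4
  have g1 := h.1 4 4
  have xa := h.2.1 4 (by decide)
  have wa := h.2.2.1 4 (by decide)
  have hz : z1 ≠ 0 := h.2.2.2
  unfold Dd Fh kA hA sB fB vV
  unfold qq at *
  set x : MM := (A, B, 0, 0, κ, (y1, a, z1), (y2, b, z2)) with hx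
  have X0 : px 0 x = a := by show a + 0 * z1 / 2 = a; ring
  have X2 : px 2 x = a := by show a - 0 * z1 / 2 = a; ring
  have X1 : px 1 x = a := by show a + 0 * z1 / 2 - B * 0 * y1 = a; ring
  have X3 : px 3 x = a := by show a - 0 * z1 / 2 - B * 0 * y1 = a; ring
  have X5 : px 5 x = a := by show a - B * 0 * y1 = a; ring
  have X4 : px 4 x = a := rfl
  have X6 : px 6 x = 0 := rfl
  have W0 : pw 0 x = b := by show b + A * κ * 0 * z2 / 2 = b; ring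
  have W2 : pw 2 x = b := by show b - A * κ * 0 * z2 / 2 = b; ring
  have W1 : pw 1 x = b := by show b + A * κ * 0 * z2 / 2 - 0 * y2 = b; ring
  have W3 : pw 3 x = b := by show b - A * κ * 0 * z2 / 2 - 0 * y2 = b; ring
  have W5 : pw 5 x = b := by show b - 0 * y2 = b; ring
  have W4 : pw 4 x = b := rfl
  have W6 : pw 6 x = 0 := rfl
  have hx1 : x.1 = A := rfl
  have hx2 : x.2.1 = B := rfl
  have hx3 : x.2.2.2.2.2.1 = (y1, a, z1) := rfl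
  have hx4 : x.2.2.2.2.2.2 = (y2, b, z2) := rfl
  have hx5 : x.2.2.2.2.1 = κ := rfl
  rw [hx1, hx2, hx3, hx4, hx5, X0, X1, X2, X3, X4, X5, W0, W1, W2, W3, W4, W5]
  rw [X6, W6]
  simp only [hx1, hx2, X4, W4, X6, W6, ne_eq, OfNat.ofNat_ne_zero, not_false_eq_true, zero_pow,
    mul_zero] at r1 r3 q1 s1 s3 t1 g1 xa wa
  simp only [ne_eq, OfNat.ofNat_ne_zero, not_false_eq_true, zero_pow, mul_zero]
  have g1' : c ^ 2 / 8 < 1 - B * b ^ 2 - A * a ^ 2 := by linarith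
  rw [E1_v2 c hc A a a (B * b ^ 2) xa xa g1 g1, E1_v2 c hc B b b (A * a ^ 2) wa wa g1' g1',
    E3_v6 c A B _ _ _ q1 q1, Qs_comm c (B * b ^ 2) (A * a ^ 2)]
  set R := Qs c 0 (B * b ^ 2)
  set P := Qs c (A * a ^ 2) 0
  set Q := Qs c (A * a ^ 2) (B * b ^ 2)
  have hR : 1 - B * b ^ 2 = R ^ 2 := by linarith
  have hP : 1 - A * a ^ 2 = P ^ 2 := by linarith
  rw [hR, hP]
  field_simp
  ring

end Pool.Agent.N1F
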