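import Pool.Agent.N1F.A3d
import Pool.Agent.N1F.A3e

/-!
N1F, block A3: the exact identity and the symmetry in `γ`.
-/

namespace Pool.Agent.N1F

open MeasureTheory Set Metric Pool.Agent.MP_6cbfb8_an Pool.Agent.MST Pool.Agent.N1
open scoped ENNReal Real ContDiff Topology

lemma Fh_id (c : ℝ) (hc : 0 < c) (x : MM) (h : gd c x) :
    x.1 * x.2.1 * x.2.2.1 * x.2.2.2.1 * Fh c x =
      qq c 0 0 x - qq c 1 1 x - qq c 2 2 x + qq c 3 3 x := by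
  obtain ⟨A, B, ρ, γ, κ, ⟨y1, a, z1⟩, ⟨y2, b, z2⟩⟩ := x
  have g := h.1
  unfold Fh
  unfold qq
  set x : MM := (A, B, ρ, γ, κ, (y1, a, z1), (y2, b, z2)) with hx
  have hx1 : x.1 = A := rfl
  have hx2 : x.2.1 = B := rfl
  have hx6 : x.2.2.1 = ρ := rfl
  have hx7 : x.2.2.2.1 = γ := rfl
  have hx3 : x.2.2.2.2.2.1 = (y1, a, z1) := rfl
  have hx4 : x.2.2.2.2.2.2 = (y2, b, z2) := rfl
  have hx5 : x.2.2.2.2.1 = κ := rfl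
  rw [hx1, hx2, hx3, hx4, hx5, hx6, hx7]
  simp only
  have X1 : px 0 x - B * ρ * y1 = px 1 x := rfl
  have X2 : px 0 x - γ * z1 = px 2 x := by
    show a + γ * z1 / 2 - γ * z1 = a - γ * z1 / 2
    ring
  have X3 : px 0 x - B * ρ * y1 - γ * z1 = px 3 x := by
    show a + γ * z1 / 2 - B * ρ * y1 - γ * z1 = a - γ * z1 / 2 - B * ρ * y1
    ring
  have X3' : px 1 x - γ * z1 = px 3 x := X3
  have W1 : pw 0 x - ρ * y2 = pw 1 x := rfl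
  have W2 : pw 0 x - A * κ * γ * z2 = pw 2 x := by
    show b + A * κ * γ * z2 / 2 - A * κ * γ * z2 = b - A * κ * γ * z2 / 2
    ring
  have W3 : pw 0 x - ρ * y2 - A * κ * γ * z2 = pw 3 x := by
    show b + A * κ * γ * z2 / 2 - ρ * y2 - A * κ * γ * z2 = b - A * κ * γ * z2 / 2 - ρ * y2
    ring
  have W3' : pw 2 x - ρ * y2 = pw 3 x := rfl
  have W3'' : pw 1 x - A * κ * γ * z2 = pw 3 x := W3
  have gg : ∀ i j : Fin 7, c ^ 2 / 8 ≤ 1 - A * px i x ^ 2 - B * pw j x ^ 2 := fun i j => (g i j).le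
  have gg' : ∀ i j : Fin 7, c ^ 2 / 8 ≤ 1 - B * pw j x ^ 2 - A * px i x ^ 2 := by
    intro i j
    have := gg i j
    linarith
  have e1 := E1_id c hc A (px 0 x) (B * ρ * y1) (γ * z1) (B * pw 2 x ^ 2)
    (gg 0 2) (by rw [X1]; exact gg 1 2) (by rw [X2]; exact gg 2 2) (by rw [X3]; exact gg 3 2)
  have e2 := E1_id c hc B (pw 0 x) (ρ * y2) (A * κ * γ * z2) (A * px 1 x ^ 2)
    (gg' 1 0) (by rw [W1]; exact gg' 1 1) (by rw [W2]; exact gg' 1 2) (by rw [W3]; exact gg' 1 3)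
  have e3 := E3_id c hc A B (px 0 x) (B * ρ * y1) (pw 0 x) (A * κ * γ * z2)
    (gg 0 0) (by rw [X1]; exact gg 1 0) (by rw [W2]; exact gg 0 2) (by rw [X1, W2]; exact gg 1 2)
  have e4 := E3_id c hc A B (px 1 x) (γ * z1) (pw 2 x) (ρ * y2)
    (gg 1 2) (by rw [X3']; exact gg 3 2) (by rw [W3']; exact gg 1 3) (by rw [X3', W3']; exact gg 3 3)
  rw [X1, X2, X3'] at e1
  rw [W1, W2, W3''] at e2
  rw [X1, W2] at e3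
  rw [X3', W3'] at e4
  rw [Qs_comm c (B * pw 0 x ^ 2), Qs_comm c (B * pw 1 x ^ 2), Qs_comm c (B * pw 2 x ^ 2),
    Qs_comm c (B * pw 3 x ^ 2)] at e2
  linear_combination (-1) * e1 - e2 - e3 - e4

/-- Reflection of `γ`. -/
def rfg (x : MM) : MM := (x.1, x.2.1, x.2.2.1, -x.2.2.2.1, x.2.2.2.2)

lemma px_r0 (x : MM) : px 0 (rfg x) = px 2 x := by
  show x.2.2.2.2.2.1.2.1 + -x.2.2.2.1 * x.2.2.2.2.2.1.2.2 / 2 =
    x.2.2.2.2.2.1.2.1 - x.2.2.2.1 * x.2.2.2.2.2.1.2.2 / 2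
  ring

lemma px_r2 (x : MM) : px 2 (rfg x) = px 0 x := by
  show x.2.2.2.2.2.1.2.1 - -x.2.2.2.1 * x.2.2.2.2.2.1.2.2 / 2 =
    x.2.2.2.2.2.1.2.1 + x.2.2.2.1 * x.2.2.2.2.2.1.2.2 / 2
  ring

lemma px_r1 (x : MM) : px 1 (rfg x) = px 3 x := by
  show x.2.2.2.2.2.1.2.1 + -x.2.2.2.1 * x.2.2.2.2.2.1.2.2 / 2 - x.2.1 * x.2.2.1 *
      x.2.2.2.2.2.1.1 =
    x.2.2.2.2.2.1.2.1 - x.2.2.2.1 * x.2.2.2.2.2.1.2.2 / 2 - x.2.1 * x.2.2.1 * x.2.2.2.2.2.1.1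
  ring

lemma px_r3 (x : MM) : px 3 (rfg x) = px 1 x := by
  show x.2.2.2.2.2.1.2.1 - -x.2.2.2.1 * x.2.2.2.2.2.1.2.2 / 2 - x.2.1 * x.2.2.1 *
      x.2.2.2.2.2.1.1 =
    x.2.2.2.2.2.1.2.1 + x.2.2.2.1 * x.2.2.2.2.2.1.2.2 / 2 - x.2.1 * x.2.2.1 * x.2.2.2.2.2.1.1
  ring

lemma pw_r0 (x : MM) : pw 0 (rfg x) = pw 2 x := by
  show x.2.2.2.2.2.2.2.1 + x.1 * x.2.2.2.2.1 * -x.2.2.2.1 * x.2.2.2.2.2.2.2.2 / 2 =
    x.2.2.2.2.2.2.2.1 - x.1 * x.2.2.2.2.1 * x.2.2.2.1 * x.2.2.2.2.2.2.2.2 / 2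
  ring

lemma pw_r2 (x : MM) : pw 2 (rfg x) = pw 0 x := by
  show x.2.2.2.2.2.2.2.1 - x.1 * x.2.2.2.2.1 * -x.2.2.2.1 * x.2.2.2.2.2.2.2.2 / 2 =
    x.2.2.2.2.2.2.2.1 + x.1 * x.2.2.2.2.1 * x.2.2.2.1 * x.2.2.2.2.2.2.2.2 / 2
  ring

lemma pw_r1 (x : MM) : pw 1 (rfg x) = pw 3 x := by
  show x.2.2.2.2.2.2.2.1 + x.1 * x.2.2.2.2.1 * -x.2.2.2.1 * x.2.2.2.2.2.2.2.2 / 2 -
      x.2.2.1 * x.2.2.2.2.2.2.1 =
    x.2.2.2.2.2.2.2.1 - x.1 * x.2.2.2.2.1 * x.2.2.2.1 * x.2.2.2.2.2.2.2.2 / 2 -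
      x.2.2.1 * x.2.2.2.2.2.2.1
  ring

lemma pw_r3 (x : MM) : pw 3 (rfg x) = pw 1 x := by
  show x.2.2.2.2.2.2.2.1 - x.1 * x.2.2.2.2.1 * -x.2.2.2.1 * x.2.2.2.2.2.2.2.2 / 2 -
      x.2.2.1 * x.2.2.2.2.2.2.1 =
    x.2.2.2.2.2.2.2.1 + x.1 * x.2.2.2.2.1 * x.2.2.2.1 * x.2.2.2.2.2.2.2.2 / 2 -
      x.2.2.1 * x.2.2.2.2.2.2.1
  ring

lemma px_r4 (x : MM) : px 4 (rfg x) = px 4 x := rfl
lemma px_r5 (x : MM) : px 5 (rfg x) = px 5 x := rfl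
lemma px_r6 (x : MM) : px 6 (rfg x) = px 6 x := rfl
lemma pw_r4 (x : MM) : pw 4 (rfg x) = pw 4 x := rfl
lemma pw_r5 (x : MM) : pw 5 (rfg x) = pw 5 x := rfl
lemma pw_r6 (x : MM) : pw 6 (rfg x) = pw 6 x := rfl

lemma Dd_even (c : ℝ) (hc : 0 < c) (x : MM) (h : gd c x) (h' : gd c (rfg x)) (hA0 : x.1 ≠ 0)
    (hB : x.2.1 ≠ 0) (hρ : x.2.2.1 ≠ 0) (hγ : x.2.2.2.1 ≠ 0) : Dd c (rfg x) = Dd c x := by
  have h1 := Fh_id c hc x h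
  have h2 := Fh_id c hc _ h'
  have r1 : (rfg x).1 = x.1 := rfl
  have r2 : (rfg x).2.1 = x.2.1 := rfl
  have r3 : (rfg x).2.2.1 = x.2.2.1 := rfl
  have r4 : (rfg x).2.2.2.1 = -x.2.2.2.1 := rfl
  have r5 : (rfg x).2.2.2.2 = x.2.2.2.2 := rfl
  have q : ∀ i j i' j' : Fin 7, px i (rfg x) = px i' x → pw j (rfg x) = pw j' x →
      qq c i j (rfg x) = qq c i' j' x := by
    intro i j i' j' k1 k2
    unfold qq
    rw [k1, k2, r1, r2]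
  have hF : Fh c (rfg x) = Fh c x := by
    rw [q 0 0 2 2 (px_r0 x) (pw_r0 x), q 1 1 3 3 (px_r1 x) (pw_r1 x),
      q 2 2 0 0 (px_r2 x) (pw_r2 x), q 3 3 1 1 (px_r3 x) (pw_r3 x), r1, r2, r3, r4] at h2
    have hne : x.1 * x.2.1 * x.2.2.1 * x.2.2.2.1 ≠ 0 :=
      mul_ne_zero (mul_ne_zero (mul_ne_zero hA0 hB) hρ) hγ
    apply mul_left_cancel₀ hne
    linarith
  have q06 := q 0 6 2 6 (px_r0 x) (pw_r6 x)
  have q26 := q 2 6 0 6 (px_r2 x) (pw_r6 x)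
  have q64 := q 6 4 6 4 (px_r6 x) (pw_r4 x)
  have q65 := q 6 5 6 5 (px_r6 x) (pw_r5 x)
  have q46 := q 4 6 4 6 (px_r4 x) (pw_r6 x)
  have q44 := q 4 4 4 4 (px_r4 x) (pw_r4 x)
  have q55 := q 5 5 5 5 (px_r5 x) (pw_r5 x)
  have e1 : kA c (rfg x) = kA c x := by
    unfold kA
    rw [q06, q26, px_r0, px_r2, r5]
    congr 1 <;> ring
  have e2 : hA c (rfg x) = hA c x := by
    unfold hA
    rw [q06, q26, px_r4, r5]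
    ring
  have e3 : sB c (rfg x) = sB c x := by
    unfold sB
    rw [q64, q65, pw_r4, pw_r5, r5]
  have e4 : fB c (rfg x) = fB c x := by
    unfold fB
    rw [q64, q65, pw_r4, pw_r5, r5]
  have e5 : vV c (rfg x) = vV c x := by
    unfold vV
    rw [q64, q65, q46, q44, q55, q06, q26, px_r4, px_r5, r5]
    ring
  unfold Dd
  rw [hF, e1, e2, e3, e4, e5, r5]

end Pool.Agent.N1F
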