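import Pool.Agent.N1F.A3a

/-!
N1F, block A3: divisions in two variables.
-/

namespace Pool.Agent.N1F

open MeasureTheory Set Metric Pool.Agent.MP_6cbfb8_an Pool.Agent.MST Pool.Agent.N1
open scoped ENNReal Real ContDiff Topology

lemma mem_sw {E : Type*} [NormedAddCommGroup E] (A B A0 B0 : ℝ) (e e0 : E) (r : ℝ) :
    (A, B, e) ∈ ball (A0, B0, e0) r ↔ (B, A, e) ∈ ball (B0, A0, e0) r := by
  simp only [mem_ball, Prod.dist_eq, max_lt_iff]
  tauto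

lemma mem_parts {E : Type*} [NormedAddCommGroup E] (A B A0 B0 : ℝ) (e e0 : E) (r : ℝ) :
    (A, B, e) ∈ ball (A0, B0, e0) r ↔ |A - A0| < r ∧ |B - B0| < r ∧ e ∈ ball e0 r := by
  simp only [mem_ball, Prod.dist_eq, max_lt_iff, Real.dist_eq]

theorem had2 {E : Type*} [NormedAddCommGroup E] [NormedSpace ℝ E] [FiniteDimensional ℝ E]
    (D : ℝ × ℝ × E → ℝ) (A0 B0 : ℝ) (e0 : E) (r : ℝ) (hr : 0 < r)
    (hD : ContDiffOn ℝ ∞ D (ball (A0, B0, e0) r))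
    (hA : ∀ B e, ((0 : ℝ), B, e) ∈ ball (A0, B0, e0) r → D (0, B, e) = 0)
    (hB : ∀ A e, (A, (0 : ℝ), e) ∈ ball (A0, B0, e0) r → D (A, 0, e) = 0) :
    ∃ r' : ℝ, 0 < r' ∧ r' ≤ r ∧ ∃ K : ℝ × ℝ × E → ℝ, ContDiffOn ℝ ∞ K (ball (A0, B0, e0) r') ∧
      ∀ x ∈ ball (A0, B0, e0) r', D x = x.1 * (x.2.1 * K x) := by
  obtain ⟨r1, hr1, hr1r, G, hG, hDG⟩ := had1 D A0 (B0, e0) r hr hD (fun e he => hA e.1 e.2 he)
  have hG0 : ∀ A e, (A, (0 : ℝ), e) ∈ ball (A0, B0, e0) r1 → G (A, 0, e) = 0 := by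
    intro A e hx
    have hcont : Continuous fun z : ℝ × E => (z.1, (0 : ℝ), z.2) := by fun_prop
    have hU : IsOpen {z : ℝ × E | (z.1, (0 : ℝ), z.2) ∈ ball (A0, B0, e0) r1} :=
      isOpen_ball.preimage hcont
    have := dens (fun z : ℝ × E => G (z.1, 0, z.2)) (fun _ => 0) _ hU
      (hG.continuousOn.comp hcont.continuousOn (fun z hz => hz)) continuousOn_const
      {z | z.1 ≠ 0} ((1 : ℝ), (0 : E)) (by
        intro z
        filter_upwards [ev_ne z.1] with t ht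
        simpa using ht) (by
        intro z hz hz1
        have h1 := hDG _ hz
        rw [hB _ _ (ball_subset_ball hr1r hz)] at h1
        rcases mul_eq_zero.1 h1.symm with h2 | h2
        · exact absurd h2 hz1
        · exact h2) (A, e) hx
    exact this
  have hG' : ContDiffOn ℝ ∞ (fun z : ℝ × ℝ × E => G (z.2.1, z.1, z.2.2)) (ball (B0, A0, e0) r1) := by
    have hs : ContDiff ℝ ∞ fun z : ℝ × ℝ × E => (z.2.1, z.1, z.2.2) := by fun_prop
    exact hG.comp hs.contDiffOn (fun z hz => (mem_sw z.2.1 z.1 A0 B0 z.2.2 e0 r1).2 hz)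
  obtain ⟨r2, hr2, hr2r, K, hK, hGK⟩ := had1 (fun z : ℝ × ℝ × E => G (z.2.1, z.1, z.2.2)) B0
    (A0, e0) r1 hr1 hG' (fun e he => hG0 e.1 e.2 ((mem_sw e.1 0 A0 B0 e.2 e0 r1).2 he))
  refine ⟨r2, hr2, hr2r.trans hr1r, fun z => K (z.2.1, z.1, z.2.2), ?_, ?_⟩
  · have hs : ContDiff ℝ ∞ fun z : ℝ × ℝ × E => (z.2.1, z.1, z.2.2) := by fun_prop
    exact hK.comp hs.contDiffOn (fun z hz => (mem_sw z.1 z.2.1 A0 B0 z.2.2 e0 r2).1 hz)
  · rintro ⟨A, B, e⟩ hx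
    have h1 := hDG _ (ball_subset_ball hr2r hx)
    have h2 := hGK (B, A, e) ((mem_sw A B A0 B0 e e0 r2).1 hx)
    simp only at h1 h2 ⊢
    rw [h1, h2]

theorem had3 {E : Type*} [NormedAddCommGroup E] [NormedSpace ℝ E] [FiniteDimensional ℝ E]
    (K : ℝ × ℝ × E → ℝ) (κ0 : ℝ) (e0 : E) (r : ℝ) (hr : 0 < r)
    (hK : ContDiffOn ℝ ∞ K (ball (κ0, 0, e0) r))
    (he : ∀ κ γ e, (κ, γ, e) ∈ ball (κ0, (0 : ℝ), e0) r → K (κ, -γ, e) = K (κ, γ, e))
    (hz : ∀ e, ((0 : ℝ), (0 : ℝ), e) ∈ ball (κ0, (0 : ℝ), e0) r → K (0, 0, e) = 0) :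
    ∃ r' : ℝ, 0 < r' ∧ r' ≤ r ∧ ∃ g1 g2 : ℝ × ℝ × E → ℝ,
      ContDiffOn ℝ ∞ g1 (ball (κ0, 0, e0) r') ∧ ContDiffOn ℝ ∞ g2 (ball (κ0, 0, e0) r') ∧
      ∀ x ∈ ball (κ0, (0 : ℝ), e0) r', K x = x.1 * g1 x + x.2.1 ^ 2 * g2 x := by
  by_cases hκ : κ0 = 0
  · subst hκ
    obtain ⟨r1, hr1, hr1r, G, hG, hKG⟩ := had1 (fun x : ℝ × ℝ × E => K x - K (0, x.2)) 0 (0, e0) r
      hr (hK.sub (hK.comp (contDiff_const.prodMk contDiff_snd).contDiffOn
        (fun z hz => had_mem z.1 z.2 _ _ hz))) (fun e _ => by simp)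
    have hN : ContDiffOn ℝ ∞ (fun z : ℝ × E => K (0, z)) (ball (0, e0) r) := by
      refine hK.comp (contDiff_const.prodMk contDiff_id).contDiffOn (fun z hz => ?_)
      rw [mem_ball, Prod.dist_eq, max_lt_iff]
      exact ⟨by simpa using hr, hz⟩
    have hmem : ∀ z : ℝ × E, z ∈ ball ((0 : ℝ), e0) r → ((0 : ℝ), z) ∈
        ball ((0 : ℝ), (0 : ℝ), e0) r := by
      intro z hz
      rw [mem_ball, Prod.dist_eq, max_lt_iff]
      exact ⟨by simpa using hr, hz⟩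
    obtain ⟨k, hk, hNk⟩ := had_even (fun z : ℝ × E => K (0, z)) e0 r hr hN (fun t e hte =>
      he 0 t e (hmem _ hte))
    refine ⟨min r1 (r / 2), lt_min hr1 (by linarith), (min_le_left _ _).trans hr1r, G,
      fun x => k x.2, hG.mono (ball_subset_ball (min_le_left _ _)),
      (hk.comp contDiff_snd).contDiffOn, ?_⟩
    rintro ⟨κ, γ, e⟩ hx
    have h1 := hKG _ (ball_subset_ball (min_le_left _ _) hx)
    have hx2 : (κ, γ, e) ∈ ball ((0 : ℝ), (0 : ℝ), e0) (r / 2) :=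
      ball_subset_ball (min_le_right _ _) hx
    have hx3 : (γ, e) ∈ ball ((0 : ℝ), e0) (r / 2) := by
      rw [mem_ball, Prod.dist_eq, max_lt_iff] at hx2
      exact hx2.2
    have h2 := hNk γ e hx3
    have h3 := hz e (hmem _ (had_mem γ e e0 r (ball_subset_ball (by linarith) hx3)))
    simp only at h1 h2 h3 ⊢
    rw [h3] at h2
    linarith
  · have hκ' : 0 < |κ0| := abs_pos.2 hκ
    have hne : ∀ x ∈ ball (κ0, (0 : ℝ), e0) (min r (|κ0| / 2)), x.1 ≠ 0 := by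
      intro x hx h
      rw [mem_ball, Prod.dist_eq, max_lt_iff, Real.dist_eq, h, zero_sub, abs_neg] at hx
      have := lt_of_lt_of_le hx.1 (min_le_right _ _)
      linarith
    refine ⟨min r (|κ0| / 2), lt_min hr (by linarith), min_le_left _ _, fun x => K x / x.1,
      fun _ => 0, ?_, contDiffOn_const, ?_⟩
    · exact ContDiffOn.div (hK.mono (ball_subset_ball (min_le_left _ _)))
        contDiff_fst.contDiffOn hne
    · intro x hx
      have := hne x hx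
      simp only [mul_zero, add_zero]
      field_simp

end Pool.Agent.N1F
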