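import Pool.Agent.N1F.A3f
import Pool.Agent.N1F.A3g

/-!
N1F, block A3: the remainder is `A B (κ g₁ + γ² g₂)`.
-/

namespace Pool.Agent.N1F

open MeasureTheory Set Metric Pool.Agent.MP_6cbfb8_an Pool.Agent.MST Pool.Agent.N1
open scoped ENNReal Real ContDiff Topology

lemma gd_nhds (c : ℝ) (x0 : MM) (h : gd c x0) : ∀ᶠ x in 𝓝 x0, gd c x := by
  unfold gd at h ⊢
  obtain ⟨h1, h2, h3, h4⟩ := h
  have e1 : ∀ᶠ x in 𝓝 x0, ∀ i j : Fin 7,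
      c ^ 2 / 8 < 1 - x.1 * px i x ^ 2 - x.2.1 * pw j x ^ 2 := by
    rw [Filter.eventually_all]
    intro i
    rw [Filter.eventually_all]
    intro j
    have hX := (px_cd i).continuous
    have hW := (pw_cd j).continuous
    have : Continuous fun x : MM => 1 - x.1 * px i x ^ 2 - x.2.1 * pw j x ^ 2 := by fun_prop
    exact this.continuousAt.eventually (lt_mem_nhds (h1 i j))
  have e2 : ∀ᶠ x in 𝓝 x0, ∀ i : Fin 7, i ≠ 6 → 0 < px i x := by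
    rw [Filter.eventually_all]
    intro i
    by_cases hi : i = 6
    · exact Filter.Eventually.of_forall fun _ hi' => absurd hi hi'
    · filter_upwards [(px_cd i).continuous.continuousAt.eventually (lt_mem_nhds (h2 i hi))]
        with x hx _
      exact hx
  have e3 : ∀ᶠ x in 𝓝 x0, ∀ i : Fin 7, i ≠ 6 → 0 < pw i x := by
    rw [Filter.eventually_all]
    intro i
    by_cases hi : i = 6
    · exact Filter.Eventually.of_forall fun _ hi' => absurd hi hi'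
    · filter_upwards [(pw_cd i).continuous.continuousAt.eventually (lt_mem_nhds (h3 i hi))]
        with x hx _
      exact hx
  have e4 : ∀ᶠ x in 𝓝 x0, x.2.2.2.2.2.1.2.2 ≠ 0 :=
    (by fun_prop : ContinuousAt (fun x : MM => x.2.2.2.2.2.1.2.2) x0).eventually_ne h4
  filter_upwards [e1, e2, e3, e4] with x k1 k2 k3 k4
  exact ⟨k1, k2, k3, k4⟩

lemma mem_MM (A B ρ γ κ A0 B0 k0 r : ℝ) (a b a0 b0 : V) :
    (A, B, ρ, γ, κ, a, b) ∈ ball ((A0, B0, 0, 0, k0, a0, b0) : MM) r ↔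
      (κ, γ, A, B, ρ, a, b) ∈ ball ((k0, 0, A0, B0, 0, a0, b0) : MM) r := by
  simp only [mem_ball, Prod.dist_eq, max_lt_iff]
  tauto

/-- The value of `g₁` at `ρ = γ = 0`. -/
noncomputable def g0M (x : MM) : ℝ :=
  x.2.2.2.2.2.1.1 / x.2.2.2.2.2.1.2.2 * (x.2.2.2.2.2.2.2.1 * x.2.2.2.2.2.2.2.2 /
    (1 - x.2.1 * x.2.2.2.2.2.2.2.1 ^ 2))

theorem gN (c : ℝ) (hc : 0 < c) (A0 B0 k0 : ℝ) (a0 b0 : V)
    (h0 : gd c (A0, B0, 0, 0, k0, a0, b0)) :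
    ∃ r : ℝ, 0 < r ∧ ∃ g1 g2 : MM → ℝ,
      ContDiffOn ℝ ∞ g1 (ball (A0, B0, 0, 0, k0, a0, b0) r) ∧
      ContDiffOn ℝ ∞ g2 (ball (A0, B0, 0, 0, k0, a0, b0) r) ∧
      (∀ x ∈ ball ((A0, B0, 0, 0, k0, a0, b0) : MM) r, gd c x) ∧
      (∀ x ∈ ball ((A0, B0, 0, 0, k0, a0, b0) : MM) r,
        Dd c x = x.1 * (x.2.1 * (x.2.2.2.2.1 * g1 x + x.2.2.2.1 ^ 2 * g2 x))) ∧
      ∀ x ∈ ball ((A0, B0, 0, 0, k0, a0, b0) : MM) r, x.2.2.1 = 0 → x.2.2.2.1 = 0 →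
        g1 x = g0M x := by
  obtain ⟨r0, hr0, hgd⟩ := Metric.eventually_nhds_iff_ball.1 (gd_nhds c _ h0)
  obtain ⟨r1, hr1, hr10, K, hK, hDK⟩ := had2 (Dd c) A0 B0 ((0, 0, k0, a0, b0) :
    ℝ × ℝ × ℝ × V × V) r0 hr0 (fun x hx => (Dd_cd c hc x (hgd x hx)).contDiffWithinAt)
    (fun B e hx => Dd_A0 c hc _ (hgd _ hx) rfl) (fun A e hx => Dd_B0 c hc _ (hgd _ hx) rfl)
  -- evenness
  have hrf : ∀ x ∈ ball ((A0, B0, 0, 0, k0, a0, b0) : MM) r1,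
      rfg x ∈ ball ((A0, B0, 0, 0, k0, a0, b0) : MM) r1 := by
    intro x hx
    unfold rfg
    simp only [mem_ball, Prod.dist_eq, max_lt_iff, dist_zero_right, norm_neg] at hx ⊢
    tauto
  have hrc : Continuous rfg := by
    unfold rfg
    fun_prop
  have hev : ∀ x ∈ ball ((A0, B0, 0, 0, k0, a0, b0) : MM) r1, K (rfg x) = K x := by
    refine dens (fun x => K (rfg x)) K _ isOpen_ball
      (hK.continuousOn.comp hrc.continuousOn hrf) hK.continuousOn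
      {x | x.1 ≠ 0 ∧ x.2.1 ≠ 0 ∧ x.2.2.1 ≠ 0 ∧ x.2.2.2.1 ≠ 0}
      ((1, 1, 1, 1, 0, 0, 0) : MM) ?_ ?_
    · intro x
      filter_upwards [ev_ne x.1, ev_ne x.2.1, ev_ne x.2.2.1, ev_ne x.2.2.2.1] with t t1 t2 t3 t4
      refine ⟨?_, ?_, ?_, ?_⟩ <;> simpa
    · rintro x hx ⟨s1, s2, s3, s4⟩
      have e1 := hDK x hx
      have e2 := hDK _ (hrf x hx)
      have e3 := Dd_even c hc x (hgd _ (ball_subset_ball hr10 hx))
        (hgd _ (ball_subset_ball hr10 (hrf x hx))) s1 s2 s3 s4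
      rw [e3, e1] at e2
      have r1 : (rfg x).1 = x.1 := rfl
      have r2 : (rfg x).2.1 = x.2.1 := rfl
      rw [r1, r2] at e2
      exact (mul_left_cancel₀ s2 (mul_left_cancel₀ s1 e2)).symm
  -- the value at `κ = γ = 0`
  have hz : ∀ (A B ρ : ℝ) (a b : V), ((A, B, ρ, 0, 0, a, b) : MM) ∈
      ball ((A0, B0, 0, 0, k0, a0, b0) : MM) r1 → K (A, B, ρ, 0, 0, a, b) = 0 := by
    intro A B ρ a b hx
    have hcont : Continuous fun z : ℝ × ℝ × ℝ × V × V =>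
        ((z.1, z.2.1, z.2.2.1, 0, 0, z.2.2.2.1, z.2.2.2.2) : MM) := by fun_prop
    have := dens (fun z : ℝ × ℝ × ℝ × V × V =>
      K (z.1, z.2.1, z.2.2.1, 0, 0, z.2.2.2.1, z.2.2.2.2)) (fun _ => 0)
      {z : ℝ × ℝ × ℝ × V × V | ((z.1, z.2.1, z.2.2.1, 0, 0, z.2.2.2.1, z.2.2.2.2) : MM) ∈
        ball ((A0, B0, 0, 0, k0, a0, b0) : MM) r1} (isOpen_ball.preimage hcont)
      (hK.continuousOn.comp hcont.continuousOn (fun z hz => hz)) continuousOn_const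
      {z | z.1 ≠ 0 ∧ z.2.1 ≠ 0 ∧ z.2.2.1 ≠ 0} ((1 : ℝ), (1 : ℝ), (1 : ℝ), (0 : V), (0 : V)) (by
        intro x
        filter_upwards [ev_ne x.1, ev_ne x.2.1, ev_ne x.2.2.1] with t t1 t2 t3
        refine ⟨?_, ?_, ?_⟩ <;> simpa) (by
        rintro z hz ⟨s1, s2, s3⟩
        have e1 := hDK _ hz
        rw [Dd_g0 c hc _ (hgd _ (ball_subset_ball hr10 hz)) rfl rfl s2 s3] at e1
        rcases mul_eq_zero.1 e1.symm with h2 | h2
        · exact absurd h2 s1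
        · rcases mul_eq_zero.1 h2 with h3 | h3
          · exact absurd h3 s2
          · exact h3) (A, B, ρ, a, b) hx
    exact this
  obtain ⟨r2, hr2, hr21, G1, G2, hG1, hG2, hKG⟩ := had3
    (fun z : ℝ × ℝ × (ℝ × ℝ × ℝ × V × V) => K (z.2.2.1, z.2.2.2.1, z.2.2.2.2.1, z.2.1, z.1,
      z.2.2.2.2.2.1, z.2.2.2.2.2.2)) k0 ((A0, B0, 0, a0, b0) : ℝ × ℝ × ℝ × V × V) r1 hr1
    (by
      have hs : ContDiff ℝ ∞ fun z : ℝ × ℝ × (ℝ × ℝ × ℝ × V × V) =>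
        ((z.2.2.1, z.2.2.2.1, z.2.2.2.2.1, z.2.1, z.1, z.2.2.2.2.2.1, z.2.2.2.2.2.2) : MM) := by
        fun_prop
      exact hK.comp hs.contDiffOn (fun z hz => (mem_MM _ _ _ _ _ _ _ _ _ _ _ _ _).2 hz))
    (by
      rintro κ γ ⟨A, B, ρ, a, b⟩ hx
      exact hev (A, B, ρ, γ, κ, a, b) ((mem_MM _ _ _ _ _ _ _ _ _ _ _ _ _).2 hx))
    (by
      rintro ⟨A, B, ρ, a, b⟩ hx
      exact hz A B ρ a b ((mem_MM _ _ _ _ _ _ _ _ _ _ _ _ _).2 hx))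
  have hs : ContDiff ℝ ∞ fun x : MM =>
      ((x.2.2.2.2.1, x.2.2.2.1, x.1, x.2.1, x.2.2.1, x.2.2.2.2.2.1, x.2.2.2.2.2.2) :
        ℝ × ℝ × (ℝ × ℝ × ℝ × V × V)) := by fun_prop
  have hm : ∀ x ∈ ball ((A0, B0, 0, 0, k0, a0, b0) : MM) r2,
      ((x.2.2.2.2.1, x.2.2.2.1, x.1, x.2.1, x.2.2.1, x.2.2.2.2.2.1, x.2.2.2.2.2.2) : MM) ∈
        ball ((k0, 0, A0, B0, 0, a0, b0) : MM) r2 := fun x hx =>
      (mem_MM _ _ _ _ _ _ _ _ _ _ _ _ _).1 hx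
  have hg1 : ContDiffOn ℝ ∞ (fun x : MM => G1 (x.2.2.2.2.1, x.2.2.2.1, x.1, x.2.1, x.2.2.1,
      x.2.2.2.2.2.1, x.2.2.2.2.2.2)) (ball (A0, B0, 0, 0, k0, a0, b0) r2) :=
    hG1.comp hs.contDiffOn hm
  have hD : ∀ x ∈ ball ((A0, B0, 0, 0, k0, a0, b0) : MM) r2,
      Dd c x = x.1 * (x.2.1 * (x.2.2.2.2.1 * G1 (x.2.2.2.2.1, x.2.2.2.1, x.1, x.2.1, x.2.2.1,
      x.2.2.2.2.2.1, x.2.2.2.2.2.2) + x.2.2.2.1 ^ 2 * G2 (x.2.2.2.2.1, x.2.2.2.1, x.1, x.2.1,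
        x.2.2.1, x.2.2.2.2.2.1, x.2.2.2.2.2.2))) := by
    intro x hx
    have e1 := hDK x (ball_subset_ball hr21 hx)
    have e2 := hKG _ (hm x hx)
    simp only at e2
    rw [e1, ← e2]
  refine ⟨r2, hr2, _, _, hg1, hG2.comp hs.contDiffOn hm,
    fun x hx => hgd x (ball_subset_ball (hr21.trans hr10) hx), hD, ?_⟩
  rintro ⟨A, B, ρ, γ, κ, a, b⟩ hx hρ hγ
  simp only at hρ hγ
  subst hρ
  subst hγ
  have hcont : Continuous fun z : ℝ × ℝ × ℝ × V × V =>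
      ((z.1, z.2.1, 0, 0, z.2.2.1, z.2.2.2.1, z.2.2.2.2) : MM) := by fun_prop
  have := dens (fun z : ℝ × ℝ × ℝ × V × V => G1 (z.2.2.1, 0, z.1, z.2.1, 0, z.2.2.2.1, z.2.2.2.2))
    (fun z => g0M (z.1, z.2.1, 0, 0, z.2.2.1, z.2.2.2.1, z.2.2.2.2))
    {z : ℝ × ℝ × ℝ × V × V | ((z.1, z.2.1, 0, 0, z.2.2.1, z.2.2.2.1, z.2.2.2.2) : MM) ∈
      ball ((A0, B0, 0, 0, k0, a0, b0) : MM) r2} (isOpen_ball.preimage hcont)
    (hg1.continuousOn.comp hcont.continuousOn (fun z hz => hz)) (by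
      unfold g0M
      intro z hz
      have hg := hgd _ (ball_subset_ball (hr21.trans hr10) hz)
      have hz1 : z.2.2.2.1.2.2 ≠ 0 := hg.2.2.2
      have hz2 : (1 - z.2.1 * z.2.2.2.2.2.1 ^ 2) ≠ 0 := by
        have := hg.1 6 4
        have k1 : px 6 ((z.1, z.2.1, 0, 0, z.2.2.1, z.2.2.2.1, z.2.2.2.2) : MM) = 0 := rfl
        have k2 : pw 4 ((z.1, z.2.1, 0, 0, z.2.2.1, z.2.2.2.1, z.2.2.2.2) : MM) =
          z.2.2.2.2.2.1 := rfl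
        rw [k1, k2] at this
        have h8 : 0 < c ^ 2 / 8 := by positivity
        simp only at this
        nlinarith
      apply ContinuousAt.continuousWithinAt
      simp only
      refine ContinuousAt.mul (ContinuousAt.div (by fun_prop) (by fun_prop) hz1)
        (ContinuousAt.div (by fun_prop) (by fun_prop) hz2))
    {z | z.1 ≠ 0 ∧ z.2.1 ≠ 0 ∧ z.2.2.1 ≠ 0} ((1 : ℝ), (1 : ℝ), (1 : ℝ), (0 : V), (0 : V)) (by
      intro x
      filter_upwards [ev_ne x.1, ev_ne x.2.1, ev_ne x.2.2.1] with t t1 t2 t3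
      refine ⟨?_, ?_, ?_⟩ <;> simpa) (by
      rintro z hz ⟨s1, s2, s3⟩
      have e1 := hD _ hz
      have e2 := Dd_base c hc _ (hgd _ (ball_subset_ball (hr21.trans hr10) hz)) rfl rfl
      rw [e2] at e1
      simp only [ne_eq, OfNat.ofNat_ne_zero, not_false_eq_true, zero_pow, zero_mul, add_zero] at e1
      rw [mul_assoc] at e1
      have e3 := mul_left_cancel₀ s3 (mul_left_cancel₀ s2 (mul_left_cancel₀ s1 e1))
      exact e3.symm) (A, B, κ, a, b) hx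
  exact this

end Pool.Agent.N1F
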