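import Pool.Agent.N1F.Sc3
import Pool.Agent.N1.GE

/-!
N1F, block A3: derivatives of the base functions.
-/

namespace Pool.Agent.N1F

open MeasureTheory Set Metric Pool.Agent.MP_6cbfb8_an Pool.Agent.MST Pool.Agent.N1
open scoped ENNReal Real ContDiff Topology

/-- Base value of the first separated function. -/
noncomputable def w0 (a : V) : ℝ := a.1 / a.2.1
noncomputable def l0 (A : ℝ) (a : V) : ℝ := (1 - A * a.2.1 ^ 2) / (a.2.1 * a.2.2)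
noncomputable def σ0 (B : ℝ) (b : V) : ℝ := -(b.1 * b.2.1 / (1 - B * b.2.1 ^ 2))
noncomputable def m0 (B : ℝ) (b : V) : ℝ := b.1 * b.2.2 / (1 - B * b.2.1 ^ 2)
noncomputable def gX (a : V) : ℝ := a.1 / a.2.2
noncomputable def gY (B : ℝ) (b : V) : ℝ := b.2.1 * b.2.2 / (1 - B * b.2.1 ^ 2)

lemma w0_diff (a : V) (h : a.2.1 ≠ 0) : DifferentiableAt ℝ w0 a := by
  unfold w0
  fun_prop (disch := exact h)

lemma l0_diff (A : ℝ) (a : V) (h2 : a.2.1 ≠ 0) (h3 : a.2.2 ≠ 0) :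
    DifferentiableAt ℝ (l0 A) a := by
  unfold l0
  fun_prop (disch := exact (mul_ne_zero h2 h3))

lemma σ0_diff (B : ℝ) (b : V) (h : 1 - B * b.2.1 ^ 2 ≠ 0) : DifferentiableAt ℝ (σ0 B) b := by
  unfold σ0
  fun_prop (disch := exact h)

lemma m0_diff (B : ℝ) (b : V) (h : 1 - B * b.2.1 ^ 2 ≠ 0) : DifferentiableAt ℝ (m0 B) b := by
  unfold m0
  fun_prop (disch := exact h)

lemma gX_diff (a : V) (h : a.2.2 ≠ 0) : DifferentiableAt ℝ gX a := by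
  unfold gX
  fun_prop (disch := exact h)

lemma gY_diff (B : ℝ) (b : V) (h : 1 - B * b.2.1 ^ 2 ≠ 0) : DifferentiableAt ℝ (gY B) b := by
  unfold gY
  fun_prop (disch := exact h)

lemma w0_fd (a u : V) (h : a.2.1 ≠ 0) : fderiv ℝ w0 a u =
    (u.1 * a.2.1 - a.1 * u.2.1) / a.2.1 ^ 2 := by
  refine fd_of _ _ _ _ (w0_diff a h) ?_
  have h' := (g_lin a.1 u.1).fun_div (g_lin a.2.1 u.2.1) (by simpa using h)
  refine HasDerivAt.congr_deriv h' ?_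
  simp

lemma l0_fd (A : ℝ) (a u : V) (h2 : a.2.1 ≠ 0) (h3 : a.2.2 ≠ 0) : fderiv ℝ (l0 A) a u =
    (-(A * (2 * a.2.1 * u.2.1)) * (a.2.1 * a.2.2) -
      (1 - A * a.2.1 ^ 2) * (u.2.1 * a.2.2 + a.2.1 * u.2.2)) / (a.2.1 * a.2.2) ^ 2 := by
  refine fd_of _ _ _ _ (l0_diff A a h2 h3) ?_
  have h' := ((((g_lin a.2.1 u.2.1).fun_pow 2).const_mul A).const_sub 1).fun_div
    ((g_lin a.2.1 u.2.1).fun_mul (g_lin a.2.2 u.2.2)) (by simpa using ⟨h2, h3⟩)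
  refine HasDerivAt.congr_deriv h' ?_
  simp

lemma σ0_fd (B : ℝ) (b e : V) (h : 1 - B * b.2.1 ^ 2 ≠ 0) : fderiv ℝ (σ0 B) b e =
    -(((e.1 * b.2.1 + b.1 * e.2.1) * (1 - B * b.2.1 ^ 2) +
      b.1 * b.2.1 * (B * (2 * b.2.1 * e.2.1))) / (1 - B * b.2.1 ^ 2) ^ 2) := by
  refine fd_of _ _ _ _ (σ0_diff B b h) ?_
  have h' := (((g_lin b.1 e.1).fun_mul (g_lin b.2.1 e.2.1)).fun_div
    ((((g_lin b.2.1 e.2.1).fun_pow 2).const_mul B).const_sub 1) (by simpa using h)).fun_neg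
  refine HasDerivAt.congr_deriv h' ?_
  simp

lemma m0_fd (B : ℝ) (b e : V) (h : 1 - B * b.2.1 ^ 2 ≠ 0) : fderiv ℝ (m0 B) b e =
    ((e.1 * b.2.2 + b.1 * e.2.2) * (1 - B * b.2.1 ^ 2) +
      b.1 * b.2.2 * (B * (2 * b.2.1 * e.2.1))) / (1 - B * b.2.1 ^ 2) ^ 2 := by
  refine fd_of _ _ _ _ (m0_diff B b h) ?_
  have h' := ((g_lin b.1 e.1).fun_mul (g_lin b.2.2 e.2.2)).fun_div
    ((((g_lin b.2.1 e.2.1).fun_pow 2).const_mul B).const_sub 1) (by simpa using h)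
  refine HasDerivAt.congr_deriv h' ?_
  simp

lemma gX_fd (a u : V) (h : a.2.2 ≠ 0) : fderiv ℝ gX a u =
    (u.1 * a.2.2 - a.1 * u.2.2) / a.2.2 ^ 2 := by
  refine fd_of _ _ _ _ (gX_diff a h) ?_
  have h' := (g_lin a.1 u.1).fun_div (g_lin a.2.2 u.2.2) (by simpa using h)
  refine HasDerivAt.congr_deriv h' ?_
  simp

lemma gY_fd (B : ℝ) (b e : V) (h : 1 - B * b.2.1 ^ 2 ≠ 0) : fderiv ℝ (gY B) b e =
    ((e.2.1 * b.2.2 + b.2.1 * e.2.2) * (1 - B * b.2.1 ^ 2) +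
      b.2.1 * b.2.2 * (B * (2 * b.2.1 * e.2.1))) / (1 - B * b.2.1 ^ 2) ^ 2 := by
  refine fd_of _ _ _ _ (gY_diff B b h) ?_
  have h' := ((g_lin b.2.1 e.2.1).fun_mul (g_lin b.2.2 e.2.2)).fun_div
    ((((g_lin b.2.1 e.2.1).fun_pow 2).const_mul B).const_sub 1) (by simpa using h)
  refine HasDerivAt.congr_deriv h' ?_
  simp

/-- The direction killed by `w0` and `l0`. -/
noncomputable def dirA (A : ℝ) (a : V) : V :=
  (a.1 * (1 - A * a.2.1 ^ 2), a.2.1 * (1 - A * a.2.1 ^ 2), -(a.2.2 * (1 + A * a.2.1 ^ 2)))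

/-- The direction killed by `σ0` and `m0`. -/
noncomputable def dirB (B : ℝ) (b : V) : V :=
  (-(b.1 * (1 + B * b.2.1 ^ 2)), b.2.1 * (1 - B * b.2.1 ^ 2), b.2.2 * (1 - B * b.2.1 ^ 2))

lemma base_A (A : ℝ) (a : V) (h1 : a.1 ≠ 0) (h2 : a.2.1 ≠ 0) (h3 : a.2.2 ≠ 0)
    (h : 1 - A * a.2.1 ^ 2 ≠ 0) :
    fderiv ℝ w0 a (1, 0, 0) ≠ 0 ∧ fderiv ℝ w0 a (0, 0, 1) = 0 ∧
      fderiv ℝ (l0 A) a (0, 0, 1) ≠ 0 ∧ fderiv ℝ w0 a (dirA A a) = 0 ∧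
      fderiv ℝ (l0 A) a (dirA A a) = 0 ∧ fderiv ℝ gX a (dirA A a) ≠ 0 := by
  refine ⟨?_, ?_, ?_, ?_, ?_, ?_⟩
  · rw [w0_fd a _ h2]
    simp [h2]
  · rw [w0_fd a _ h2]
    simp
  · rw [l0_fd A a _ h2 h3]
    simp only [mul_zero, neg_zero, zero_mul, zero_sub, zero_add, mul_one]
    exact div_ne_zero (neg_ne_zero.2 (mul_ne_zero h h2)) (pow_ne_zero 2 (mul_ne_zero h2 h3))
  · rw [w0_fd a _ h2]
    unfold dirA
    simp only
    rw [div_eq_zero_iff]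
    left
    ring
  · rw [l0_fd A a _ h2 h3]
    unfold dirA
    simp only
    rw [div_eq_zero_iff]
    left
    ring
  · rw [gX_fd a _ h3]
    unfold dirA
    simp only
    have e1 : a.1 * (1 - A * a.2.1 ^ 2) * a.2.2 - a.1 * -(a.2.2 * (1 + A * a.2.1 ^ 2)) =
      2 * (a.1 * a.2.2) := by ring
    rw [e1]
    exact div_ne_zero (mul_ne_zero two_ne_zero (mul_ne_zero h1 h3)) (pow_ne_zero 2 h3)

lemma base_B (B : ℝ) (b : V) (h1 : b.1 ≠ 0) (h2 : b.2.1 ≠ 0) (h3 : b.2.2 ≠ 0)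
    (h : 1 - B * b.2.1 ^ 2 ≠ 0) :
    fderiv ℝ (σ0 B) b (1, 0, 0) ≠ 0 ∧ fderiv ℝ (σ0 B) b (0, 0, 1) = 0 ∧
      fderiv ℝ (m0 B) b (0, 0, 1) ≠ 0 ∧ fderiv ℝ (σ0 B) b (dirB B b) = 0 ∧
      fderiv ℝ (m0 B) b (dirB B b) = 0 ∧ fderiv ℝ (gY B) b (dirB B b) ≠ 0 := by
  refine ⟨?_, ?_, ?_, ?_, ?_, ?_⟩
  · rw [σ0_fd B b _ h]
    simp only [mul_zero, add_zero, one_mul]
    exact neg_ne_zero.2 (div_ne_zero (mul_ne_zero h2 h) (pow_ne_zero 2 h))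
  · rw [σ0_fd B b _ h]
    simp
  · rw [m0_fd B b _ h]
    simp only [mul_zero, zero_mul, zero_add, add_zero, mul_one]
    exact div_ne_zero (mul_ne_zero h1 h) (pow_ne_zero 2 h)
  · rw [σ0_fd B b _ h]
    unfold dirB
    simp only
    rw [neg_eq_zero, div_eq_zero_iff]
    left
    ring
  · rw [m0_fd B b _ h]
    unfold dirB
    simp only
    rw [div_eq_zero_iff]
    left
    ring
  · rw [gY_fd B b _ h]
    unfold dirB
    simp only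
    have e1 : (b.2.1 * (1 - B * b.2.1 ^ 2) * b.2.2 + b.2.1 * (b.2.2 * (1 - B * b.2.1 ^ 2))) *
      (1 - B * b.2.1 ^ 2) + b.2.1 * b.2.2 * (B * (2 * b.2.1 * (b.2.1 * (1 - B * b.2.1 ^ 2)))) =
      2 * (b.2.1 * b.2.2) * (1 - B * b.2.1 ^ 2) := by ring
    rw [e1]
    exact div_ne_zero (mul_ne_zero (mul_ne_zero two_ne_zero (mul_ne_zero h2 h3)) h)
      (pow_ne_zero 2 h)

/-- The mixed derivative at the base point. -/
lemma base_g (B : ℝ) (a b u e : V) (ha3 : a.2.2 ≠ 0) (h : 1 - B * b.2.1 ^ 2 ≠ 0)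
    (F : V × V → ℝ) (hF : ∀ᶠ q in 𝓝 (a, b), F q = gX q.1 * gY B q.2) :
    fderiv ℝ (fun b' => fderiv ℝ (fun a' => F (a', b')) a u) b e =
      fderiv ℝ gX a u * fderiv ℝ (gY B) b e := by
  have hF' : ∀ᶠ q in 𝓝 (a, b), F q = (fun _ : V => (0:ℝ)) q.1 + (fun _ : V => (0:ℝ)) q.2 +
      gX q.1 * gY B q.2 + (fun _ : V => (0:ℝ)) q.1 * (fun _ : V => (0:ℝ)) q.2 := by
    filter_upwards [hF] with q hq
    rw [hq]
    simp
  have n0 : DifferentiableAt ℝ (fun _ : V => (0:ℝ)) a := differentiableAt_const _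
  have m0 : DifferentiableAt ℝ (fun _ : V => (0:ℝ)) b := differentiableAt_const _
  rw [sep_2 F (fun _ : V => (0:ℝ)) gX (fun _ : V => (0:ℝ)) (fun _ : V => (0:ℝ)) (gY B)
    (fun _ : V => (0:ℝ)) a b hF' n0 (gX_diff a ha3) n0 m0 (gY_diff B b h) m0 u e]
  simp

end Pool.Agent.N1F
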