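import Pool.Agent.N1F.A3h
import Pool.Agent.N1F.BaseD

/-!
N1F, block A3: the normal form of the phase (outer difference of type N).
-/

namespace Pool.Agent.N1F

open MeasureTheory Set Metric Pool.Agent.MP_6cbfb8_an Pool.Agent.MST Pool.Agent.N1
open scoped ENNReal Real ContDiff Topology

/-- The base point is good. -/
lemma gd_base (c : ℝ) (hc : 0 < c) (A0 B0 k0 : ℝ) (x0 y0 z0 : ℝ × ℝ) (hb : Bs c A0 B0 x0)
    (hz1 : z0.1 ≠ 0) :
    gd c (A0, B0, 0, 0, k0, (y0.1, x0.1, z0.1), (y0.2, x0.2, z0.2)) := by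
  obtain ⟨hA, hB, -, h1, h2, h3⟩ := hb
  have hc8 : 0 < c ^ 2 := by positivity
  have hX : ∀ i : Fin 7, px i (A0, B0, 0, 0, k0, (y0.1, x0.1, z0.1), (y0.2, x0.2, z0.2)) =
      if i = 6 then 0 else x0.1 := by
    intro i
    unfold px
    fin_cases i <;> simp [Matrix.cons_val]
  have hW : ∀ i : Fin 7, pw i (A0, B0, 0, 0, k0, (y0.1, x0.1, z0.1), (y0.2, x0.2, z0.2)) =
      if i = 6 then 0 else x0.2 := by
    intro i
    unfold pw
    fin_cases i <;> simp [Matrix.cons_val]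
  have hA1 : 0 ≤ A0 * x0.1 ^ 2 := by positivity
  have hB1 : 0 ≤ B0 * x0.2 ^ 2 := by positivity
  refine ⟨?_, ?_, ?_, hz1⟩
  · intro i j
    rw [hX, hW]
    split_ifs <;> simp only [ne_eq, OfNat.ofNat_ne_zero, not_false_eq_true, zero_pow, mul_zero,
      sub_zero] <;> linarith
  · intro i hi
    rw [hX, if_neg hi]
    exact h1
  · intro i hi
    rw [hW, if_neg hi]
    exact h2

lemma kA_0 (c : ℝ) (hc : 0 < c) (x : MM) (h : gd c x) (hγ : x.2.2.2.1 = 0) :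
    kA c x = x.2.2.2.2.2.1.1 / px 4 x := by
  have X0 : px 0 x = px 4 x := by
    show x.2.2.2.2.2.1.2.1 + x.2.2.2.1 * x.2.2.2.2.2.1.2.2 / 2 = x.2.2.2.2.2.1.2.1
    rw [hγ]; ring
  have X2 : px 2 x = px 4 x := by
    show x.2.2.2.2.2.1.2.1 - x.2.2.2.1 * x.2.2.2.2.2.1.2.2 / 2 = x.2.2.2.2.2.1.2.1
    rw [hγ]; ring
  have q0 : qq c 0 6 x = qq c 4 6 x := by unfold qq; rw [X0]
  have q2 : qq c 2 6 x = qq c 4 6 x := by unfold qq; rw [X2]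
  have q := qq_pos c hc x h 4 6
  have p := h.2.1 4 (by decide)
  unfold kA
  rw [q0, q2, X0, X2]
  field_simp
  
lemma hA_0 (c : ℝ) (hc : 0 < c) (x : MM) (h : gd c x) (hγ : x.2.2.2.1 = 0) :
    hA c x = (1 - x.1 * px 4 x ^ 2) / (px 4 x * x.2.2.2.2.2.1.2.2) := by
  have X0 : px 0 x = px 4 x := by
    show x.2.2.2.2.2.1.2.1 + x.2.2.2.1 * x.2.2.2.2.2.1.2.2 / 2 = x.2.2.2.2.2.1.2.1
    rw [hγ]; ring
  have X2 : px 2 x = px 4 x := by
    show x.2.2.2.2.2.1.2.1 - x.2.2.2.1 * x.2.2.2.2.2.1.2.2 / 2 = x.2.2.2.2.2.1.2.1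
    rw [hγ]; ring
  have q0 : qq c 0 6 x = qq c 4 6 x := by unfold qq; rw [X0]
  have q2 : qq c 2 6 x = qq c 4 6 x := by unfold qq; rw [X2]
  have q := qq_pos c hc x h 4 6
  have qs := qq_sq c hc x h 4 6
  have w6 : pw 6 x = 0 := rfl
  rw [w6] at qs
  have p := h.2.1 4 (by decide)
  have hz := h.2.2.2
  unfold hA
  rw [q0, q2]
  have : 1 - x.1 * px 4 x ^ 2 = qq c 4 6 x ^ 2 := by rw [qs]; ring
  rw [this]
  field_simp
  ring

lemma sB_0 (c : ℝ) (hc : 0 < c) (x : MM) (h : gd c x) (hρ : x.2.2.1 = 0) :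
    sB c x = x.2.2.2.2.2.2.1 * pw 4 x / (1 - x.2.1 * pw 4 x ^ 2) := by
  have W5 : pw 5 x = pw 4 x := by
    show x.2.2.2.2.2.2.2.1 - x.2.2.1 * x.2.2.2.2.2.2.1 = x.2.2.2.2.2.2.2.1
    rw [hρ]; ring
  have q5 : qq c 6 5 x = qq c 6 4 x := by unfold qq; rw [W5]
  have q := qq_pos c hc x h 6 4
  have qs := qq_sq c hc x h 6 4
  have x6 : px 6 x = 0 := rfl
  rw [x6] at qs
  unfold sB
  rw [q5, W5]
  have : 1 - x.2.1 * pw 4 x ^ 2 = qq c 6 4 x ^ 2 := by rw [qs]; ring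
  rw [this]
  field_simp

lemma fB_0 (c : ℝ) (hc : 0 < c) (x : MM) (h : gd c x) (hρ : x.2.2.1 = 0) :
    fB c x = x.2.2.2.2.2.2.1 * x.2.2.2.2.2.2.2.2 / (1 - x.2.1 * pw 4 x ^ 2) := by
  have W5 : pw 5 x = pw 4 x := by
    show x.2.2.2.2.2.2.2.1 - x.2.2.1 * x.2.2.2.2.2.2.1 = x.2.2.2.2.2.2.2.1
    rw [hρ]; ring
  have q5 : qq c 6 5 x = qq c 6 4 x := by unfold qq; rw [W5]
  have q := qq_pos c hc x h 6 4
  have qs := qq_sq c hc x h 6 4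
  have x6 : px 6 x = 0 := rfl
  rw [x6] at qs
  have p := h.2.2.1 4 (by decide)
  unfold fB
  rw [q5, W5]
  have : 1 - x.2.1 * pw 4 x ^ 2 = qq c 6 4 x ^ 2 := by rw [qs]; ring
  rw [this]
  field_simp

/-- Parameters with midpoint variables. -/
noncomputable def mmx (p : P6) (a b : V) : MM :=
  (p.1, p.2.1, p.2.2.1, p.2.2.2.1, p.2.2.2.2.1, (a.1, a.2.1 - p.2.2.2.1 * a.2.2 / 2, a.2.2),
    (b.1, b.2.1 - p.1 * p.2.2.2.2.1 * p.2.2.2.1 * b.2.2 / 2, b.2.2))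

lemma kA_b (c : ℝ) (p : P6) (a b b' : V) : kA c (mmx p a b) = kA c (mmx p a b') := rfl
lemma hA_b (c : ℝ) (p : P6) (a b b' : V) : hA c (mmx p a b) = hA c (mmx p a b') := rfl
lemma sB_a (c : ℝ) (p : P6) (a a' b : V) : sB c (mmx p a b) = sB c (mmx p a' b) := rfl
lemma fB_a (c : ℝ) (p : P6) (a a' b : V) : fB c (mmx p a b) = fB c (mmx p a' b) := rfl

set_option linter.unusedVariables false in
theorem nfF (c : ℝ) (hc : 0 < c) (A0 B0 : ℝ) (x0 y0 z0 : ℝ × ℝ) (hb : Bs c A0 B0 x0)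
    (hy1 : y0.1 ≠ 0) (hy2 : y0.2 ≠ 0) (hz1 : z0.1 ≠ 0) (hz2 : z0.2 ≠ 0) (k0 : ℝ) (hk : 0 ≤ k0)
    (hk' : k0 ≤ 1) :
    ∃ (w l σ m : P6 × V → ℝ) (g Ef : P6 × V × V → ℝ) (r : ℝ), 0 < r ∧
      ContDiffOn ℝ ∞ w (ball (((A0, B0, 0, 0, k0, 0) : P6), ((y0.1, x0.1, z0.1) : V)) r) ∧
      ContDiffOn ℝ ∞ l (ball (((A0, B0, 0, 0, k0, 0) : P6), ((y0.1, x0.1, z0.1) : V)) r) ∧
      ContDiffOn ℝ ∞ σ (ball (((A0, B0, 0, 0, k0, 0) : P6), ((y0.2, x0.2, z0.2) : V)) r) ∧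
      ContDiffOn ℝ ∞ m (ball (((A0, B0, 0, 0, k0, 0) : P6), ((y0.2, x0.2, z0.2) : V)) r) ∧
      ContDiffOn ℝ ∞ g (ball (((A0, B0, 0, 0, k0, 0) : P6), ((y0.1, x0.1, z0.1) : V),
        ((y0.2, x0.2, z0.2) : V)) r) ∧
      ContDiffOn ℝ ∞ Ef (ball (((A0, B0, 0, 0, k0, 0) : P6), ((y0.1, x0.1, z0.1) : V),
        ((y0.2, x0.2, z0.2) : V)) r) ∧
      (∀ x ∈ ball (((A0, B0, 0, 0, k0, 0) : P6), ((y0.1, x0.1, z0.1) : V),
        ((y0.2, x0.2, z0.2) : V)) r, Ef x ≠ 0) ∧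
      (∀ a ∈ ball ((y0.1, x0.1, z0.1) : V) r,
        w (((A0, B0, 0, 0, k0, 0) : P6), a) = w0 a ∧
        l (((A0, B0, 0, 0, k0, 0) : P6), a) = l0 A0 a) ∧
      (∀ b ∈ ball ((y0.2, x0.2, z0.2) : V) r,
        σ (((A0, B0, 0, 0, k0, 0) : P6), b) = σ0 B0 b ∧
        m (((A0, B0, 0, 0, k0, 0) : P6), b) = m0 B0 b) ∧
      (∀ a ∈ ball ((y0.1, x0.1, z0.1) : V) r, ∀ b ∈ ball ((y0.2, x0.2, z0.2) : V) r,
        g (((A0, B0, 0, 0, k0, 0) : P6), a, b) = gX a * gY B0 b) ∧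
      ∀ al be ρ γ κ η : ℝ, 0 < al → al ≤ 1 → 0 < be → be ≤ 1 → 0 < ρ → 0 < γ → 0 < κ →
        κ * η = γ ^ 2 →
        ((al ^ 2, be ^ 2, ρ, γ, κ, η) : P6) ∈ ball ((A0, B0, 0, 0, k0, 0) : P6) r →
        ∀ a ∈ ball ((y0.1, x0.1, z0.1) : V) r, ∀ b ∈ ball ((y0.2, x0.2, z0.2) : V) r,
          Fr c (Sc3 (al * be ^ 2 * ρ) al (al * γ) a) (Sc3 (be * ρ) be (be * al ^ 2 * κ * γ) b) =
            al ^ 2 * be ^ 2 * ρ * γ * (Ef ((al ^ 2, be ^ 2, ρ, γ, κ, η), a, b) *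
              (w ((al ^ 2, be ^ 2, ρ, γ, κ, η), a) - σ ((al ^ 2, be ^ 2, ρ, γ, κ, η), b) +
                κ * (l ((al ^ 2, be ^ 2, ρ, γ, κ, η), a) * m ((al ^ 2, be ^ 2, ρ, γ, κ, η), b) +
                  al ^ 2 * be ^ 2 * g ((al ^ 2, be ^ 2, ρ, γ, κ, η), a, b)))) := by
  set a0 : V := (y0.1, x0.1, z0.1) with ha0
  set b0 : V := (y0.2, x0.2, z0.2) with hb0
  set p0 : P6 := (A0, B0, 0, 0, k0, 0) with hp0
  have hbase : gd c (A0, B0, 0, 0, k0, a0, b0) := gd_base c hc A0 B0 k0 x0 y0 z0 hb hz1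
  obtain ⟨r1, hr1, g1, g2, hg1, hg2, hgd, hD, hg0⟩ := gN c hc A0 B0 k0 a0 b0 hbase
  -- the map `mmx`
  have hmc : ContDiff ℝ ∞ fun x : P6 × V × V => mmx x.1 x.2.1 x.2.2 := by
    unfold mmx
    fun_prop
  have hm0 : mmx p0 a0 b0 = (A0, B0, 0, 0, k0, a0, b0) := by
    simp [mmx, hp0, ha0, hb0]
  have hma : ContDiff ℝ ∞ fun x : P6 × V => mmx x.1 x.2 b0 := by
    unfold mmx
    fun_prop
  have hmb : ContDiff ℝ ∞ fun x : P6 × V => mmx x.1 a0 x.2 := by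
    unfold mmx
    fun_prop
  have o1 : ∀ᶠ x in 𝓝 (p0, a0, b0), mmx x.1 x.2.1 x.2.2 ∈
      ball ((A0, B0, 0, 0, k0, a0, b0) : MM) r1 := by
    apply hmc.continuous.continuousAt.eventually
    simp only [hm0]
    exact isOpen_ball.mem_nhds (mem_ball_self hr1)
  have o2 : ∀ᶠ x in 𝓝 (p0, a0), mmx x.1 x.2 b0 ∈
      ball ((A0, B0, 0, 0, k0, a0, b0) : MM) r1 := by
    apply hma.continuous.continuousAt.eventually
    simp only [hm0]
    exact isOpen_ball.mem_nhds (mem_ball_self hr1)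
  have o3 : ∀ᶠ x in 𝓝 (p0, b0), mmx x.1 a0 x.2 ∈
      ball ((A0, B0, 0, 0, k0, a0, b0) : MM) r1 := by
    apply hmb.continuous.continuousAt.eventually
    simp only [hm0]
    exact isOpen_ball.mem_nhds (mem_ball_self hr1)
  obtain ⟨s1, hs1, k1⟩ := Metric.eventually_nhds_iff_ball.1 o1
  obtain ⟨s2, hs2, k2⟩ := Metric.eventually_nhds_iff_ball.1 o2
  obtain ⟨s3, hs3, k3⟩ := Metric.eventually_nhds_iff_ball.1 o3
  set r := min s1 (min s2 s3) with hr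
  have hrs1 : r ≤ s1 := min_le_left _ _
  have hrs2 : r ≤ s2 := (min_le_right _ _).trans (min_le_left _ _)
  have hrs3 : r ≤ s3 := (min_le_right _ _).trans (min_le_right _ _)
  have hr0 : 0 < r := lt_min hs1 (lt_min hs2 hs3)
  have K1 : ∀ x ∈ ball (p0, a0, b0) r, mmx x.1 x.2.1 x.2.2 ∈
    ball ((A0, B0, 0, 0, k0, a0, b0) : MM) r1 := fun x hx => k1 x (ball_subset_ball hrs1 hx)
  have K2 : ∀ x ∈ ball (p0, a0) r, mmx x.1 x.2 b0 ∈
    ball ((A0, B0, 0, 0, k0, a0, b0) : MM) r1 := fun x hx => k2 x (ball_subset_ball hrs2 hx)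
  have K3 : ∀ x ∈ ball (p0, b0) r, mmx x.1 a0 x.2 ∈
    ball ((A0, B0, 0, 0, k0, a0, b0) : MM) r1 := fun x hx => k3 x (ball_subset_ball hrs3 hx)
  have mpa : ∀ a ∈ ball a0 r, (p0, a) ∈ ball (p0, a0) r := by
    intro a ha
    rw [mem_ball, Prod.dist_eq, max_lt_iff]
    exact ⟨by simpa using hr0, ha⟩
  have mpb : ∀ b ∈ ball b0 r, (p0, b) ∈ ball (p0, b0) r := by
    intro b hb
    rw [mem_ball, Prod.dist_eq, max_lt_iff]
    exact ⟨by simpa using hr0, hb⟩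
  refine ⟨fun x => kA c (mmx x.1 x.2 b0), fun x => hA c (mmx x.1 x.2 b0),
    fun x => -sB c (mmx x.1 a0 x.2), fun x => fB c (mmx x.1 a0 x.2),
    fun x => g1 (mmx x.1 x.2.1 x.2.2) + x.1.2.2.2.2.2 * g2 (mmx x.1 x.2.1 x.2.2),
    fun x => -vV c (mmx x.1 x.2.1 x.2.2), r, hr0, ?_, ?_, ?_, ?_, ?_, ?_, ?_, ?_, ?_, ?_, ?_⟩
  · intro x hx
    exact (ContDiffAt.comp x (kA_cd c hc _ (hgd _ (K2 x hx))) hma.contDiffAt).contDiffWithinAt
  · intro x hx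
    exact (ContDiffAt.comp x (hA_cd c hc _ (hgd _ (K2 x hx))) hma.contDiffAt).contDiffWithinAt
  · intro x hx
    exact (ContDiffAt.comp x (sB_cd c hc _ (hgd _ (K3 x hx))) hmb.contDiffAt).neg.contDiffWithinAt
  · intro x hx
    exact (ContDiffAt.comp x (fB_cd c hc _ (hgd _ (K3 x hx))) hmb.contDiffAt).contDiffWithinAt
  · exact (hg1.comp hmc.contDiffOn K1).add
      ((by fun_prop : ContDiff ℝ ∞ fun x : P6 × V × V => x.1.2.2.2.2.2).contDiffOn.mul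
        (hg2.comp hmc.contDiffOn K1))
  · intro x hx
    exact (ContDiffAt.comp x (vV_cd c hc _ (hgd _ (K1 x hx))) hmc.contDiffAt).neg.contDiffWithinAt
  · intro x hx
    exact neg_ne_zero.2 (vV_pos c hc _ (hgd _ (K1 x hx)))
  · intro a ha
    have hg := hgd _ (K2 _ (mpa a ha))
    have e1 := kA_0 c hc _ hg rfl
    have e2 := hA_0 c hc _ hg rfl
    have e3 : px 4 (mmx p0 a b0) = a.2.1 := by
      show a.2.1 - 0 * a.2.2 / 2 = a.2.1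
      ring
    simp only at e1 e2 ⊢
    rw [e1, e2, e3]
    exact ⟨rfl, rfl⟩
  · intro b hb
    have hg := hgd _ (K3 _ (mpb b hb))
    have e1 := sB_0 c hc _ hg rfl
    have e2 := fB_0 c hc _ hg rfl
    have e3 : pw 4 (mmx p0 a0 b) = b.2.1 := by
      show b.2.1 - A0 * k0 * 0 * b.2.2 / 2 = b.2.1
      ring
    simp only at e1 e2 ⊢
    rw [e1, e2, e3]
    exact ⟨rfl, rfl⟩
  · intro a ha b hb
    have hx : (p0, a, b) ∈ ball (p0, a0, b0) r := by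
      rw [mem_ball, Prod.dist_eq, max_lt_iff]
      refine ⟨by simpa using hr0, ?_⟩
      show dist (a, b) (a0, b0) < r
      rw [Prod.dist_eq, max_lt_iff]
      exact ⟨ha, hb⟩
    have e1 := hg0 _ (K1 _ hx) rfl rfl
    simp only at e1 ⊢
    rw [e1]
    show g0M (mmx p0 a b) + 0 * _ = _
    rw [zero_mul, add_zero]
    show a.1 / a.2.2 * ((b.2.1 - A0 * k0 * 0 * b.2.2 / 2) * b.2.2 /
      (1 - B0 * (b.2.1 - A0 * k0 * 0 * b.2.2 / 2) ^ 2)) = a.1 / a.2.2 * (b.2.1 * b.2.2 /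
        (1 - B0 * b.2.1 ^ 2))
    have : b.2.1 - A0 * k0 * 0 * b.2.2 / 2 = b.2.1 := by ring
    rw [this]
  · intro al be ρ γ κ η hal hal1 hbe hbe1 hρ hγ hκ hη hp a ha b hb
    set p : P6 := (al ^ 2, be ^ 2, ρ, γ, κ, η) with hpdef
    have hx : (p, a, b) ∈ ball (p0, a0, b0) r := by
      rw [mem_ball, Prod.dist_eq, max_lt_iff]
      refine ⟨hp, ?_⟩
      show dist (a, b) (a0, b0) < r
      rw [Prod.dist_eq, max_lt_iff]
      exact ⟨ha, hb⟩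
    have hin := K1 _ hx
    have hg := hgd _ hin
    have eF := Fh_id c hc _ hg
    have eD := hD _ hin
    have hv := vV_pos c hc _ hg
    simp only at eF eD hv ⊢
    rw [kA_b c p a b0 b, hA_b c p a b0 b, sB_a c p a0 a b, fB_a c p a0 a b]
    have m1 : (mmx p a b).1 = al ^ 2 := rfl
    have m2 : (mmx p a b).2.1 = be ^ 2 := rfl
    have m3 : (mmx p a b).2.2.1 = ρ := rfl
    have m4 : (mmx p a b).2.2.2.1 = γ := rfl
    have m5 : (mmx p a b).2.2.2.2.1 = κ := rfl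
    have m6 : p.2.2.2.2.2 = η := rfl
    rw [m1, m2, m3, m4] at eF
    rw [m1, m2, m4, m5] at eD
    rw [m6]
    have X0 : px 0 (mmx p a b) = a.2.1 := by
      show a.2.1 - γ * a.2.2 / 2 + γ * a.2.2 / 2 = a.2.1
      ring
    have X1 : px 1 (mmx p a b) = a.2.1 - be ^ 2 * ρ * a.1 := by
      show a.2.1 - γ * a.2.2 / 2 + γ * a.2.2 / 2 - be ^ 2 * ρ * a.1 = _
      ring
    have X2 : px 2 (mmx p a b) = a.2.1 - γ * a.2.2 := by
      show a.2.1 - γ * a.2.2 / 2 - γ * a.2.2 / 2 = _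
      ring
    have X3 : px 3 (mmx p a b) = a.2.1 - be ^ 2 * ρ * a.1 - γ * a.2.2 := by
      show a.2.1 - γ * a.2.2 / 2 - γ * a.2.2 / 2 - be ^ 2 * ρ * a.1 = _
      ring
    have W0 : pw 0 (mmx p a b) = b.2.1 := by
      show b.2.1 - al ^ 2 * κ * γ * b.2.2 / 2 + al ^ 2 * κ * γ * b.2.2 / 2 = b.2.1
      ring
    have W1 : pw 1 (mmx p a b) = b.2.1 - ρ * b.1 := by
      show b.2.1 - al ^ 2 * κ * γ * b.2.2 / 2 + al ^ 2 * κ * γ * b.2.2 / 2 - ρ * b.1 = _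
      ring
    have W2 : pw 2 (mmx p a b) = b.2.1 - al ^ 2 * κ * γ * b.2.2 := by
      show b.2.1 - al ^ 2 * κ * γ * b.2.2 / 2 - al ^ 2 * κ * γ * b.2.2 / 2 = _
      ring
    have W3 : pw 3 (mmx p a b) = b.2.1 - ρ * b.1 - al ^ 2 * κ * γ * b.2.2 := by
      show b.2.1 - al ^ 2 * κ * γ * b.2.2 / 2 - al ^ 2 * κ * γ * b.2.2 / 2 - ρ * b.1 = _
      ring
    have eFr : Fr c (Sc3 (al * be ^ 2 * ρ) al (al * γ) a)
        (Sc3 (be * ρ) be (be * al ^ 2 * κ * γ) b) =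
        qq c 0 0 (mmx p a b) - qq c 1 1 (mmx p a b) - qq c 2 2 (mmx p a b) +
          qq c 3 3 (mmx p a b) := by
      unfold Fr Sc3 qq qf Qs
      rw [m1, m2, X0, X1, X2, X3, W0, W1, W2, W3]
      simp only
      congr 1
      · congr 1
        · congr 1
          · congr 1; ring
          · congr 1; ring
        · congr 1; ring
      · congr 1; ring
    rw [eFr, ← eF]
    congr 1
    unfold Dd at eD
    rw [m5] at eD
    have hF : Fh c (mmx p a b) = -vV c (mmx p a b) * (al ^ 2 * (be ^ 2 *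
        (κ * g1 (mmx p a b) + γ ^ 2 * g2 (mmx p a b))) + (kA c (mmx p a b) + sB c (mmx p a b) +
          κ * (hA c (mmx p a b) * fB c (mmx p a b)))) := by
      rw [← eD]
      have hv' : -vV c (mmx p a b) ≠ 0 := neg_ne_zero.2 hv
      field_simp
      ring
    rw [hF, ← hη]
    ring

end Pool.Agent.N1F
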