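import Pool.Agent.N1F.ED

/-!
N1F, block A4: E_NF, E_D1F, E_D0F, Nx_smallF.
-/

namespace Pool.Agent.N1F

open MeasureTheory Set Metric Pool.Agent.MP_6cbfb8_an Pool.Agent.MST Pool.Agent.N1
open scoped ENNReal Real ContDiff

theorem Sz_mono {al be A0 B0 δ δ' : ℝ} (h : δ ≤ δ') (hs : Sz al be A0 B0 δ) :
    Sz al be A0 B0 δ' := by
  obtain ⟨s1, s2, s3, s4, s5, s6⟩ := hs
  exact ⟨s1, s2, s3, s4, s5.trans_le h, s6.trans_le h⟩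

theorem NbF_mono {al be δ δ' ρ : ℝ} {x0 y0 : ℝ × ℝ} {q : V × V} (h : δ ≤ δ')
    (hq : NbF al be δ ρ x0 y0 q) : NbF al be δ' ρ x0 y0 q := by
  obtain ⟨h1, h2, h3, h4, h5, h6⟩ := hq
  exact ⟨h1.trans h, h2.trans h, h3.trans h, h4.trans h, h5.trans h, h6.trans h⟩

theorem near_Q (A0 B0 : ℝ) (x0 y0 : ℝ × ℝ) (f : PB → ℝ)
    (hf : ContinuousAt f (p0B A0 B0 x0 y0)) {ε : ℝ} (hε : 0 < ε) :
    ∃ δ : ℝ, 0 < δ ∧ ∀ al be : ℝ, Sz al be A0 B0 δ → ∀ ρ : ℝ, 0 < ρ → ρ < δ → ∀ q : V × V,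
      NbF al be δ ρ x0 y0 q → ∀ u ∈ Icc (0:ℝ) 1,
      |f (pQ al be ρ q u) - f (p0B A0 B0 x0 y0)| < ε := by
  obtain ⟨d, hd, h⟩ := near_PB f _ hf hε
  refine ⟨d, hd, fun al be hs ρ hρ hρδ q hq u hu => ?_⟩
  obtain ⟨s1, s2, s3, s4, s5, s6⟩ := hs
  obtain ⟨n1, n2, n3, n4, n5, n6⟩ := hq
  unfold pQ
  have z1 : |u * (q.1.2.2 / al)| ≤ d := by
    rw [abs_mul, abs_of_nonneg hu.1]
    exact (mul_le_of_le_one_left (abs_nonneg _) hu.2).trans n5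
  have z2 : |u * (q.2.2.2 / be)| ≤ d := by
    rw [abs_mul, abs_of_nonneg hu.1]
    exact (mul_le_of_le_one_left (abs_nonneg _) hu.2).trans n6
  obtain ⟨z1a, z1b⟩ := abs_le.1 z1
  obtain ⟨z2a, z2b⟩ := abs_le.1 z2
  obtain ⟨n3a, n3b⟩ := abs_le.1 n3
  obtain ⟨n4a, n4b⟩ := abs_le.1 n4
  apply h
  · exact s5.le.trans (by linarith)
  · exact s6.le.trans (by linarith)
  · change |ρ - 0| ≤ 2 * d
    rw [sub_zero, abs_of_pos hρ]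
    linarith
  · exact n1.trans (by linarith)
  · exact n2.trans (by linarith)
  · change |q.1.2.1 / al - u * (q.1.2.2 / al) - x0.1| ≤ 2 * d
    rw [abs_le]
    constructor <;> linarith
  · change |q.2.2.1 / be - u * (q.2.2.2 / be) - x0.2| ≤ 2 * d
    rw [abs_le]
    constructor <;> linarith

/-- Basic facts in a neighbourhood of a base point. -/
theorem eF_base {c A0 B0 : ℝ} {x0 y0 : ℝ × ℝ} (hc : 0 < c) (hb : Bs c A0 B0 x0) {ε : ℝ}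
    (hε : 0 < ε) : ∃ δ : ℝ, 0 < δ ∧ δ ≤ 1 ∧
    ∀ al be : ℝ, Sz al be A0 B0 δ → ∀ ρ : ℝ, 0 < ρ → ρ < δ → ∀ q : V × V,
    NbF al be δ ρ x0 y0 q → ∀ u ∈ Icc (0:ℝ) 1,
    |nU be ρ q u - nb B0 x0 y0| ≤ ε ∧
    |(q.1.2.1 - u * q.1.2.2) / al - x0.1| ≤ x0.1 / 4 ∧
    |(q.1.2.1 - u * q.1.2.2 - q.1.1) / al - x0.1| ≤ x0.1 / 4 ∧
    |(q.2.2.1 - u * q.2.2.2) / be - x0.2| ≤ x0.2 / 4 ∧
    |(q.2.2.1 - u * q.2.2.2 - q.2.1) / be - x0.2| ≤ x0.2 / 4 ∧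
    c ^ 2 / 8 ≤ 1 - (q.1.2.1 - u * q.1.2.2) ^ 2 - (q.2.2.1 - u * q.2.2.2) ^ 2 ∧
    c ^ 2 / 8 ≤ 1 - (q.1.2.1 - u * q.1.2.2 - q.1.1) ^ 2 - (q.2.2.1 - u * q.2.2.2 - q.2.1) ^ 2 := by
  have hq := base_pos hc hb
  have hc2 : 0 < c ^ 2 := by positivity
  have hx1 := hb.2.2.2.1
  have hx2 := hb.2.2.2.2.1
  obtain ⟨d1, d10, H1⟩ := near_Q A0 B0 x0 y0 bq1 (cont_q1 _) (show 0 < c ^ 2 / 8 by positivity)
  obtain ⟨d2, d20, H2⟩ := near_Q A0 B0 x0 y0 bq2 (cont_q2 _) (show 0 < c ^ 2 / 8 by positivity)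
  obtain ⟨d3, d30, H3⟩ := near_Q A0 B0 x0 y0
    (fun p => p.2.2.2.2.1 - p.2.1 * p.2.2.1 * p.2.2.2.1.1) (by fun_prop)
    (show 0 < x0.1 / 4 by positivity)
  obtain ⟨d4, d40, H4⟩ := near_Q A0 B0 x0 y0
    (fun p => p.2.2.2.2.2 - p.2.2.1 * p.2.2.2.1.2) (by fun_prop)
    (show 0 < x0.2 / 4 by positivity)
  obtain ⟨d5, d50, H5⟩ := near_Q A0 B0 x0 y0 (fun p => p.2.2.2.2.1) (by fun_prop)
    (show 0 < x0.1 / 4 by positivity)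
  obtain ⟨d6, d60, H6⟩ := near_Q A0 B0 x0 y0 (fun p => p.2.2.2.2.2) (by fun_prop)
    (show 0 < x0.2 / 4 by positivity)
  obtain ⟨dN, dN0, HN⟩ := near_Q A0 B0 x0 y0 bN (cont_N (y0 := y0) hc hb) hε
  obtain ⟨δ, hδ⟩ : ∃ δ : ℝ, δ = min (min (min (min d1 d2) (min d3 d4)) (min (min d5 d6) dN)) 1 :=
    ⟨_, rfl⟩
  have hδ0 : 0 < δ := by
    rw [hδ]
    positivity
  have m1 : δ ≤ d1 ∧ δ ≤ d2 ∧ δ ≤ d3 ∧ δ ≤ d4 ∧ δ ≤ d5 ∧ δ ≤ d6 ∧ δ ≤ dN ∧ δ ≤ 1 := by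
    rw [hδ]
    simp only [min_le_iff, le_refl, true_or, or_true, and_self]
  obtain ⟨m1, m2, m3, m4, m5, m6, mN, m7⟩ := m1
  refine ⟨δ, hδ0, m7, fun al be hs ρ hρ hρδ q hq u hu => ?_⟩
  have s1 := hs.1
  have s3 := hs.2.2.1
  have K1 := H1 al be (Sz_mono m1 hs) ρ hρ (hρδ.trans_le m1) q (NbF_mono m1 hq) u hu
  have K2 := H2 al be (Sz_mono m2 hs) ρ hρ (hρδ.trans_le m2) q (NbF_mono m2 hq) u hu
  have K3 := H3 al be (Sz_mono m3 hs) ρ hρ (hρδ.trans_le m3) q (NbF_mono m3 hq) u hu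
  have K4 := H4 al be (Sz_mono m4 hs) ρ hρ (hρδ.trans_le m4) q (NbF_mono m4 hq) u hu
  have K5 := H5 al be (Sz_mono m5 hs) ρ hρ (hρδ.trans_le m5) q (NbF_mono m5 hq) u hu
  have K6 := H6 al be (Sz_mono m6 hs) ρ hρ (hρδ.trans_le m6) q (NbF_mono m6 hq) u hu
  have KN := HN al be (Sz_mono mN hs) ρ hρ (hρδ.trans_le mN) q (NbF_mono mN hq) u hu
  have g1 : q.1.2.1 / al - u * (q.1.2.2 / al) - be ^ 2 * ρ * (q.1.1 / (al * be ^ 2 * ρ)) =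
      (q.1.2.1 - u * q.1.2.2 - q.1.1) / al := by
    field_simp
  have g2 : q.2.2.1 / be - u * (q.2.2.2 / be) - ρ * (q.2.1 / (be * ρ)) =
      (q.2.2.1 - u * q.2.2.2 - q.2.1) / be := by
    field_simp
  have g3 : q.1.2.1 / al - u * (q.1.2.2 / al) = (q.1.2.1 - u * q.1.2.2) / al := by
    field_simp
  have g4 : q.2.2.1 / be - u * (q.2.2.2 / be) = (q.2.2.1 - u * q.2.2.2) / be := by
    field_simp
  have e3 : (p0B A0 B0 x0 y0).2.2.2.2.1 - (p0B A0 B0 x0 y0).2.1 * (p0B A0 B0 x0 y0).2.2.1 *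
      (p0B A0 B0 x0 y0).2.2.2.1.1 = x0.1 := by simp [p0B]
  have e4 : (p0B A0 B0 x0 y0).2.2.2.2.2 - (p0B A0 B0 x0 y0).2.2.1 *
      (p0B A0 B0 x0 y0).2.2.2.1.2 = x0.2 := by simp [p0B]
  simp only [e3, e4] at K3 K4
  change |q.1.2.1 / al - u * (q.1.2.2 / al) - be ^ 2 * ρ * (q.1.1 / (al * be ^ 2 * ρ)) - x0.1| <
    x0.1 / 4 at K3
  change |q.2.2.1 / be - u * (q.2.2.2 / be) - ρ * (q.2.1 / (be * ρ)) - x0.2| < x0.2 / 4 at K4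
  change |q.1.2.1 / al - u * (q.1.2.2 / al) - x0.1| < x0.1 / 4 at K5
  change |q.2.2.1 / be - u * (q.2.2.2 / be) - x0.2| < x0.2 / 4 at K6
  rw [g1] at K3
  rw [g2] at K4
  rw [g3] at K5
  rw [g4] at K6
  have hc8 : 0 < c ^ 2 / 8 := by positivity
  have P1 : c ^ 2 / 8 ≤ 1 - (q.1.2.1 - u * q.1.2.2) ^ 2 - (q.2.2.1 - u * q.2.2.2) ^ 2 := by
    have := (abs_lt.1 K1).1
    rw [pQ_q1 s1 s3, base_q1] at this
    linarith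
  have P2 : c ^ 2 / 8 ≤ 1 - (q.1.2.1 - u * q.1.2.2 - q.1.1) ^ 2 -
      (q.2.2.1 - u * q.2.2.2 - q.2.1) ^ 2 := by
    have := (abs_lt.1 K2).1
    rw [pQ_q2 s1 s3 hρ, base_q2] at this
    have r1 : q.1.2.1 - u * q.1.2.2 - q.1.1 = q.1.2.1 - q.1.1 - u * q.1.2.2 := by ring
    have r2 : q.2.2.1 - u * q.2.2.2 - q.2.1 = q.2.2.1 - q.2.1 - u * q.2.2.2 := by ring
    rw [r1, r2]
    linarith
  refine ⟨?_, K5.le, K3.le, K6.le, K4.le, P1, P2⟩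
  have hpos : 0 < q.1.2.1 - u * q.1.2.2 - q.1.1 := by
    have := (abs_lt.1 K3).1
    have h3 : 0 < (q.1.2.1 - u * q.1.2.2 - q.1.1) / al := by linarith
    exact (div_pos_iff_of_pos_right s1).1 h3
  rw [pQ_N s1 s3 hρ q u hpos (by
    have := sq_nonneg (q.1.2.1 - u * q.1.2.2 - q.1.1)
    linarith), ← base_N (c := c) (A0 := A0) hb]
  exact KN.le

theorem Nx_smallF (c : ℝ) (hc : 0 < c) (A0 B0 : ℝ) (x0 y0 : ℝ × ℝ) (hb : Bs c A0 B0 x0)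
    (h1 : nb B0 x0 y0 = 0) (η : ℝ) (hη : 0 < η) :
    ∃ δ : ℝ, 0 < δ ∧ ∀ al be : ℝ, Sz al be A0 B0 δ → ∀ ρ : ℝ, 0 < ρ → ρ < δ → ∀ y x : ℝ × ℝ,
    |y.1 / (al * be ^ 2 * ρ) - y0.1| ≤ δ → |y.2 / (be * ρ) - y0.2| ≤ δ → |x.1 / al - x0.1| ≤ δ →
    |x.2 / be - x0.2| ≤ δ →
    |Nf (be ^ 2 * ρ) (y.1 / (be ^ 2 * ρ), y.2 / (be ^ 2 * ρ)) x| ≤ η := by
  obtain ⟨δ, hδ, -, H⟩ := eF_base (y0 := y0) hc hb hη
  refine ⟨δ, hδ, fun al be hs ρ hρ hρδ y x g1 g2 g3 g4 => ?_⟩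
  have := (H al be hs ρ hρ hρδ ((y.1, x.1, 0), (y.2, x.2, 0))
    ⟨g1, g2, g3, g4, by simpa using hδ.le, by simpa using hδ.le⟩ 0 ⟨le_rfl, zero_le_one⟩).1
  rw [h1, sub_zero, nU_zero] at this
  exact this

theorem abs_comb_le {ρ L N M s t : ℝ} (hρ : 0 ≤ ρ) (hL : 0 ≤ L) :
    ρ * (|M| * |t| - L * |N| * |s|) ≤ |-(ρ * (L * N * s + M * t))| ∧
    ρ * (L * |N| * |s| - |M| * |t|) ≤ |-(ρ * (L * N * s + M * t))| := by
  rw [abs_neg, abs_mul, abs_of_nonneg hρ]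
  have e1 : |L * N * s| = L * |N| * |s| := by rw [abs_mul, abs_mul, abs_of_nonneg hL]
  have e2 : |M * t| = |M| * |t| := abs_mul _ _
  rw [← e1, ← e2]
  constructor
  · refine mul_le_mul_of_nonneg_left ?_ hρ
    have := abs_sub_abs_le_abs_sub (M * t) (-(L * N * s))
    rw [abs_neg, sub_neg_eq_add, add_comm (M * t)] at this
    exact this
  · refine mul_le_mul_of_nonneg_left ?_ hρ
    have := abs_sub_abs_le_abs_sub (L * N * s) (-(M * t))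
    rw [abs_neg, sub_neg_eq_add] at this
    exact this

/-- Case `n ≠ 0`. -/
theorem E_NF (c : ℝ) (hc : 0 < c) (A0 B0 : ℝ) (x0 y0 : ℝ × ℝ) (hb : Bs c A0 B0 x0)
    (hy2 : y0.2 ≠ 0) (h1 : nb B0 x0 y0 ≠ 0) :
    ∃ δ c1 C7 : ℝ, 0 < δ ∧ 0 < c1 ∧ 1 ≤ C7 ∧ ∀ al be : ℝ, Sz al be A0 B0 δ → ∀ ρ : ℝ, 0 < ρ →
    ρ < δ → ∀ q : V × V, NbF al be δ ρ x0 y0 q →
    (C7 * (be * |q.2.2.2|) ≤ al * be ^ 2 * |q.1.2.2| →
      c1 * ρ * (al * be ^ 2 * |q.1.2.2|) ≤ |Fr c q.1 q.2|) ∧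
    (C7 * (al * be ^ 2 * |q.1.2.2|) ≤ be * |q.2.2.2| →
      c1 * ρ * (be * |q.2.2.2|) ≤ |Fr c q.1 q.2|) := by
  obtain ⟨l, Λ, hl, hΛ, H⟩ := eF_keyA (y0 := y0) hc hb hy2
  have hn : 0 < |nb B0 x0 y0| := abs_pos.2 h1
  obtain ⟨δ, hδ, -, H⟩ := H (|nb B0 x0 y0| / 2) (half_pos hn)
  obtain ⟨m, hm⟩ : ∃ m : ℝ, m = |nb B0 x0 y0| := ⟨_, rfl⟩
  rw [← hm] at hn H
  have hΛ0 : 0 < Λ := hl.trans_le hΛ
  refine ⟨δ, min (l * m / 4) (l / 2), 1 + 4 * Λ / (l * m) + 3 * Λ * m / l, hδ, by positivity,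
    by
      have : 0 ≤ 4 * Λ / (l * m) + 3 * Λ * m / l := by positivity
      linarith, fun al be hs ρ hρ hρδ q hq => ?_⟩
  obtain ⟨g1, u, hu, L, M, g2, g3, g4, g5, g6⟩ := H al be hs ρ hρ hρδ q hq
  have s1 := hs.1
  have s3 := hs.2.2.1
  have gN := g1 u hu
  have k1 : m / 2 ≤ |nU be ρ q u| := by
    have := abs_sub_abs_le_abs_sub (nb B0 x0 y0) (nU be ρ q u)
    rw [abs_sub_comm, ← hm] at this
    linarith
  have k2 : |nU be ρ q u| ≤ 3 * m / 2 := by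
    have := abs_sub_abs_le_abs_sub (nU be ρ q u) (nb B0 x0 y0)
    rw [← hm] at this
    linarith
  have f1 : |al * be ^ 2 * q.1.2.2| = al * be ^ 2 * |q.1.2.2| := by
    rw [abs_mul, abs_of_pos (by positivity)]
  have f2 : |be * q.2.2.2| = be * |q.2.2.2| := by
    rw [abs_mul, abs_of_pos s3]
  have L0 : 0 ≤ L := hl.le.trans g2
  obtain ⟨F1, F2⟩ := abs_comb_le (ρ := ρ) (L := L) (N := nU be ρ q u) (M := M)
    (s := al * be ^ 2 * q.1.2.2) (t := be * q.2.2.2) hρ.le L0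
  rw [← g6, f1, f2] at F1 F2
  set a1 := al * be ^ 2 * |q.1.2.2|
  set a2 := be * |q.2.2.2|
  have ha1 : 0 ≤ a1 := by positivity
  have ha2 : 0 ≤ a2 := by positivity
  constructor
  · intro h
    refine le_trans ?_ F2
    have e1 : 4 * Λ / (l * m) * a2 ≤ a1 := by
      refine le_trans ?_ h
      have : 0 ≤ 3 * Λ * m / l * a2 := by positivity
      nlinarith
    have e2 : Λ * a2 ≤ l * m / 4 * a1 := by
      calc Λ * a2 = l * m / 4 * (4 * Λ / (l * m) * a2) := by field_simp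
        _ ≤ _ := mul_le_mul_of_nonneg_left e1 (by positivity)
    have e3 : |M| * a2 ≤ Λ * a2 := mul_le_mul_of_nonneg_right g5 ha2
    have e4 : l * (m / 2) * a1 ≤ L * |nU be ρ q u| * a1 := by
      refine mul_le_mul_of_nonneg_right ?_ ha1
      exact mul_le_mul g2 k1 (by positivity) L0
    calc min (l * m / 4) (l / 2) * ρ * a1 ≤ l * m / 4 * ρ * a1 := by
          gcongr
          exact min_le_left _ _
      _ = ρ * (l * (m / 2) * a1 - l * m / 4 * a1) := by ring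
      _ ≤ _ := mul_le_mul_of_nonneg_left (by linarith) hρ.le
  · intro h
    refine le_trans ?_ F1
    have e1 : 3 * Λ * m / l * a1 ≤ a2 := by
      refine le_trans ?_ h
      have : 0 ≤ 4 * Λ / (l * m) * a1 := by positivity
      nlinarith
    have e2 : Λ * (3 * m / 2) * a1 ≤ l / 2 * a2 := by
      calc Λ * (3 * m / 2) * a1 = l / 2 * (3 * Λ * m / l * a1) := by field_simp
        _ ≤ _ := mul_le_mul_of_nonneg_left e1 (by positivity)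
    have e3 : l * a2 ≤ |M| * a2 := mul_le_mul_of_nonneg_right g4 ha2
    have e4 : L * |nU be ρ q u| * a1 ≤ Λ * (3 * m / 2) * a1 := by
      refine mul_le_mul_of_nonneg_right ?_ ha1
      exact mul_le_mul g3 k2 (abs_nonneg _) hΛ0.le
    calc min (l * m / 4) (l / 2) * ρ * a2 ≤ l / 2 * ρ * a2 := by
          gcongr
          exact min_le_right _ _
      _ = ρ * (l * a2 - l / 2 * a2) := by ring
      _ ≤ _ := mul_le_mul_of_nonneg_left (by linarith) hρ.le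

/-- R1. -/
theorem E_D1F (c : ℝ) (hc : 0 < c) (A0 B0 : ℝ) (x0 y0 : ℝ × ℝ) (hb : Bs c A0 B0 x0)
    (hy2 : y0.2 ≠ 0) (h1 : nb B0 x0 y0 = 0) (θ : ℝ) (hθ : 0 < θ) :
    ∃ δ c1 : ℝ, 0 < δ ∧ 0 < c1 ∧ ∀ al be : ℝ, Sz al be A0 B0 δ → ∀ ρ : ℝ, 0 < ρ →
    ρ < δ → ∀ q : V × V, NbF al be δ ρ x0 y0 q →
    θ * (al * be ^ 2 * |q.1.2.2|) ≤ be * |q.2.2.2| →
    c1 * ρ * (be * |q.2.2.2|) ≤ |Fr c q.1 q.2| := by
  obtain ⟨l, Λ, hl, hΛ, H⟩ := eF_keyA (y0 := y0) hc hb hy2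
  have hΛ0 : 0 < Λ := hl.trans_le hΛ
  obtain ⟨δ, hδ, -, H⟩ := H (l * θ / (2 * Λ)) (by positivity)
  refine ⟨δ, l / 2, hδ, by positivity, fun al be hs ρ hρ hρδ q hq h => ?_⟩
  obtain ⟨g1, u, hu, L, M, g2, g3, g4, g5, g6⟩ := H al be hs ρ hρ hρδ q hq
  have s1 := hs.1
  have s3 := hs.2.2.1
  have gN := g1 u hu
  rw [h1, sub_zero] at gN
  have f1 : |al * be ^ 2 * q.1.2.2| = al * be ^ 2 * |q.1.2.2| := by
    rw [abs_mul, abs_of_pos (by positivity)]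
  have f2 : |be * q.2.2.2| = be * |q.2.2.2| := by
    rw [abs_mul, abs_of_pos s3]
  have L0 : 0 ≤ L := hl.le.trans g2
  obtain ⟨F1, F2⟩ := abs_comb_le (ρ := ρ) (L := L) (N := nU be ρ q u) (M := M)
    (s := al * be ^ 2 * q.1.2.2) (t := be * q.2.2.2) hρ.le L0
  rw [← g6, f1, f2] at F1 F2
  set a1 := al * be ^ 2 * |q.1.2.2|
  set a2 := be * |q.2.2.2|
  have ha1 : 0 ≤ a1 := by positivity
  have ha2 : 0 ≤ a2 := by positivity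
  refine le_trans ?_ F1
  have e3 : l * a2 ≤ |M| * a2 := mul_le_mul_of_nonneg_right g4 ha2
  have e4 : L * |nU be ρ q u| * a1 ≤ Λ * (l * θ / (2 * Λ)) * a1 := by
    refine mul_le_mul_of_nonneg_right ?_ ha1
    exact mul_le_mul g3 gN (abs_nonneg _) hΛ0.le
  have e5 : Λ * (l * θ / (2 * Λ)) * a1 = l / 2 * (θ * a1) := by
    field_simp
  have e6 : l / 2 * (θ * a1) ≤ l / 2 * a2 := mul_le_mul_of_nonneg_left h (by positivity)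
  calc l / 2 * ρ * a2 = ρ * (l * a2 - l / 2 * a2) := by ring
    _ ≤ _ := mul_le_mul_of_nonneg_left (by linarith) hρ.le

end Pool.Agent.N1F
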