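import Pool.Agent.N1F.Defs
import Pool.Agent.N1E.E5

/-!
N1F, block A4: `vol_boxF`, `vol_stripF`.
-/

namespace Pool.Agent.N1F

open MeasureTheory Set Metric Pool.Agent.MP_6cbfb8_an Pool.Agent.MST Pool.Agent.N1
open scoped ENNReal Real ContDiff

private theorem volF_key {s δ : ℝ} (hs : 0 < s) (hδ1 : δ ≤ 1) : ∀ y t : ℝ, |y / s - t| ≤ δ →
    s * (t - 1) ≤ y ∧ y ≤ s * (t + 1) := by
  intro y t ht
  rw [abs_le] at ht
  have e : y = s * (y / s) := by field_simp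
  constructor
  · rw [e]; exact mul_le_mul_of_nonneg_left (by linarith [ht.1]) hs.le
  · rw [e]; exact mul_le_mul_of_nonneg_left (by linarith [ht.2]) hs.le

theorem vol_boxF (al be : ℝ) (x0 y0 : ℝ × ℝ) (δ ρ g d : ℝ) (hal : 0 < al) (hbe : 0 < be)
    (hδ : 0 ≤ δ) (hδ1 : δ ≤ 1) (hρ : 0 < ρ) (hg : 0 ≤ g) (hd : 0 ≤ d) :
    volume {q : V × V | NbF al be δ ρ x0 y0 q ∧ |q.1.2.2| ≤ g ∧ |q.2.2.2| ≤ d} ≤
      ENNReal.ofReal (64 * (al ^ 2 * be ^ 4) * ρ ^ 2 * g * d) := by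
  have hs1 : 0 < al * be ^ 2 * ρ := by positivity
  have hs2 : 0 < be * ρ := by positivity
  have hsub : {q : V × V | NbF al be δ ρ x0 y0 q ∧ |q.1.2.2| ≤ g ∧ |q.2.2.2| ≤ d} ⊆
      (Icc (al * be ^ 2 * ρ * (y0.1 - 1)) (al * be ^ 2 * ρ * (y0.1 + 1)) ×ˢ
        Icc (al * (x0.1 - 1)) (al * (x0.1 + 1)) ×ˢ Icc (-g) g) ×ˢ
      (Icc (be * ρ * (y0.2 - 1)) (be * ρ * (y0.2 + 1)) ×ˢ
        Icc (be * (x0.2 - 1)) (be * (x0.2 + 1)) ×ˢ Icc (-d) d) := by
    rintro ⟨⟨y1, a, z1⟩, ⟨y2, b, z2⟩⟩ ⟨⟨h1, h2, h3, h4, h5, h6⟩, h7, h8⟩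
    simp only at h1 h2 h3 h4 h5 h6 h7 h8
    rw [abs_le] at h7 h8
    exact ⟨⟨volF_key hs1 hδ1 y1 _ h1, volF_key hal hδ1 a _ h3, ⟨h7.1, h7.2⟩⟩,
      ⟨volF_key hs2 hδ1 y2 _ h2, volF_key hbe hδ1 b _ h4, ⟨h8.1, h8.2⟩⟩⟩
  refine (measure_mono hsub).trans ?_
  have e1 : al * be ^ 2 * ρ * (y0.1 + 1) - al * be ^ 2 * ρ * (y0.1 - 1) =
      2 * (al * be ^ 2 * ρ) := by ring
  have e2 : al * (x0.1 + 1) - al * (x0.1 - 1) = 2 * al := by ring
  have e3 : g - -g = 2 * g := by ring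
  have e4 : be * ρ * (y0.2 + 1) - be * ρ * (y0.2 - 1) = 2 * (be * ρ) := by ring
  have e5 : be * (x0.2 + 1) - be * (x0.2 - 1) = 2 * be := by ring
  have e6 : d - -d = 2 * d := by ring
  simp only [Measure.volume_eq_prod, Measure.prod_prod, Real.volume_Icc, e1, e2, e3, e4, e5, e6]
  rw [← ENNReal.ofReal_mul (by positivity), ← ENNReal.ofReal_mul (by positivity),
    ← ENNReal.ofReal_mul (by positivity), ← ENNReal.ofReal_mul (by positivity),
    ← ENNReal.ofReal_mul (by positivity)]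
  apply ENNReal.ofReal_le_ofReal
  apply le_of_eq
  ring

/-- measurability of `Nx` -/
private theorem volF_Nx_meas (ρ : ℝ) : Measurable (fun q : V × V => Nx ρ q) := by
  unfold Nx Nf om sg
  fun_prop

/-- lower bound for the difference of the scaled function `om` -/
private theorem volF_om {x r Y a a' : ℝ} (hx : 0 < x) (hr : 0 < r)
    (ha1 : x / 2 ≤ a) (ha2 : a ≤ 2 * x) (ha1' : x / 2 ≤ a') (ha2' : a' ≤ 2 * x)
    (hY : |r * Y| ≤ x / 4) :
    |Y| * |a - a'| ≤ 12 * x ^ 2 * |om r Y a - om r Y a'| := by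
  rw [abs_le] at hY
  have p1 : 0 < a - r * Y := by linarith
  have p2 : 0 < a' - r * Y := by linarith
  have q1 : a - r * Y ≤ 9 * x / 4 := by linarith
  have q2 : a' - r * Y ≤ 9 * x / 4 := by linarith
  have pa : 0 < a := by linarith
  have pa' : 0 < a' := by linarith
  have e : om r Y a - om r Y a' =
      Y * (a' - a) * ((a / (a - r * Y) + a' / (a' - r * Y)) / ((a - r * Y) * (a' - r * Y))) := by
    unfold om
    have key : ∀ w p q : ℝ, p ≠ 0 → q ≠ 0 → Y * (2 * (p + w) - w) / p ^ 2 -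
        Y * (2 * (q + w) - w) / q ^ 2 =
        Y * (q - p) * (((p + w) / p + (q + w) / q) / (p * q)) := by
      intro w p q hp hq
      field_simp
      ring
    have k1 := key (r * Y) (a - r * Y) (a' - r * Y) p1.ne' p2.ne'
    have k2 : a - r * Y + r * Y = a := by ring
    have k3 : a' - r * Y + r * Y = a' := by ring
    have k4 : a' - r * Y - (a - r * Y) = a' - a := by ring
    rw [k2, k3, k4] at k1
    exact k1
  have l1 : 2 / 9 ≤ a / (a - r * Y) := by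
    rw [div_le_div_iff₀ (by norm_num) p1]
    linarith
  have l2 : 2 / 9 ≤ a' / (a' - r * Y) := by
    rw [div_le_div_iff₀ (by norm_num) p2]
    linarith
  have l3 : 1 / (12 * x ^ 2) ≤
      (a / (a - r * Y) + a' / (a' - r * Y)) / ((a - r * Y) * (a' - r * Y)) := by
    rw [div_le_div_iff₀ (by positivity) (by positivity)]
    have h1 : (a - r * Y) * (a' - r * Y) ≤ 9 * x / 4 * (9 * x / 4) :=
      mul_le_mul q1 q2 p2.le (by positivity)
    have h2 : 4 / 9 * (12 * x ^ 2) ≤ (a / (a - r * Y) + a' / (a' - r * Y)) * (12 * x ^ 2) := by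
      gcongr
      linarith
    nlinarith
  rw [e, abs_mul, abs_mul, abs_of_nonneg (le_trans (by positivity) l3), abs_sub_comm a' a]
  have h3 : 1 = 12 * x ^ 2 * (1 / (12 * x ^ 2)) := by field_simp
  calc |Y| * |a - a'| = |Y| * |a - a'| * (12 * x ^ 2 * (1 / (12 * x ^ 2))) := by
        rw [← h3, mul_one]
    _ ≤ |Y| * |a - a'| * (12 * x ^ 2 *
        ((a / (a - r * Y) + a' / (a' - r * Y)) / ((a - r * Y) * (a' - r * Y)))) := by gcongr
    _ = _ := by ring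

theorem vol_stripF (c : ℝ) (hc : 0 < c) (A0 B0 : ℝ) (x0 y0 : ℝ × ℝ) (hb : Bs c A0 B0 x0)
    (hy1 : y0.1 ≠ 0) :
    ∃ δ C : ℝ, 0 < δ ∧ 0 < C ∧ ∀ al be : ℝ, Sz al be A0 B0 δ → ∀ ρ : ℝ, 0 < ρ → ρ < δ →
    ∀ κ g d : ℝ, 0 ≤ κ → 0 ≤ g → 0 ≤ d →
    volume {q : V × V | NbF al be δ ρ x0 y0 q ∧ |Nx (be ^ 2 * ρ) q| ≤ 2 * κ ∧ |q.1.2.2| ≤ g ∧
      |q.2.2.2| ≤ d} ≤ ENNReal.ofReal (C * (al ^ 2 * be ^ 4) * ρ ^ 2 * κ * g * d) := by
  obtain ⟨-, -, -, hx, -, -⟩ := hb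
  have hy0 : 0 < |y0.1| := abs_pos.2 hy1
  obtain ⟨δ, hδ0, hδ1, hδ2, hδ3, hδ4⟩ : ∃ δ : ℝ, 0 < δ ∧ δ ≤ 1 ∧ δ ≤ |y0.1| / 2 ∧
      δ ≤ x0.1 / 2 ∧ δ * (1 + |y0.1|) ≤ x0.1 / 4 := by
    refine ⟨min (min 1 (|y0.1| / 2)) (min (x0.1 / 2) (x0.1 / (4 * (1 + |y0.1|)))),
      by positivity, (min_le_left _ _).trans (min_le_left _ _),
      (min_le_left _ _).trans (min_le_right _ _), (min_le_right _ _).trans (min_le_left _ _), ?_⟩
    have h := (min_le_right (min 1 (|y0.1| / 2))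
      (min (x0.1 / 2) (x0.1 / (4 * (1 + |y0.1|))))).trans (min_le_right _ _)
    rw [le_div_iff₀ (by positivity)] at h
    linarith
  refine ⟨δ, 3072 * x0.1 ^ 2 / |y0.1|, hδ0, by positivity, ?_⟩
  intro al be hS ρ hρ hρδ κ g d hκ hg hd
  obtain ⟨hal, hal1, hbe, hbe1, -, -⟩ := hS
  have hs1 : 0 < al * be ^ 2 * ρ := by positivity
  have hs2 : 0 < be * ρ := by positivity
  have hr : 0 < be ^ 2 * ρ := by positivity
  have hbe2 : be ^ 2 ≤ 1 := pow_le_one₀ hbe.le hbe1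
  -- measurability
  have mN := volF_Nx_meas (be ^ 2 * ρ)
  have hR : MeasurableSet {q : V × V | NbF al be δ ρ x0 y0 q ∧ |Nx (be ^ 2 * ρ) q| ≤ 2 * κ ∧
      |q.1.2.2| ≤ g ∧ |q.2.2.2| ≤ d} := by
    refine MeasurableSet.inter (s₁ := {q : V × V | NbF al be δ ρ x0 y0 q}) ?_ (MeasurableSet.inter
      (s₁ := {q : V × V | |Nx (be ^ 2 * ρ) q| ≤ 2 * κ})
      (s₂ := {q : V × V | |q.1.2.2| ≤ g ∧ |q.2.2.2| ≤ d})
      (measurableSet_le mN.abs measurable_const) ?_)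
    · have e : {q : V × V | NbF al be δ ρ x0 y0 q} =
          {q : V × V | |q.1.1 / (al * be ^ 2 * ρ) - y0.1| ≤ δ} ∩
          ({q : V × V | |q.2.1 / (be * ρ) - y0.2| ≤ δ} ∩ ({q : V × V | |q.1.2.1 / al - x0.1| ≤ δ} ∩
          ({q : V × V | |q.2.2.1 / be - x0.2| ≤ δ} ∩ ({q : V × V | |q.1.2.2 / al| ≤ δ} ∩
          {q : V × V | |q.2.2.2 / be| ≤ δ})))) := rfl
      rw [e]
      refine (measurableSet_le (by fun_prop) measurable_const).inter
        ((measurableSet_le (by fun_prop) measurable_const).inter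
        ((measurableSet_le (by fun_prop) measurable_const).inter
        ((measurableSet_le (by fun_prop) measurable_const).inter
        ((measurableSet_le (by fun_prop) measurable_const).inter
        (measurableSet_le (by fun_prop) measurable_const)))))
    · have m1 : Measurable fun q : V × V => |q.1.2.2| := by fun_prop
      have m2 : Measurable fun q : V × V => |q.2.2.2| := by fun_prop
      exact MeasurableSet.inter (s₁ := {q : V × V | |q.1.2.2| ≤ g})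
        (s₂ := {q : V × V | |q.2.2.2| ≤ d}) (measurableSet_le m1 measurable_const)
        (measurableSet_le m2 measurable_const)
  have hk : 0 ≤ al * (96 * x0.1 ^ 2 * κ / |y0.1|) := by positivity
  have h := N1E.vol_slice
    (I1 := Icc (al * be ^ 2 * ρ * (y0.1 - 1)) (al * be ^ 2 * ρ * (y0.1 + 1)))
    (I3 := Icc (-g) g)
    (J1 := Icc (be * ρ * (y0.2 - 1)) (be * ρ * (y0.2 + 1)))
    (J2 := Icc (be * (x0.2 - 1)) (be * (x0.2 + 1)))
    (J3 := Icc (-d) d) hk _ hR ?_ ?_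
  · refine h.trans ?_
    have e1 : al * be ^ 2 * ρ * (y0.1 + 1) - al * be ^ 2 * ρ * (y0.1 - 1) =
        2 * (al * be ^ 2 * ρ) := by ring
    have e3 : g - -g = 2 * g := by ring
    have e4 : be * ρ * (y0.2 + 1) - be * ρ * (y0.2 - 1) = 2 * (be * ρ) := by ring
    have e5 : be * (x0.2 + 1) - be * (x0.2 - 1) = 2 * be := by ring
    have e6 : d - -d = 2 * d := by ring
    simp only [Real.volume_Icc, e1, e3, e4, e5, e6]
    rw [← ENNReal.ofReal_mul (by positivity), ← ENNReal.ofReal_mul (by positivity),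
      ← ENNReal.ofReal_mul (by positivity), ← ENNReal.ofReal_mul (by positivity),
      ← ENNReal.ofReal_mul (by positivity)]
    apply ENNReal.ofReal_le_ofReal
    apply le_of_eq
    field_simp
    ring
  · rintro ⟨⟨y1, a, z1⟩, ⟨y2, b, z2⟩⟩ ⟨⟨h1, h2, h3, h4, h5, h6⟩, h7, h8, h9⟩
    simp only at h1 h2 h3 h4 h5 h6 h8 h9
    rw [abs_le] at h8 h9
    exact ⟨volF_key hs1 hδ1 y1 _ h1, ⟨h8.1, h8.2⟩, volF_key hs2 hδ1 y2 _ h2,
      volF_key hbe hδ1 b _ h4, ⟨h9.1, h9.2⟩⟩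
  · rintro y1 a a' z1 ⟨y2, b, z2⟩ ⟨⟨h1, h2, h3, h4, h5, h6⟩, h7, h8, h9⟩
      ⟨⟨-, -, h3', -, -, -⟩, h7', -, -⟩
    simp only at h1 h2 h3 h4 h5 h6 h8 h9 h3'
    have hYu : |y1 / (al * be ^ 2 * ρ)| ≤ 1 + |y0.1| := by
      have := abs_sub_abs_le_abs_sub (y1 / (al * be ^ 2 * ρ)) y0.1
      linarith
    have hYl : |y0.1| / 2 ≤ |y1 / (al * be ^ 2 * ρ)| := by
      have := abs_sub_abs_le_abs_sub y0.1 (y1 / (al * be ^ 2 * ρ))
      rw [abs_sub_comm] at this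
      linarith
    have hrY : |be ^ 2 * ρ * (y1 / (al * be ^ 2 * ρ))| ≤ x0.1 / 4 := by
      rw [abs_mul, abs_of_pos hr]
      calc be ^ 2 * ρ * |y1 / (al * be ^ 2 * ρ)| ≤ 1 * δ * (1 + |y0.1|) := by gcongr
        _ ≤ x0.1 / 4 := by linarith
    have rng : ∀ t : ℝ, |t / al - x0.1| ≤ δ → x0.1 / 2 ≤ t / al ∧ t / al ≤ 2 * x0.1 := by
      intro t ht
      rw [abs_le] at ht
      constructor <;> linarith [ht.1, ht.2]
    obtain ⟨r1, r2⟩ := rng a h3
    obtain ⟨r1', r2'⟩ := rng a' h3'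
    have hlow := volF_om hx hr r1 r2 r1' r2' hrY
    -- scaling of `om`
    have hom : ∀ t : ℝ, x0.1 / 2 ≤ t / al → om (be ^ 2 * ρ) (y1 / (be ^ 2 * ρ)) t =
        om (be ^ 2 * ρ) (y1 / (al * be ^ 2 * ρ)) (t / al) := by
      intro t ht
      have hw : be ^ 2 * ρ * (y1 / (al * be ^ 2 * ρ)) = y1 / al := by
        field_simp
      have hw2 : be ^ 2 * ρ * (y1 / (be ^ 2 * ρ)) = y1 := by
        field_simp
      have hp : 0 < t / al - y1 / al := by
        rw [hw, abs_le] at hrY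
        linarith [hrY.2]
      have hp2 : 0 < t - y1 := by
        have : t / al - y1 / al = (t - y1) / al := by ring
        rw [this] at hp
        exact (div_pos_iff_of_pos_right hal).1 hp
      unfold om
      rw [hw, hw2]
      field_simp
    have hN : |om (be ^ 2 * ρ) (y1 / (al * be ^ 2 * ρ)) (a / al) -
        om (be ^ 2 * ρ) (y1 / (al * be ^ 2 * ρ)) (a' / al)| ≤ 4 * κ := by
      rw [← hom a r1, ← hom a' r1']
      simp only [Nx, Nf] at h7 h7'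
      have e : om (be ^ 2 * ρ) (y1 / (be ^ 2 * ρ)) a - om (be ^ 2 * ρ) (y1 / (be ^ 2 * ρ)) a' =
          (om (be ^ 2 * ρ) (y1 / (be ^ 2 * ρ)) a - sg (be ^ 2 * ρ) (y2 / (be ^ 2 * ρ)) b) -
          (om (be ^ 2 * ρ) (y1 / (be ^ 2 * ρ)) a' - sg (be ^ 2 * ρ) (y2 / (be ^ 2 * ρ)) b) := by
        ring
      rw [e]
      exact (abs_sub _ _).trans (by linarith)
    have h10 : |y0.1| / 2 * |a / al - a' / al| ≤ 12 * x0.1 ^ 2 * (4 * κ) := by
      calc |y0.1| / 2 * |a / al - a' / al| ≤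
          |y1 / (al * be ^ 2 * ρ)| * |a / al - a' / al| := by gcongr
        _ ≤ _ := hlow
        _ ≤ 12 * x0.1 ^ 2 * (4 * κ) := by gcongr
    have h11 : |a - a'| = al * |a / al - a' / al| := by
      have e : a - a' = al * (a / al - a' / al) := by field_simp
      conv_lhs => rw [e]
      rw [abs_mul, abs_of_pos hal]
    rw [h11]
    gcongr
    rw [le_div_iff₀ hy0]
    nlinarith

end Pool.Agent.N1F
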