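import Pool.Agent.N1F.Defs

/-!
N1F, block A6, part a: sizes of the dyadic blocks; the partition of unity.
-/

namespace Pool.Agent.N1F

open MeasureTheory Set Metric Pool.Agent.MP_6cbfb8_an Pool.Agent.MST Pool.Agent.N1
open scoped ENNReal Real ContDiff

/-- type N: the first size is about `e` times the second -/
def ch_ty (K e Y1 Y2 : ℝ) : Prop := Y1 ≤ K * (e * Y2) ∧ e * Y2 ≤ K * Y1

/-- The case distinction for two differences of type O. -/
theorem ch_sizes (K e Y1 Y2 Z1 Z2 : ℝ) (hK : 1 ≤ K) (he : 0 < e) (he1 : e ≤ 1) (hY1 : 0 < Y1)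
    (hY2 : 0 < Y2) (hZ1 : 0 < Z1) (hZ2 : 0 < Z2) (a : ¬ ch_ty K e Y1 Y2) (a' : ¬ ch_ty K e Y2 Y1)
    (b : ¬ ch_ty K e Z1 Z2) (b' : ¬ ch_ty K e Z2 Z1) :
    (K * (Y2 * Z2) ≤ Y1 * Z1 ∧ K * (e * (Y1 * Z2)) ≤ Y1 * Z1 ∧ K * (e * (Y2 * Z1)) ≤ Y1 * Z1) ∨
    (K * (Y1 * Z1) ≤ Y2 * Z2 ∧ K * (e * (Y1 * Z2)) ≤ Y2 * Z2 ∧ K * (e * (Y2 * Z1)) ≤ Y2 * Z2) ∨
    (K * (Y1 * Z1) ≤ e * (Y1 * Z2) ∧ K * (Y2 * Z2) ≤ e * (Y1 * Z2) ∧
      K * (Y2 * Z1) ≤ Y1 * Z2) ∨
    (K * (Y1 * Z1) ≤ e * (Y2 * Z1) ∧ K * (Y2 * Z2) ≤ e * (Y2 * Z1) ∧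
      K * (Y1 * Z2) ≤ Y2 * Z1) ∨
    (Y1 * Z1 ≤ K * (Y2 * Z2) ∧ Y2 * Z2 ≤ K * (Y1 * Z1) ∧ e * Z2 ≤ K * Z1 ∧ e * Y2 ≤ K * Y1) := by
  have hK0 : 0 < K := by linarith
  -- the four alternatives
  have A : K * (e * (Y2 * Z1)) ≤ Y1 * Z1 ∨ K * (Y1 * Z1) ≤ e * (Y2 * Z1) := by
    by_cases h : Y1 ≤ K * (e * Y2)
    · have h1 : K * Y1 < e * Y2 := not_le.1 fun h2 => a ⟨h, h2⟩
      right
      nlinarith
    · left
      push Not at h
      nlinarith
  have A' : K * (e * (Y1 * Z2)) ≤ Y2 * Z2 ∨ K * (Y2 * Z2) ≤ e * (Y1 * Z2) := by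
    by_cases h : Y2 ≤ K * (e * Y1)
    · have h1 : K * Y2 < e * Y1 := not_le.1 fun h2 => a' ⟨h, h2⟩
      right
      nlinarith
    · left
      push Not at h
      nlinarith
  have B : K * (e * (Y1 * Z2)) ≤ Y1 * Z1 ∨ K * (Y1 * Z1) ≤ e * (Y1 * Z2) := by
    by_cases h : Z1 ≤ K * (e * Z2)
    · have h1 : K * Z1 < e * Z2 := not_le.1 fun h2 => b ⟨h, h2⟩
      right
      nlinarith
    · left
      push Not at h
      nlinarith
  have B' : K * (e * (Y2 * Z1)) ≤ Y2 * Z2 ∨ K * (Y2 * Z2) ≤ e * (Y2 * Z1) := by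
    by_cases h : Z2 ≤ K * (e * Z1)
    · have h1 : K * Z2 < e * Z1 := not_le.1 fun h2 => b' ⟨h, h2⟩
      right
      nlinarith
    · left
      push Not at h
      nlinarith
  have p1 : 0 < Y1 * Z1 := by positivity
  have p2 : 0 < Y2 * Z2 := by positivity
  have p3 : 0 < e * (Y1 * Z2) := by positivity
  have p4 : 0 < e * (Y2 * Z1) := by positivity
  have hprod : (e * (Y1 * Z2)) * (e * (Y2 * Z1)) = e ^ 2 * ((Y1 * Z1) * (Y2 * Z2)) := by ring
  -- the last alternative from comparison of the first two sizes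
  have last : Y1 * Z1 ≤ K * (Y2 * Z2) → Y2 * Z2 ≤ K * (Y1 * Z1) →
      e * (Y1 * Z2) ≤ K * (Y1 * Z1) → e * (Y2 * Z1) ≤ K * (Y1 * Z1) →
      (Y1 * Z1 ≤ K * (Y2 * Z2) ∧ Y2 * Z2 ≤ K * (Y1 * Z1) ∧ e * Z2 ≤ K * Z1 ∧
        e * Y2 ≤ K * Y1) := by
    intro h1 h2 h3 h4
    refine ⟨h1, h2, ?_, ?_⟩
    · have h5 : Y1 * (e * Z2) ≤ Y1 * (K * Z1) := by linarith
      exact le_of_mul_le_mul_left h5 hY1
    · have h5 : Z1 * (e * Y2) ≤ Z1 * (K * Y1) := by linarith
      exact le_of_mul_le_mul_left h5 hZ1
  by_cases m13 : Y1 * Z1 < e * (Y1 * Z2)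
  · -- the first size is not the maximum
    have B2 : K * (Y1 * Z1) ≤ e * (Y1 * Z2) := by
      rcases B with h | h
      · nlinarith
      · exact h
    by_cases m32 : Y2 * Z2 < e * (Y1 * Z2)
    · have A2 : K * (Y2 * Z2) ≤ e * (Y1 * Z2) := by
        rcases A' with h | h
        · nlinarith
        · exact h
      right; right; left
      refine ⟨B2, A2, ?_⟩
      -- `K² s₁ s₂ ≤ s₃²`, so `K² s₄ ≤ e² s₃`
      have h1 : K * (Y1 * Z1) * (K * (Y2 * Z2)) ≤ (e * (Y1 * Z2)) * (e * (Y1 * Z2)) :=
        mul_le_mul B2 A2 (by positivity) p3.le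
      have h2 : K * K * (Y2 * Z1) ≤ e * (e * (Y1 * Z2)) := by
        have h3 : (Y1 * Z2) * (K * K * (Y2 * Z1)) ≤ (Y1 * Z2) * (e * (e * (Y1 * Z2))) := by
          nlinarith
        exact le_of_mul_le_mul_left h3 (by positivity)
      have h4 : e * (e * (Y1 * Z2)) ≤ Y1 * Z2 := by
        have h5 : 0 < Y1 * Z2 := by positivity
        have h6 : e * e ≤ 1 := by nlinarith
        nlinarith
      have h7 : 0 < Y2 * Z1 := by positivity
      have h8 : K * (Y2 * Z1) ≤ K * K * (Y2 * Z1) :=
        mul_le_mul_of_nonneg_right (le_mul_of_one_le_left hK0.le hK) h7.le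
      linarith
    · push Not at m32
      -- the second size is at least the third, which is larger than the first
      by_cases m24 : Y2 * Z2 < e * (Y2 * Z1)
      · -- fourth is larger than second
        exfalso
        -- `s₁ < s₃ ≤ s₂ < s₄` contradicts `s₃ s₄ ≤ s₁ s₂`
        have h1 : (Y1 * Z1) * (Y2 * Z2) < (e * (Y1 * Z2)) * (e * (Y2 * Z1)) :=
          mul_lt_mul'' m13 m24 p1.le p2.le
        rw [hprod] at h1
        have h2 : e ^ 2 ≤ 1 := by nlinarith
        nlinarith [mul_pos p1 p2]
      · push Not at m24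
        -- the second size is the maximum
        by_cases h12 : K * (Y1 * Z1) ≤ Y2 * Z2
        · right; left
          refine ⟨h12, ?_, ?_⟩
          · rcases A' with h | h
            · exact h
            · -- `K s₂ ≤ s₃ ≤ s₂`
              have h3 : K * (Y2 * Z2) ≤ Y2 * Z2 := h.trans m32
              have h4 : K ≤ 1 := by
                by_contra h5
                push Not at h5
                nlinarith
              have h5 : K = 1 := le_antisymm h4 hK
              rw [h5, one_mul]
              exact m32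
          · rcases B' with h | h
            · exact h
            · have h3 : K * (Y2 * Z2) ≤ Y2 * Z2 := h.trans m24
              have h4 : K ≤ 1 := by
                by_contra h5
                push Not at h5
                nlinarith
              have h5 : K = 1 := le_antisymm h4 hK
              rw [h5, one_mul]
              exact m24
        · push Not at h12
          right; right; right; right
          refine last ?_ h12.le ?_ ?_
          · nlinarith
          · linarith
          · linarith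
  · push Not at m13
    by_cases m14 : Y1 * Z1 < e * (Y2 * Z1)
    · have A2 : K * (Y1 * Z1) ≤ e * (Y2 * Z1) := by
        rcases A with h | h
        · nlinarith
        · exact h
      by_cases m24 : Y2 * Z2 < e * (Y2 * Z1)
      · have B2 : K * (Y2 * Z2) ≤ e * (Y2 * Z1) := by
          rcases B' with h | h
          · nlinarith
          · exact h
        right; right; right; left
        refine ⟨A2, B2, ?_⟩
        have h1 : K * (Y1 * Z1) * (K * (Y2 * Z2)) ≤ (e * (Y2 * Z1)) * (e * (Y2 * Z1)) :=
          mul_le_mul A2 B2 (by positivity) p4.le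
        have h2 : K * K * (Y1 * Z2) ≤ e * (e * (Y2 * Z1)) := by
          have h3 : (Y2 * Z1) * (K * K * (Y1 * Z2)) ≤ (Y2 * Z1) * (e * (e * (Y2 * Z1))) := by
            nlinarith
          exact le_of_mul_le_mul_left h3 (by positivity)
        have h4 : e * (e * (Y2 * Z1)) ≤ Y2 * Z1 := by
          have h5 : 0 < Y2 * Z1 := by positivity
          have h6 : e * e ≤ 1 := by nlinarith
          nlinarith
        have h7 : 0 < Y1 * Z2 := by positivity
        have h8 : K * (Y1 * Z2) ≤ K * K * (Y1 * Z2) :=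
          mul_le_mul_of_nonneg_right (le_mul_of_one_le_left hK0.le hK) h7.le
        linarith
      · push Not at m24
        by_cases m23 : Y2 * Z2 < e * (Y1 * Z2)
        · exfalso
          have h1 : Y1 * Z1 < e * (Y1 * Z2) := by linarith
          linarith
        · push Not at m23
          by_cases h12 : K * (Y1 * Z1) ≤ Y2 * Z2
          · right; left
            refine ⟨h12, ?_, ?_⟩
            · rcases A' with h | h
              · exact h
              · have h3 : K * (Y2 * Z2) ≤ Y2 * Z2 := h.trans m23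
                have h4 : K ≤ 1 := by
                  by_contra h5
                  push Not at h5
                  nlinarith
                have h5 : K = 1 := le_antisymm h4 hK
                rw [h5, one_mul]
                exact m23
            · rcases B' with h | h
              · exact h
              · have h3 : K * (Y2 * Z2) ≤ Y2 * Z2 := h.trans m24
                have h4 : K ≤ 1 := by
                  by_contra h5
                  push Not at h5
                  nlinarith
                have h5 : K = 1 := le_antisymm h4 hK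
                rw [h5, one_mul]
                exact m24
          · push Not at h12
            right; right; right; right
            refine last ?_ h12.le ?_ ?_
            · nlinarith
            · nlinarith
            · linarith
    · push Not at m14
      by_cases m12 : Y1 * Z1 < Y2 * Z2
      · by_cases h12 : K * (Y1 * Z1) ≤ Y2 * Z2
        · right; left
          refine ⟨h12, ?_, ?_⟩
          · rcases A' with h | h
            · exact h
            · nlinarith
          · rcases B' with h | h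
            · exact h
            · nlinarith
        · push Not at h12
          right; right; right; right
          refine last ?_ h12.le ?_ ?_
          · nlinarith
          · nlinarith
          · nlinarith
      · push Not at m12
        by_cases h12 : K * (Y2 * Z2) ≤ Y1 * Z1
        · left
          refine ⟨h12, ?_, ?_⟩
          · rcases B with h | h
            · exact h
            · have h3 : K * (Y1 * Z1) ≤ Y1 * Z1 := h.trans m13
              have h4 : K ≤ 1 := by
                by_contra h5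
                push Not at h5
                nlinarith
              have h5 : K = 1 := le_antisymm h4 hK
              rw [h5, one_mul]
              exact m13
          · rcases A with h | h
            · exact h
            · have h3 : K * (Y1 * Z1) ≤ Y1 * Z1 := h.trans m14
              have h4 : K ≤ 1 := by
                by_contra h5
                push Not at h5
                nlinarith
              have h5 : K = 1 := le_antisymm h4 hK
              rw [h5, one_mul]
              exact m14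
        · push Not at h12
          right; right; right; right
          refine last h12.le ?_ ?_ ?_
          · nlinarith
          · nlinarith
          · nlinarith

/-- The low part of the partition. -/
noncomputable def ch_rs (J : ℕ) (y : ℝ × ℝ) : ℝ :=
  th (2 ^ J * y.1) + th (2 ^ J * y.2) - th (2 ^ J * y.1) * th (2 ^ J * y.2)

theorem ch_rs_meas (J : ℕ) : Measurable (ch_rs J) := by
  unfold ch_rs
  have h1 : Measurable fun y : ℝ × ℝ => th (2 ^ J * y.1) := measurable_th.comp (by fun_prop)
  have h2 : Measurable fun y : ℝ × ℝ => th (2 ^ J * y.2) := measurable_th.comp (by fun_prop)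
  exact (h1.add h2).sub (h1.mul h2)

theorem ch_rs_abs (J : ℕ) (y : ℝ × ℝ) : |ch_rs J y| ≤ 1 := by
  have h1 := th_nonneg (2 ^ J * y.1)
  have h2 := th_nonneg (2 ^ J * y.2)
  have h3 := th_le_one (2 ^ J * y.1)
  have h4 := th_le_one (2 ^ J * y.2)
  unfold ch_rs
  rw [abs_le]
  constructor <;> nlinarith

theorem ch_rs_ne {J : ℕ} {y : ℝ × ℝ} (h : ch_rs J y ≠ 0) :
    |y.1| ≤ 2 / 2 ^ J ∨ |y.2| ≤ 2 / 2 ^ J := by
  have hJ : (0 : ℝ) < 2 ^ J := by positivity
  by_contra h1
  push Not at h1
  apply h
  have key : ∀ x : ℝ, 2 / 2 ^ J < |x| → th (2 ^ J * x) = 0 := by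
    intro x hx
    by_contra h2
    have h3 := th_support _ h2
    rw [abs_mul, abs_of_pos hJ] at h3
    rw [div_lt_iff₀ hJ] at hx
    linarith
  unfold ch_rs
  rw [key _ h1.1, key _ h1.2]
  ring

/-- Splitting by the partition of unity in a pair of coordinates. -/
theorem ch_part (c : ℝ) (hc : 0 < c) (T : ℝ) (hT : 0 < T) (J : ℕ)
    (Y : V × V → ℝ × ℝ) (hY : Measurable Y) (M : V × V → ℂ) (hM : Measurable M)
    (hM1 : ∀ q, ‖M q‖ ≤ 1) (hMs : ∀ q, M q ≠ 0 → |(Y q).1| ≤ 1 ∧ |(Y q).2| ≤ 1)
    (K1 K3 : ℝ)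
    (h1 : ∀ j k : ℕ, ‖FF c T (fun q => ((uj j (Y q).1 * uj k (Y q).2 : ℝ) : ℂ) * M q)‖ ≤ K1)
    (h4 : ‖FF c T (fun q => ((ch_rs J (Y q) : ℝ) : ℂ) * M q)‖ ≤ K3) :
    ‖FF c T M‖ ≤ (J : ℝ) ^ 2 * K1 + K3 := by
  classical
  let F : (ℕ × ℕ) ⊕ Unit → V × V → ℂ :=
    Sum.elim (fun p q => ((uj p.1 (Y q).1 * uj p.2 (Y q).2 : ℝ) : ℂ) * M q)
      (fun _ q => ((ch_rs J (Y q) : ℝ) : ℂ) * M q)
  let s : Finset ((ℕ × ℕ) ⊕ Unit) := (Finset.range J ×ˢ Finset.range J).disjSum {()}
  have hY1 : Measurable fun q => (Y q).1 := measurable_fst.comp hY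
  have hY2 : Measurable fun q => (Y q).2 := measurable_snd.comp hY
  have hsum : (fun q => ∑ i ∈ s, F i q) = M := by
    funext q
    by_cases hq : M q = 0
    · rw [hq]
      refine Finset.sum_eq_zero ?_
      rintro (p | u) - <;> simp [F, hq]
    · have h5 := th_sum J _ (hMs q hq).1
      have h6 := th_sum J _ (hMs q hq).2
      simp only [s, Finset.sum_disjSum, Finset.sum_singleton, F, Sum.elim_inl, Sum.elim_inr,
        Finset.sum_product]
      have h7 : (∑ j ∈ Finset.range J, ∑ k ∈ Finset.range J,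
          (uj j (Y q).1 * uj k (Y q).2)) + ch_rs J (Y q) = 1 := by
        have h8 : ∑ j ∈ Finset.range J, ∑ k ∈ Finset.range J, (uj j (Y q).1 * uj k (Y q).2) =
            (∑ j ∈ Finset.range J, uj j (Y q).1) * ∑ k ∈ Finset.range J, uj k (Y q).2 := by
          rw [Finset.sum_mul_sum]
        rw [h8, eq_sub_iff_add_eq.2 h5, eq_sub_iff_add_eq.2 h6]
        unfold ch_rs
        ring
      have h9 : (1 : ℂ) * M q = M q := one_mul _
      rw [← Complex.ofReal_one, ← h7] at h9
      refine Eq.trans ?_ h9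
      push_cast
      rw [add_mul, Finset.sum_mul]
      simp only [Finset.sum_mul]
  have hF : ∀ i, Measurable (F i) := by
    rintro (p | u)
    · exact (Complex.measurable_ofReal.comp (((measurable_uj _).comp hY1).mul
        ((measurable_uj _).comp hY2))).mul hM
    · exact (Complex.measurable_ofReal.comp ((ch_rs_meas J).comp hY)).mul hM
  have hB : ∀ i q, ‖F i q‖ ≤ 1 := by
    rintro (p | u) q
    · exact m2_mul_norm (uj_abs_le _ _) (uj_abs_le _ _) (hM1 q)
    · show ‖((ch_rs J (Y q) : ℝ) : ℂ) * M q‖ ≤ _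
      rw [norm_mul, Complex.norm_real, Real.norm_eq_abs]
      exact mul_le_one₀ (ch_rs_abs _ _) (norm_nonneg _) (hM1 q)
  have h5 := FF_sum c hc T hT s F hF _ hB
  rw [hsum] at h5
  rw [h5]
  refine (norm_sum_le _ _).trans ?_
  simp only [s, Finset.sum_disjSum, Finset.sum_singleton, F, Sum.elim_inl, Sum.elim_inr]
  have h6 : ∑ x ∈ Finset.range J ×ˢ Finset.range J,
      ‖FF c T fun q => ((uj x.1 (Y q).1 * uj x.2 (Y q).2 : ℝ) : ℂ) * M q‖ ≤
        (J : ℝ) ^ 2 * K1 := by
    refine (Finset.sum_le_card_nsmul _ _ K1 ?_).trans (le_of_eq ?_)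
    · rintro ⟨j, k⟩ -
      exact h1 j k
    · rw [Finset.card_product, Finset.card_range, nsmul_eq_mul]
      push_cast
      ring
  linarith

end Pool.Agent.N1F
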