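import Pool.Agent.N1F.CHa

/-!
N1F, block A6, part b: blocks of type N (outer or inner difference).
-/

namespace Pool.Agent.N1F

open MeasureTheory Set Metric Pool.Agent.MP_6cbfb8_an Pool.Agent.MST Pool.Agent.N1
open scoped ENNReal Real ContDiff

/-- the conclusion of THF -/
def ch_THF (c K r C : ℝ) : Prop :=
    ∀ T : ℝ, 1 ≤ T → ∀ al be : ℝ, 0 < al → al ≤ 1 → 0 < be → be ≤ 1 → al * be ≤ r →
    ∀ ρ : ℝ, 0 < ρ → ∀ x0 : ℝ × ℝ, ∀ α β : ℝ × ℝ → ℂ, Measurable α → Measurable β →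
      (∀ p, ‖α p‖ ≤ 1) → (∀ p, ‖β p‖ ≤ 1) →
      CapS al r x0.1 (al * be ^ 2 * ρ) K α → CapS be r x0.2 (be * ρ) K β →
      Th c T (pd α β) ≤ ENNReal.ofReal (C * (1 + Real.log T) ^ 5 / T)

theorem ch_CapS {al r r' x sy K η : ℝ} {G : ℝ → ℂ} {j : ℕ} (hal : 0 < al) (hG : CapG al r x G)
    (hr : r ≤ r') (h : ∀ y, uj j y ≠ 0 → 1 / K ≤ |y / sy| ∧ |y / sy| ≤ K) :
    CapS al r' x sy K (m2_ac j G η) := by
  intro p hp
  obtain ⟨h1, h2, h3⟩ := m2_ac_ne hp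
  obtain ⟨a1, a2, a3⟩ := hG _ h2
  obtain ⟨b1, b2, b3⟩ := hG _ h3
  obtain ⟨c1, c2⟩ := h _ h1
  have h4 : r * al ≤ r' * al := by gcongr
  exact ⟨a1, a2, b1, b2, a3.trans h4, b3.trans h4, c1, c2⟩

theorem ch_scale {K e Y1 Y2 : ℝ} {j : ℕ} (hK : 1 ≤ K) (he : 0 < e) (hY2 : 0 < Y2)
    (hY1 : Y1 = 1 / 2 ^ j) (h : ch_ty K e Y1 Y2) (y : ℝ) (hy : uj j y ≠ 0) :
    1 / (2 * K) ≤ |y / (e * Y2)| ∧ |y / (e * Y2)| ≤ 2 * K := by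
  obtain ⟨h1, h2⟩ := uj_support j y hy
  obtain ⟨h3, h4⟩ := h
  have hj : (0 : ℝ) < 2 ^ j := by positivity
  have hY : 0 < Y1 := by rw [hY1]; positivity
  have e1 : (1 : ℝ) / 2 ^ (j + 1) = Y1 / 2 := by rw [hY1, pow_succ]; ring
  have e2 : (2 : ℝ) / 2 ^ j = 2 * Y1 := by rw [hY1]; ring
  rw [e1] at h1
  rw [e2] at h2
  have hp : 0 < e * Y2 := by positivity
  rw [abs_div, abs_of_pos hp]
  constructor
  · rw [div_le_div_iff₀ (by positivity) hp]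
    nlinarith
  · rw [div_le_iff₀ hp]
    nlinarith

theorem ch_scale1 {K Y : ℝ} {j : ℕ} (hK : 1 ≤ K) (hY : Y = 1 / 2 ^ j) (y : ℝ) (hy : uj j y ≠ 0) :
    1 / (2 * K) ≤ |y / Y| ∧ |y / Y| ≤ 2 * K := by
  obtain ⟨h1, h2⟩ := m2_uj_scale1 hy
  rw [hY]
  refine ⟨le_trans ?_ h1, h2.trans ?_⟩
  · rw [div_le_div_iff₀ (by positivity) (by norm_num)]
    linarith
  · linarith

theorem ch_Th (c : ℝ) (K r' C : ℝ) (hK : 1 ≤ K) (hTH : ch_THF c (2 * K) r' C)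
    (T : ℝ) (hT : 1 ≤ T) (al be : ℝ) (hal : 0 < al) (hal1 : al ≤ 1) (hbe : 0 < be) (hbe1 : be ≤ 1)
    (r : ℝ) (hr : r ≤ r') (hab : al * be ≤ r) (x1 x2 : ℝ) (G₁ G₂ : ℝ → ℂ) (h1 : Measurable G₁)
    (h2 : Measurable G₂) (b1 : ∀ a, ‖G₁ a‖ ≤ 1) (b2 : ∀ a, ‖G₂ a‖ ≤ 1) (hG1 : CapG al r x1 G₁)
    (hG2 : CapG be r x2 G₂) (j k : ℕ)
    (hjk : ch_ty K (al * be) (1 / 2 ^ j) (1 / 2 ^ k) ∨ ch_ty K (al * be) (1 / 2 ^ k) (1 / 2 ^ j))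
    (η₁ η₂ : ℝ) :
    Th c T (pd (m2_ac j G₁ η₁) (m2_ac k G₂ η₂)) ≤
      ENNReal.ofReal (C * (1 + Real.log T) ^ 5 / T) := by
  have he : 0 < al * be := by positivity
  rcases hjk with hjk | hjk
  · have e1 : al * be ^ 2 * (1 / 2 ^ k / be) = al * be * (1 / 2 ^ k) := by
      field_simp
    have e2 : be * (1 / 2 ^ k / be) = 1 / (2 : ℝ) ^ k := by
      field_simp
    refine hTH T hT al be hal hal1 hbe hbe1 (hab.trans hr) (1 / 2 ^ k / be) (by positivity)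
      (x1, x2) _ _ (m2_ac_meas j η₁ h1) (m2_ac_meas k η₂ h2) (m2_ac_norm j η₁ b1)
      (m2_ac_norm k η₂ b2) (ch_CapS hal hG1 hr ?_) (ch_CapS hbe hG2 hr ?_)
    · rw [e1]
      exact ch_scale hK he (by positivity) rfl hjk
    · rw [e2]
      exact ch_scale1 hK rfl
  · rw [Th_comm]
    have e1 : be * al ^ 2 * (1 / 2 ^ j / al) = al * be * (1 / 2 ^ j) := by
      field_simp
    have e2 : al * (1 / 2 ^ j / al) = 1 / (2 : ℝ) ^ j := by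
      field_simp
    refine hTH T hT be al hbe hbe1 hal hal1 (by rw [mul_comm]; exact hab.trans hr)
      (1 / 2 ^ j / al) (by positivity)
      (x2, x1) _ _ (m2_ac_meas k η₂ h2) (m2_ac_meas j η₁ h1) (m2_ac_norm k η₂ b2)
      (m2_ac_norm j η₁ b1) (ch_CapS hbe hG2 hr ?_) (ch_CapS hal hG1 hr ?_)
    · rw [e1]
      exact ch_scale hK he (by positivity) rfl hjk
    · rw [e2]
      exact ch_scale1 hK rfl

/-- Outer difference of type N. -/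
theorem ch_N (c : ℝ) (hc : 0 < c) (T : ℝ) (hT : 1 ≤ T) (G₁ G₂ : ℝ → ℂ) (h1 : Measurable G₁)
    (h2 : Measurable G₂) (b1 : ∀ a, ‖G₁ a‖ ≤ 1) (b2 : ∀ a, ‖G₂ a‖ ≤ 1) (j k : ℕ) (η₁ η₂ Q : ℝ)
    (hQ : 0 ≤ Q) (hTh : Th c T (pd (m2_ac j G₁ η₁) (m2_ac k G₂ η₂)) ≤ ENNReal.ofReal Q) :
    ‖FF c T (fun q => m2_psi j k (q.1.1, q.2.1) *
      (ex (η₁ * q.1.2.2) * ex (η₂ * q.2.2.2) * m2_Q G₁ G₂ q))‖ ≤ Q := by
  have hT0 : 0 < T := by linarith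
  refine m2_enorm_le hQ ?_
  have h3 := FF_weight c hc T hT0 (pd (m2_al G₁ η₁) (m2_al G₂ η₂))
    (m2_pd_meas (m2_al_meas h1 η₁) (m2_al_meas h2 η₂))
    (m2_pd_norm (m2_al_norm b1 η₁) (m2_al_norm b2 η₂)) (m2_psi j k) (m2_psi_meas j k)
    (m2_psi_norm j k)
  rw [m2_ac_pd] at h3
  simp only [m2_sq_mod] at h3
  exact h3.trans hTh

/-- Inner difference of type N, any outer cut-offs. -/
theorem ch_DN (c : ℝ) (hc : 0 < c) (T : ℝ) (hT : 1 ≤ T) (G₁ G₂ : ℝ → ℂ) (h1 : Measurable G₁)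
    (h2 : Measurable G₂) (b1 : ∀ a, ‖G₁ a‖ ≤ 1) (b2 : ∀ a, ‖G₂ a‖ ≤ 1) (j k : ℕ) (Q : ℝ)
    (hQ : 0 ≤ Q)
    (hTh : ∀ η₁ η₂ : ℝ, Th c T (pd (m2_ac j G₁ η₁) (m2_ac k G₂ η₂)) ≤ ENNReal.ofReal Q)
    (B : ℝ) (m1 m2 : ℝ → ℂ) (hm1 : FT1 B m1) (hm2 : FT1 B m2) (m2m : Measurable m2)
    (m2b : ∀ x, ‖m2 x‖ ≤ 1) :
    ‖FF c T (fun q => m2_psi j k (q.1.2.2, q.2.2.2) *
      (m1 q.1.1 * m2 q.2.1 * m2_Q G₁ G₂ q))‖ ≤ B * (B * Q) := by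
  have hT0 : 0 < T := by linarith
  have hQm := m2_Q_meas h1 h2
  have hQn := m2_Q_norm b1 b2
  have hpm : Measurable fun q : V × V => m2_psi j k (q.1.2.2, q.2.2.2) :=
    (m2_psi_meas j k).comp (by fun_prop)
  -- the innermost estimate
  have k1 : ∀ η₁ η₂ : ℝ, ‖FF c T (fun q => ex (η₂ * q.2.1) * (ex (η₁ * q.1.1) *
      (m2_psi j k (q.1.2.2, q.2.2.2) * m2_Q G₁ G₂ q)))‖ ≤ Q := by
    intro η₁ η₂
    have h3 := ch_N c hc T hT G₁ G₂ h1 h2 b1 b2 j k η₁ η₂ Q hQ (hTh η₁ η₂)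
    rw [← FF_swp] at h3
    have h4 : (fun q : V × V => m2_psi j k ((swp q).1.1, (swp q).2.1) *
        (ex (η₁ * (swp q).1.2.2) * ex (η₂ * (swp q).2.2.2) * m2_Q G₁ G₂ (swp q))) =
        fun q => ex (η₂ * q.2.1) * (ex (η₁ * q.1.1) *
          (m2_psi j k (q.1.2.2, q.2.2.2) * m2_Q G₁ G₂ q)) := by
      funext q
      rw [m2_Q_swp]
      unfold swp
      simp only
      ring
    rw [h4] at h3
    exact h3
  have k2 : ∀ η₁ : ℝ, ‖FF c T (fun q => ex (η₁ * q.1.1) * (m2 q.2.1 *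
      (m2_psi j k (q.1.2.2, q.2.2.2) * m2_Q G₁ G₂ q)))‖ ≤ B * Q := by
    intro η₁
    have h3 := expand c hc T hT0 B m2 hm2 (fun q => ex (η₁ * q.1.1) *
      (m2_psi j k (q.1.2.2, q.2.2.2) * m2_Q G₁ G₂ q)) ?_ 1 ?_ (fun q => q.2.1) (by fun_prop)
      Q (k1 η₁)
    · have h4 : (fun q : V × V => ex (η₁ * q.1.1) * (m2 q.2.1 *
          (m2_psi j k (q.1.2.2, q.2.2.2) * m2_Q G₁ G₂ q))) =
          fun q : V × V => m2 q.2.1 * (ex (η₁ * q.1.1) *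
          (m2_psi j k (q.1.2.2, q.2.2.2) * m2_Q G₁ G₂ q)) := by
        funext q
        ring
      rw [h4]
      exact h3
    · exact (measurable_ex.comp (by fun_prop)).mul (hpm.mul hQm)
    · intro q
      rw [norm_mul, norm_mul, m2_ex_norm, one_mul]
      exact mul_le_one₀ (m2_psi_norm _ _ _) (norm_nonneg _) (hQn _)
  have h3 := expand c hc T hT0 B m1 hm1 (fun q => m2 q.2.1 *
      (m2_psi j k (q.1.2.2, q.2.2.2) * m2_Q G₁ G₂ q)) ?_ 1 ?_ (fun q => q.1.1) (by fun_prop)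
      (B * Q) k2
  · have h4 : (fun q : V × V => m2_psi j k (q.1.2.2, q.2.2.2) *
        (m1 q.1.1 * m2 q.2.1 * m2_Q G₁ G₂ q)) =
        fun q : V × V => m1 q.1.1 * (m2 q.2.1 *
          (m2_psi j k (q.1.2.2, q.2.2.2) * m2_Q G₁ G₂ q)) := by
      funext q
      ring
    rw [h4]
    exact h3
  · exact (m2m.comp (by fun_prop)).mul (hpm.mul hQm)
  · intro q
    rw [norm_mul, norm_mul]
    exact mul_le_one₀ (m2b _) (by positivity)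
      (mul_le_one₀ (m2_psi_norm _ _ _) (norm_nonneg _) (hQn _))

end Pool.Agent.N1F
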