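import Pool.Agent.N1F.CHb

/-!
N1F, block A6, part c: both differences of type O.
-/

namespace Pool.Agent.N1F

open MeasureTheory Set Metric Pool.Agent.MP_6cbfb8_an Pool.Agent.MST Pool.Agent.N1
open scoped ENNReal Real ContDiff

/-- the conclusion of propI2 -/
def ch_I2 (c K δ C : ℝ) : Prop :=
    ∀ T al be ρ₁ ρ₂ γ₁ γ₂ : ℝ, 0 < T →
      0 < al → al ≤ 1 → 0 < be → be ≤ 1 → al * be ≤ δ →
      0 < ρ₁ → ρ₁ < δ → 0 < ρ₂ → ρ₂ < δ → 0 < γ₁ → γ₁ < δ → 0 < γ₂ → γ₂ < δ →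
      al ^ 2 * ρ₁ * γ₁ ≤ K * (be ^ 2 * ρ₂ * γ₂) → be ^ 2 * ρ₂ * γ₂ ≤ K * (al ^ 2 * ρ₁ * γ₁) →
      be ^ 2 * γ₂ ≤ K * γ₁ → be ^ 2 * ρ₂ ≤ K * ρ₁ →
      ∀ A B : V → ℂ, Measurable A → Measurable B → (∀ a, ‖A a‖ ≤ 1) → (∀ b, ‖B b‖ ≤ 1) →
      (∀ u, A u ≠ 0 → GB (al * ρ₁) al (al * γ₁) K u) →
      (∀ v, B v ≠ 0 → GB (be * ρ₂) be (be * γ₂) K v) →
      ‖FF c T (tp A B)‖ ≤ C / T

/-- the conclusion of E_DDF -/
def ch_DD (c K r c1 : ℝ) : Prop := ∀ al be : ℝ,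
    0 < al → al ≤ 1 → 0 < be → be ≤ 1 → ∀ q : V × V,
    (Ge al q.1 ∧ q.1.2.1 ≤ 2 * al ∧ |q.1.1| ≤ r * al ∧ |q.1.2.2| ≤ r * al) →
    (Ge be q.2 ∧ q.2.2.1 ≤ 2 * be ∧ |q.2.1| ≤ r * be ∧ |q.2.2.2| ≤ r * be) →
    Wr c q.1 q.2 ≠ 0 →
    (K * (|q.2.1| * |q.2.2.2|) ≤ |q.1.1| * |q.1.2.2| →
      K * (al * be * (|q.1.1| * |q.2.2.2|)) ≤ |q.1.1| * |q.1.2.2| →
      K * (al * be * (|q.2.1| * |q.1.2.2|)) ≤ |q.1.1| * |q.1.2.2| →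
      c1 * (|q.1.1| * |q.1.2.2|) ≤ |Fr c q.1 q.2|) ∧
    (K * (|q.1.1| * |q.1.2.2|) ≤ |q.2.1| * |q.2.2.2| →
      K * (al * be * (|q.1.1| * |q.2.2.2|)) ≤ |q.2.1| * |q.2.2.2| →
      K * (al * be * (|q.2.1| * |q.1.2.2|)) ≤ |q.2.1| * |q.2.2.2| →
      c1 * (|q.2.1| * |q.2.2.2|) ≤ |Fr c q.1 q.2|) ∧
    (K * (|q.1.1| * |q.1.2.2|) ≤ al * be * (|q.1.1| * |q.2.2.2|) →
      K * (|q.2.1| * |q.2.2.2|) ≤ al * be * (|q.1.1| * |q.2.2.2|) →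
      K * (|q.2.1| * |q.1.2.2|) ≤ |q.1.1| * |q.2.2.2| →
      c1 * (al * be * (|q.1.1| * |q.2.2.2|)) ≤ |Fr c q.1 q.2|) ∧
    (K * (|q.1.1| * |q.1.2.2|) ≤ al * be * (|q.2.1| * |q.1.2.2|) →
      K * (|q.2.1| * |q.2.2.2|) ≤ al * be * (|q.2.1| * |q.1.2.2|) →
      K * (|q.1.1| * |q.2.2.2|) ≤ |q.2.1| * |q.1.2.2| →
      c1 * (al * be * (|q.2.1| * |q.1.2.2|)) ≤ |Fr c q.1 q.2|)

/-- the conclusion of the absolute estimate -/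
def ch_AB (c C : ℝ) : Prop := ∀ T : ℝ, 0 < T → ∀ (M : V × V → ℂ)
    (e1 e2 d1 d2 f0 : ℝ), Measurable M → (∀ q, ‖M q‖ ≤ 1) → 0 ≤ e1 → 0 ≤ e2 → 0 ≤ d1 → 0 ≤ d2 →
    0 ≤ f0 →
    (∀ q, M q ≠ 0 → Wr c q.1 q.2 ≠ 0 → |q.1.1| ≤ e1 ∧ |q.2.1| ≤ e2 ∧ |q.1.2.2| ≤ d1 ∧
      |q.2.2.2| ≤ d2 ∧ f0 ≤ |Fr c q.1 q.2|) →
    ‖FF c T M‖ ≤ C * T * (e1 * e2 * (d1 * d2)) / (1 + T * f0) ^ 3

/-- one factor of a block -/
noncomputable def ch_A (j l : ℕ) (G : ℝ → ℂ) (u : V) : ℂ :=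
  ((uj j u.1 * uj l u.2.2 : ℝ) : ℂ) *
    (da G (u.1, u.2.1) * (starRingEnd ℂ) (da G (u.1, u.2.1 - u.2.2)))

theorem ch_A_meas (j l : ℕ) {G : ℝ → ℂ} (hG : Measurable G) : Measurable (ch_A j l G) := by
  unfold ch_A
  refine Measurable.mul ?_ (Measurable.mul ?_ ?_)
  · exact Complex.measurable_ofReal.comp (((measurable_uj j).comp (by fun_prop)).mul
      ((measurable_uj l).comp (by fun_prop)))
  · exact (m2_da_meas hG).comp (by fun_prop)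
  · exact Complex.continuous_conj.measurable.comp ((m2_da_meas hG).comp (by fun_prop))

theorem ch_A_norm (j l : ℕ) {G : ℝ → ℂ} (hG : ∀ a, ‖G a‖ ≤ 1) (u : V) : ‖ch_A j l G u‖ ≤ 1 := by
  unfold ch_A
  refine m2_mul_norm (uj_abs_le _ _) (uj_abs_le _ _) ?_
  rw [norm_mul, RCLike.norm_conj]
  exact mul_le_one₀ (m2_da_norm hG _) (norm_nonneg _) (m2_da_norm hG _)

theorem ch_tp (j k l m : ℕ) (G₁ G₂ : ℝ → ℂ) : tp (ch_A j l G₁) (ch_A k m G₂) =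
    fun q : V × V => ((uj l q.1.2.2 * uj m q.2.2.2 : ℝ) : ℂ) *
      (((uj j q.1.1 * uj k q.2.1 : ℝ) : ℂ) * m2_Q G₁ G₂ q) := by
  funext q
  unfold tp ch_A m2_Q sqM pd
  simp only [map_mul]
  push_cast
  ring

theorem ch_A_ne {j l : ℕ} {G : ℝ → ℂ} {al r x : ℝ} (hG : CapG al r x G) {u : V}
    (h : ch_A j l G u ≠ 0) :
    (1 / 2 ^ j / 2 ≤ |u.1| ∧ |u.1| ≤ 2 * (1 / 2 ^ j)) ∧
    (1 / 2 ^ l / 2 ≤ |u.2.2| ∧ |u.2.2| ≤ 2 * (1 / 2 ^ l)) ∧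
    Ge al u ∧ u.2.1 ≤ 2 * al ∧ |u.1| ≤ 2 * r * al ∧ |u.2.2| ≤ 2 * r * al := by
  unfold ch_A at h
  obtain ⟨h1, h2⟩ := m2_mul_ne h
  have e1 : ∀ n : ℕ, (1 : ℝ) / 2 ^ (n + 1) = 1 / 2 ^ n / 2 := fun n => by rw [pow_succ]; ring
  have e2 : ∀ n : ℕ, (2 : ℝ) / 2 ^ n = 2 * (1 / 2 ^ n) := fun n => by ring
  have h3 := uj_support j _ (left_ne_zero_of_mul h1)
  have h4 := uj_support l _ (right_ne_zero_of_mul h1)
  rw [e1, e2] at h3 h4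
  have h5 := m2_da_ne (left_ne_zero_of_mul h2)
  have h6 : da G (u.1, u.2.1 - u.2.2) ≠ 0 := by
    intro h7
    rw [h7] at h2
    simp at h2
  have h7 := m2_da_ne h6
  simp only at h5 h7
  obtain ⟨a1, a2, a3⟩ := hG _ h5.1
  obtain ⟨b1, b2, b3⟩ := hG _ h5.2
  obtain ⟨c1, c2, c3⟩ := hG _ h7.1
  obtain ⟨d1, d2, d3⟩ := hG _ h7.2
  rw [sub_right_comm] at d1
  have key : ∀ y : ℝ, |u.2.1 - x| ≤ r * al → |u.2.1 - y - x| ≤ r * al → |y| ≤ 2 * r * al := by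
    intro y g1 g2
    rw [abs_le] at *
    constructor <;> linarith
  exact ⟨⟨h3.1.le, h3.2.le⟩, ⟨h4.1.le, h4.2.le⟩, ⟨a1, b1, c1, d1⟩, a2, key _ a3 b3, key _ a3 c3⟩

theorem ch_prod {a b X Y : ℝ} (hX : 0 < X) (hY : 0 < Y) (h1 : X / 2 ≤ a) (h2 : a ≤ 2 * X)
    (h3 : Y / 2 ≤ b) (h4 : b ≤ 2 * Y) : X * Y ≤ 4 * (a * b) ∧ a * b ≤ 4 * (X * Y) := by
  have ha : 0 ≤ a := le_trans (by positivity) h1
  have hb : 0 ≤ b := le_trans (by positivity) h3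
  constructor
  · have h5 : X / 2 * (Y / 2) ≤ a * b := mul_le_mul h1 h3 (by positivity) ha
    linarith
  · have h5 : a * b ≤ 2 * X * (2 * Y) := mul_le_mul h2 h4 hb (by positivity)
    linarith

theorem ch_GB {al K Y Z : ℝ} (hal : 0 < al) (hY : 0 < Y) (hZ : 0 < Z) (hK : 2 ≤ K) {u : V}
    (h1 : Y / 2 ≤ |u.1|) (h2 : |u.1| ≤ 2 * Y) (h3 : Z / 2 ≤ |u.2.2|) (h4 : |u.2.2| ≤ 2 * Z)
    (h5 : al ≤ u.2.1) (h6 : u.2.1 ≤ 2 * al) : GB (al * (Y / al)) al (al * (Z / al)) K u := by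
  have e1 : al * (Y / al) = Y := by field_simp
  have e2 : al * (Z / al) = Z := by field_simp
  have hK0 : 0 < K := by linarith
  have hK2 : 1 / K ≤ 1 / 2 := by
    rw [div_le_div_iff₀ hK0 (by norm_num)]
    linarith
  unfold GB
  rw [e1, e2, abs_div, abs_div, abs_of_pos hY, abs_of_pos hZ]
  refine ⟨⟨?_, ?_⟩, ⟨?_, ?_⟩, ?_, ?_⟩
  · rw [le_div_iff₀ hY]
    nlinarith
  · rw [div_le_iff₀ hY]
    nlinarith
  · rw [le_div_iff₀ hal]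
    nlinarith
  · rw [div_le_iff₀ hal]
    nlinarith
  · rw [le_div_iff₀ hZ]
    nlinarith
  · rw [div_le_iff₀ hZ]
    nlinarith

/-- Both differences of type O. -/
theorem ch_OO (c K0 r0 c1 CA δ CI : ℝ) (hK0 : 1 ≤ K0) (hc1 : 0 < c1) (hCA : 0 ≤ CA)
    (hDD : ch_DD c K0 r0 c1) (hAB : ch_AB c CA)
    (hI : ch_I2 c (16 * K0) δ CI) (r : ℝ) (hr0 : 2 * r ≤ r0) (hr2 : 4 * r < δ)
    (hr3 : r ≤ δ)
    (T : ℝ) (hT : 0 < T) (al be : ℝ) (hal : 0 < al) (hal1 : al ≤ 1) (hbe : 0 < be) (hbe1 : be ≤ 1)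
    (hab : al * be ≤ r) (x1 x2 : ℝ) (G₁ G₂ : ℝ → ℂ) (h1 : Measurable G₁)
    (h2 : Measurable G₂) (b1 : ∀ a, ‖G₁ a‖ ≤ 1) (b2 : ∀ a, ‖G₂ a‖ ≤ 1) (hG1 : CapG al r x1 G₁)
    (hG2 : CapG be r x2 G₂) (j k l m : ℕ)
    (t1 : ¬ ch_ty (16 * K0) (al * be) (1 / 2 ^ j) (1 / 2 ^ k))
    (t2 : ¬ ch_ty (16 * K0) (al * be) (1 / 2 ^ k) (1 / 2 ^ j))
    (t3 : ¬ ch_ty (16 * K0) (al * be) (1 / 2 ^ l) (1 / 2 ^ m))
    (t4 : ¬ ch_ty (16 * K0) (al * be) (1 / 2 ^ m) (1 / 2 ^ l)) :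
    ‖FF c T (tp (ch_A j l G₁) (ch_A k m G₂))‖ ≤ max (CA * (256 / c1 ^ 2)) CI / T := by
  have hM : Measurable (tp (ch_A j l G₁) (ch_A k m G₂)) := by
    unfold tp
    exact ((ch_A_meas j l h1).comp measurable_fst).mul ((ch_A_meas k m h2).comp measurable_snd)
  have hM1 : ∀ q, ‖tp (ch_A j l G₁) (ch_A k m G₂) q‖ ≤ 1 := by
    intro q
    unfold tp
    rw [norm_mul]
    exact mul_le_one₀ (ch_A_norm j l b1 _) (norm_nonneg _) (ch_A_norm k m b2 _)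
  by_cases hne : ∀ q, tp (ch_A j l G₁) (ch_A k m G₂) q = 0
  · have h3 : tp (ch_A j l G₁) (ch_A k m G₂) = fun _ => 0 := funext hne
    have h4 : FF c T (fun _ => 0) = 0 := by
      unfold FF
      simp
    rw [h3, h4, norm_zero]
    have h5 : 0 ≤ CA * (256 / c1 ^ 2) := by positivity
    exact div_nonneg (h5.trans (le_max_left _ _)) hT.le
  push Not at hne
  obtain ⟨q0, hq0⟩ := hne
  obtain ⟨hA0, hB0⟩ := mul_ne_zero_iff.1 (show ch_A j l G₁ q0.1 * ch_A k m G₂ q0.2 ≠ 0 from hq0)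
  set Y1 : ℝ := 1 / 2 ^ j with hY1
  set Y2 : ℝ := 1 / 2 ^ k with hY2
  set Z1 : ℝ := 1 / 2 ^ l with hZ1
  set Z2 : ℝ := 1 / 2 ^ m with hZ2
  have pY1 : 0 < Y1 := by positivity
  have pY2 : 0 < Y2 := by positivity
  have pZ1 : 0 < Z1 := by positivity
  have pZ2 : 0 < Z2 := by positivity
  have he : 0 < al * be := by positivity
  have he1 : al * be ≤ 1 := mul_le_one₀ hal1 hbe.le hbe1
  have hpt : ∀ q, tp (ch_A j l G₁) (ch_A k m G₂) q ≠ 0 →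
      ((Y1 / 2 ≤ |q.1.1| ∧ |q.1.1| ≤ 2 * Y1) ∧ (Z1 / 2 ≤ |q.1.2.2| ∧ |q.1.2.2| ≤ 2 * Z1) ∧
        Ge al q.1 ∧ q.1.2.1 ≤ 2 * al ∧ |q.1.1| ≤ 2 * r * al ∧ |q.1.2.2| ≤ 2 * r * al) ∧
      ((Y2 / 2 ≤ |q.2.1| ∧ |q.2.1| ≤ 2 * Y2) ∧ (Z2 / 2 ≤ |q.2.2.2| ∧ |q.2.2.2| ≤ 2 * Z2) ∧
        Ge be q.2 ∧ q.2.2.1 ≤ 2 * be ∧ |q.2.1| ≤ 2 * r * be ∧ |q.2.2.2| ≤ 2 * r * be) := by
    intro q hq
    obtain ⟨hA, hB⟩ := mul_ne_zero_iff.1 (show ch_A j l G₁ q.1 * ch_A k m G₂ q.2 ≠ 0 from hq)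
    exact ⟨ch_A_ne hG1 hA, ch_A_ne hG2 hB⟩
  -- the absolute estimate, given a lower bound by a size which dominates the first two
  have habs : ∀ s : ℝ, 0 ≤ s → Y1 * Z1 ≤ s → Y2 * Z2 ≤ s →
      (∀ q, tp (ch_A j l G₁) (ch_A k m G₂) q ≠ 0 → Wr c q.1 q.2 ≠ 0 →
        c1 * (s / 4) ≤ |Fr c q.1 q.2|) →
      ‖FF c T (tp (ch_A j l G₁) (ch_A k m G₂))‖ ≤ max (CA * (256 / c1 ^ 2)) CI / T := by
    intro s hs hs1 hs2 hlow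
    have h3 := hAB T hT _ (2 * Y1) (2 * Y2) (2 * Z1) (2 * Z2) (c1 * (s / 4)) hM hM1
      (by positivity) (by positivity) (by positivity) (by positivity) (by positivity) ?_
    · refine h3.trans ?_
      have h4 : 2 * Y1 * (2 * Y2) * (2 * Z1 * (2 * Z2)) ≤ 256 / c1 ^ 2 * (c1 * (s / 4)) ^ 2 := by
        have h5 : 256 / c1 ^ 2 * (c1 * (s / 4)) ^ 2 = 16 * (s * s) := by
          field_simp
          ring
        rw [h5]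
        have h6 : Y1 * Z1 * (Y2 * Z2) ≤ s * s := mul_le_mul hs1 hs2 (by positivity) hs
        linarith
      refine (MD.abs_num CA (256 / c1 ^ 2) T _ (c1 * (s / 4)) hCA hT (by positivity)
        (by positivity) h4).trans ?_
      gcongr
      exact le_max_left _ _
    · intro q hq hW
      obtain ⟨⟨⟨-, a2⟩, ⟨-, a4⟩, -⟩, ⟨-, a6⟩, ⟨-, a8⟩, -⟩ := hpt q hq
      exact ⟨a2, a6, a4, a8, hlow q hq hW⟩
  -- pointwise data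
  have hdat : ∀ q, tp (ch_A j l G₁) (ch_A k m G₂) q ≠ 0 → Wr c q.1 q.2 ≠ 0 →
      (Y1 * Z1 ≤ 4 * (|q.1.1| * |q.1.2.2|) ∧ |q.1.1| * |q.1.2.2| ≤ 4 * (Y1 * Z1)) ∧
      (Y2 * Z2 ≤ 4 * (|q.2.1| * |q.2.2.2|) ∧ |q.2.1| * |q.2.2.2| ≤ 4 * (Y2 * Z2)) ∧
      (Y1 * Z2 ≤ 4 * (|q.1.1| * |q.2.2.2|) ∧ |q.1.1| * |q.2.2.2| ≤ 4 * (Y1 * Z2)) ∧
      (Y2 * Z1 ≤ 4 * (|q.2.1| * |q.1.2.2|) ∧ |q.2.1| * |q.1.2.2| ≤ 4 * (Y2 * Z1)) := by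
    intro q hq hW
    obtain ⟨⟨⟨a1, a2⟩, ⟨a3, a4⟩, -⟩, ⟨a5, a6⟩, ⟨a7, a8⟩, -⟩ := hpt q hq
    exact ⟨ch_prod pY1 pZ1 a1 a2 a3 a4, ch_prod pY2 pZ2 a5 a6 a7 a8, ch_prod pY1 pZ2 a1 a2 a7 a8,
      ch_prod pY2 pZ1 a5 a6 a3 a4⟩
  have hE : ∀ q, tp (ch_A j l G₁) (ch_A k m G₂) q ≠ 0 → Wr c q.1 q.2 ≠ 0 → _ :=
    fun q hq hW => hDD al be hal hal1 hbe hbe1 q
      (by
        obtain ⟨⟨-, -, g1, g2, g3, g4⟩, -⟩ := hpt q hq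
        have h7 : 2 * r * al ≤ r0 * al := by gcongr
        exact ⟨g1, g2, g3.trans h7, g4.trans h7⟩)
      (by
        obtain ⟨-, -, -, g1, g2, g3, g4⟩ := hpt q hq
        have h7 : 2 * r * be ≤ r0 * be := by gcongr
        exact ⟨g1, g2, g3.trans h7, g4.trans h7⟩) hW
  have hKK : (1 : ℝ) ≤ 16 * K0 := by linarith
  rcases ch_sizes (16 * K0) (al * be) Y1 Y2 Z1 Z2 hKK he he1 pY1 pY2 pZ1 pZ2 t1 t2 t3 t4 with
    ⟨s2, s3, s4⟩ | ⟨s1, s3, s4⟩ | ⟨s1, s2, s4⟩ | ⟨s1, s2, s3⟩ | ⟨s1, s2, s3, s4⟩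
  · refine habs (Y1 * Z1) (by positivity) le_rfl ?_ ?_
    · have : 0 < Y2 * Z2 := by positivity
      nlinarith
    · intro q hq hW
      obtain ⟨⟨p1, p2⟩, ⟨p3, p4⟩, ⟨p5, p6⟩, p7, p8⟩ := hdat q hq hW
      have h3 := (hE q hq hW).1 ?_ ?_ ?_
      · refine le_trans ?_ h3
        gcongr
        linarith
      · have : K0 * (|q.2.1| * |q.2.2.2|) ≤ K0 * (4 * (Y2 * Z2)) := by gcongr
        linarith
      · have : K0 * (al * be * (|q.1.1| * |q.2.2.2|)) ≤ K0 * (al * be * (4 * (Y1 * Z2))) := by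
          gcongr
        linarith
      · have : K0 * (al * be * (|q.2.1| * |q.1.2.2|)) ≤ K0 * (al * be * (4 * (Y2 * Z1))) := by
          gcongr
        linarith
  · refine habs (Y2 * Z2) (by positivity) ?_ le_rfl ?_
    · have : 0 < Y1 * Z1 := by positivity
      nlinarith
    · intro q hq hW
      obtain ⟨⟨p1, p2⟩, ⟨p3, p4⟩, ⟨p5, p6⟩, p7, p8⟩ := hdat q hq hW
      have h3 := (hE q hq hW).2.1 ?_ ?_ ?_
      · refine le_trans ?_ h3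
        gcongr
        linarith
      · have : K0 * (|q.1.1| * |q.1.2.2|) ≤ K0 * (4 * (Y1 * Z1)) := by gcongr
        linarith
      · have : K0 * (al * be * (|q.1.1| * |q.2.2.2|)) ≤ K0 * (al * be * (4 * (Y1 * Z2))) := by
          gcongr
        linarith
      · have : K0 * (al * be * (|q.2.1| * |q.1.2.2|)) ≤ K0 * (al * be * (4 * (Y2 * Z1))) := by
          gcongr
        linarith
  · refine habs (al * be * (Y1 * Z2)) (by positivity) ?_ ?_ ?_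
    · have : 0 < Y1 * Z1 := by positivity
      nlinarith
    · have : 0 < Y2 * Z2 := by positivity
      nlinarith
    · intro q hq hW
      obtain ⟨⟨p1, p2⟩, ⟨p3, p4⟩, ⟨p5, p6⟩, p7, p8⟩ := hdat q hq hW
      have p5' : al * be * (Y1 * Z2) ≤ al * be * (4 * (|q.1.1| * |q.2.2.2|)) := by gcongr
      have h3 := (hE q hq hW).2.2.1 ?_ ?_ ?_
      · refine le_trans ?_ h3
        gcongr
        linarith
      · have : K0 * (|q.1.1| * |q.1.2.2|) ≤ K0 * (4 * (Y1 * Z1)) := by gcongr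
        linarith
      · have : K0 * (|q.2.1| * |q.2.2.2|) ≤ K0 * (4 * (Y2 * Z2)) := by gcongr
        linarith
      · have : K0 * (|q.2.1| * |q.1.2.2|) ≤ K0 * (4 * (Y2 * Z1)) := by gcongr
        linarith
  · refine habs (al * be * (Y2 * Z1)) (by positivity) ?_ ?_ ?_
    · have : 0 < Y1 * Z1 := by positivity
      nlinarith
    · have : 0 < Y2 * Z2 := by positivity
      nlinarith
    · intro q hq hW
      obtain ⟨⟨p1, p2⟩, ⟨p3, p4⟩, ⟨p5, p6⟩, p7, p8⟩ := hdat q hq hW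
      have p7' : al * be * (Y2 * Z1) ≤ al * be * (4 * (|q.2.1| * |q.1.2.2|)) := by gcongr
      have h3 := (hE q hq hW).2.2.2 ?_ ?_ ?_
      · refine le_trans ?_ h3
        gcongr
        linarith
      · have : K0 * (|q.1.1| * |q.1.2.2|) ≤ K0 * (4 * (Y1 * Z1)) := by gcongr
        linarith
      · have : K0 * (|q.2.1| * |q.2.2.2|) ≤ K0 * (4 * (Y2 * Z2)) := by gcongr
        linarith
      · have : K0 * (|q.1.1| * |q.2.2.2|) ≤ K0 * (4 * (Y1 * Z2)) := by gcongr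
        linarith
  · -- comparable sizes
    obtain ⟨⟨⟨a1, -⟩, ⟨a3, -⟩, -, -, g1, g2⟩, ⟨a5, -⟩, ⟨a7, -⟩, -, -, g3, g4⟩ := hpt q0 hq0
    have small : ∀ X y w : ℝ, 0 < w → X / 2 ≤ y → y ≤ 2 * r * w → X / w < δ := by
      intro X y w hw h3 h4
      rw [div_lt_iff₀ hw]
      nlinarith
    have q1 : al ^ 2 * (Y1 / al) * (Z1 / al) = Y1 * Z1 := by field_simp
    have q2 : be ^ 2 * (Y2 / be) * (Z2 / be) = Y2 * Z2 := by field_simp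
    have aux : ∀ X Z : ℝ, al * be * X ≤ 16 * K0 * Z → be ^ 2 * (X / be) ≤ 16 * K0 * (Z / al) := by
      intro X Z h3
      have h4 : be ^ 2 * (X / be) = be * X := by field_simp
      rw [h4, mul_div_assoc', le_div_iff₀ hal]
      linarith
    have q3 : be ^ 2 * (Z2 / be) ≤ 16 * K0 * (Z1 / al) := aux _ _ s3
    have q4 : be ^ 2 * (Y2 / be) ≤ 16 * K0 * (Y1 / al) := aux _ _ s4
    have h3 := hI T al be (Y1 / al) (Y2 / be) (Z1 / al) (Z2 / be) hT hal hal1 hbe hbe1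
      (hab.trans hr3) (by positivity) (small _ _ _ hal a1 g1) (by positivity)
      (small _ _ _ hbe a5 g3) (by positivity) (small _ _ _ hal a3 g2) (by positivity)
      (small _ _ _ hbe a7 g4) (by rw [q1, q2]; exact s1) (by rw [q1, q2]; exact s2) q3 q4
      (ch_A j l G₁) (ch_A k m G₂) (ch_A_meas j l h1) (ch_A_meas k m h2) (ch_A_norm j l b1)
      (ch_A_norm k m b2) ?_ ?_
    · refine h3.trans ?_
      gcongr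
      exact le_max_right _ _
    · intro u hu
      obtain ⟨⟨u1, u2⟩, ⟨u3, u4⟩, u5, u6, -, -⟩ := ch_A_ne hG1 hu
      exact ch_GB hal pY1 pZ1 (by linarith) u1 u2 u3 u4 u5.1 u6
    · intro u hu
      obtain ⟨⟨u1, u2⟩, ⟨u3, u4⟩, u5, u6, -, -⟩ := ch_A_ne hG2 hu
      exact ch_GB hbe pY2 pZ2 (by linarith) u1 u2 u3 u4 u5.1 u6

end Pool.Agent.N1F
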