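import Pool.Agent.N1F.CHc

/-!
N1F, block A6, part d: the estimate for one cap.
-/

namespace Pool.Agent.N1F

open MeasureTheory Set Metric Pool.Agent.MP_6cbfb8_an Pool.Agent.MST Pool.Agent.N1
open scoped ENNReal Real ContDiff

/-- The low part of a partition. -/
theorem ch_low (c : ℝ) (hc : 0 < c) : ∃ C : ℝ, 0 ≤ C ∧ ∀ T : ℝ, 1 ≤ T → ∀ J : ℕ,
    T ^ 2 ≤ 2 ^ J → ∀ (M : V × V → ℂ) (Y : V × V → ℝ × ℝ), Measurable M →
    (∀ q, ‖M q‖ ≤ 1) → Measurable Y →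
    (∀ q, M q ≠ 0 → |q.1.1| ≤ 1 ∧ |q.2.1| ≤ 1 ∧ |q.1.2.2| ≤ 1 ∧ |q.2.2.2| ≤ 1) →
    ((∀ q, Y q = (q.1.1, q.2.1)) ∨ (∀ q, Y q = (q.1.2.2, q.2.2.2))) →
    ‖FF c T (fun q => ((ch_rs J (Y q) : ℝ) : ℂ) * M q)‖ ≤ C / T := by
  obtain ⟨C, hC, h⟩ := FF_abs c hc
  refine ⟨256 * C, by positivity, ?_⟩
  intro T hT J hJ M Y hM hM1 hY hMs hYc
  have hT0 : 0 < T := by linarith
  set e : ℝ := 2 / 2 ^ J with he
  have he0 : 0 ≤ e := by positivity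
  have hm : Measurable fun q => ((ch_rs J (Y q) : ℝ) : ℂ) * M q :=
    (Complex.measurable_ofReal.comp ((ch_rs_meas J).comp hY)).mul hM
  have hn : ∀ q, ‖((ch_rs J (Y q) : ℝ) : ℂ) * M q‖ ≤ 1 := by
    intro q
    rw [norm_mul, Complex.norm_real, Real.norm_eq_abs]
    exact mul_le_one₀ (ch_rs_abs _ _) (norm_nonneg _) (hM1 _)
  have hW : ∀ q : V × V, Wr c q.1 q.2 ≠ 0 → |q.1.2.1| ≤ 1 ∧ |q.2.2.1| ≤ 1 := by
    intro q hW
    have h7 : wf c q.1.2.1 q.2.2.1 ≠ 0 := by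
      intro h8
      apply hW
      unfold Wr
      rw [h8]
      simp
    have h8 := m2_wf_ne hc h7
    have h9 : 0 ≤ c ^ 2 / 4 := by positivity
    refine ⟨?_, ?_⟩
    · rw [← sq_le_one_iff_abs_le_one]
      nlinarith [sq_nonneg q.2.2.1]
    · rw [← sq_le_one_iff_abs_le_one]
      nlinarith [sq_nonneg q.1.2.1]
  have hne : ∀ q, ((ch_rs J (Y q) : ℝ) : ℂ) * M q ≠ 0 →
      (|(Y q).1| ≤ e ∨ |(Y q).2| ≤ e) ∧ M q ≠ 0 := by
    intro q hq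
    refine ⟨ch_rs_ne ?_, right_ne_zero_of_mul hq⟩
    intro h3
    rw [h3] at hq
    simp at hq
  -- the volume of a box
  have vol : ∀ a1 a2 a3 a4 a5 a6 : ℝ, 0 ≤ a1 → 0 ≤ a2 → 0 ≤ a3 → 0 ≤ a4 → 0 ≤ a5 → 0 ≤ a6 →
      volume ((Icc (-a1) a1 ×ˢ Icc (-a2) a2 ×ˢ Icc (-a3) a3) ×ˢ
        (Icc (-a4) a4 ×ˢ Icc (-a5) a5 ×ˢ Icc (-a6) a6) : Set (V × V)) =
        ENNReal.ofReal (64 * (a1 * a2 * a3 * (a4 * a5 * a6))) := by
    intro a1 a2 a3 a4 a5 a6 g1 g2 g3 g4 g5 g6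
    rw [Measure.volume_eq_prod, Measure.prod_prod, Measure.volume_eq_prod, Measure.prod_prod,
      Measure.prod_prod, Measure.volume_eq_prod, Measure.prod_prod, Measure.prod_prod,
      Real.volume_Icc, Real.volume_Icc,
      Real.volume_Icc, Real.volume_Icc, Real.volume_Icc, Real.volume_Icc,
      ← ENNReal.ofReal_mul (by linarith), ← ENNReal.ofReal_mul (by linarith),
      ← ENNReal.ofReal_mul (by linarith), ← ENNReal.ofReal_mul (by linarith),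
      ← ENNReal.ofReal_mul]
    · congr 1
      ring
    · have : 0 ≤ a1 * (a2 * a3) := by positivity
      nlinarith
  have fin : ∀ S : Set (V × V), volume S ≤ ENNReal.ofReal (64 * e) + ENNReal.ofReal (64 * e) →
      (∀ q, ((ch_rs J (Y q) : ℝ) : ℂ) * M q ≠ 0 → Wr c q.1 q.2 ≠ 0 → q ∈ S) →
      ‖FF c T (fun q => ((ch_rs J (Y q) : ℝ) : ℂ) * M q)‖ ≤ 256 * C / T := by
    intro S hS hsub
    rw [← ENNReal.ofReal_add (by positivity) (by positivity)] at hS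
    have h3 := h T hT0 _ S 0 (64 * e + 64 * e) hm hn hsub (by positivity) hS le_rfl
      (fun q _ => abs_nonneg _)
    refine h3.trans ?_
    rw [mul_zero, add_zero, one_pow, div_one, le_div_iff₀ hT0]
    have h4 : e * T ^ 2 ≤ 2 := by
      rw [he, div_mul_eq_mul_div, div_le_iff₀ (by positivity)]
      linarith
    calc C * T * (64 * e + 64 * e) * T = 128 * C * (e * T ^ 2) := by ring
      _ ≤ 128 * C * 2 := by gcongr
      _ = 256 * C := by ring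
  have cast : ∀ {x : ℝ}, |x| ≤ e → x ∈ Icc (-e) e := fun {x} hx => abs_le.1 hx
  have cast1 : ∀ {x : ℝ}, |x| ≤ 1 → x ∈ Icc (-1 : ℝ) 1 := fun {x} hx => abs_le.1 hx
  rcases hYc with hYc | hYc
  · refine fin (((Icc (-e) e ×ˢ Icc (-1) 1 ×ˢ Icc (-1) 1) ×ˢ
        (Icc (-1) 1 ×ˢ Icc (-1) 1 ×ˢ Icc (-1) 1)) ∪
        ((Icc (-1) 1 ×ˢ Icc (-1) 1 ×ˢ Icc (-1) 1) ×ˢ
        (Icc (-e) e ×ˢ Icc (-1) 1 ×ˢ Icc (-1) 1))) ?_ ?_
    · refine (measure_union_le _ _).trans (add_le_add (le_of_eq ?_) (le_of_eq ?_))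
      · rw [vol e 1 1 1 1 1 he0 zero_le_one zero_le_one zero_le_one zero_le_one zero_le_one]
        congr 1
        ring
      · rw [vol 1 1 1 e 1 1 zero_le_one zero_le_one zero_le_one he0 zero_le_one zero_le_one]
        congr 1
        ring
    · intro q hq hWq
      obtain ⟨h3, h4⟩ := hne q hq
      obtain ⟨g1, g2, g3, g4⟩ := hMs q h4
      obtain ⟨w1, w2⟩ := hW q hWq
      rw [hYc] at h3
      rcases h3 with h3 | h3
      · exact Or.inl ⟨⟨cast h3, cast1 w1, cast1 g3⟩, cast1 g2, cast1 w2, cast1 g4⟩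
      · exact Or.inr ⟨⟨cast1 g1, cast1 w1, cast1 g3⟩, cast h3, cast1 w2, cast1 g4⟩
  · refine fin (((Icc (-1) 1 ×ˢ Icc (-1) 1 ×ˢ Icc (-e) e) ×ˢ
        (Icc (-1) 1 ×ˢ Icc (-1) 1 ×ˢ Icc (-1) 1)) ∪
        ((Icc (-1) 1 ×ˢ Icc (-1) 1 ×ˢ Icc (-1) 1) ×ˢ
        (Icc (-1) 1 ×ˢ Icc (-1) 1 ×ˢ Icc (-e) e))) ?_ ?_
    · refine (measure_union_le _ _).trans (add_le_add (le_of_eq ?_) (le_of_eq ?_))
      · rw [vol 1 1 e 1 1 1 zero_le_one zero_le_one he0 zero_le_one zero_le_one zero_le_one]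
        congr 1
        ring
      · rw [vol 1 1 1 1 1 e zero_le_one zero_le_one zero_le_one zero_le_one zero_le_one he0]
        congr 1
        ring
    · intro q hq hWq
      obtain ⟨h3, h4⟩ := hne q hq
      obtain ⟨g1, g2, g3, g4⟩ := hMs q h4
      obtain ⟨w1, w2⟩ := hW q hWq
      rw [hYc] at h3
      rcases h3 with h3 | h3
      · exact Or.inl ⟨⟨cast1 g1, cast1 w1, cast h3⟩, cast1 g2, cast1 w2, cast1 g4⟩
      · exact Or.inr ⟨⟨cast1 g1, cast1 w1, cast1 g3⟩, cast1 g2, cast1 w2, cast h3⟩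

end Pool.Agent.N1F
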