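import Pool.Agent.N1F.CHd

/-!
N1F, block A6, part e: assembly for one cap.
-/

namespace Pool.Agent.N1F

open MeasureTheory Set Metric Pool.Agent.MP_6cbfb8_an Pool.Agent.MST Pool.Agent.N1
open scoped ENNReal Real ContDiff

theorem ch_Q_le {al be r x1 x2 : ℝ} {G₁ G₂ : ℝ → ℂ} (hal : 0 < al) (hal1 : al ≤ 1) (hbe : 0 < be)
    (hbe1 : be ≤ 1) (h1 : CapG al r x1 G₁) (h2 : CapG be r x2 G₂)
    (hr : r ≤ 1 / 2) {q : V × V} (h : m2_Q G₁ G₂ q ≠ 0) :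
    |q.1.1| ≤ 1 ∧ |q.2.1| ≤ 1 ∧ |q.1.2.2| ≤ 1 ∧ |q.2.2.2| ≤ 1 := by
  obtain ⟨⟨a1, a2, a3, a4⟩, b1, b2, b3, b4⟩ := m2_Q_ne h
  have key : ∀ (w x a y : ℝ), 0 < w → w ≤ 1 → |a - x| ≤ r * w → |a - y - x| ≤ r * w → |y| ≤ 1 := by
    intro w x a y hw hw1 h3 h4
    have h5 : r * w ≤ 1 / 2 := by nlinarith
    rw [abs_le] at *
    constructor <;> linarith
  exact ⟨key al x1 _ _ hal hal1 (h1 _ a1).2.2 (h1 _ a2).2.2,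
    key be x2 _ _ hbe hbe1 (h2 _ b1).2.2 (h2 _ b2).2.2,
    key al x1 _ _ hal hal1 (h1 _ a1).2.2 (h1 _ a3).2.2,
    key be x2 _ _ hbe hbe1 (h2 _ b1).2.2 (h2 _ b3).2.2⟩

/-- the data of one cap: all estimates for blocks -/
structure ch_dat (c T K e : ℝ) (G₁ G₂ : ℝ → ℂ) (Q O : ℝ) : Prop where
  Q0 : 0 ≤ Q
  O0 : 0 ≤ O
  N : ∀ j k : ℕ, (ch_ty K e (1 / 2 ^ j) (1 / 2 ^ k) ∨ ch_ty K e (1 / 2 ^ k) (1 / 2 ^ j)) →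
    ∀ η₁ η₂ : ℝ, Th c T (pd (m2_ac j G₁ η₁) (m2_ac k G₂ η₂)) ≤ ENNReal.ofReal Q
  OO : ∀ j k l m : ℕ, ¬ (ch_ty K e (1 / 2 ^ j) (1 / 2 ^ k) ∨ ch_ty K e (1 / 2 ^ k) (1 / 2 ^ j)) →
    ¬ (ch_ty K e (1 / 2 ^ l) (1 / 2 ^ m) ∨ ch_ty K e (1 / 2 ^ m) (1 / 2 ^ l)) →
    ‖FF c T (tp (ch_A j l G₁) (ch_A k m G₂))‖ ≤ O
  le : ∀ q, m2_Q G₁ G₂ q ≠ 0 → |q.1.1| ≤ 1 ∧ |q.2.1| ≤ 1 ∧ |q.1.2.2| ≤ 1 ∧ |q.2.2.2| ≤ 1

/-- Outer difference of type O. -/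
theorem ch_D (c : ℝ) (hc : 0 < c) (T : ℝ) (hT : 1 ≤ T) (K e : ℝ) (G₁ G₂ : ℝ → ℂ)
    (h1 : Measurable G₁) (h2 : Measurable G₂)
    (b1 : ∀ a, ‖G₁ a‖ ≤ 1) (b2 : ∀ a, ‖G₂ a‖ ≤ 1) (Q O : ℝ) (hd : ch_dat c T K e G₁ G₂ Q O)
    (B : ℝ) (hB : 0 ≤ B) (hu : ∀ n, FT1 B fun x => ((uj n x : ℝ) : ℂ)) (J : ℕ)
    (CL : ℝ) (hlow : ∀ (M : V × V → ℂ) (Y : V × V → ℝ × ℝ), Measurable M →
      (∀ q, ‖M q‖ ≤ 1) → Measurable Y →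
      (∀ q, M q ≠ 0 → |q.1.1| ≤ 1 ∧ |q.2.1| ≤ 1 ∧ |q.1.2.2| ≤ 1 ∧ |q.2.2.2| ≤ 1) →
      ((∀ q, Y q = (q.1.1, q.2.1)) ∨ (∀ q, Y q = (q.1.2.2, q.2.2.2))) →
      ‖FF c T (fun q => ((ch_rs J (Y q) : ℝ) : ℂ) * M q)‖ ≤ CL)
    (j k : ℕ) (hjk : ¬ (ch_ty K e (1 / 2 ^ j) (1 / 2 ^ k) ∨ ch_ty K e (1 / 2 ^ k) (1 / 2 ^ j))) :
    ‖FF c T (fun q => ((uj j q.1.1 * uj k q.2.1 : ℝ) : ℂ) * m2_Q G₁ G₂ q)‖ ≤
      (J : ℝ) ^ 2 * (B * (B * Q) + O) + CL := by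
  have hT0 : 0 < T := by linarith
  have hQ0 := hd.Q0
  have hO0 := hd.O0
  have hQm := m2_Q_meas h1 h2
  have hQn := m2_Q_norm b1 b2
  have hYm : Measurable fun q : V × V => (q.1.2.2, q.2.2.2) := by fun_prop
  have hMm : Measurable fun q : V × V => ((uj j q.1.1 * uj k q.2.1 : ℝ) : ℂ) * m2_Q G₁ G₂ q :=
    (Complex.measurable_ofReal.comp (((measurable_uj j).comp (by fun_prop)).mul
      ((measurable_uj k).comp (by fun_prop)))).mul hQm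
  have hMn : ∀ q : V × V, ‖((uj j q.1.1 * uj k q.2.1 : ℝ) : ℂ) * m2_Q G₁ G₂ q‖ ≤ 1 :=
    fun q => m2_mul_norm (uj_abs_le _ _) (uj_abs_le _ _) (hQn q)
  refine ch_part c hc T hT0 J (fun q => (q.1.2.2, q.2.2.2)) hYm
    (fun q => ((uj j q.1.1 * uj k q.2.1 : ℝ) : ℂ) * m2_Q G₁ G₂ q) hMm hMn ?_ _ _ ?_ ?_
  · intro q hq
    have h3 := hd.le q (right_ne_zero_of_mul hq)
    exact ⟨h3.2.2.1, h3.2.2.2⟩
  · intro l m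
    by_cases hlm : ch_ty K e (1 / 2 ^ l) (1 / 2 ^ m) ∨ ch_ty K e (1 / 2 ^ m) (1 / 2 ^ l)
    · have h3 := ch_DN c hc T hT G₁ G₂ h1 h2 b1 b2 l m Q hQ0 (hd.N l m hlm) B
        (fun x => ((uj j x : ℝ) : ℂ)) (fun x => ((uj k x : ℝ) : ℂ)) (hu j) (hu k)
        (Complex.measurable_ofReal.comp (measurable_uj k)) (fun x => by
          rw [Complex.norm_real, Real.norm_eq_abs]
          exact uj_abs_le k x)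
      have e1 : (fun q : V × V => m2_psi l m (q.1.2.2, q.2.2.2) *
          (((uj j q.1.1 : ℝ) : ℂ) * ((uj k q.2.1 : ℝ) : ℂ) * m2_Q G₁ G₂ q)) =
          fun q : V × V => ((uj l q.1.2.2 * uj m q.2.2.2 : ℝ) : ℂ) *
            (((uj j q.1.1 * uj k q.2.1 : ℝ) : ℂ) * m2_Q G₁ G₂ q) := by
        funext q
        unfold m2_psi
        push_cast
        ring
      rw [e1] at h3
      linarith
    · have h3 := hd.OO j k l m hjk hlm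
      rw [ch_tp] at h3
      have h4 : 0 ≤ B * (B * Q) := by positivity
      linarith
  · exact hlow _ _ hMm hMn hYm (fun q hq => hd.le q (right_ne_zero_of_mul hq))
      (Or.inr fun q => rfl)

/-- The form of one cap. -/
theorem ch_cap_FF (c : ℝ) (hc : 0 < c) (T : ℝ) (hT : 1 ≤ T) (K e : ℝ) (G₁ G₂ : ℝ → ℂ)
    (h1 : Measurable G₁) (h2 : Measurable G₂)
    (b1 : ∀ a, ‖G₁ a‖ ≤ 1) (b2 : ∀ a, ‖G₂ a‖ ≤ 1) (Q O : ℝ) (hd : ch_dat c T K e G₁ G₂ Q O)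
    (B : ℝ) (hB : 0 ≤ B) (hu : ∀ n, FT1 B fun x => ((uj n x : ℝ) : ℂ)) (J : ℕ)
    (CL : ℝ) (hCL : 0 ≤ CL) (hlow : ∀ (M : V × V → ℂ) (Y : V × V → ℝ × ℝ), Measurable M →
      (∀ q, ‖M q‖ ≤ 1) → Measurable Y →
      (∀ q, M q ≠ 0 → |q.1.1| ≤ 1 ∧ |q.2.1| ≤ 1 ∧ |q.1.2.2| ≤ 1 ∧ |q.2.2.2| ≤ 1) →
      ((∀ q, Y q = (q.1.1, q.2.1)) ∨ (∀ q, Y q = (q.1.2.2, q.2.2.2))) →
      ‖FF c T (fun q => ((ch_rs J (Y q) : ℝ) : ℂ) * M q)‖ ≤ CL) :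
    ‖FF c T (m2_Q G₁ G₂)‖ ≤
      (J : ℝ) ^ 2 * (Q + ((J : ℝ) ^ 2 * (B * (B * Q) + O) + CL)) + CL := by
  have hT0 : 0 < T := by linarith
  have hQ0 := hd.Q0
  have hO0 := hd.O0
  have hQm := m2_Q_meas h1 h2
  have hQn := m2_Q_norm b1 b2
  have hYm : Measurable fun q : V × V => (q.1.1, q.2.1) := by fun_prop
  refine ch_part c hc T hT0 J (fun q => (q.1.1, q.2.1)) hYm (m2_Q G₁ G₂) hQm hQn ?_ _ _ ?_ ?_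
  · intro q hq
    have h3 := hd.le q hq
    exact ⟨h3.1, h3.2.1⟩
  · intro j k
    by_cases hjk : ch_ty K e (1 / 2 ^ j) (1 / 2 ^ k) ∨ ch_ty K e (1 / 2 ^ k) (1 / 2 ^ j)
    · have h3 := ch_N c hc T hT G₁ G₂ h1 h2 b1 b2 j k 0 0 Q hQ0 (hd.N j k hjk 0 0)
      have h0 : ex 0 = 1 := by
        unfold ex
        simp
      simp only [zero_mul, h0, one_mul] at h3
      have h4 : 0 ≤ (J : ℝ) ^ 2 * (B * (B * Q) + O) + CL := by positivity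
      refine (show ‖FF c T (fun q => ((uj j q.1.1 * uj k q.2.1 : ℝ) : ℂ) *
        m2_Q G₁ G₂ q)‖ ≤ Q from h3).trans ?_
      linarith
    · refine (ch_D c hc T hT K e G₁ G₂ h1 h2 b1 b2 Q O hd B hB hu J CL hlow j k hjk).trans ?_
      linarith
  · exact hlow _ _ hQm hQn hYm (fun q hq => hd.le q hq) (Or.inl fun q => rfl)

end Pool.Agent.N1F
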