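import Pool.Agent.N1F.CHe

/-!
N1F, block A6, part f: the theorem capF from the estimates of the blocks.
-/

namespace Pool.Agent.N1F

open MeasureTheory Set Metric Pool.Agent.MP_6cbfb8_an Pool.Agent.MST Pool.Agent.N1
open scoped ENNReal Real ContDiff

theorem ch_scales (T : ℝ) (hT : 1 ≤ T) : ∃ J : ℕ, T ^ 2 ≤ 2 ^ J ∧
    (J : ℝ) ≤ 4 * (1 + Real.log T) := by
  obtain ⟨J, -, h1, h2⟩ := m2_scales 0 T hT
  refine ⟨2 * J, ?_, ?_⟩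
  · rw [mul_comm, pow_mul]
    gcongr
  · push_cast
    push_cast at h2
    linarith

theorem ch_uj_FT1 {B : ℝ} (hth : FT1 B fun x => ((th x : ℝ) : ℂ)) (n : ℕ) :
    FT1 (B + B) fun x => ((uj n x : ℝ) : ℂ) := by
  have f1 : ∀ n : ℕ, FT1 B fun x => ((th (2 ^ n * x) : ℝ) : ℂ) := fun n =>
    FT1_scale B _ hth (2 ^ n) (by positivity)
  have h3 := FT1_sub B B _ _ (f1 n) (f1 (n + 1))
  have e1 : (fun x => ((uj n x : ℝ) : ℂ)) =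
      fun x => ((th (2 ^ n * x) : ℝ) : ℂ) - ((th (2 ^ (n + 1) * x) : ℝ) : ℂ) := by
    funext x
    unfold uj
    push_cast
    rfl
  rw [e1]
  exact h3

theorem ch_num (L T A C0 CO CL B : ℝ) (J : ℕ) (hL : 1 ≤ L) (hT : 0 < T)
    (hC0 : 0 ≤ C0) (hCO : 0 ≤ CO) (hCL : 0 ≤ CL) (hJ : (J : ℝ) ≤ A * L) (hB : 0 ≤ B) :
    (J : ℝ) ^ 2 * (C0 * L ^ 5 / T + ((J : ℝ) ^ 2 * (B * (B * (C0 * L ^ 5 / T)) + CO / T) +
      CL / T)) + CL / T ≤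
      (A ^ 2 * C0 + A ^ 4 * (B ^ 2 * C0 + CO) + A ^ 2 * CL + CL) * L ^ 12 / T := by
  have hJ0 : (0 : ℝ) ≤ J := Nat.cast_nonneg _
  have j2 : (J : ℝ) ^ 2 ≤ A ^ 2 * L ^ 2 := by
    rw [← mul_pow]
    gcongr
  have j4 : (J : ℝ) ^ 4 ≤ A ^ 4 * L ^ 4 := by
    rw [← mul_pow]
    gcongr
  have l12 : ∀ n : ℕ, n ≤ 12 → L ^ n ≤ L ^ 12 := fun n hn => pow_le_pow_right₀ hL hn
  rw [le_div_iff₀ hT]
  have e1 : ((J : ℝ) ^ 2 * (C0 * L ^ 5 / T + ((J : ℝ) ^ 2 * (B * (B * (C0 * L ^ 5 / T)) +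
      CO / T) + CL / T)) + CL / T) * T =
      (J : ℝ) ^ 2 * (C0 * L ^ 5) + (J : ℝ) ^ 4 * (B ^ 2 * C0 * L ^ 5) + (J : ℝ) ^ 4 * CO +
        (J : ℝ) ^ 2 * CL + CL := by
    field_simp
    ring
  rw [e1]
  have hA : 0 ≤ A ^ 2 := sq_nonneg A
  have hA4 : 0 ≤ A ^ 4 := by positivity
  have t1 : (J : ℝ) ^ 2 * (C0 * L ^ 5) ≤ A ^ 2 * C0 * L ^ 12 := by
    calc (J : ℝ) ^ 2 * (C0 * L ^ 5) ≤ (A ^ 2 * L ^ 2) * (C0 * L ^ 5) := by gcongr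
      _ = A ^ 2 * C0 * L ^ 7 := by ring
      _ ≤ A ^ 2 * C0 * L ^ 12 := by
          have := l12 7 (by norm_num)
          gcongr
  have t2 : (J : ℝ) ^ 4 * (B ^ 2 * C0 * L ^ 5) ≤ A ^ 4 * (B ^ 2 * C0) * L ^ 12 := by
    calc (J : ℝ) ^ 4 * (B ^ 2 * C0 * L ^ 5) ≤ (A ^ 4 * L ^ 4) * (B ^ 2 * C0 * L ^ 5) := by gcongr
      _ = A ^ 4 * (B ^ 2 * C0) * L ^ 9 := by ring
      _ ≤ A ^ 4 * (B ^ 2 * C0) * L ^ 12 := by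
          have := l12 9 (by norm_num)
          gcongr
  have t3 : (J : ℝ) ^ 4 * CO ≤ A ^ 4 * CO * L ^ 12 := by
    calc (J : ℝ) ^ 4 * CO ≤ (A ^ 4 * L ^ 4) * CO := by gcongr
      _ = A ^ 4 * CO * L ^ 4 := by ring
      _ ≤ A ^ 4 * CO * L ^ 12 := by
          have := l12 4 (by norm_num)
          gcongr
  have t4 : (J : ℝ) ^ 2 * CL ≤ A ^ 2 * CL * L ^ 12 := by
    calc (J : ℝ) ^ 2 * CL ≤ (A ^ 2 * L ^ 2) * CL := by gcongr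
      _ = A ^ 2 * CL * L ^ 2 := by ring
      _ ≤ A ^ 2 * CL * L ^ 12 := by
          have := l12 2 (by norm_num)
          gcongr
  have t5 : CL ≤ CL * L ^ 12 := by
    have := l12 0 (by norm_num)
    rw [pow_zero] at this
    nlinarith
  calc _ ≤ A ^ 2 * C0 * L ^ 12 + A ^ 4 * (B ^ 2 * C0) * L ^ 12 + A ^ 4 * CO * L ^ 12 +
        A ^ 2 * CL * L ^ 12 + CL * L ^ 12 := by linarith
    _ = _ := by ring

/-- The estimate for one cap, from the estimates of the blocks. -/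
theorem capF_of (c : ℝ) (hc : 0 < c)
    (hDD : ∃ K r c1 : ℝ, 1 ≤ K ∧ 0 < r ∧ 0 < c1 ∧ ch_DD c K r c1)
    (hTHF : ∀ K : ℝ, 1 ≤ K → ∃ r : ℝ, 0 < r ∧ ∃ C : ℝ, 0 ≤ C ∧ ch_THF c K r C)
    (hI2 : ∀ K : ℝ, 1 ≤ K → ∃ δ : ℝ, 0 < δ ∧ ∃ C : ℝ, 0 ≤ C ∧ ch_I2 c K δ C)
    (hAB : ∃ C : ℝ, 0 ≤ C ∧ ch_AB c C) :
    ∃ r : ℝ, 0 < r ∧ ∃ C : ℝ, 0 ≤ C ∧ ∀ T : ℝ, 1 ≤ T →
    ∀ al be : ℝ, 0 < al → al ≤ 1 → 0 < be → be ≤ 1 → al * be ≤ r →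
    ∀ (x1 x2 : ℝ) (G₁ G₂ : ℝ → ℂ), Measurable G₁ → Measurable G₂ →
    (∀ a, ‖G₁ a‖ ≤ 1) → (∀ a, ‖G₂ a‖ ≤ 1) → CapG al r x1 G₁ → CapG be r x2 G₂ →
    ∫⁻ t in Icc T (2 * T), ∫⁻ ξ : ℝ × ℝ, ‖Eo c G₁ G₂ t ξ‖ₑ ^ 4 ≤
      ENNReal.ofReal (C * (1 + Real.log T) ^ 12 / T) := by
  obtain ⟨K0, r0, c1, hK0, hr0, hc1, hDD⟩ := hDD
  obtain ⟨r', hr', C0, hC0, hTH⟩ := hTHF (2 * (16 * K0)) (by linarith)
  obtain ⟨δ, hδ, CI, hCI, hI⟩ := hI2 (16 * K0) (by linarith)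
  obtain ⟨CA, hCA, hAB⟩ := hAB
  obtain ⟨CL, hCL, hlow⟩ := ch_low c hc
  obtain ⟨B, hB, hth⟩ := FT1_th
  set CO : ℝ := max (CA * (256 / c1 ^ 2)) CI with hCO
  have hCO0 : 0 ≤ CO := hCI.trans (le_max_right _ _)
  set r : ℝ := min (min (r0 / 2) (δ / 8)) (min r' (1 / 2)) with hrdef
  have hr : 0 < r := by
    rw [hrdef]
    positivity
  have e1 : r ≤ r0 / 2 := (min_le_left _ _).trans (min_le_left _ _)
  have e2 : r ≤ δ / 8 := (min_le_left _ _).trans (min_le_right _ _)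
  have e3 : r ≤ r' := (min_le_right _ _).trans (min_le_left _ _)
  have e4 : r ≤ 1 / 2 := (min_le_right _ _).trans (min_le_right _ _)
  refine ⟨r, hr, (4 ^ 2 * C0 + 4 ^ 4 * ((B + B) ^ 2 * C0 + CO) + 4 ^ 2 * CL + CL),
    by positivity, ?_⟩
  intro T hT al be hal hal1 hbe hbe1 hab x1 x2 G₁ G₂ h1 h2 b1 b2 hG1 hG2
  have hT0 : 0 < T := by linarith
  have hL : 0 ≤ Real.log T := Real.log_nonneg hT
  obtain ⟨J, hTJ, hJ⟩ := ch_scales T hT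
  refine (four c hc T hT0 G₁ G₂ h1 h2 b1 b2).trans ?_
  rw [Th_eq c hc T hT0 _ (m2_pd_meas (m2_da_meas h1) (m2_da_meas h2))
    (m2_pd_norm (m2_da_norm b1) (m2_da_norm b2))]
  have hd : ch_dat c T (16 * K0) (al * be) G₁ G₂ (C0 * (1 + Real.log T) ^ 5 / T) (CO / T) := by
    refine ⟨by positivity, by positivity, ?_, ?_, ?_⟩
    · intro j k hjk η₁ η₂
      exact ch_Th c (16 * K0) r' C0 (by linarith) hTH T hT al be hal hal1 hbe hbe1 r e3 hab x1 x2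
        G₁ G₂ h1 h2 b1 b2 hG1 hG2 j k hjk η₁ η₂
    · intro j k l m hjk hlm
      rw [not_or] at hjk hlm
      exact ch_OO c K0 r0 c1 CA δ CI hK0 hc1 hCA hDD hAB hI r (by linarith) (by linarith)
        (by linarith) T hT0 al be hal hal1 hbe hbe1 hab x1 x2 G₁ G₂ h1 h2 b1 b2 hG1 hG2 j k l m
        hjk.1 hjk.2 hlm.1 hlm.2
    · intro q hq
      exact ch_Q_le hal hal1 hbe hbe1 hG1 hG2 e4 hq
  have h3 := ch_cap_FF c hc T hT (16 * K0) (al * be) G₁ G₂ h1 h2 b1 b2 _ _ hd (B + B)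
    (by positivity) (fun n => ch_uj_FT1 hth n) J (CL / T) (by positivity)
    (fun M Y hM hM1 hY hMs hYc => hlow T hT J hTJ M Y hM hM1 hY hMs hYc)
  have h4 : FF c T (sqM (pd (da G₁) (da G₂))) = FF c T (m2_Q G₁ G₂) := rfl
  rw [h4, ← ofReal_norm]
  apply ENNReal.ofReal_le_ofReal
  refine h3.trans ?_
  exact ch_num (1 + Real.log T) T 4 C0 CO CL (B + B) J (by linarith) hT0 hC0 hCO0 hCL hJ
    (by positivity)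

end Pool.Agent.N1F
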