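import Pool.Agent.N1F.G2w
import Pool.Agent.N1F.D2F
import Pool.Agent.N1F.Vol

/-!
N1F, block A5, case n = 0, part 1: preparations.
-/

namespace Pool.Agent.N1F.DF

open MeasureTheory Set Metric Pool.Agent.MP_6cbfb8_an Pool.Agent.MST Pool.Agent.N1
open Pool.Agent.N1.MD
open scoped ENNReal Real ContDiff

theorem NbF_mono {al be δ δ' ρ : ℝ} {x0 y0 : ℝ × ℝ} {q : V × V} (h : δ ≤ δ')
    (hq : NbF al be δ ρ x0 y0 q) : NbF al be δ' ρ x0 y0 q := by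
  obtain ⟨a1, a2, a3, a4, a5, a6⟩ := hq
  exact ⟨a1.trans h, a2.trans h, a3.trans h, a4.trans h, a5.trans h, a6.trans h⟩

theorem Sz_mono {al be A0 B0 δ δ' : ℝ} (h : δ ≤ δ') (hs : Sz al be A0 B0 δ) :
    Sz al be A0 B0 δ' := by
  obtain ⟨a1, a2, a3, a4, a5, a6⟩ := hs
  exact ⟨a1, a2, a3, a4, a5.trans_le h, a6.trans_le h⟩

theorem dd_suppF {α : ℝ × ℝ → ℂ} {sy sx y x δ : ℝ}
    (h : ∀ p, α p ≠ 0 → |p.1 / sy - y| ≤ δ ∧ |p.2 / sx - x| ≤ δ) (u : V) (hu : dd α u ≠ 0) :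
    |u.1 / sy - y| ≤ δ ∧ |u.2.1 / sx - x| ≤ δ ∧ |u.2.2 / sx| ≤ 2 * δ := by
  unfold dd at hu
  have h1 : α (u.1, u.2.1) ≠ 0 := left_ne_zero_of_mul hu
  have h2 : α (u.1, u.2.1 - u.2.2) ≠ 0 := by
    intro h3
    apply right_ne_zero_of_mul hu
    rw [h3, map_zero]
  obtain ⟨a1, a2⟩ := h _ h1
  obtain ⟨_, b2⟩ := h _ h2
  simp only at a1 a2 b2
  refine ⟨a1, a2, ?_⟩
  rw [sub_div] at b2
  rw [abs_le] at a2 b2 ⊢
  constructor <;> linarith [a2.1, a2.2, b2.1, b2.2]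

/-- a support condition in the box gives absolute bounds for the inner difference -/
theorem NbF_z {al be δ ρ : ℝ} (hal : 0 < al) (hbe : 0 < be) {x0 y0 : ℝ × ℝ} {q : V × V}
    (hq : NbF al be δ ρ x0 y0 q) : |q.1.2.2| ≤ δ * al ∧ |q.2.2.2| ≤ δ * be := by
  obtain ⟨_, _, _, _, a5, a6⟩ := hq
  rw [abs_div, abs_of_pos hal, div_le_iff₀ hal] at a5
  rw [abs_div, abs_of_pos hbe, div_le_iff₀ hbe] at a6
  exact ⟨a5, a6⟩

theorem z_splitF (c : ℝ) (hc : 0 < c) : ∃ C : ℝ, 0 ≤ C ∧ ∀ T : ℝ, 1 ≤ T → ∀ al be : ℝ, 0 < al →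
    al ≤ 1 → 0 < be → be ≤ 1 → ∀ ρ : ℝ, 0 < ρ →
    ρ ≤ 1 → ∀ (x0 y0 : ℝ × ℝ) (M : V × V → ℂ), Measurable M → (∀ q, ‖M q‖ ≤ 1) →
    (∀ q, M q ≠ 0 → NbF al be 1 ρ x0 y0 q) → ∀ Q : ℝ, 0 ≤ Q →
    (∀ γ d : ℝ, 0 < γ → γ ≤ 1 → 0 < d → d ≤ 1 → ‖FF c T (rec γ d M)‖ ≤ Q) →
    ‖FF c T M‖ ≤ C * (1 + Real.log T) ^ 2 * (Q + 1 / T) := by
  obtain ⟨C0, hC0, h0⟩ := FF_abs0 c hc
  refine ⟨25 * (1 + C0 * 64), by positivity,
    fun T hT al be hal hal1 hbe hbe1 ρ hρ hρ1 x0 y0 M hM hM1 hMs Q hQ hr => ?_⟩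
  have hT0 : 0 < T := by linarith
  obtain ⟨K, hK1, hK2⟩ := dy_num T hT
  have hz : ∀ q, M q ≠ 0 → |q.1.2.2| ≤ 1 ∧ |q.2.2.2| ≤ 1 := fun q hq => by
    obtain ⟨e5, e6⟩ := NbF_z hal hbe (hMs q hq)
    exact ⟨by linarith, by linarith⟩
  have hvol : ∀ g d : ℝ, 0 ≤ g → 0 ≤ d →
      volume {q : V × V | NbF al be 1 ρ x0 y0 q ∧ |q.1.2.2| ≤ g ∧ |q.2.2.2| ≤ d} ≤
        ENNReal.ofReal (64 * g * d) := by
    intro g d hg hd
    refine (vol_boxF al be x0 y0 1 ρ g d hal hbe zero_le_one le_rfl hρ hg hd).trans ?_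
    apply ENNReal.ofReal_le_ofReal
    have h1 : al ^ 2 * be ^ 4 ≤ 1 :=
      mul_le_one₀ (pow_le_one₀ hal.le hal1) (by positivity) (pow_le_one₀ hbe.le hbe1)
    have h2 : ρ ^ 2 ≤ 1 := pow_le_one₀ hρ.le hρ1
    calc 64 * (al ^ 2 * be ^ 4) * ρ ^ 2 * g * d ≤ 64 * 1 * 1 * g * d := by gcongr
      _ = 64 * g * d := by ring
  have hlog : 0 ≤ Real.log T := Real.log_nonneg hT
  have key : ∀ j ≤ K, ∀ k ≤ K, ‖FF c T (zc K j k M)‖ ≤ (1 + C0 * 64) * (Q + 1 / T) := by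
    intro j hj k hk
    have hTinv : 0 ≤ 1 / T := by positivity
    have hbig : C0 * 64 / T ≤ (1 + C0 * 64) * (Q + 1 / T) := by
      have e1 : C0 * 64 / T = C0 * 64 * (1 / T) := by ring
      rw [e1]
      have e2 : 0 ≤ C0 * 64 * Q := by positivity
      nlinarith
    rcases lt_or_ge j K with hj' | hj'
    · rcases lt_or_ge k K with hk' | hk'
      · rw [zc_eq_rec K j k hj' hk' M hz]
        refine (hr _ _ (by positivity) (pow_le_one₀ (by norm_num) (by norm_num)) (by positivity)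
          (pow_le_one₀ (by norm_num) (by norm_num))).trans ?_
        have e2 : 0 ≤ C0 * 64 * Q := by positivity
        have e3 : 0 ≤ C0 * 64 * (1 / T) := by positivity
        nlinarith
      · refine le_trans ?_ hbig
        refine h0 T hT0 (zc K j k M) {q | NbF al be 1 ρ x0 y0 q ∧ |q.1.2.2| ≤ 1 ∧
          |q.2.2.2| ≤ (1 / 2) ^ K} (64 * 1 * (1 / 2) ^ K) 64 (zc_meas K j k M hM)
          (fun q => zc_norm K j k M 1 zero_le_one hM1 q) (fun q hq _ => ?_) (by positivity)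
          (hvol 1 _ zero_le_one (by positivity)) ?_
        · have e1 := (zc_ne hq).2.2
          obtain ⟨_, e2, e3, _, _⟩ := zc_rect hq (hz q e1).1 (hz q e1).2
          have : k = K := le_antisymm hk hk'
          subst this
          exact ⟨hMs q e1, (hz q e1).1, e3⟩
        · calc 64 * 1 * (1 / 2) ^ K ≤ 64 * 1 * (1 / T ^ 2) := by gcongr
            _ = 64 / T ^ 2 := by ring
    · refine le_trans ?_ hbig
      refine h0 T hT0 (zc K j k M) {q | NbF al be 1 ρ x0 y0 q ∧ |q.1.2.2| ≤ (1 / 2) ^ K ∧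
        |q.2.2.2| ≤ 1} (64 * (1 / 2) ^ K * 1) 64 (zc_meas K j k M hM)
        (fun q => zc_norm K j k M 1 zero_le_one hM1 q) (fun q hq _ => ?_) (by positivity)
        (hvol _ 1 (by positivity) zero_le_one) ?_
      · have e1 := (zc_ne hq).2.2
        obtain ⟨_, e2, e3, _, _⟩ := zc_rect hq (hz q e1).1 (hz q e1).2
        have : j = K := le_antisymm hj hj'
        subst this
        exact ⟨hMs q e1, e2, (hz q e1).2⟩
      · rw [mul_one]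
        calc 64 * (1 / 2) ^ K ≤ 64 * (1 / T ^ 2) := by gcongr
          _ = 64 / T ^ 2 := by ring
  have h1 := FF_dy c hc T hT0 M hM 1 hM1 K _ key
  refine h1.trans ?_
  have h2 : ((K : ℝ) + 1) ^ 2 ≤ (5 * (1 + Real.log T)) ^ 2 := by gcongr
  calc ((K : ℝ) + 1) ^ 2 * ((1 + C0 * 64) * (Q + 1 / T)) ≤
        (5 * (1 + Real.log T)) ^ 2 * ((1 + C0 * 64) * (Q + 1 / T)) := by gcongr
    _ = 25 * (1 + C0 * 64) * (1 + Real.log T) ^ 2 * (Q + 1 / T) := by ring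

end Pool.Agent.N1F.DF
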