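import Pool.Agent.N1F.DF1

/-!
N1F, block A5, case n = 0, part 2: the rectangles which can be treated with absolute values.
-/

namespace Pool.Agent.N1F.DF

open MeasureTheory Set Metric Pool.Agent.MP_6cbfb8_an Pool.Agent.MST Pool.Agent.N1
open Pool.Agent.N1.MD
open scoped ENNReal Real ContDiff

/-- volume of a box in terms of the scaled sizes -/
theorem vol_boxG {al be : ℝ} (x0 y0 : ℝ × ℝ) {δ ρ γ d : ℝ} (hal : 0 < al) (hal1 : al ≤ 1)
    (hbe : 0 < be) (hbe1 : be ≤ 1) (hδ : 0 ≤ δ) (hδ1 : δ ≤ 1) (hρ : 0 < ρ) (hγ : 0 ≤ γ)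
    (hd : 0 ≤ d) :
    volume {q : V × V | NbF al be δ ρ x0 y0 q ∧ |q.1.2.2| ≤ γ ∧ |q.2.2.2| ≤ d} ≤
      ENNReal.ofReal (64 * ρ ^ 2 * (al * be ^ 2 * γ) * (be * d)) := by
  refine (vol_boxF al be x0 y0 δ ρ γ d hal hbe hδ hδ1 hρ hγ hd).trans ?_
  apply ENNReal.ofReal_le_ofReal
  have h1 : al * be ≤ 1 := mul_le_one₀ hal1 hbe.le hbe1
  calc 64 * (al ^ 2 * be ^ 4) * ρ ^ 2 * γ * d =
        (al * be) * (64 * ρ ^ 2 * (al * be ^ 2 * γ) * (be * d)) := by ring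
    _ ≤ 1 * (64 * ρ ^ 2 * (al * be ^ 2 * γ) * (be * d)) := by gcongr
    _ = _ := one_mul _

theorem vol_stripG (c : ℝ) (hc : 0 < c) (A0 B0 : ℝ) (x0 y0 : ℝ × ℝ) (hb : Bs c A0 B0 x0)
    (hy1 : y0.1 ≠ 0) :
    ∃ δ C : ℝ, 0 < δ ∧ 0 < C ∧ ∀ al be : ℝ, Sz al be A0 B0 δ → ∀ ρ : ℝ, 0 < ρ → ρ < δ →
    ∀ κ g d : ℝ, 0 ≤ κ → 0 ≤ g → 0 ≤ d →
    volume {q : V × V | NbF al be δ ρ x0 y0 q ∧ |Nx (be ^ 2 * ρ) q| ≤ 2 * κ ∧ |q.1.2.2| ≤ g ∧
      |q.2.2.2| ≤ d} ≤ ENNReal.ofReal (C * ρ ^ 2 * κ * (al * be ^ 2 * g) * (be * d)) := by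
  obtain ⟨δ, C, hδ, hC, h⟩ := vol_stripF c hc A0 B0 x0 y0 hb hy1
  refine ⟨δ, C, hδ, hC, fun al be hs ρ hρ hρδ κ g d hκ hg hd => ?_⟩
  obtain ⟨hal, hal1, hbe, hbe1, -, -⟩ := id hs
  refine (h al be hs ρ hρ hρδ κ g d hκ hg hd).trans ?_
  apply ENNReal.ofReal_le_ofReal
  have h1 : al * be ≤ 1 := mul_le_one₀ hal1 hbe.le hbe1
  calc C * (al ^ 2 * be ^ 4) * ρ ^ 2 * κ * g * d =
        (al * be) * (C * ρ ^ 2 * κ * (al * be ^ 2 * g) * (be * d)) := by ring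
    _ ≤ 1 * (C * ρ ^ 2 * κ * (al * be ^ 2 * g) * (be * d)) := by gcongr
    _ = _ := one_mul _

/-- The rectangles which can be treated with absolute values. -/
theorem rect_absF (c : ℝ) (hc : 0 < c) (A0 B0 : ℝ) (x0 y0 : ℝ × ℝ) (hb : Bs c A0 B0 x0)
    (hy1 : y0.1 ≠ 0) (hy2 : y0.2 ≠ 0) (h1 : nb B0 x0 y0 = 0) :
    ∃ δ C5 C4 C : ℝ, 0 < δ ∧ 0 < C5 ∧ 0 < C4 ∧ 0 ≤ C ∧ ∀ T : ℝ, 0 < T → ∀ al be : ℝ,
    Sz al be A0 B0 δ → ∀ ρ : ℝ, 0 < ρ → ρ < δ →
    ∀ κ : ℝ, 0 < κ → κ < δ → ∀ M : V × V → ℂ, Measurable M → (∀ q, ‖M q‖ ≤ 1) →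
    (∀ q, M q ≠ 0 → NbF al be δ ρ x0 y0 q ∧ |Nx (be ^ 2 * ρ) q| ≤ 2 * κ ∧
      |Nz (be ^ 2 * ρ) q| ≤ 2 * κ) →
    ∀ γ d : ℝ, 0 < γ → 0 < d →
    (‖FF c T (rec γ d M)‖ ≤ C / T ∨
      (γ ≤ C5 * κ * al ∧ be * d ≤ C4 * κ * (al * be ^ 2 * γ))) := by
  obtain ⟨δ0, θ0, C5, hδ0, hθ0, hC5, hE0⟩ := E_D0F c hc A0 B0 x0 y0 hb hy2 h1
  set θ : ℝ := min θ0 1 / 4 with hθdef
  have hθ : 0 < θ := by positivity
  have hθ0' : 4 * θ ≤ θ0 := by
    have := min_le_left θ0 1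
    rw [hθdef]
    linarith
  have hθ1' : 4 * θ ≤ 1 := by
    have := min_le_right θ0 1
    rw [hθdef]
    linarith
  obtain ⟨δ1, c1, hδ1, hc1, hE1⟩ := E_D1F c hc A0 B0 x0 y0 hb hy2 h1 θ hθ
  obtain ⟨δ2, c2, C4, hδ2, hc2, hC4, hE2⟩ := E_D2aF c hc A0 B0 x0 y0 hb hy2 h1 (2 * C5)
  obtain ⟨δ3, C3, hδ3, hC3, hV⟩ := vol_stripG c hc A0 B0 x0 y0 hb hy1
  obtain ⟨CF, hCF, hF⟩ := FF_abs c hc
  set δ : ℝ := min (min (min δ0 δ1) (min δ2 δ3)) 1 with hδdef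
  have hδ : 0 < δ := by positivity
  have g0 : δ ≤ δ0 := (min_le_left _ _).trans ((min_le_left _ _).trans (min_le_left _ _))
  have g1 : δ ≤ δ1 := (min_le_left _ _).trans ((min_le_left _ _).trans (min_le_right _ _))
  have g2 : δ ≤ δ2 := (min_le_left _ _).trans ((min_le_right _ _).trans (min_le_left _ _))
  have g3 : δ ≤ δ3 := (min_le_left _ _).trans ((min_le_right _ _).trans (min_le_right _ _))
  have g4 : δ ≤ 1 := min_le_right _ _
  set A1 : ℝ := 32 / θ * (4 / c1 ^ 2) with hA1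
  set A2 : ℝ := C3 / (2 * C4) * (4 / c2 ^ 2) with hA2
  have hA1p : 0 ≤ A1 := by positivity
  have hA2p : 0 ≤ A2 := by positivity
  refine ⟨δ, 2 * C5, 2 * C4, CF * A1 + CF * A2, hδ, by positivity, by positivity, by positivity,
    fun T hT al be hsz ρ hρ hρδ κ hκ hκδ M hM hM1 hMs γ d hγ hd => ?_⟩
  obtain ⟨hal, hal1, hbe, hbe1, -, -⟩ := id hsz
  have hadd1 : CF * A1 / T ≤ (CF * A1 + CF * A2) / T := by
    gcongr
    linarith [mul_nonneg hCF hA2p]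
  have hadd2 : CF * A2 / T ≤ (CF * A1 + CF * A2) / T := by
    gcongr
    linarith [mul_nonneg hCF hA1p]
  -- the scaled sizes
  have hP : 0 < al * be ^ 2 := by positivity
  set G : ℝ := al * be ^ 2 * γ with hG
  set D : ℝ := be * d with hD
  have hG0 : 0 < G := by positivity
  have hD0 : 0 < D := by positivity
  have tG : ∀ z : ℝ, |z| ≤ γ → al * be ^ 2 * |z| ≤ G := fun z hz => by
    rw [hG]
    gcongr
  have tG' : ∀ z : ℝ, γ / 2 < |z| → G ≤ 2 * (al * be ^ 2 * |z|) := fun z hz => by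
    have : al * be ^ 2 * (γ / 2) ≤ al * be ^ 2 * |z| := by gcongr
    rw [hG]
    linarith
  have tD : ∀ z : ℝ, |z| ≤ d → be * |z| ≤ D := fun z hz => by
    rw [hD]
    gcongr
  have tD' : ∀ z : ℝ, d / 2 < |z| → D / 2 ≤ be * |z| := fun z hz => by
    have : be * (d / 2) ≤ be * |z| := by gcongr
    rw [hD]
    linarith
  rcases le_or_gt (2 * θ * G) D with hR1 | hR1
  · -- R1
    left
    refine le_trans ?_ hadd1
    have hS := hF T hT (rec γ d M)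
      {q | (NbF al be δ ρ x0 y0 q ∧ |q.1.2.2| ≤ γ ∧ |q.2.2.2| ≤ d) ∧ d / 2 < |q.2.2.2|}
      (c1 * ρ * (D / 2)) (64 * ρ ^ 2 * G * D) (measurable_rec γ d M hM) (rec_le_one γ d M hM1)
      (fun q hq _ => by
        obtain ⟨e1, e2, e3, e4, e5⟩ := rec_ne_zero γ d M q hq
        exact ⟨⟨(hMs q e1).1, e3, e5⟩, e4⟩) (by positivity)
      ((measure_mono fun q hq => hq.1).trans
        (vol_boxG x0 y0 hal hal1 hbe hbe1 hδ.le g4 hρ hγ.le hd.le))
      (by positivity)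
      (fun q hq => by
        obtain ⟨⟨e1, e2, e3⟩, e4⟩ := hq
        have f2 := tG _ e2
        have f4 := tD' _ e4
        have e5 := hE1 al be (Sz_mono g1 hsz) ρ hρ (hρδ.trans_le g1) q (NbF_mono g1 e1)
          (by
            have := mul_le_mul_of_nonneg_left f2 hθ.le
            linarith)
        refine le_trans ?_ e5
        gcongr)
    refine hS.trans (abs_num CF A1 T _ _ hCF hT (by positivity) hA1p ?_)
    have e1 : A1 * (c1 * ρ * (D / 2)) ^ 2 = 32 / θ * ρ ^ 2 * D ^ 2 := by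
      rw [hA1]
      field_simp
      norm_num
    rw [e1]
    have e2 : G ≤ D / (2 * θ) := by
      rw [le_div_iff₀ (by positivity)]
      linarith
    calc 64 * ρ ^ 2 * G * D ≤ 64 * ρ ^ 2 * (D / (2 * θ)) * D := by gcongr
      _ = 32 / θ * ρ ^ 2 * D ^ 2 := by
        field_simp
        ring
  · -- now `be |z₂| ≤ θ₀ al be² |z₁|`
    have hz : ∀ q : V × V, γ / 2 < |q.1.2.2| → |q.2.2.2| ≤ d →
        be * |q.2.2.2| ≤ θ0 * (al * be ^ 2 * |q.1.2.2|) := by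
      intro q e1 e2
      have f1 := tG' _ e1
      have f2 := tD _ e2
      have e3 : θ * G ≤ θ * (2 * (al * be ^ 2 * |q.1.2.2|)) := mul_le_mul_of_nonneg_left f1 hθ.le
      have e4 : 4 * θ * (al * be ^ 2 * |q.1.2.2|) ≤ θ0 * (al * be ^ 2 * |q.1.2.2|) :=
        mul_le_mul_of_nonneg_right hθ0' (by positivity)
      linarith
    have hz1 : ∀ q : V × V, γ / 2 < |q.1.2.2| → |q.2.2.2| ≤ d →
        be * |q.2.2.2| ≤ al * be ^ 2 * |q.1.2.2| := by
      intro q e1 e2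
      have f1 := tG' _ e1
      have f2 := tD _ e2
      have e3 : θ * G ≤ θ * (2 * (al * be ^ 2 * |q.1.2.2|)) := mul_le_mul_of_nonneg_left f1 hθ.le
      have e4 : 4 * θ * (al * be ^ 2 * |q.1.2.2|) ≤ 1 * (al * be ^ 2 * |q.1.2.2|) :=
        mul_le_mul_of_nonneg_right hθ1' (by positivity)
      linarith
    rcases le_or_gt γ (2 * C5 * κ * al) with hR0 | hR0
    · rcases le_or_gt D (2 * C4 * κ * G) with hR2 | hR2
      · exact Or.inr ⟨hR0, hR2⟩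
      · -- R2a
        left
        refine le_trans ?_ hadd2
        have hS := hF T hT (rec γ d M)
          {q | (NbF al be δ ρ x0 y0 q ∧ |Nx (be ^ 2 * ρ) q| ≤ 2 * κ ∧ |q.1.2.2| ≤ γ ∧
            |q.2.2.2| ≤ d) ∧ d / 2 < |q.2.2.2| ∧ γ / 2 < |q.1.2.2|}
          (c2 * ρ * (D / 2)) (C3 * ρ ^ 2 * κ * G * D) (measurable_rec γ d M hM)
          (rec_le_one γ d M hM1)
          (fun q hq _ => by
            obtain ⟨e1, e2, e3, e4, e5⟩ := rec_ne_zero γ d M q hq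
            exact ⟨⟨(hMs q e1).1, (hMs q e1).2.1, e3, e5⟩, e4, e2⟩) (by positivity)
          ((measure_mono fun q hq => ?_).trans
            (hV al be (Sz_mono g3 hsz) ρ hρ (hρδ.trans_le g3) κ γ d hκ.le hγ.le hd.le))
          (by positivity)
          (fun q hq => by
            obtain ⟨⟨e1, e2, e3, e4⟩, e5, e6⟩ := hq
            have f3 := tG _ e3
            have f5 := tD' _ e5
            have e7 := hE2 al be (Sz_mono g2 hsz) ρ hρ (hρδ.trans_le g2) κ hκ (hκδ.trans_le g2) q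
              (NbF_mono g2 e1) e2 (e3.trans hR0) (hz1 q e6 e4)
              (by
                have := mul_le_mul_of_nonneg_left f3 (mul_pos hC4 hκ).le
                linarith)
            refine le_trans ?_ e7
            gcongr)
        · refine hS.trans (abs_num CF A2 T _ _ hCF hT (by positivity) hA2p ?_)
          have e1 : A2 * (c2 * ρ * (D / 2)) ^ 2 = C3 / (2 * C4) * ρ ^ 2 * D ^ 2 := by
            rw [hA2]
            field_simp
            norm_num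
          rw [e1]
          have e2 : κ * G ≤ D / (2 * C4) := by
            rw [le_div_iff₀ (by positivity)]
            linarith
          calc C3 * ρ ^ 2 * κ * G * D = C3 * ρ ^ 2 * (κ * G) * D := by ring
            _ ≤ C3 * ρ ^ 2 * (D / (2 * C4)) * D := by gcongr
            _ = C3 / (2 * C4) * ρ ^ 2 * D ^ 2 := by
              field_simp
        · exact ⟨NbF_mono g3 hq.1.1, hq.1.2.1, hq.1.2.2.1, hq.1.2.2.2⟩
    · -- R0: the density vanishes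
      left
      have e0 : rec γ d M = fun _ => 0 := by
        funext q
        by_contra hq
        obtain ⟨e1, e2, e3, e4, e5⟩ := rec_ne_zero γ d M q hq
        obtain ⟨f1, f2, f3⟩ := hMs q e1
        have e6 := hE0 al be (Sz_mono g0 hsz) ρ hρ (hρδ.trans_le g0) κ hκ q (NbF_mono g0 f1)
          (hz q e2 e5) f2 f3
        linarith
      rw [e0]
      unfold FF
      simp only [zero_mul, integral_zero, norm_zero]
      positivity

end Pool.Agent.N1F.DF
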