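import Pool.Agent.N1.G1

/-!
N1F, block A4. Exact factorised formula for the phase of a rectangle (LEMMA E0).
-/

namespace Pool.Agent.N1F

open Pool.Agent.N1

/-- Difference of two square roots. -/
theorem sqrt_sub (x y : ℝ) (hx : 0 < x) (hy : 0 < y) : √x - √y = (x - y) / (√x + √y) := by
  have h1 := Real.sq_sqrt hx.le
  have h2 := Real.sq_sqrt hy.le
  have h3 := Real.sqrt_pos.2 hx
  have h4 := Real.sqrt_pos.2 hy
  rw [eq_div_iff (by positivity)]
  nlinarith

/-- The factor in the second difference in one variable. -/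
noncomputable def E1f (p x y z : ℝ) : ℝ :=
  (2 * (√(p - (x - z) ^ 2) + √(p - (x - y - z) ^ 2)) +
    ((x - z) + (x - y - z)) * ((x + (x - z)) / (√(p - x ^ 2) + √(p - (x - z) ^ 2)) +
      ((x - y) + (x - y - z)) / (√(p - (x - y) ^ 2) + √(p - (x - y - z) ^ 2)))) /
  ((√(p - x ^ 2) + √(p - (x - y) ^ 2)) * (√(p - (x - z) ^ 2) + √(p - (x - y - z) ^ 2)))

/-- Second difference of `√(p - x²)`. -/
theorem diff_one (p x y z : ℝ) (h1 : 0 < p - x ^ 2) (h2 : 0 < p - (x - y) ^ 2)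
    (h3 : 0 < p - (x - z) ^ 2) (h4 : 0 < p - (x - y - z) ^ 2) :
    √(p - x ^ 2) - √(p - (x - y) ^ 2) - √(p - (x - z) ^ 2) + √(p - (x - y - z) ^ 2) =
      -(y * z * E1f p x y z) := by
  have e1 := Real.sq_sqrt h1.le
  have e2 := Real.sq_sqrt h2.le
  have e3 := Real.sq_sqrt h3.le
  have e4 := Real.sq_sqrt h4.le
  have k1 := Real.sqrt_pos.2 h1
  have k2 := Real.sqrt_pos.2 h2
  have k3 := Real.sqrt_pos.2 h3
  have k4 := Real.sqrt_pos.2 h4
  have d12 := sqrt_sub _ _ h1 h2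
  have d34 := sqrt_sub _ _ h3 h4
  have d13 := sqrt_sub _ _ h1 h3
  have d24 := sqrt_sub _ _ h2 h4
  unfold E1f
  set f1 := √(p - x ^ 2)
  set f2 := √(p - (x - y) ^ 2)
  set f3 := √(p - (x - z) ^ 2)
  set f4 := √(p - (x - y - z) ^ 2)
  have s12 : 0 < f1 + f2 := by positivity
  have s34 : 0 < f3 + f4 := by positivity
  have s13 : 0 < f1 + f3 := by positivity
  have s24 : 0 < f2 + f4 := by positivity
  -- the slopes
  have d13' : f3 - f1 = z * ((x + (x - z)) / (f1 + f3)) := by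
    rw [← neg_sub, d13]
    field_simp
    ring
  have d24' : f4 - f2 = z * (((x - y) + (x - y - z)) / (f2 + f4)) := by
    rw [← neg_sub, d24]
    field_simp
    ring
  have d12' : f1 - f2 = -(y * ((x + (x - y)) / (f1 + f2))) := by
    rw [d12]
    field_simp
    ring
  have d34' : f3 - f4 = -(y * (((x - z) + (x - y - z)) / (f3 + f4))) := by
    rw [d34]
    field_simp
    ring
  have key : (x + (x - y)) / (f1 + f2) - ((x - z) + (x - y - z)) / (f3 + f4) =
      z * ((2 * (f3 + f4) + ((x - z) + (x - y - z)) * ((x + (x - z)) / (f1 + f3) +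
        ((x - y) + (x - y - z)) / (f2 + f4))) / ((f1 + f2) * (f3 + f4))) := by
    rw [div_sub_div _ _ s12.ne' s34.ne', ← mul_div_assoc]
    congr 1
    have : (f1 + f2) = (f3 + f4) - (z * ((x + (x - z)) / (f1 + f3)) +
        z * (((x - y) + (x - y - z)) / (f2 + f4))) := by
      linarith
    generalize (x + (x - z)) / (f1 + f3) = A at this ⊢
    generalize ((x - y) + (x - y - z)) / (f2 + f4) = B at this ⊢
    rw [this]
    ring
  have h5 : f1 - f2 - f3 + f4 = -(y * ((x + (x - y)) / (f1 + f2) -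
      ((x - z) + (x - y - z)) / (f3 + f4))) := by
    have : f1 - f2 - f3 + f4 = (f1 - f2) - (f3 - f4) := by ring
    rw [this, d12', d34']
    ring
  rw [h5, key]
  ring

/-- Bounds for the factor. -/
theorem E1f_bd (p x y z m : ℝ) (hm : 0 < m) (hp : p ≤ 1) (h1 : m ≤ p - x ^ 2)
    (h2 : m ≤ p - (x - y) ^ 2) (h3 : m ≤ p - (x - z) ^ 2) (h4 : m ≤ p - (x - y - z) ^ 2)
    (g1 : 0 ≤ x) (g2 : 0 ≤ x - y) (g3 : 0 ≤ x - z) (g4 : 0 ≤ x - y - z) :
    1 ≤ E1f p x y z ∧ E1f p x y z ≤ 2 / m ^ 3 := by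
  have hm1 : m ≤ 1 := by nlinarith [sq_nonneg x]
  have hf : ∀ t : ℝ, m ≤ p - t ^ 2 → m ≤ √(p - t ^ 2) ∧ √(p - t ^ 2) ≤ 1 := by
    intro t ht
    constructor
    · apply Real.le_sqrt_of_sq_le
      nlinarith
    · rw [Real.sqrt_le_one]
      nlinarith [sq_nonneg t]
  have hx : ∀ t : ℝ, m ≤ p - t ^ 2 → 0 ≤ t → t ≤ 1 := by
    intro t ht h0
    nlinarith
  obtain ⟨a1, b1⟩ := hf x h1
  obtain ⟨a2, b2⟩ := hf (x - y) h2
  obtain ⟨a3, b3⟩ := hf (x - z) h3
  obtain ⟨a4, b4⟩ := hf (x - y - z) h4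
  have c1 := hx x h1 g1
  have c2 := hx (x - y) h2 g2
  have c3 := hx (x - z) h3 g3
  have c4 := hx (x - y - z) h4 g4
  unfold E1f
  set f1 := √(p - x ^ 2)
  set f2 := √(p - (x - y) ^ 2)
  set f3 := √(p - (x - z) ^ 2)
  set f4 := √(p - (x - y - z) ^ 2)
  have s12 : 0 < f1 + f2 := by linarith
  have s34 : 0 < f3 + f4 := by linarith
  have s13 : 0 < f1 + f3 := by linarith
  have s24 : 0 < f2 + f4 := by linarith
  have n1 : 0 ≤ (x + (x - z)) / (f1 + f3) := by positivity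
  have n2 : 0 ≤ ((x - y) + (x - y - z)) / (f2 + f4) := by positivity
  have n1' : (x + (x - z)) / (f1 + f3) ≤ 1 / m := by
    rw [div_le_div_iff₀ s13 hm]
    nlinarith
  have n2' : ((x - y) + (x - y - z)) / (f2 + f4) ≤ 1 / m := by
    rw [div_le_div_iff₀ s24 hm]
    nlinarith
  generalize (x + (x - z)) / (f1 + f3) = A at n1 n1' ⊢
  generalize ((x - y) + (x - y - z)) / (f2 + f4) = B at n2 n2' ⊢
  have hs : 0 ≤ (x - z) + (x - y - z) := by linarith
  have hden : 0 < (f1 + f2) * (f3 + f4) := mul_pos s12 s34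
  constructor
  · rw [le_div_iff₀ hden, one_mul]
    have : 0 ≤ ((x - z) + (x - y - z)) * (A + B) := by positivity
    nlinarith
  · rw [div_le_div_iff₀ hden (by positivity)]
    have hi : 1 ≤ 1 / m := by rw [le_div_iff₀ hm]; linarith
    have u1 : ((x - z) + (x - y - z)) * (A + B) ≤ 4 * (1 / m) := by
      calc ((x - z) + (x - y - z)) * (A + B) ≤ 2 * (1 / m + 1 / m) := by
            apply mul_le_mul (by linarith) (by linarith) (by linarith) (by norm_num)
        _ = 4 * (1 / m) := by ring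
    have u2 : 2 * (f3 + f4) + ((x - z) + (x - y - z)) * (A + B) ≤ 8 * (1 / m) := by
      linarith
    have u3 : 4 * m ^ 2 ≤ (f1 + f2) * (f3 + f4) := by
      have := mul_le_mul (show 2 * m ≤ f1 + f2 by linarith) (show 2 * m ≤ f3 + f4 by linarith)
        (by positivity) s12.le
      nlinarith
    calc (2 * (f3 + f4) + ((x - z) + (x - y - z)) * (A + B)) * m ^ 3
        ≤ 8 * (1 / m) * m ^ 3 := by
          apply mul_le_mul_of_nonneg_right u2 (by positivity)
      _ = 2 * (4 * m ^ 2) := by field_simp; norm_num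
      _ ≤ 2 * ((f1 + f2) * (f3 + f4)) := by linarith

/-- The factor in the mixed difference. -/
noncomputable def E3f (u u' s s' : ℝ) : ℝ :=
  (1 / (√(1 - u - s) + √(1 - u - s')) + 1 / (√(1 - u' - s) + √(1 - u' - s'))) /
    ((√(1 - u - s) + √(1 - u' - s)) * (√(1 - u - s') + √(1 - u' - s')))

/-- Mixed difference of `√(1 - u - s)`. -/
theorem diff_mix (u u' s s' : ℝ) (h1 : 0 < 1 - u - s) (h2 : 0 < 1 - u' - s)
    (h3 : 0 < 1 - u - s') (h4 : 0 < 1 - u' - s') :
    √(1 - u - s) - √(1 - u' - s) - √(1 - u - s') + √(1 - u' - s') =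
      -((u - u') * (s - s') * E3f u u' s s') := by
  have k1 := Real.sqrt_pos.2 h1
  have k2 := Real.sqrt_pos.2 h2
  have k3 := Real.sqrt_pos.2 h3
  have k4 := Real.sqrt_pos.2 h4
  have d12 := sqrt_sub _ _ h1 h2
  have d34 := sqrt_sub _ _ h3 h4
  have d13 := sqrt_sub _ _ h1 h3
  have d24 := sqrt_sub _ _ h2 h4
  unfold E3f
  set f1 := √(1 - u - s)
  set f2 := √(1 - u' - s)
  set f3 := √(1 - u - s')
  set f4 := √(1 - u' - s')
  have s12 : 0 < f1 + f2 := by positivity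
  have s34 : 0 < f3 + f4 := by positivity
  have s13 : 0 < f1 + f3 := by positivity
  have s24 : 0 < f2 + f4 := by positivity
  have e13 : f1 - f3 = -((s - s') * (1 / (f1 + f3))) := by
    rw [d13]
    field_simp
    ring
  have e24 : f2 - f4 = -((s - s') * (1 / (f2 + f4))) := by
    rw [d24]
    field_simp
    ring
  have e12 : f1 - f2 = -((u - u') / (f1 + f2)) := by
    rw [d12]
    field_simp
    ring
  have e34 : f3 - f4 = -((u - u') / (f3 + f4)) := by
    rw [d34]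
    field_simp
    ring
  have h5 : f1 - f2 - f3 + f4 = (f1 - f2) - (f3 - f4) := by ring
  have h6 : f3 + f4 - (f1 + f2) = (s - s') * (1 / (f1 + f3) + 1 / (f2 + f4)) := by
    linarith
  rw [h5, e12, e34]
  generalize 1 / (f1 + f3) + 1 / (f2 + f4) = A at h6 ⊢
  have h7 : -((u - u') / (f1 + f2)) - -((u - u') / (f3 + f4)) =
      -((u - u') * (f3 + f4 - (f1 + f2)) / ((f1 + f2) * (f3 + f4))) := by
    field_simp
    ring
  rw [h7, h6]
  field_simp

/-- Bounds for the factor in the mixed difference. -/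
theorem E3f_bd (u u' s s' m : ℝ) (hm : 0 < m) (hu : 0 ≤ u) (hu' : 0 ≤ u') (hs : 0 ≤ s)
    (hs' : 0 ≤ s') (h1 : m ≤ 1 - u - s) (h2 : m ≤ 1 - u' - s) (h3 : m ≤ 1 - u - s')
    (h4 : m ≤ 1 - u' - s') :
    1 / 4 ≤ E3f u u' s s' ∧ E3f u u' s s' ≤ 1 / (4 * m ^ 3) := by
  have hm1 : m ≤ 1 := by linarith
  have hf : ∀ t : ℝ, m ≤ t → t ≤ 1 → m ≤ √t ∧ √t ≤ 1 := by
    intro t ht ht1
    constructor
    · apply Real.le_sqrt_of_sq_le
      nlinarith
    · rw [Real.sqrt_le_one]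
      exact ht1
  obtain ⟨a1, b1⟩ := hf _ h1 (by linarith)
  obtain ⟨a2, b2⟩ := hf _ h2 (by linarith)
  obtain ⟨a3, b3⟩ := hf _ h3 (by linarith)
  obtain ⟨a4, b4⟩ := hf _ h4 (by linarith)
  unfold E3f
  set f1 := √(1 - u - s)
  set f2 := √(1 - u' - s)
  set f3 := √(1 - u - s')
  set f4 := √(1 - u' - s')
  have s12 : 0 < f1 + f2 := by linarith
  have s34 : 0 < f3 + f4 := by linarith
  have s13 : 0 < f1 + f3 := by linarith
  have s24 : 0 < f2 + f4 := by linarith
  have n1 : 1 / 2 ≤ 1 / (f1 + f3) := by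
    rw [div_le_div_iff₀ (by norm_num) s13]; linarith
  have n2 : 1 / 2 ≤ 1 / (f2 + f4) := by
    rw [div_le_div_iff₀ (by norm_num) s24]; linarith
  have n1' : 1 / (f1 + f3) ≤ 1 / (2 * m) := by
    rw [div_le_div_iff₀ s13 (by positivity)]; linarith
  have n2' : 1 / (f2 + f4) ≤ 1 / (2 * m) := by
    rw [div_le_div_iff₀ s24 (by positivity)]; linarith
  generalize 1 / (f1 + f3) = A at n1 n1' ⊢
  generalize 1 / (f2 + f4) = B at n2 n2' ⊢
  have hden : 0 < (f1 + f2) * (f3 + f4) := mul_pos s12 s34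
  have hden1 : (f1 + f2) * (f3 + f4) ≤ 4 := by
    have := mul_le_mul (show f1 + f2 ≤ 2 by linarith) (show f3 + f4 ≤ 2 by linarith) s34.le
      (by norm_num)
    linarith
  have hden2 : 4 * m ^ 2 ≤ (f1 + f2) * (f3 + f4) := by
    have := mul_le_mul (show 2 * m ≤ f1 + f2 by linarith) (show 2 * m ≤ f3 + f4 by linarith)
      (by positivity) s12.le
    nlinarith
  constructor
  · rw [div_le_div_iff₀ (by norm_num) hden]
    nlinarith
  · rw [div_le_div_iff₀ hden (by positivity)]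
    calc (A + B) * (4 * m ^ 3) ≤ (1 / (2 * m) + 1 / (2 * m)) * (4 * m ^ 3) := by
          apply mul_le_mul_of_nonneg_right (by linarith) (by positivity)
      _ = 4 * m ^ 2 := by field_simp; ring
      _ ≤ 1 * ((f1 + f2) * (f3 + f4)) := by linarith

end Pool.Agent.N1F
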