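import Pool.Agent.N1F.Defs
import Pool.Agent.N1.Eb

/-!
N1F, block A4: the key formula for the phase of a rectangle, outer difference of type N.
-/

namespace Pool.Agent.N1F

open MeasureTheory Set Metric Pool.Agent.MP_6cbfb8_an Pool.Agent.MST Pool.Agent.N1
open scoped ENNReal Real ContDiff

/-- The function `n` at the point `x - u z`. -/
noncomputable def nU (be ρ : ℝ) (q : V × V) (u : ℝ) : ℝ :=
  Nf (be ^ 2 * ρ) (q.1.1 / (be ^ 2 * ρ), q.2.1 / (be ^ 2 * ρ))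
    (q.1.2.1 - u * q.1.2.2, q.2.2.1 - u * q.2.2.2)

theorem nU_zero (be ρ : ℝ) (q : V × V) : nU be ρ q 0 = Nx (be ^ 2 * ρ) q := by
  simp [nU, Nx]

theorem nU_one (be ρ : ℝ) (q : V × V) : nU be ρ q 1 = Nz (be ^ 2 * ρ) q := by
  simp [nU, Nz]

/-- Parameters: `(A, B, ρ, y', x')`. -/
abbrev PB : Type := ℝ × ℝ × ℝ × (ℝ × ℝ) × (ℝ × ℝ)

/-- `q²` at `x`. -/
noncomputable def bq1 (p : PB) : ℝ := 1 - p.1 * p.2.2.2.2.1 ^ 2 - p.2.1 * p.2.2.2.2.2 ^ 2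

/-- `q²` at `x - y`. -/
noncomputable def bq2 (p : PB) : ℝ :=
  1 - p.1 * (p.2.2.2.2.1 - p.2.1 * p.2.2.1 * p.2.2.2.1.1) ^ 2 -
    p.2.1 * (p.2.2.2.2.2 - p.2.2.1 * p.2.2.2.1.2) ^ 2

/-- The factor in the first direction. -/
noncomputable def bL (p : PB) : ℝ :=
  (p.2.2.2.2.1 - p.2.1 * p.2.2.1 * p.2.2.2.1.1) ^ 2 *
    (1 - p.2.1 * (p.2.2.2.2.2 - p.2.2.1 * p.2.2.2.1.2) ^ 2) /
    (√(bq1 p) * √(bq2 p) * (p.2.2.2.2.1 * √(bq2 p) +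
      (p.2.2.2.2.1 - p.2.1 * p.2.2.1 * p.2.2.2.1.1) * √(bq1 p)))

/-- The function `n`. -/
noncomputable def bN (p : PB) : ℝ :=
  p.2.2.2.1.1 * (2 * p.2.2.2.2.1 - p.2.1 * p.2.2.1 * p.2.2.2.1.1) /
      (p.2.2.2.2.1 - p.2.1 * p.2.2.1 * p.2.2.2.1.1) ^ 2 +
    p.2.2.2.1.2 * (2 * p.2.2.2.2.2 - p.2.2.1 * p.2.2.2.1.2) /
      (1 - p.2.1 * (p.2.2.2.2.2 - p.2.2.1 * p.2.2.2.1.2) ^ 2)

/-- The function `n'`. -/
noncomputable def bN' (p : PB) : ℝ :=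
  p.2.2.2.1.2 * (2 * p.2.2.2.2.2 - p.2.2.1 * p.2.2.2.1.2) /
      (p.2.2.2.2.2 - p.2.2.1 * p.2.2.2.1.2) ^ 2 +
    p.1 * p.2.1 * p.2.2.2.1.1 * (2 * p.2.2.2.2.1 - p.2.1 * p.2.2.1 * p.2.2.2.1.1) /
      (1 - p.1 * (p.2.2.2.2.1 - p.2.1 * p.2.2.1 * p.2.2.2.1.1) ^ 2)

/-- The factor in the second direction. -/
noncomputable def bM (p : PB) : ℝ :=
  (p.2.2.2.2.2 - p.2.2.1 * p.2.2.2.1.2) ^ 2 *
    (1 - p.1 * (p.2.2.2.2.1 - p.2.1 * p.2.2.1 * p.2.2.2.1.1) ^ 2) /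
    (√(bq1 p) * √(bq2 p) * (p.2.2.2.2.2 * √(bq2 p) +
      (p.2.2.2.2.2 - p.2.2.1 * p.2.2.2.1.2) * √(bq1 p))) * bN' p

/-- The parameters of a configuration. -/
def pB (A B ρ y1 y2 a b : ℝ) : PB := (A, B, ρ, (y1, y2), (a, b))

theorem bq1_eq (A B ρ y1 y2 a b : ℝ) : bq1 (pB A B ρ y1 y2 a b) = 1 - A * a ^ 2 - B * b ^ 2 := rfl

theorem bq2_eq (A B ρ y1 y2 a b : ℝ) : bq2 (pB A B ρ y1 y2 a b) =
    1 - A * (a - B * ρ * y1) ^ 2 - B * (b - ρ * y2) ^ 2 := rfl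

theorem e_first (A B ρ y1 y2 a b : ℝ) (h1 : 0 < bq1 (pB A B ρ y1 y2 a b))
    (h2 : 0 < bq2 (pB A B ρ y1 y2 a b)) (ha : 0 < a) (ha2 : 0 < a - B * ρ * y1)
    (hA : 0 ≤ A) :
    a / √(bq1 (pB A B ρ y1 y2 a b)) - (a - B * ρ * y1) / √(bq2 (pB A B ρ y1 y2 a b)) =
      bL (pB A B ρ y1 y2 a b) * (B * ρ * bN (pB A B ρ y1 y2 a b)) := by
  have e1 := Real.sq_sqrt h1.le
  have e2 := Real.sq_sqrt h2.le
  have k1 := Real.sqrt_pos.2 h1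
  have k2 := Real.sqrt_pos.2 h2
  have hw : 0 < 1 - B * (b - ρ * y2) ^ 2 := by
    rw [bq2_eq] at h2
    have : 0 ≤ A * (a - B * ρ * y1) ^ 2 := by positivity
    linarith
  have key : B * ρ * bN (pB A B ρ y1 y2 a b) =
      a ^ 2 / (a - B * ρ * y1) ^ 2 - (1 - B * b ^ 2) / (1 - B * (b - ρ * y2) ^ 2) := by
    unfold bN pB
    simp only
    field_simp
    ring
  rw [key]
  unfold bL
  rw [bq1_eq, bq2_eq] at *
  simp only [pB]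
  set r1 := √(1 - A * a ^ 2 - B * b ^ 2)
  set r2 := √(1 - A * (a - B * ρ * y1) ^ 2 - B * (b - ρ * y2) ^ 2)
  set a2 := a - B * ρ * y1
  set b2 := b - ρ * y2
  have hs : 0 < a * r2 + a2 * r1 := by positivity
  have h3 : (a * r2 - a2 * r1) * (a * r2 + a2 * r1) =
      a ^ 2 * (1 - B * b2 ^ 2) - a2 ^ 2 * (1 - B * b ^ 2) := by
    calc (a * r2 - a2 * r1) * (a * r2 + a2 * r1) = a ^ 2 * r2 ^ 2 - a2 ^ 2 * r1 ^ 2 := by ring
      _ = _ := by rw [e1, e2]; ring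
  have h4 : a2 ^ 2 * (1 - B * b2 ^ 2) / (r1 * r2 * (a * r2 + a2 * r1)) *
      (a ^ 2 / a2 ^ 2 - (1 - B * b ^ 2) / (1 - B * b2 ^ 2)) =
      (a ^ 2 * (1 - B * b2 ^ 2) - a2 ^ 2 * (1 - B * b ^ 2)) / (r1 * r2 * (a * r2 + a2 * r1)) := by
    field_simp
  rw [h4, ← h3]
  field_simp

theorem e_second (A B ρ y1 y2 a b : ℝ) (h1 : 0 < bq1 (pB A B ρ y1 y2 a b))
    (h2 : 0 < bq2 (pB A B ρ y1 y2 a b)) (hb : 0 < b) (hb2 : 0 < b - ρ * y2)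
    (hB : 0 ≤ B) :
    b / √(bq1 (pB A B ρ y1 y2 a b)) - (b - ρ * y2) / √(bq2 (pB A B ρ y1 y2 a b)) =
      ρ * bM (pB A B ρ y1 y2 a b) := by
  have e1 := Real.sq_sqrt h1.le
  have e2 := Real.sq_sqrt h2.le
  have k1 := Real.sqrt_pos.2 h1
  have k2 := Real.sqrt_pos.2 h2
  have hw : 0 < 1 - A * (a - B * ρ * y1) ^ 2 := by
    rw [bq2_eq] at h2
    have : 0 ≤ B * (b - ρ * y2) ^ 2 := by positivity
    linarith
  have key : ρ * bN' (pB A B ρ y1 y2 a b) =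
      b ^ 2 / (b - ρ * y2) ^ 2 - (1 - A * a ^ 2) / (1 - A * (a - B * ρ * y1) ^ 2) := by
    unfold bN' pB
    simp only
    have g1 : ρ * (y2 * (2 * b - ρ * y2)) = b ^ 2 - (b - ρ * y2) ^ 2 := by ring
    have g2 : ρ * (A * B * y1 * (2 * a - B * ρ * y1)) =
      (1 - A * (a - B * ρ * y1) ^ 2) - (1 - A * a ^ 2) := by ring
    rw [mul_add, ← mul_div_assoc, ← mul_div_assoc, g1, g2, sub_div, sub_div,
      div_self (by positivity), div_self hw.ne']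
    ring
  unfold bM
  rw [bq1_eq, bq2_eq] at *
  simp only [pB] at *
  set r1 := √(1 - A * a ^ 2 - B * b ^ 2)
  set r2 := √(1 - A * (a - B * ρ * y1) ^ 2 - B * (b - ρ * y2) ^ 2)
  set a2 := a - B * ρ * y1
  set b2 := b - ρ * y2
  have hs : 0 < b * r2 + b2 * r1 := by positivity
  have h3 : (b * r2 - b2 * r1) * (b * r2 + b2 * r1) =
      b ^ 2 * (1 - A * a2 ^ 2) - b2 ^ 2 * (1 - A * a ^ 2) := by
    calc (b * r2 - b2 * r1) * (b * r2 + b2 * r1) = b ^ 2 * r2 ^ 2 - b2 ^ 2 * r1 ^ 2 := by ring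
      _ = _ := by rw [e1, e2]; ring
  have h4 : b2 ^ 2 * (1 - A * a2 ^ 2) / (r1 * r2 * (b * r2 + b2 * r1)) *
      (b ^ 2 / b2 ^ 2 - (1 - A * a ^ 2) / (1 - A * a2 ^ 2)) =
      (b ^ 2 * (1 - A * a2 ^ 2) - b2 ^ 2 * (1 - A * a ^ 2)) / (r1 * r2 * (b * r2 + b2 * r1)) := by
    field_simp
  have h5 : ρ * (b2 ^ 2 * (1 - A * a2 ^ 2) / (r1 * r2 * (b * r2 + b2 * r1)) *
      bN' (A, B, ρ, (y1, y2), (a, b))) = b2 ^ 2 * (1 - A * a2 ^ 2) / (r1 * r2 * (b * r2 + b2 * r1)) *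
      (ρ * bN' (A, B, ρ, (y1, y2), (a, b))) := by ring
  rw [h5, key, h4, ← h3]
  field_simp

/-- Mean value theorem for the difference of two square roots. -/
theorem e_mvt (a b y1 y2 z1 z2 : ℝ) (h1 : ∀ u ∈ Icc (0:ℝ) 1,
    0 < 1 - (a - u * z1) ^ 2 - (b - u * z2) ^ 2) (h2 : ∀ u ∈ Icc (0:ℝ) 1,
    0 < 1 - (a - y1 - u * z1) ^ 2 - (b - y2 - u * z2) ^ 2) :
    ∃ u ∈ Icc (0:ℝ) 1,
      √(1 - a ^ 2 - b ^ 2) - √(1 - (a - y1) ^ 2 - (b - y2) ^ 2) -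
        √(1 - (a - z1) ^ 2 - (b - z2) ^ 2) + √(1 - (a - y1 - z1) ^ 2 - (b - y2 - z2) ^ 2) =
      -(z1 * ((a - u * z1) / √(1 - (a - u * z1) ^ 2 - (b - u * z2) ^ 2) -
          (a - y1 - u * z1) / √(1 - (a - y1 - u * z1) ^ 2 - (b - y2 - u * z2) ^ 2)) +
        z2 * ((b - u * z2) / √(1 - (a - u * z1) ^ 2 - (b - u * z2) ^ 2) -
          (b - y2 - u * z2) / √(1 - (a - y1 - u * z1) ^ 2 - (b - y2 - u * z2) ^ 2))) := by
  have hd : ∀ (s t : ℝ) (u : ℝ), 0 < 1 - (s - u * z1) ^ 2 - (t - u * z2) ^ 2 →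
      HasDerivAt (fun u : ℝ => √(1 - (s - u * z1) ^ 2 - (t - u * z2) ^ 2))
        (((s - u * z1) * z1 + (t - u * z2) * z2) / √(1 - (s - u * z1) ^ 2 - (t - u * z2) ^ 2))
        u := by
    intro s t u hu
    have e1 : HasDerivAt (fun u : ℝ => s - u * z1) (-z1) u := by
      have := ((hasDerivAt_id u).mul_const z1).const_sub s
      simpa using this
    have e2 : HasDerivAt (fun u : ℝ => t - u * z2) (-z2) u := by
      have := ((hasDerivAt_id u).mul_const z2).const_sub t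
      simpa using this
    have e3 : HasDerivAt (fun u : ℝ => 1 - (s - u * z1) ^ 2 - (t - u * z2) ^ 2)
        (-(2 * (s - u * z1) * (-z1)) - 2 * (t - u * z2) * (-z2)) u := by
      have := ((e1.fun_pow 2).const_sub 1).fun_sub (e2.fun_pow 2)
      simpa using this
    have e4 := e3.sqrt hu.ne'
    have hs := Real.sqrt_pos.2 hu
    refine e4.congr_deriv ?_
    field_simp
    ring
  obtain ⟨u, hu, h⟩ := exists_hasDerivAt_eq_slope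
    (fun u : ℝ => √(1 - (a - u * z1) ^ 2 - (b - u * z2) ^ 2) -
      √(1 - (a - y1 - u * z1) ^ 2 - (b - y2 - u * z2) ^ 2))
    (fun u => ((a - u * z1) * z1 + (b - u * z2) * z2) / √(1 - (a - u * z1) ^ 2 - (b - u * z2) ^ 2) -
      ((a - y1 - u * z1) * z1 + (b - y2 - u * z2) * z2) /
        √(1 - (a - y1 - u * z1) ^ 2 - (b - y2 - u * z2) ^ 2)) (zero_lt_one)
    (fun u hu => ((hd a b u (h1 u hu)).sub (hd (a - y1) (b - y2) u (h2 u hu))).continuousAt.continuousWithinAt)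
    (fun u hu => (hd a b u (h1 u ⟨hu.1.le, hu.2.le⟩)).sub
      (hd (a - y1) (b - y2) u (h2 u ⟨hu.1.le, hu.2.le⟩)))
  refine ⟨u, ⟨hu.1.le, hu.2.le⟩, ?_⟩
  simp only [one_mul, zero_mul, sub_zero, div_one] at h
  have : ∀ s t r : ℝ, (s * z1 + t * z2) / r = z1 * (s / r) + z2 * (t / r) := by
    intro s t r
    ring
  rw [this, this] at h
  linarith

end Pool.Agent.N1F
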