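import Pool.Agent.N1F.EB

/-!
N1F, block A4: the key lemma (one intermediate point).
-/

namespace Pool.Agent.N1F

open MeasureTheory Set Metric Pool.Agent.MP_6cbfb8_an Pool.Agent.MST Pool.Agent.N1
open scoped ENNReal Real ContDiff

/-- The base point. -/
def p0B (A0 B0 : ℝ) (x0 y0 : ℝ × ℝ) : PB := (A0, B0, 0, y0, x0)

theorem near_PB (f : PB → ℝ) (p0 : PB) (hf : ContinuousAt f p0) {ε : ℝ} (hε : 0 < ε) :
    ∃ δ : ℝ, 0 < δ ∧ ∀ A B ρ y1 y2 a b : ℝ, |A - p0.1| ≤ 2 * δ → |B - p0.2.1| ≤ 2 * δ →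
      |ρ - p0.2.2.1| ≤ 2 * δ → |y1 - p0.2.2.2.1.1| ≤ 2 * δ → |y2 - p0.2.2.2.1.2| ≤ 2 * δ →
      |a - p0.2.2.2.2.1| ≤ 2 * δ → |b - p0.2.2.2.2.2| ≤ 2 * δ →
      |f (pB A B ρ y1 y2 a b) - f p0| < ε := by
  obtain ⟨d, hd, h⟩ := Metric.continuousAt_iff.1 hf ε hε
  refine ⟨d / 3, by positivity, fun A B ρ y1 y2 a b h1 h2 h3 h4 h5 h6 h7 => ?_⟩
  have := @h (pB A B ρ y1 y2 a b) (by
    unfold pB
    rw [Prod.dist_eq, Prod.dist_eq, Prod.dist_eq, Prod.dist_eq, Prod.dist_eq, Prod.dist_eq]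
    simp only [Real.dist_eq]
    exact max_lt (by linarith) (max_lt (by linarith) (max_lt (by linarith)
      (max_lt (max_lt (by linarith) (by linarith)) (max_lt (by linarith) (by linarith))))))
  simpa [Real.dist_eq] using this

section

variable {c A0 B0 : ℝ} {x0 y0 : ℝ × ℝ}

theorem base_q1 : bq1 (p0B A0 B0 x0 y0) = 1 - A0 * x0.1 ^ 2 - B0 * x0.2 ^ 2 := rfl

theorem base_q2 : bq2 (p0B A0 B0 x0 y0) = 1 - A0 * x0.1 ^ 2 - B0 * x0.2 ^ 2 := by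
  unfold bq2 p0B
  simp

theorem base_pos (hc : 0 < c) (hb : Bs c A0 B0 x0) :
    c ^ 2 / 4 ≤ 1 - A0 * x0.1 ^ 2 - B0 * x0.2 ^ 2 := by
  obtain ⟨h1, h2, h3, h4, h5, h6⟩ := hb
  linarith

theorem cont_q1 (p : PB) : ContinuousAt bq1 p := by
  unfold bq1
  fun_prop

theorem cont_q2 (p : PB) : ContinuousAt bq2 p := by
  unfold bq2
  fun_prop

theorem base_N (hb : Bs c A0 B0 x0) : bN (p0B A0 B0 x0 y0) = nb B0 x0 y0 := by
  obtain ⟨h1, h2, h3, h4, h5, h6⟩ := hb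
  unfold bN p0B nb
  simp only [mul_zero, zero_mul, sub_zero]
  congr 1
  · field_simp
  · ring

theorem cont_N (hc : 0 < c) (hb : Bs c A0 B0 x0) : ContinuousAt bN (p0B A0 B0 x0 y0) := by
  have hq := base_pos hc hb
  obtain ⟨h1, h2, h3, h4, h5, h6⟩ := hb
  have hA : 0 ≤ A0 * x0.1 ^ 2 := by positivity
  have hc2 : 0 < c ^ 2 := by positivity
  unfold bN p0B
  refine ContinuousAt.add ?_ ?_
  · refine ContinuousAt.div (by fun_prop) (by fun_prop) ?_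
    simp only [mul_zero, zero_mul, sub_zero]
    positivity
  · refine ContinuousAt.div (by fun_prop) (by fun_prop) ?_
    simp only [zero_mul, sub_zero]
    intro h0
    linarith

theorem cont_L (hc : 0 < c) (hb : Bs c A0 B0 x0) : ContinuousAt bL (p0B A0 B0 x0 y0) := by
  have hq := base_pos hc hb
  have hc2 : 0 < c ^ 2 := by positivity
  have k1 : 0 < √(bq1 (p0B A0 B0 x0 y0)) := by
    rw [base_q1]
    apply Real.sqrt_pos.2
    linarith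
  have k2 : 0 < √(bq2 (p0B A0 B0 x0 y0)) := by
    rw [base_q2]
    apply Real.sqrt_pos.2
    linarith
  have s1 : ContinuousAt (fun p => √(bq1 p)) (p0B A0 B0 x0 y0) := (cont_q1 _).sqrt
  have s2 : ContinuousAt (fun p => √(bq2 p)) (p0B A0 B0 x0 y0) := (cont_q2 _).sqrt
  obtain ⟨h1, h2, h3, h4, h5, h6⟩ := hb
  unfold bL
  refine ContinuousAt.div (by fun_prop) ?_ ?_
  · exact (s1.mul s2).mul (((by fun_prop : ContinuousAt (fun p : PB => p.2.2.2.2.1) _).mul s2).add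
      ((by fun_prop : ContinuousAt (fun p : PB => p.2.2.2.2.1 - p.2.1 * p.2.2.1 * p.2.2.2.1.1) _).mul
        s1))
  · have : (p0B A0 B0 x0 y0).2.2.2.2.1 - (p0B A0 B0 x0 y0).2.1 * (p0B A0 B0 x0 y0).2.2.1 *
        (p0B A0 B0 x0 y0).2.2.2.1.1 = x0.1 := by
      simp [p0B]
    rw [this]
    have : (p0B A0 B0 x0 y0).2.2.2.2.1 = x0.1 := rfl
    rw [this]
    positivity

theorem base_L (hc : 0 < c) (hb : Bs c A0 B0 x0) : 0 < bL (p0B A0 B0 x0 y0) := by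
  have hq := base_pos hc hb
  have hc2 : 0 < c ^ 2 := by positivity
  have k1 : 0 < √(bq1 (p0B A0 B0 x0 y0)) := by
    rw [base_q1]
    apply Real.sqrt_pos.2
    linarith
  have k2 : 0 < √(bq2 (p0B A0 B0 x0 y0)) := by
    rw [base_q2]
    apply Real.sqrt_pos.2
    linarith
  obtain ⟨h1, h2, h3, h4, h5, h6⟩ := hb
  have hA : 0 ≤ A0 * x0.1 ^ 2 := by positivity
  unfold bL
  have e1 : (p0B A0 B0 x0 y0).2.2.2.2.1 - (p0B A0 B0 x0 y0).2.1 * (p0B A0 B0 x0 y0).2.2.1 *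
      (p0B A0 B0 x0 y0).2.2.2.1.1 = x0.1 := by
    simp [p0B]
  have e2 : (p0B A0 B0 x0 y0).2.2.2.2.1 = x0.1 := rfl
  have e3 : 1 - (p0B A0 B0 x0 y0).2.1 * ((p0B A0 B0 x0 y0).2.2.2.2.2 -
      (p0B A0 B0 x0 y0).2.2.1 * (p0B A0 B0 x0 y0).2.2.2.1.2) ^ 2 = 1 - B0 * x0.2 ^ 2 := by
    simp [p0B]
  rw [e1, e2, e3]
  have e4 : 0 < 1 - B0 * x0.2 ^ 2 := by linarith
  positivity

theorem base_N' (hb : Bs c A0 B0 x0) : bN' (p0B A0 B0 x0 y0) = 2 * y0.2 / x0.2 := by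
  obtain ⟨h1, h2, h3, h4, h5, h6⟩ := hb
  unfold bN' p0B
  simp only [h3, mul_zero, zero_mul, sub_zero, zero_div, add_zero]
  field_simp

theorem cont_M (hc : 0 < c) (hb : Bs c A0 B0 x0) : ContinuousAt bM (p0B A0 B0 x0 y0) := by
  have hq := base_pos hc hb
  have hc2 : 0 < c ^ 2 := by positivity
  have k1 : 0 < √(bq1 (p0B A0 B0 x0 y0)) := by
    rw [base_q1]
    apply Real.sqrt_pos.2
    linarith
  have k2 : 0 < √(bq2 (p0B A0 B0 x0 y0)) := by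
    rw [base_q2]
    apply Real.sqrt_pos.2
    linarith
  have s1 : ContinuousAt (fun p => √(bq1 p)) (p0B A0 B0 x0 y0) := (cont_q1 _).sqrt
  have s2 : ContinuousAt (fun p => √(bq2 p)) (p0B A0 B0 x0 y0) := (cont_q2 _).sqrt
  obtain ⟨h1, h2, h3, h4, h5, h6⟩ := hb
  have hB : 0 ≤ B0 * x0.2 ^ 2 := by positivity
  unfold bM
  refine ContinuousAt.mul ?_ ?_
  · refine ContinuousAt.div (by fun_prop) ?_ ?_
    · exact (s1.mul s2).mul (((by fun_prop : ContinuousAt (fun p : PB => p.2.2.2.2.2) _).mul s2).add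
        ((by fun_prop : ContinuousAt (fun p : PB => p.2.2.2.2.2 - p.2.2.1 * p.2.2.2.1.2) _).mul s1))
    · have : (p0B A0 B0 x0 y0).2.2.2.2.2 - (p0B A0 B0 x0 y0).2.2.1 *
          (p0B A0 B0 x0 y0).2.2.2.1.2 = x0.2 := by
        simp [p0B]
      rw [this]
      have : (p0B A0 B0 x0 y0).2.2.2.2.2 = x0.2 := rfl
      rw [this]
      positivity
  · unfold bN' p0B
    refine ContinuousAt.add ?_ ?_
    · refine ContinuousAt.div (by fun_prop) (by fun_prop) ?_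
      simp only [zero_mul, sub_zero]
      positivity
    · refine ContinuousAt.div (by fun_prop) (by fun_prop) ?_
      simp only [mul_zero, zero_mul, sub_zero]
      intro h0
      linarith

theorem base_M (hc : 0 < c) (hb : Bs c A0 B0 x0) (hy : y0.2 ≠ 0) :
    bM (p0B A0 B0 x0 y0) ≠ 0 := by
  have hq := base_pos hc hb
  have hN := base_N' (y0 := y0) hb
  have hc2 : 0 < c ^ 2 := by positivity
  have k1 : 0 < √(bq1 (p0B A0 B0 x0 y0)) := by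
    rw [base_q1]
    apply Real.sqrt_pos.2
    linarith
  have k2 : 0 < √(bq2 (p0B A0 B0 x0 y0)) := by
    rw [base_q2]
    apply Real.sqrt_pos.2
    linarith
  obtain ⟨h1, h2, h3, h4, h5, h6⟩ := hb
  have hB : 0 ≤ B0 * x0.2 ^ 2 := by positivity
  unfold bM
  have e1 : (p0B A0 B0 x0 y0).2.2.2.2.2 - (p0B A0 B0 x0 y0).2.2.1 *
      (p0B A0 B0 x0 y0).2.2.2.1.2 = x0.2 := by
    simp [p0B]
  have e2 : (p0B A0 B0 x0 y0).2.2.2.2.2 = x0.2 := rfl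
  have e3 : 1 - (p0B A0 B0 x0 y0).1 * ((p0B A0 B0 x0 y0).2.2.2.2.1 - (p0B A0 B0 x0 y0).2.1 *
      (p0B A0 B0 x0 y0).2.2.1 * (p0B A0 B0 x0 y0).2.2.2.1.1) ^ 2 = 1 - A0 * x0.1 ^ 2 := by
    simp [p0B]
  rw [e1, e2, e3, hN]
  have e4 : 0 < 1 - A0 * x0.1 ^ 2 := by linarith
  have e5 : 2 * y0.2 / x0.2 ≠ 0 := div_ne_zero (mul_ne_zero two_ne_zero hy) h5.ne'
  refine mul_ne_zero (by positivity) e5

end

end Pool.Agent.N1F
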