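import Pool.Agent.N1F.EC

/-!
N1F, block A4: the key lemma (one intermediate point).
-/

namespace Pool.Agent.N1F

open MeasureTheory Set Metric Pool.Agent.MP_6cbfb8_an Pool.Agent.MST Pool.Agent.N1
open scoped ENNReal Real ContDiff

/-- The scaled parameters at the point `x - u z`. -/
noncomputable def pQ (al be ρ : ℝ) (q : V × V) (u : ℝ) : PB :=
  pB (al ^ 2) (be ^ 2) ρ (q.1.1 / (al * be ^ 2 * ρ)) (q.2.1 / (be * ρ))
    (q.1.2.1 / al - u * (q.1.2.2 / al)) (q.2.2.1 / be - u * (q.2.2.2 / be))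

theorem pQ_q1 {al be ρ : ℝ} (hal : 0 < al) (hbe : 0 < be) (q : V × V) (u : ℝ) :
    bq1 (pQ al be ρ q u) =
      1 - (q.1.2.1 - u * q.1.2.2) ^ 2 - (q.2.2.1 - u * q.2.2.2) ^ 2 := by
  unfold pQ
  rw [bq1_eq]
  field_simp

theorem pQ_q2 {al be ρ : ℝ} (hal : 0 < al) (hbe : 0 < be) (hρ : 0 < ρ) (q : V × V) (u : ℝ) :
    bq2 (pQ al be ρ q u) = 1 - (q.1.2.1 - q.1.1 - u * q.1.2.2) ^ 2 -
      (q.2.2.1 - q.2.1 - u * q.2.2.2) ^ 2 := by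
  unfold pQ
  rw [bq2_eq]
  have e1 : q.1.2.1 / al - u * (q.1.2.2 / al) - be ^ 2 * ρ * (q.1.1 / (al * be ^ 2 * ρ)) =
      (q.1.2.1 - q.1.1 - u * q.1.2.2) / al := by
    field_simp
    ring
  have e2 : q.2.2.1 / be - u * (q.2.2.2 / be) - ρ * (q.2.1 / (be * ρ)) =
      (q.2.2.1 - q.2.1 - u * q.2.2.2) / be := by
    field_simp
    ring
  rw [e1, e2]
  field_simp

theorem pQ_N {al be ρ : ℝ} (hal : 0 < al) (hbe : 0 < be) (hρ : 0 < ρ) (q : V × V) (u : ℝ)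
    (h1 : 0 < q.1.2.1 - u * q.1.2.2 - q.1.1)
    (h2 : 0 < 1 - (q.2.2.1 - u * q.2.2.2 - q.2.1) ^ 2) :
    nU be ρ q u = bN (pQ al be ρ q u) := by
  have g1 : q.1.2.1 / al - u * (q.1.2.2 / al) - be ^ 2 * ρ * (q.1.1 / (al * be ^ 2 * ρ)) =
      (q.1.2.1 - u * q.1.2.2 - q.1.1) / al := by
    field_simp
  have g2 : q.2.2.1 / be - u * (q.2.2.2 / be) - ρ * (q.2.1 / (be * ρ)) =
      (q.2.2.1 - u * q.2.2.2 - q.2.1) / be := by
    field_simp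
  have g3 : 2 * (q.1.2.1 / al - u * (q.1.2.2 / al)) - be ^ 2 * ρ * (q.1.1 / (al * be ^ 2 * ρ)) =
      (2 * (q.1.2.1 - u * q.1.2.2) - q.1.1) / al := by
    field_simp
  have g4 : 2 * (q.2.2.1 / be - u * (q.2.2.2 / be)) - ρ * (q.2.1 / (be * ρ)) =
      (2 * (q.2.2.1 - u * q.2.2.2) - q.2.1) / be := by
    field_simp
  have g5 : be ^ 2 * ((q.2.2.1 - u * q.2.2.2 - q.2.1) / be) ^ 2 =
      (q.2.2.1 - u * q.2.2.2 - q.2.1) ^ 2 := by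
    field_simp
  have g6 : be ^ 2 * ρ * (q.1.1 / (be ^ 2 * ρ)) = q.1.1 := by
    field_simp
  have g7 : be ^ 2 * ρ * (q.2.1 / (be ^ 2 * ρ)) = q.2.1 := by
    field_simp
  unfold nU Nf om sg bN pQ pB
  dsimp only
  rw [g1, g2, g3, g4, g5, g6, g7, sub_neg_eq_add]
  congr 1
  · field_simp
  · field_simp

theorem eF_keyA {c A0 B0 : ℝ} {x0 y0 : ℝ × ℝ} (hc : 0 < c) (hb : Bs c A0 B0 x0)
    (hy : y0.2 ≠ 0) : ∃ l Λ : ℝ, 0 < l ∧ l ≤ Λ ∧ ∀ ε : ℝ, 0 < ε → ∃ δ : ℝ, 0 < δ ∧ δ ≤ 1 ∧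
    ∀ al be : ℝ, Sz al be A0 B0 δ → ∀ ρ : ℝ, 0 < ρ → ρ < δ → ∀ q : V × V,
    NbF al be δ ρ x0 y0 q →
    (∀ u ∈ Icc (0:ℝ) 1, |nU be ρ q u - nb B0 x0 y0| ≤ ε) ∧
    ∃ u ∈ Icc (0:ℝ) 1, ∃ L M : ℝ, l ≤ L ∧ L ≤ Λ ∧ l ≤ |M| ∧ |M| ≤ Λ ∧
      Fr c q.1 q.2 = -(ρ * (L * nU be ρ q u * (al * be ^ 2 * q.1.2.2) + M * (be * q.2.2.2))) := by
  have L0 := base_L (y0 := y0) hc hb
  have M0 := base_M hc hb hy
  have M0' : 0 < |bM (p0B A0 B0 x0 y0)| := abs_pos.2 M0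
  have hq := base_pos hc hb
  have hc2 : 0 < c ^ 2 := by positivity
  obtain ⟨dL, dL0, HL⟩ := near_PB bL _ (cont_L (y0 := y0) hc hb) (half_pos L0)
  obtain ⟨dM, dM0, HM⟩ := near_PB bM _ (cont_M (y0 := y0) hc hb) (half_pos M0')
  obtain ⟨d1, d10, H1⟩ := near_PB bq1 _ (cont_q1 (p0B A0 B0 x0 y0))
    (show 0 < c ^ 2 / 8 by positivity)
  obtain ⟨d2, d20, H2⟩ := near_PB bq2 _ (cont_q2 (p0B A0 B0 x0 y0))
    (show 0 < c ^ 2 / 8 by positivity)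
  have hx1 := hb.2.2.2.1
  have hx2 := hb.2.2.2.2.1
  obtain ⟨d3, d30, H3⟩ := near_PB (fun p => p.2.2.2.2.1 - p.2.1 * p.2.2.1 * p.2.2.2.1.1)
    (p0B A0 B0 x0 y0) (by fun_prop) (half_pos hx1)
  obtain ⟨d4, d40, H4⟩ := near_PB (fun p => p.2.2.2.2.2 - p.2.2.1 * p.2.2.2.1.2)
    (p0B A0 B0 x0 y0) (by fun_prop) (half_pos hx2)
  refine ⟨min (bL (p0B A0 B0 x0 y0) / 2) (|bM (p0B A0 B0 x0 y0)| / 2),
    2 * bL (p0B A0 B0 x0 y0) + 2 * |bM (p0B A0 B0 x0 y0)|, by positivity, ?_, ?_⟩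
  · refine (min_le_left _ _).trans ?_
    linarith
  intro ε hε
  obtain ⟨dN, dN0, HN⟩ := near_PB bN _ (cont_N (y0 := y0) hc hb) hε
  obtain ⟨δ, hδ⟩ : ∃ δ : ℝ, δ = min (min (min (min (min dL dM) (min d1 d2)) (min d3 d4)) dN)
      (min 1 (min (x0.1 / 4) (x0.2 / 4))) := ⟨_, rfl⟩
  have hδ0 : 0 < δ := by
    rw [hδ]
    positivity
  have m1 : δ ≤ dL ∧ δ ≤ dM ∧ δ ≤ d1 ∧ δ ≤ d2 ∧ δ ≤ d3 ∧ δ ≤ d4 ∧ δ ≤ dN ∧ δ ≤ 1 ∧
      δ ≤ x0.1 / 4 ∧ δ ≤ x0.2 / 4 := by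
    rw [hδ]
    simp only [min_le_iff, le_refl, true_or, or_true, and_self]
  obtain ⟨mL, mM, m1, m2, m3, m4, mN, m5, m6, m7⟩ := m1
  refine ⟨δ, hδ0, m5, fun al be hs ρ hρ hρδ q hq => ?_⟩
  obtain ⟨s1, s2, s3, s4, s5, s6⟩ := hs
  obtain ⟨n1, n2, n3, n4, n5, n6⟩ := hq
  -- all parameter points are near the base point
  have near : ∀ (f : PB → ℝ) (ε : ℝ) (d : ℝ), δ ≤ d → (∀ A B ρ y1 y2 a b : ℝ,
      |A - (p0B A0 B0 x0 y0).1| ≤ 2 * d → |B - (p0B A0 B0 x0 y0).2.1| ≤ 2 * d →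
      |ρ - (p0B A0 B0 x0 y0).2.2.1| ≤ 2 * d → |y1 - (p0B A0 B0 x0 y0).2.2.2.1.1| ≤ 2 * d →
      |y2 - (p0B A0 B0 x0 y0).2.2.2.1.2| ≤ 2 * d → |a - (p0B A0 B0 x0 y0).2.2.2.2.1| ≤ 2 * d →
      |b - (p0B A0 B0 x0 y0).2.2.2.2.2| ≤ 2 * d →
      |f (pB A B ρ y1 y2 a b) - f (p0B A0 B0 x0 y0)| < ε) → ∀ u ∈ Icc (0:ℝ) 1,
      |f (pQ al be ρ q u) - f (p0B A0 B0 x0 y0)| < ε := by
    intro f ε d hd h u hu
    unfold pQ
    have z1 : |u * (q.1.2.2 / al)| ≤ δ := by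
      rw [abs_mul, abs_of_nonneg hu.1]
      exact (mul_le_of_le_one_left (abs_nonneg _) hu.2).trans n5
    have z2 : |u * (q.2.2.2 / be)| ≤ δ := by
      rw [abs_mul, abs_of_nonneg hu.1]
      exact (mul_le_of_le_one_left (abs_nonneg _) hu.2).trans n6
    obtain ⟨z1a, z1b⟩ := abs_le.1 z1
    obtain ⟨z2a, z2b⟩ := abs_le.1 z2
    obtain ⟨n3a, n3b⟩ := abs_le.1 n3
    obtain ⟨n4a, n4b⟩ := abs_le.1 n4
    apply h
    · exact s5.le.trans (by linarith)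
    · exact s6.le.trans (by linarith)
    · change |ρ - 0| ≤ 2 * d
      rw [sub_zero, abs_of_pos hρ]
      linarith
    · exact n1.trans (by linarith)
    · exact n2.trans (by linarith)
    · change |q.1.2.1 / al - u * (q.1.2.2 / al) - x0.1| ≤ 2 * d
      rw [abs_le]
      constructor <;> linarith
    · change |q.2.2.1 / be - u * (q.2.2.2 / be) - x0.2| ≤ 2 * d
      rw [abs_le]
      constructor <;> linarith
  have N1 := near bq1 _ d1 m1 H1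
  have N2 := near bq2 _ d2 m2 H2
  have N3 := near (fun p => p.2.2.2.2.1 - p.2.1 * p.2.2.1 * p.2.2.2.1.1) _ d3 m3 H3
  have N4 := near (fun p => p.2.2.2.2.2 - p.2.2.1 * p.2.2.2.1.2) _ d4 m4 H4
  have NL := near bL _ dL mL HL
  have NM := near bM _ dM mM HM
  have NN := near bN _ dN mN HN
  have P1 : ∀ u ∈ Icc (0:ℝ) 1, c ^ 2 / 8 ≤
      1 - (q.1.2.1 - u * q.1.2.2) ^ 2 - (q.2.2.1 - u * q.2.2.2) ^ 2 := by
    intro u hu
    have := (abs_lt.1 (N1 u hu)).1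
    rw [pQ_q1 s1 s3, base_q1] at this
    linarith
  have P2 : ∀ u ∈ Icc (0:ℝ) 1, c ^ 2 / 8 ≤ 1 - (q.1.2.1 - q.1.1 - u * q.1.2.2) ^ 2 -
      (q.2.2.1 - q.2.1 - u * q.2.2.2) ^ 2 := by
    intro u hu
    have := (abs_lt.1 (N2 u hu)).1
    rw [pQ_q2 s1 s3 hρ, base_q2] at this
    linarith
  have P3 : ∀ u ∈ Icc (0:ℝ) 1, 0 < q.1.2.1 / al - u * (q.1.2.2 / al) -
      be ^ 2 * ρ * (q.1.1 / (al * be ^ 2 * ρ)) := by
    intro u hu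
    have := (abs_lt.1 (N3 u hu)).1
    have e : (p0B A0 B0 x0 y0).2.2.2.2.1 - (p0B A0 B0 x0 y0).2.1 * (p0B A0 B0 x0 y0).2.2.1 *
        (p0B A0 B0 x0 y0).2.2.2.1.1 = x0.1 := by simp [p0B]
    rw [e] at this
    change -(x0.1 / 2) < q.1.2.1 / al - u * (q.1.2.2 / al) -
      be ^ 2 * ρ * (q.1.1 / (al * be ^ 2 * ρ)) - x0.1 at this
    linarith
  have P4 : ∀ u ∈ Icc (0:ℝ) 1, 0 < q.2.2.1 / be - u * (q.2.2.2 / be) -
      ρ * (q.2.1 / (be * ρ)) := by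
    intro u hu
    have := (abs_lt.1 (N4 u hu)).1
    have e : (p0B A0 B0 x0 y0).2.2.2.2.2 - (p0B A0 B0 x0 y0).2.2.1 *
        (p0B A0 B0 x0 y0).2.2.2.1.2 = x0.2 := by simp [p0B]
    rw [e] at this
    change -(x0.2 / 2) < q.2.2.1 / be - u * (q.2.2.2 / be) -
      ρ * (q.2.1 / (be * ρ)) - x0.2 at this
    linarith
  have P5 : ∀ u ∈ Icc (0:ℝ) 1, 0 < q.1.2.1 / al - u * (q.1.2.2 / al) := by
    intro u hu
    have z1 : |u * (q.1.2.2 / al)| ≤ δ := by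
      rw [abs_mul, abs_of_nonneg hu.1]
      exact (mul_le_of_le_one_left (abs_nonneg _) hu.2).trans n5
    have := (abs_le.1 z1).2
    have := (abs_le.1 n3).1
    linarith
  have P6 : ∀ u ∈ Icc (0:ℝ) 1, 0 < q.2.2.1 / be - u * (q.2.2.2 / be) := by
    intro u hu
    have z1 : |u * (q.2.2.2 / be)| ≤ δ := by
      rw [abs_mul, abs_of_nonneg hu.1]
      exact (mul_le_of_le_one_left (abs_nonneg _) hu.2).trans n6
    have := (abs_le.1 z1).2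
    have := (abs_le.1 n4).1
    linarith
  have P3' : ∀ u ∈ Icc (0:ℝ) 1, 0 < q.1.2.1 - u * q.1.2.2 - q.1.1 := by
    intro u hu
    have e : q.1.2.1 / al - u * (q.1.2.2 / al) - be ^ 2 * ρ * (q.1.1 / (al * be ^ 2 * ρ)) =
        (q.1.2.1 - u * q.1.2.2 - q.1.1) / al := by
      field_simp
    have := P3 u hu
    rw [e] at this
    exact (div_pos_iff_of_pos_right s1).1 this
  have hN : ∀ u ∈ Icc (0:ℝ) 1, nU be ρ q u = bN (pQ al be ρ q u) := by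
    intro u hu
    refine pQ_N s1 s3 hρ q u (P3' u hu) ?_
    have := P2 u hu
    have e : q.2.2.1 - u * q.2.2.2 - q.2.1 = q.2.2.1 - q.2.1 - u * q.2.2.2 := by ring
    rw [e]
    have h3 := sq_nonneg (q.1.2.1 - q.1.1 - u * q.1.2.2)
    have : 0 < c ^ 2 / 8 := by positivity
    linarith
  refine ⟨fun u hu => ?_, ?_⟩
  · rw [hN u hu, ← base_N (c := c) (A0 := A0) hb]
    exact (NN u hu).le
  · have hc8 : 0 < c ^ 2 / 8 := by positivity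
    obtain ⟨u, hu, hF⟩ := e_mvt q.1.2.1 q.2.2.1 q.1.1 q.2.1 q.1.2.2 q.2.2.2
      (fun u hu => hc8.trans_le (P1 u hu)) (fun u hu => hc8.trans_le (P2 u hu))
    have i0 : (0:ℝ) ∈ Icc (0:ℝ) 1 := ⟨le_rfl, zero_le_one⟩
    have i1 : (1:ℝ) ∈ Icc (0:ℝ) 1 := ⟨zero_le_one, le_rfl⟩
    have a1 := P1 0 i0
    have a2 := P2 0 i0
    have a3 := P1 1 i1
    have a4 := P2 1 i1
    simp only [zero_mul, one_mul, sub_zero] at a1 a2 a3 a4
    have hFr : Fr c q.1 q.2 = √(1 - q.1.2.1 ^ 2 - q.2.2.1 ^ 2) -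
        √(1 - (q.1.2.1 - q.1.1) ^ 2 - (q.2.2.1 - q.2.1) ^ 2) -
        √(1 - (q.1.2.1 - q.1.2.2) ^ 2 - (q.2.2.1 - q.2.2.2) ^ 2) +
        √(1 - (q.1.2.1 - q.1.1 - q.1.2.2) ^ 2 - (q.2.2.1 - q.2.1 - q.2.2.2) ^ 2) := by
      unfold Fr qf
      rw [e_Sq_eq hc a1, e_Sq_eq hc a2, e_Sq_eq hc a3, e_Sq_eq hc a4]
    refine ⟨u, hu, bL (pQ al be ρ q u), bM (pQ al be ρ q u), ?_, ?_, ?_, ?_, ?_⟩
    · have := (abs_lt.1 (NL u hu)).1
      refine (min_le_left _ _).trans ?_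
      linarith
    · have := (abs_lt.1 (NL u hu)).2
      linarith
    · have h1 := NM u hu
      have h2 := abs_sub_abs_le_abs_sub (bM (p0B A0 B0 x0 y0)) (bM (pQ al be ρ q u))
      rw [abs_sub_comm] at h2
      refine (min_le_right _ _).trans ?_
      linarith
    · have h1 := NM u hu
      have h2 := abs_sub_abs_le_abs_sub (bM (pQ al be ρ q u)) (bM (p0B A0 B0 x0 y0))
      linarith
    · have b1 : 0 < bq1 (pQ al be ρ q u) := by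
        rw [pQ_q1 s1 s3]
        exact hc8.trans_le (P1 u hu)
      have b2 : 0 < bq2 (pQ al be ρ q u) := by
        rw [pQ_q2 s1 s3 hρ]
        exact hc8.trans_le (P2 u hu)
      have E1 := e_first (al ^ 2) (be ^ 2) ρ (q.1.1 / (al * be ^ 2 * ρ)) (q.2.1 / (be * ρ))
        (q.1.2.1 / al - u * (q.1.2.2 / al)) (q.2.2.1 / be - u * (q.2.2.2 / be)) b1 b2 (P5 u hu)
        (P3 u hu) (by positivity)
      have E2 := e_second (al ^ 2) (be ^ 2) ρ (q.1.1 / (al * be ^ 2 * ρ)) (q.2.1 / (be * ρ))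
        (q.1.2.1 / al - u * (q.1.2.2 / al)) (q.2.2.1 / be - u * (q.2.2.2 / be)) b1 b2 (P6 u hu)
        (P4 u hu) (by positivity)
      change _ = bL (pQ al be ρ q u) * (be ^ 2 * ρ * bN (pQ al be ρ q u)) at E1
      change _ = ρ * bM (pQ al be ρ q u) at E2
      change _ / √(bq1 (pQ al be ρ q u)) - _ / √(bq2 (pQ al be ρ q u)) = _ at E1
      change _ / √(bq1 (pQ al be ρ q u)) - _ / √(bq2 (pQ al be ρ q u)) = _ at E2
      rw [pQ_q1 s1 s3, pQ_q2 s1 s3 hρ] at E1 E2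
      have g1 : q.1.2.1 / al - u * (q.1.2.2 / al) - be ^ 2 * ρ * (q.1.1 / (al * be ^ 2 * ρ)) =
          (q.1.2.1 - q.1.1 - u * q.1.2.2) / al := by
        field_simp
        ring
      have g2 : q.2.2.1 / be - u * (q.2.2.2 / be) - ρ * (q.2.1 / (be * ρ)) =
          (q.2.2.1 - q.2.1 - u * q.2.2.2) / be := by
        field_simp
        ring
      have g3 : q.1.2.1 / al - u * (q.1.2.2 / al) = (q.1.2.1 - u * q.1.2.2) / al := by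
        field_simp
      have g4 : q.2.2.1 / be - u * (q.2.2.2 / be) = (q.2.2.1 - u * q.2.2.2) / be := by
        field_simp
      rw [g1, g3] at E1
      rw [g2, g4] at E2
      rw [hFr, hF, hN u hu]
      have E1' : (q.1.2.1 - u * q.1.2.2) /
          √(1 - (q.1.2.1 - u * q.1.2.2) ^ 2 - (q.2.2.1 - u * q.2.2.2) ^ 2) -
          (q.1.2.1 - q.1.1 - u * q.1.2.2) /
          √(1 - (q.1.2.1 - q.1.1 - u * q.1.2.2) ^ 2 - (q.2.2.1 - q.2.1 - u * q.2.2.2) ^ 2) =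
          al * (bL (pQ al be ρ q u) * (be ^ 2 * ρ * bN (pQ al be ρ q u))) := by
        rw [← E1]
        field_simp
      have E2' : (q.2.2.1 - u * q.2.2.2) /
          √(1 - (q.1.2.1 - u * q.1.2.2) ^ 2 - (q.2.2.1 - u * q.2.2.2) ^ 2) -
          (q.2.2.1 - q.2.1 - u * q.2.2.2) /
          √(1 - (q.1.2.1 - q.1.1 - u * q.1.2.2) ^ 2 - (q.2.2.1 - q.2.1 - u * q.2.2.2) ^ 2) =
          be * (ρ * bM (pQ al be ρ q u)) := by
        rw [← E2]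
        field_simp
      rw [E1', E2']
      ring

end Pool.Agent.N1F
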