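import Pool.Agent.N1F.EE

/-!
N1F, block A4: variation of `n` along a segment; E_D0F, E_D2aF, E_D2bF.
-/

namespace Pool.Agent.N1F

open MeasureTheory Set Metric Pool.Agent.MP_6cbfb8_an Pool.Agent.MST Pool.Agent.N1
open scoped ENNReal Real ContDiff

theorem om_diff (r y a a' : ℝ) (h1 : a - r * y ≠ 0) (h2 : a' - r * y ≠ 0) :
    om r y a - om r y a' =
      -(y * (a - a') * (a / (a - r * y) + a' / (a' - r * y)) /
        ((a - r * y) * (a' - r * y))) := by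
  obtain ⟨d, hd⟩ : ∃ d : ℝ, d = a - r * y := ⟨_, rfl⟩
  obtain ⟨d', hd'⟩ : ∃ d : ℝ, d = a' - r * y := ⟨_, rfl⟩
  have e1 : a = d + r * y := by rw [hd]; ring
  have e2 : a' = d' + r * y := by rw [hd']; ring
  unfold om
  rw [← hd] at h1
  rw [← hd'] at h2
  rw [← hd, ← hd', e1, e2]
  field_simp
  ring

theorem sg_diff (r y b b' : ℝ) (h1 : 1 - (b - r * y) ^ 2 ≠ 0) (h2 : 1 - (b' - r * y) ^ 2 ≠ 0) :
    sg r y b - sg r y b' =
      -(y * (b - b') * (2 + 2 * b * b' - r * y * (b + b')) /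
        ((1 - (b - r * y) ^ 2) * (1 - (b' - r * y) ^ 2))) := by
  unfold sg
  rw [neg_sub_neg, div_sub_div _ _ h2 h1, ← neg_div,
    div_eq_div_iff (mul_ne_zero h2 h1) (mul_ne_zero h1 h2)]
  ring

theorem P_bounds {x y0 y s X X' Z Z' : ℝ} (hx : 0 < x) (hy : 0 < |y0|) (hs : s = 1 ∨ s = -1)
    (hs2 : s * y0 = |y0|) (Y1 : |y - y0| ≤ |y0| / 2) (a1 : |X - x| ≤ x / 4) (a2 : |Z - x| ≤ x / 4)
    (a3 : |X' - x| ≤ x / 4) (a4 : |Z' - x| ≤ x / 4) :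
    |y0| / (4 * x ^ 2) ≤ s * (y * (X / Z + X' / Z') / (Z * Z')) ∧
      s * (y * (X / Z + X' / Z') / (Z * Z')) ≤ |y0| * 9 / x ^ 2 := by
  have hsa : |s| = 1 := by rcases hs with h | h <;> rw [h] <;> simp
  obtain ⟨a1a, a1b⟩ := abs_le.1 a1
  obtain ⟨a2a, a2b⟩ := abs_le.1 a2
  obtain ⟨a3a, a3b⟩ := abs_le.1 a3
  obtain ⟨a4a, a4b⟩ := abs_le.1 a4
  have Zp : 0 < Z := by linarith
  have Zp' : 0 < Z' := by linarith
  have e : s * y = |y0| + s * (y - y0) := by rw [mul_sub, hs2]; ring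
  have e' : |s * (y - y0)| ≤ |y0| / 2 := by rw [abs_mul, hsa, one_mul]; exact Y1
  obtain ⟨e1, e2⟩ := abs_le.1 e'
  have q5 : s * (y * (X / Z + X' / Z') / (Z * Z')) = s * y * (X / Z + X' / Z') / (Z * Z') := by
    ring
  rw [q5]
  have q1 : |y0| / 2 ≤ s * y := by linarith
  have q1' : s * y ≤ 3 / 2 * |y0| := by linarith
  have q2 : 3 / 5 ≤ X / Z := by
    rw [le_div_iff₀ Zp]
    linarith
  have q3 : 3 / 5 ≤ X' / Z' := by
    rw [le_div_iff₀ Zp']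
    linarith
  have q2' : X / Z ≤ 5 / 3 := by
    rw [div_le_iff₀ Zp]
    linarith
  have q3' : X' / Z' ≤ 5 / 3 := by
    rw [div_le_iff₀ Zp']
    linarith
  generalize s * y = t at *
  generalize X / Z = r at *
  generalize X' / Z' = r' at *
  have q4 : Z * Z' ≤ 25 / 16 * x ^ 2 := by
    have := mul_le_mul (show Z ≤ 5 / 4 * x by linarith) (show Z' ≤ 5 / 4 * x by linarith)
      Zp'.le (by positivity)
    linarith [show 5 / 4 * x * (5 / 4 * x) = 25 / 16 * x ^ 2 by ring]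
  have q4' : 9 / 16 * x ^ 2 ≤ Z * Z' := by
    have := mul_le_mul (show 3 / 4 * x ≤ Z by linarith) (show 3 / 4 * x ≤ Z' by linarith)
      (by positivity) Zp.le
    linarith [show 3 / 4 * x * (3 / 4 * x) = 9 / 16 * x ^ 2 by ring]
  have hyx : 0 < |y0| * x ^ 2 := by positivity
  have hZZ : 0 < Z * Z' := mul_pos Zp Zp'
  constructor
  · rw [div_le_div_iff₀ (by positivity) hZZ]
    have q6 : |y0| / 2 * (6 / 5) ≤ t * (r + r') :=
      mul_le_mul q1 (by linarith) (by norm_num) (by linarith)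
    have q7 := mul_le_mul_of_nonneg_left q4 hy.le
    have q8 := mul_le_mul_of_nonneg_right q6 (show 0 ≤ 4 * x ^ 2 by positivity)
    linarith [show |y0| * (25 / 16 * x ^ 2) = 25 / 16 * (|y0| * x ^ 2) by ring,
      show |y0| / 2 * (6 / 5) * (4 * x ^ 2) = 12 / 5 * (|y0| * x ^ 2) by ring]
  · rw [div_le_div_iff₀ hZZ (by positivity)]
    have q6 : t * (r + r') ≤ 3 / 2 * |y0| * (5 / 3 + 5 / 3) :=
      mul_le_mul q1' (by linarith) (by linarith) (by positivity)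
    have q7 := mul_le_mul_of_nonneg_left q4' hy.le
    have q8 := mul_le_mul_of_nonneg_right q6 (show 0 ≤ x ^ 2 by positivity)
    linarith [show |y0| * (9 / 16 * x ^ 2) = 9 / 16 * (|y0| * x ^ 2) by ring,
      show 3 / 2 * |y0| * (5 / 3 + 5 / 3) * x ^ 2 = 5 * (|y0| * x ^ 2) by ring,
      show |y0| * 9 * (Z * Z') = 9 * (|y0| * (Z * Z')) by ring]

theorem R_bound {c t T y b b' : ℝ} (hc : 0 < c) (ht : |t| ≤ T) (w2 : |b| ≤ 1) (w2' : |b'| ≤ 1)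
    (w3 : |b - y| ≤ 1) (w1 : c ^ 2 / 8 ≤ 1 - (b - y) ^ 2) (w1' : c ^ 2 / 8 ≤ 1 - (b' - y) ^ 2) :
    |t * (2 + 2 * b * b' - y * (b + b')) / ((1 - (b - y) ^ 2) * (1 - (b' - y) ^ 2))| ≤
      512 * T / c ^ 4 := by
  have hT : 0 ≤ T := (abs_nonneg _).trans ht
  have hc8 : 0 < c ^ 2 / 8 := by positivity
  have t2 : |2 + 2 * b * b' - y * (b + b')| ≤ 8 := by
    obtain ⟨u1, u2⟩ := abs_le.1 w2
    obtain ⟨u3, u4⟩ := abs_le.1 w2'
    obtain ⟨u5, u6⟩ := abs_le.1 w3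
    have k1 : |b * b'| ≤ 1 := by
      rw [abs_mul]
      exact mul_le_one₀ w2 (abs_nonneg _) w2'
    have k2 : |y * (b + b')| ≤ 4 := by
      rw [abs_mul]
      have e1 : |y| ≤ 2 := by
        rw [abs_le]
        constructor <;> linarith
      have e2 : |b + b'| ≤ 2 := by
        rw [abs_le]
        constructor <;> linarith
      calc |y| * |b + b'| ≤ 2 * 2 := mul_le_mul e1 e2 (abs_nonneg _) (by norm_num)
        _ = 4 := by norm_num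
    obtain ⟨v1, v2⟩ := abs_le.1 k1
    obtain ⟨v3, v4⟩ := abs_le.1 k2
    have e : 2 + 2 * b * b' - y * (b + b') = 2 + 2 * (b * b') - y * (b + b') := by ring
    rw [e, abs_le]
    constructor <;> linarith
  have W1 : 0 < 1 - (b - y) ^ 2 := by linarith
  have W2 : 0 < 1 - (b' - y) ^ 2 := by linarith
  have t3 : (c ^ 2 / 8) * (c ^ 2 / 8) ≤ (1 - (b - y) ^ 2) * (1 - (b' - y) ^ 2) :=
    mul_le_mul w1 w1' hc8.le W1.le
  rw [abs_div, abs_mul, abs_of_pos (mul_pos W1 W2), div_le_div_iff₀ (mul_pos W1 W2)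
    (by positivity)]
  have t4 : |t| * |2 + 2 * b * b' - y * (b + b')| ≤ T * 8 :=
    mul_le_mul ht t2 (abs_nonneg _) hT
  have t5 := mul_le_mul_of_nonneg_right t4 (show 0 ≤ c ^ 4 by positivity)
  have t6 := mul_le_mul_of_nonneg_left t3 (show 0 ≤ 512 * T by positivity)
  linarith [show 512 * T * (c ^ 2 / 8 * (c ^ 2 / 8)) = T * 8 * c ^ 4 by ring]

theorem eF_diffA {c A0 B0 : ℝ} {x0 y0 : ℝ × ℝ} (hc : 0 < c) (hb : Bs c A0 B0 x0)
    (hy1 : y0.1 ≠ 0) : ∃ m C s : ℝ, 0 < m ∧ m ≤ C ∧ (s = 1 ∨ s = -1) ∧ s * y0.1 = |y0.1| ∧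
    ∃ δ : ℝ, 0 < δ ∧ δ ≤ 1 ∧ ∀ al be : ℝ, Sz al be A0 B0 δ → ∀ ρ : ℝ, 0 < ρ → ρ < δ →
    ∀ q : V × V, NbF al be δ ρ x0 y0 q → ∀ u ∈ Icc (0:ℝ) 1, ∀ v ∈ Icc (0:ℝ) 1,
    ∃ P R : ℝ, m ≤ s * P ∧ s * P ≤ C ∧ |R| ≤ C ∧
      nU be ρ q u - nU be ρ q v =
        (v - u) * (-(P * (q.1.2.2 / al)) + R * (q.2.2.2 / be)) := by
  have hx1 := hb.2.2.2.1
  have hx2 := hb.2.2.2.2.1
  have hy : 0 < |y0.1| := abs_pos.2 hy1
  obtain ⟨d, hd, hd1, H⟩ := eF_base (y0 := y0) hc hb zero_lt_one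
  obtain ⟨s, hs1, hs2⟩ : ∃ s : ℝ, (s = 1 ∨ s = -1) ∧ s * y0.1 = |y0.1| := by
    rcases le_or_gt 0 y0.1 with h | h
    · exact ⟨1, Or.inl rfl, by rw [abs_of_nonneg h, one_mul]⟩
    · exact ⟨-1, Or.inr rfl, by rw [abs_of_neg h]; ring⟩
  have hsa : |s| = 1 := by rcases hs1 with h | h <;> rw [h] <;> simp
  refine ⟨|y0.1| / (4 * x0.1 ^ 2), |y0.1| * 9 / x0.1 ^ 2 + 512 * (|y0.2| + 1) / c ^ 4, s,
    by positivity, ?_, hs1, hs2, min d (|y0.1| / 2), by positivity, (min_le_left _ _).trans hd1,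
    fun al be hs ρ hρ hρδ q hq u hu v hv => ?_⟩
  · have e1 : |y0.1| / (4 * x0.1 ^ 2) ≤ |y0.1| * 9 / x0.1 ^ 2 := by
      rw [div_le_div_iff₀ (by positivity) (by positivity)]
      nlinarith [mul_pos hy (pow_pos hx1 2)]
    have e2 : 0 ≤ 512 * (|y0.2| + 1) / c ^ 4 := by positivity
    linarith
  have m1 : min d (|y0.1| / 2) ≤ d := min_le_left _ _
  have m2 : min d (|y0.1| / 2) ≤ |y0.1| / 2 := min_le_right _ _
  have K := H al be (Sz_mono m1 hs) ρ hρ (hρδ.trans_le m1) q (NbF_mono m1 hq)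
  obtain ⟨-, a1, a2, b1, b2, p1, p2⟩ := K u hu
  obtain ⟨-, a1', a2', b1', b2', p1', p2'⟩ := K v hv
  have s1 := hs.1
  have s3 := hs.2.2.1
  obtain ⟨r, hr⟩ : ∃ r : ℝ, r = be ^ 2 * ρ := ⟨_, rfl⟩
  have hr0 : 0 < r := by
    rw [hr]
    positivity
  have Y1 : |q.1.1 / (al * r) - y0.1| ≤ |y0.1| / 2 := by
    have := hq.1.trans m2
    rwa [mul_assoc, ← hr] at this
  have Y2 : |q.2.1 / (be * ρ) - y0.2| ≤ 1 := (hq.2.1.trans m1).trans hd1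
  have er : r * (q.1.1 / r) = q.1.1 := by field_simp
  have er' : r * (q.2.1 / r) = q.2.1 := by field_simp
  have hc8 : 0 < c ^ 2 / 8 := by positivity
  -- scaled quantities
  obtain ⟨X, hX⟩ : ∃ X : ℝ, X = (q.1.2.1 - u * q.1.2.2) / al := ⟨_, rfl⟩
  obtain ⟨X', hX'⟩ : ∃ X : ℝ, X = (q.1.2.1 - v * q.1.2.2) / al := ⟨_, rfl⟩
  obtain ⟨Z, hZ⟩ : ∃ X : ℝ, X = (q.1.2.1 - u * q.1.2.2 - q.1.1) / al := ⟨_, rfl⟩
  obtain ⟨Z', hZ'⟩ : ∃ X : ℝ, X = (q.1.2.1 - v * q.1.2.2 - q.1.1) / al := ⟨_, rfl⟩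
  rw [← hX] at a1
  rw [← hZ] at a2
  rw [← hX'] at a1'
  rw [← hZ'] at a2'
  obtain ⟨a1a, a1b⟩ := abs_le.1 a1
  obtain ⟨a2a, a2b⟩ := abs_le.1 a2
  obtain ⟨a1'a, a1'b⟩ := abs_le.1 a1'
  obtain ⟨a2'a, a2'b⟩ := abs_le.1 a2'
  have Zp : 0 < Z := by linarith
  have Zp' : 0 < Z' := by linarith
  have eX : q.1.2.1 - u * q.1.2.2 = al * X := by rw [hX]; field_simp
  have eX' : q.1.2.1 - v * q.1.2.2 = al * X' := by rw [hX']; field_simp
  have eZ : q.1.2.1 - u * q.1.2.2 - q.1.1 = al * Z := by rw [hZ]; field_simp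
  have eZ' : q.1.2.1 - v * q.1.2.2 - q.1.1 = al * Z' := by rw [hZ']; field_simp
  obtain ⟨b, hbb⟩ : ∃ b : ℝ, b = q.2.2.1 - u * q.2.2.2 := ⟨_, rfl⟩
  obtain ⟨b', hbb'⟩ : ∃ b : ℝ, b = q.2.2.1 - v * q.2.2.2 := ⟨_, rfl⟩
  rw [← hbb] at p1 p2
  rw [← hbb'] at p1' p2'
  have w1 : c ^ 2 / 8 ≤ 1 - (b - q.2.1) ^ 2 := by
    linarith [sq_nonneg (q.1.2.1 - u * q.1.2.2 - q.1.1)]
  have w1' : c ^ 2 / 8 ≤ 1 - (b' - q.2.1) ^ 2 := by
    linarith [sq_nonneg (q.1.2.1 - v * q.1.2.2 - q.1.1)]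
  have w2 : |b| ≤ 1 := by
    rw [← sq_le_one_iff_abs_le_one]
    linarith [sq_nonneg (q.1.2.1 - u * q.1.2.2)]
  have w2' : |b'| ≤ 1 := by
    rw [← sq_le_one_iff_abs_le_one]
    linarith [sq_nonneg (q.1.2.1 - v * q.1.2.2)]
  have w3 : |b - q.2.1| ≤ 1 := by
    rw [← sq_le_one_iff_abs_le_one]
    linarith
  have D1 := om_diff r (q.1.1 / r) (q.1.2.1 - u * q.1.2.2) (q.1.2.1 - v * q.1.2.2)
    (by rw [er, eZ]; positivity) (by rw [er, eZ']; positivity)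
  have D2 := sg_diff r (q.2.1 / r) b b' (by rw [er']; linarith) (by rw [er']; linarith)
  rw [er, eZ, eZ', eX, eX'] at D1
  rw [er'] at D2
  have hdz : al * X - al * X' = (v - u) * q.1.2.2 := by
    rw [← eX, ← eX']
    ring
  have hdb : b - b' = (v - u) * q.2.2.2 := by
    rw [hbb, hbb']
    ring
  obtain ⟨y, hyy⟩ : ∃ y : ℝ, y = q.1.1 / (al * r) := ⟨_, rfl⟩
  rw [← hyy] at Y1
  have ey : q.1.1 / r = al * y := by
    rw [hyy]
    field_simp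
  obtain ⟨t, htt⟩ : ∃ t : ℝ, t = q.2.1 / (be * ρ) := ⟨_, rfl⟩
  rw [← htt] at Y2
  have et : q.2.1 / r = t / be := by
    rw [htt, hr]
    field_simp
  refine ⟨y * (X / Z + X' / Z') / (Z * Z'),
    t * (2 + 2 * b * b' - q.2.1 * (b + b')) / ((1 - (b - q.2.1) ^ 2) * (1 - (b' - q.2.1) ^ 2)),
    ?_, ?_, ?_, ?_⟩
  · have := (P_bounds hx1 hy hs1 hs2 Y1 a1 a2 a1' a2').1
    exact this
  · have := (P_bounds hx1 hy hs1 hs2 Y1 a1 a2 a1' a2').2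
    have : 0 ≤ 512 * (|y0.2| + 1) / c ^ 4 := by positivity
    linarith
  · have t1 : |t| ≤ |y0.2| + 1 := by
      have := abs_sub_abs_le_abs_sub t y0.2
      linarith
    have := R_bound hc t1 w2 w2' w3 w1 w1'
    have : 0 ≤ |y0.1| * 9 / x0.1 ^ 2 := by positivity
    linarith
  · have hn : nU be ρ q u - nU be ρ q v =
        (om r (q.1.1 / r) (al * X) - om r (q.1.1 / r) (al * X')) -
          (sg r (q.2.1 / r) b - sg r (q.2.1 / r) b') := by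
      unfold nU Nf
      dsimp only
      rw [← hr, eX, eX', ← hbb, ← hbb']
      ring
    rw [hn, D1, D2, hdz, hdb, ey, et]
    have Zn := Zp.ne'
    have Zn' := Zp'.ne'
    have c1 : al * X / (al * Z) = X / Z := by field_simp
    have c2 : al * X' / (al * Z') = X' / Z' := by field_simp
    rw [c1, c2]
    field_simp
    ring

end Pool.Agent.N1F
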