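import Pool.Agent.N1F.EF

/-!
N1F, block A4: E_D0F.
-/

namespace Pool.Agent.N1F

open MeasureTheory Set Metric Pool.Agent.MP_6cbfb8_an Pool.Agent.MST Pool.Agent.N1
open scoped ENNReal Real ContDiff

/-- In case (D) the first component of the base direction does not vanish. -/
theorem nb_y1 {c A0 B0 : ℝ} {x0 y0 : ℝ × ℝ} (hc : 0 < c) (hb : Bs c A0 B0 x0)
    (hy2 : y0.2 ≠ 0) (h1 : nb B0 x0 y0 = 0) : y0.1 ≠ 0 := by
  intro h
  have hq := base_pos hc hb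
  obtain ⟨k1, k2, k3, k4, k5, k6⟩ := hb
  have hA : 0 ≤ A0 * x0.1 ^ 2 := by positivity
  have hc2 : 0 < c ^ 2 := by positivity
  have hw : 0 < 1 - B0 * x0.2 ^ 2 := by linarith
  unfold nb at h1
  rw [h, mul_zero, zero_div, zero_add] at h1
  have : 2 * y0.2 * x0.2 / (1 - B0 * x0.2 ^ 2) ≠ 0 :=
    div_ne_zero (mul_ne_zero (mul_ne_zero two_ne_zero hy2) k5.ne') hw.ne'
  exact this h1

/-- R0. -/
theorem E_D0F (c : ℝ) (hc : 0 < c) (A0 B0 : ℝ) (x0 y0 : ℝ × ℝ) (hb : Bs c A0 B0 x0)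
    (hy2 : y0.2 ≠ 0) (h1 : nb B0 x0 y0 = 0) :
    ∃ δ θ C5 : ℝ, 0 < δ ∧ 0 < θ ∧ 0 < C5 ∧ ∀ al be : ℝ, Sz al be A0 B0 δ → ∀ ρ : ℝ, 0 < ρ →
    ρ < δ → ∀ κ : ℝ, 0 < κ → ∀ q : V × V, NbF al be δ ρ x0 y0 q →
    be * |q.2.2.2| ≤ θ * (al * be ^ 2 * |q.1.2.2|) → |Nx (be ^ 2 * ρ) q| ≤ 2 * κ →
    |Nz (be ^ 2 * ρ) q| ≤ 2 * κ → |q.1.2.2| ≤ C5 * κ * al := by
  obtain ⟨m, C, s, hm, hmC, hs, -, δ, hδ, -, H⟩ := eF_diffA (y0 := y0) hc hb (nb_y1 hc hb hy2 h1)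
  have hC : 0 < C := hm.trans_le hmC
  refine ⟨δ, m / (2 * C), 8 / m, hδ, by positivity, by positivity,
    fun al be hsz ρ hρ hρδ κ hκ q hq h2 h3 h4 => ?_⟩
  obtain ⟨P, R, g1, g2, g3, g4⟩ := H al be hsz ρ hρ hρδ q hq 0 ⟨le_rfl, zero_le_one⟩ 1
    ⟨zero_le_one, le_rfl⟩
  have s1 := hsz.1
  have s2 := hsz.2.1
  have s3 := hsz.2.2.1
  rw [nU_zero, nU_one, sub_zero, one_mul] at g4
  have hP : m ≤ |P| := by
    have hsa : |s| = 1 := by rcases hs with h | h <;> rw [h] <;> simp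
    calc m ≤ s * P := g1
      _ ≤ |s * P| := le_abs_self _
      _ = |P| := by rw [abs_mul, hsa, one_mul]
  obtain ⟨z, hz⟩ : ∃ z : ℝ, z = |q.1.2.2| / al := ⟨_, rfl⟩
  have hz0 : 0 ≤ z := by
    rw [hz]
    positivity
  have hz1 : |q.1.2.2 / al| = z := by rw [hz, abs_div, abs_of_pos s1]
  have hw : |q.2.2.2 / be| ≤ m / (2 * C) * z := by
    rw [abs_div, abs_of_pos s3, div_le_iff₀ s3]
    have e1 : be * |q.2.2.2| ≤ be * (m / (2 * C) * (al * be * |q.1.2.2|)) := by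
      calc _ ≤ _ := h2
        _ = _ := by ring
    have e2 := le_of_mul_le_mul_left e1 s3
    refine e2.trans ?_
    have e3 : al * |q.1.2.2| ≤ z := by
      rw [hz, le_div_iff₀ s1]
      have e4 : al * al ≤ 1 := mul_le_one₀ s2 s1.le s2
      calc al * |q.1.2.2| * al = al * al * |q.1.2.2| := by ring
        _ ≤ 1 * |q.1.2.2| := mul_le_mul_of_nonneg_right e4 (abs_nonneg _)
        _ = |q.1.2.2| := one_mul _
    calc m / (2 * C) * (al * be * |q.1.2.2|) = m / (2 * C) * (al * |q.1.2.2|) * be := by ring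
      _ ≤ m / (2 * C) * z * be := by
          refine mul_le_mul_of_nonneg_right ?_ s3.le
          exact mul_le_mul_of_nonneg_left e3 (by positivity)
  have k1 : |P * (q.1.2.2 / al)| ≤ 4 * κ + |R * (q.2.2.2 / be)| := by
    have e1 : P * (q.1.2.2 / al) = R * (q.2.2.2 / be) -
        (Nx (be ^ 2 * ρ) q - Nz (be ^ 2 * ρ) q) := by
      rw [g4]
      ring
    rw [e1]
    have e2 := abs_sub (R * (q.2.2.2 / be)) (Nx (be ^ 2 * ρ) q - Nz (be ^ 2 * ρ) q)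
    have e3 := abs_sub (Nx (be ^ 2 * ρ) q) (Nz (be ^ 2 * ρ) q)
    linarith
  have k2 : |R * (q.2.2.2 / be)| ≤ m / 2 * z := by
    rw [abs_mul]
    calc |R| * |q.2.2.2 / be| ≤ C * (m / (2 * C) * z) :=
          mul_le_mul g3 hw (abs_nonneg _) hC.le
      _ = m / 2 * z := by field_simp
  have k3 : m * z ≤ |P * (q.1.2.2 / al)| := by
    rw [abs_mul, hz1]
    exact mul_le_mul_of_nonneg_right hP hz0
  have k4 : m / 2 * z ≤ 4 * κ := by linarith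
  have k5 : z ≤ 8 / m * κ := by
    rw [div_mul_eq_mul_div, le_div_iff₀ hm]
    linarith
  rw [hz, div_le_iff₀ s1] at k5
  exact k5

end Pool.Agent.N1F
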