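import Pool.Agent.N1F.EG

/-!
N1F, block A4: the two key lemmas in the form used for E_D2aF, E_D2bF.
-/

namespace Pool.Agent.N1F

open MeasureTheory Set Metric Pool.Agent.MP_6cbfb8_an Pool.Agent.MST Pool.Agent.N1

theorem eF_key (c : ℝ) (hc : 0 < c) (A0 B0 : ℝ) (x0 y0 : ℝ × ℝ) (hb : Bs c A0 B0 x0)
    (hy2 : y0.2 ≠ 0) : ∃ l Λ : ℝ, 0 < l ∧ l ≤ Λ ∧ ∀ ε : ℝ, 0 < ε → ∃ δ : ℝ, 0 < δ ∧ δ ≤ 1 ∧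
    ∀ al be : ℝ, Sz al be A0 B0 δ → ∀ ρ : ℝ, 0 < ρ → ρ < δ → ∀ q : V × V,
    NbF al be δ ρ x0 y0 q → ∃ u ∈ Icc (0:ℝ) 1, ∃ L M : ℝ, l ≤ L ∧ L ≤ Λ ∧ l ≤ |M| ∧ |M| ≤ Λ ∧
      |nU be ρ q u - nb B0 x0 y0| ≤ ε ∧
      Fr c q.1 q.2 = -(ρ * (L * nU be ρ q u * (al * be ^ 2 * q.1.2.2) + M * (be * q.2.2.2))) := by
  obtain ⟨l, Λ, h1, h2, H⟩ := eF_keyA hc hb hy2
  refine ⟨l, Λ, h1, h2, fun ε hε => ?_⟩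
  obtain ⟨δ, h3, h4, H⟩ := H ε hε
  refine ⟨δ, h3, h4, fun al be hs ρ hρ hρδ q hq => ?_⟩
  obtain ⟨g1, u, hu, L, M, g2, g3, g4, g5, g6⟩ := H al be hs ρ hρ hρδ q hq
  exact ⟨u, hu, L, M, g2, g3, g4, g5, g1 u hu, g6⟩

theorem eF_diff (c : ℝ) (hc : 0 < c) (A0 B0 : ℝ) (x0 y0 : ℝ × ℝ) (hb : Bs c A0 B0 x0)
    (hy1 : y0.1 ≠ 0) : ∃ m C : ℝ, 0 < m ∧ m ≤ C ∧ ∃ δ : ℝ, 0 < δ ∧ δ ≤ 1 ∧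
    ∀ al be : ℝ, Sz al be A0 B0 δ → ∀ ρ : ℝ, 0 < ρ → ρ < δ → ∀ q : V × V,
    NbF al be δ ρ x0 y0 q → ∀ u ∈ Icc (0:ℝ) 1, ∀ v ∈ Icc (0:ℝ) 1, ∃ P R : ℝ,
      m ≤ SignType.sign y0.1 * P ∧ SignType.sign y0.1 * P ≤ C ∧ |R| ≤ C ∧
      nU be ρ q u - nU be ρ q v = (v - u) * (-(P * (q.1.2.2 / al)) + R * (q.2.2.2 / be)) := by
  obtain ⟨m, C, s, h1, h2, -, hs, δ, h3, h4, H⟩ := eF_diffA hc hb hy1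
  have hs' : ((SignType.sign y0.1 : SignType) : ℝ) = s := by
    have h5 : ((SignType.sign y0.1 : SignType) : ℝ) * y0.1 = s * y0.1 := by
      rw [hs]
      exact sign_mul_self y0.1
    exact mul_right_cancel₀ hy1 h5
  refine ⟨m, C, h1, h2, δ, h3, h4, fun al be hsz ρ hρ hρδ q hq u hu v hv => ?_⟩
  rw [hs']
  exact H al be hsz ρ hρ hρδ q hq u hu v hv

end Pool.Agent.N1F
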