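import Pool.Agent.N1F.Defs

/-!
N1F, block G2: from points to compact sets in the inner scaled variable (outer difference of
type N).
-/

namespace Pool.Agent.N1F

open MeasureTheory Set Metric Pool.Agent.MP_6cbfb8_an Pool.Agent.MST Pool.Agent.N1
open scoped ENNReal Real ContDiff

lemma g2f_Sz_mono {al be A0 B0 δ δ' : ℝ} (h : δ ≤ δ') (hs : Sz al be A0 B0 δ) :
    Sz al be A0 B0 δ' :=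
  ⟨hs.1, hs.2.1, hs.2.2.1, hs.2.2.2.1, hs.2.2.2.2.1.trans_le h, hs.2.2.2.2.2.trans_le h⟩

lemma g2f_LB_mono {sy sx sz y x z δ δ' : ℝ} {u : V} (h : δ ≤ δ') (hs : LB sy sx sz y x z δ u) :
    LB sy sx sz y x z δ' u :=
  ⟨hs.1.trans h, hs.2.1.trans h, hs.2.2.trans h⟩

lemma g2f_LB_shift {sy sx sz y x z z' δ : ℝ} {u : V} (hδ : 0 < δ) (hz : |z' - z| ≤ δ / 2)
    (hs : LB sy sx sz y x z' (δ / 2) u) : LB sy sx sz y x z δ u := by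
  refine ⟨hs.1.trans (by linarith), hs.2.1.trans (by linarith), ?_⟩
  have h4 := abs_sub_le (u.2.2 / sz) z' z
  have h5 := hs.2.2
  linarith

/-- The general form: `sz₁`, `sz₂` are the scales of the inner variables; `Adm δ p` are the
conditions on the parameters `p`. -/
theorem g2f_compact (c : ℝ) (hc : 0 < c) {P : Type*} (Adm : ℝ → P → Prop)
    (hAdm : ∀ δ δ' p, δ' ≤ δ → Adm δ' p → Adm δ p) (sy₁ sx₁ sz₁ sy₂ sx₂ sz₂ : P → ℝ)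
    (x0 y0 : ℝ × ℝ) (C7 : ℝ) (hC7 : 1 ≤ C7)
    (hloc : ∀ z0 : ℝ × ℝ, z0.1 ≠ 0 → z0.2 ≠ 0 →
      ∃ δ : ℝ, 0 < δ ∧ ∃ C : ℝ, 0 ≤ C ∧ ∀ (T : ℝ) (p : P), 0 < T → Adm δ p →
      ∀ A B : V → ℂ, Measurable A → Measurable B → (∀ a, ‖A a‖ ≤ 1) → (∀ b, ‖B b‖ ≤ 1) →
      (∀ u, A u ≠ 0 → LB (sy₁ p) (sx₁ p) (sz₁ p) y0.1 x0.1 z0.1 δ u) →
      (∀ v, B v ≠ 0 → LB (sy₂ p) (sx₂ p) (sz₂ p) y0.2 x0.2 z0.2 δ v) →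
      ‖FF c T (tp A B)‖ ≤ C / T) :
    ∃ δ : ℝ, 0 < δ ∧ ∃ C : ℝ, 0 ≤ C ∧ ∀ (T : ℝ) (p : P), 0 < T → Adm δ p →
      ∀ A B : V → ℂ, Measurable A → Measurable B → (∀ a, ‖A a‖ ≤ 1) → (∀ b, ‖B b‖ ≤ 1) →
      (∀ u, A u ≠ 0 → |u.1 / sy₁ p - y0.1| ≤ δ ∧ |u.2.1 / sx₁ p - x0.1| ≤ δ ∧
        1 / C7 ≤ |u.2.2 / sz₁ p| ∧ |u.2.2 / sz₁ p| ≤ C7) →
      (∀ v, B v ≠ 0 → |v.1 / sy₂ p - y0.2| ≤ δ ∧ |v.2.1 / sx₂ p - x0.2| ≤ δ ∧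
        1 / C7 ≤ |v.2.2 / sz₂ p| ∧ |v.2.2 / sz₂ p| ≤ C7) →
      ‖FF c T (tp A B)‖ ≤ C / T := by
  have hC7' : 0 < C7 := by linarith
  have key : ∃ δ : ℝ, 0 < δ ∧ ∃ C : ℝ, 0 ≤ C ∧ ∀ z0 ∈ g2_Z C7, ∀ (T : ℝ) (p : P), 0 < T →
      Adm δ p →
      ∀ A B : V → ℂ, Measurable A → Measurable B → (∀ a, ‖A a‖ ≤ 1) → (∀ b, ‖B b‖ ≤ 1) →
      (∀ u, A u ≠ 0 → LB (sy₁ p) (sx₁ p) (sz₁ p) y0.1 x0.1 z0.1 δ u) →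
      (∀ v, B v ≠ 0 → LB (sy₂ p) (sx₂ p) (sz₂ p) y0.2 x0.2 z0.2 δ v) →
      ‖FF c T (tp A B)‖ ≤ C / T := by
    refine g2_unif (g2_Z_compact C7) (fun z0 δ C => ∀ (T : ℝ) (p : P), 0 < T → Adm δ p →
      ∀ A B : V → ℂ, Measurable A → Measurable B → (∀ a, ‖A a‖ ≤ 1) → (∀ b, ‖B b‖ ≤ 1) →
      (∀ u, A u ≠ 0 → LB (sy₁ p) (sx₁ p) (sz₁ p) y0.1 x0.1 z0.1 δ u) →
      (∀ v, B v ≠ 0 → LB (sy₂ p) (sx₂ p) (sz₂ p) y0.2 x0.2 z0.2 δ v) →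
      ‖FF c T (tp A B)‖ ≤ C / T) ?_ ?_ ?_
    · intro z0 δ δ' C C' hδ' hδδ hCC h T p hT hp A B hA hB hA1 hB1 hAs hBs
      refine (h T p hT (hAdm _ _ p hδδ hp) A B hA hB hA1 hB1
        (fun u hu => g2f_LB_mono hδδ (hAs u hu)) (fun v hv => g2f_LB_mono hδδ (hBs v hv))).trans ?_
      gcongr
    · rintro z0 ⟨⟨h1, -⟩, h2, -⟩
      have h3 : 0 < 1 / C7 := by positivity
      exact hloc z0 (abs_pos.1 (h3.trans_le h1)) (abs_pos.1 (h3.trans_le h2))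
    · intro z0 z0' δ C hδ hd h T p hT hp A B hA hB hA1 hB1 hAs hBs
      rw [Prod.dist_eq, max_le_iff, Real.dist_eq, Real.dist_eq] at hd
      exact h T p hT (hAdm _ _ p (by linarith) hp) A B hA hB hA1 hB1
        (fun u hu => g2f_LB_shift hδ hd.1 (hAs u hu)) (fun v hv => g2f_LB_shift hδ hd.2 (hBs v hv))
  obtain ⟨δ, hδ, C, hC, h⟩ := key
  refine ⟨δ, hδ, ((⌊2 * C7 / δ⌋₊ + 1 : ℕ) : ℝ) ^ 2 * C, by positivity, ?_⟩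
  intro T p hT hp A B hA hB hA1 hB1 hAs hBs
  rw [mul_div_assoc]
  refine g2_split c hc T hT A B hA hB hA1 hB1 (fun u => u.2.2 / sz₁ p) (fun v => v.2.2 / sz₂ p)
    (by fun_prop) (by fun_prop) C7 δ (C / T) hδ (by positivity) (fun u hu => (hAs u hu).2.2.2)
    (fun v hv => (hBs v hv).2.2.2) ?_
  intro A' B' hA' hB' hA1' hB1' u0 v0 hu0 hv0 hAs' hBs'
  refine h (u0.2.2 / sz₁ p, v0.2.2 / sz₂ p) ⟨(hAs u0 hu0).2.2, (hBs v0 hv0).2.2⟩ T p hT hp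
    A' B' hA' hB' hA1' hB1' ?_ ?_
  · intro u hu
    have h1 := hAs' u hu
    have h2 := hAs u h1.1
    exact ⟨h2.1, h2.2.1, h1.2⟩
  · intro v hv
    have h1 := hBs' v hv
    have h2 := hBs v h1.1
    exact ⟨h2.1, h2.2.1, h1.2⟩

/-- `propNF2` from `propNF`. -/
theorem propNF2_of (c : ℝ) (hc : 0 < c) (A0 B0 : ℝ) (x0 y0 : ℝ × ℝ) (C7 : ℝ) (hC7 : 1 ≤ C7)
    (hloc : ∀ z0 : ℝ × ℝ, z0.1 ≠ 0 → z0.2 ≠ 0 →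
      ∃ δ : ℝ, 0 < δ ∧ ∃ C : ℝ, 0 ≤ C ∧ ∀ T al be ρ γ : ℝ, 0 < T → Sz al be A0 B0 δ →
      0 < ρ → ρ < δ → 0 < γ → γ < δ →
      ∀ A B : V → ℂ, Measurable A → Measurable B → (∀ a, ‖A a‖ ≤ 1) → (∀ b, ‖B b‖ ≤ 1) →
      (∀ u, A u ≠ 0 → LB (al * be ^ 2 * ρ) al (al * γ) y0.1 x0.1 z0.1 δ u) →
      (∀ v, B v ≠ 0 → LB (be * ρ) be (be * al ^ 2 * γ) y0.2 x0.2 z0.2 δ v) →
      ‖FF c T (tp A B)‖ ≤ C / T) :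
    ∃ δ : ℝ, 0 < δ ∧ ∃ C : ℝ, 0 ≤ C ∧ ∀ T al be ρ γ : ℝ, 0 < T → Sz al be A0 B0 δ →
      0 < ρ → ρ < δ → 0 < γ → γ < δ →
      ∀ A B : V → ℂ, Measurable A → Measurable B → (∀ a, ‖A a‖ ≤ 1) → (∀ b, ‖B b‖ ≤ 1) →
      (∀ u, A u ≠ 0 → |u.1 / (al * be ^ 2 * ρ) - y0.1| ≤ δ ∧ |u.2.1 / al - x0.1| ≤ δ ∧
        1 / C7 ≤ |u.2.2 / (al * γ)| ∧ |u.2.2 / (al * γ)| ≤ C7) →
      (∀ v, B v ≠ 0 → |v.1 / (be * ρ) - y0.2| ≤ δ ∧ |v.2.1 / be - x0.2| ≤ δ ∧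
        1 / C7 ≤ |v.2.2 / (be * al ^ 2 * γ)| ∧ |v.2.2 / (be * al ^ 2 * γ)| ≤ C7) →
      ‖FF c T (tp A B)‖ ≤ C / T := by
  obtain ⟨δ, hδ, C, hC, h⟩ := g2f_compact c hc (P := ℝ × ℝ × ℝ × ℝ)
    (fun δ p => Sz p.1 p.2.1 A0 B0 δ ∧ (0 < p.2.2.1 ∧ p.2.2.1 < δ) ∧ (0 < p.2.2.2 ∧ p.2.2.2 < δ))
    (fun δ δ' p hδ h => ⟨g2f_Sz_mono hδ h.1, ⟨h.2.1.1, h.2.1.2.trans_le hδ⟩,
      ⟨h.2.2.1, h.2.2.2.trans_le hδ⟩⟩)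
    (fun p => p.1 * p.2.1 ^ 2 * p.2.2.1) (fun p => p.1) (fun p => p.1 * p.2.2.2)
    (fun p => p.2.1 * p.2.2.1) (fun p => p.2.1) (fun p => p.2.1 * p.1 ^ 2 * p.2.2.2)
    x0 y0 C7 hC7 (by
      intro z0 hz1 hz2
      obtain ⟨δ, hδ, C, hC, h⟩ := hloc z0 hz1 hz2
      refine ⟨δ, hδ, C, hC, ?_⟩
      rintro T ⟨al, be, ρ, γ⟩ hT ⟨hS, ⟨hρ, hρδ⟩, hγ, hγδ⟩ A B hA hB hA1 hB1 hAs hBs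
      exact h T al be ρ γ hT hS hρ hρδ hγ hγδ A B hA hB hA1 hB1 hAs hBs)
  refine ⟨δ, hδ, C, hC, ?_⟩
  intro T al be ρ γ hT hS hρ hρδ hγ hγδ A B hA hB hA1 hB1 hAs hBs
  exact h T (al, be, ρ, γ) hT ⟨hS, ⟨hρ, hρδ⟩, hγ, hγδ⟩ A B hA hB hA1 hB1 hAs hBs

/-- `propDF2` from `propDF`. -/
theorem propDF2_of (c : ℝ) (hc : 0 < c) (A0 B0 : ℝ) (x0 y0 : ℝ × ℝ) (C5 C7 : ℝ) (hC7 : 1 ≤ C7)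
    (hloc : ∀ z0 : ℝ × ℝ, z0.1 ≠ 0 → z0.2 ≠ 0 →
      ∃ δ : ℝ, 0 < δ ∧ ∃ C : ℝ, 0 ≤ C ∧ ∀ T al be ρ γ κ : ℝ, 0 < T → Sz al be A0 B0 δ →
      0 < ρ → ρ < δ → 0 < γ → γ < δ → 0 < κ → κ < δ → γ ≤ C5 * κ →
      ∀ A B : V → ℂ, Measurable A → Measurable B → (∀ a, ‖A a‖ ≤ 1) → (∀ b, ‖B b‖ ≤ 1) →
      (∀ u, A u ≠ 0 → LB (al * be ^ 2 * ρ) al (al * γ) y0.1 x0.1 z0.1 δ u) →
      (∀ v, B v ≠ 0 → LB (be * ρ) be (be * al ^ 2 * κ * γ) y0.2 x0.2 z0.2 δ v) →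
      ‖FF c T (tp A B)‖ ≤ C / T) :
    ∃ δ : ℝ, 0 < δ ∧ ∃ C : ℝ, 0 ≤ C ∧ ∀ T al be ρ γ κ : ℝ, 0 < T → Sz al be A0 B0 δ →
      0 < ρ → ρ < δ → 0 < γ → γ < δ → 0 < κ → κ < δ → γ ≤ C5 * κ →
      ∀ A B : V → ℂ, Measurable A → Measurable B → (∀ a, ‖A a‖ ≤ 1) → (∀ b, ‖B b‖ ≤ 1) →
      (∀ u, A u ≠ 0 → |u.1 / (al * be ^ 2 * ρ) - y0.1| ≤ δ ∧ |u.2.1 / al - x0.1| ≤ δ ∧
        1 / C7 ≤ |u.2.2 / (al * γ)| ∧ |u.2.2 / (al * γ)| ≤ C7) →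
      (∀ v, B v ≠ 0 → |v.1 / (be * ρ) - y0.2| ≤ δ ∧ |v.2.1 / be - x0.2| ≤ δ ∧
        1 / C7 ≤ |v.2.2 / (be * al ^ 2 * κ * γ)| ∧ |v.2.2 / (be * al ^ 2 * κ * γ)| ≤ C7) →
      ‖FF c T (tp A B)‖ ≤ C / T := by
  obtain ⟨δ, hδ, C, hC, h⟩ := g2f_compact c hc (P := ℝ × ℝ × ℝ × ℝ × ℝ)
    (fun δ p => Sz p.1 p.2.1 A0 B0 δ ∧ (0 < p.2.2.1 ∧ p.2.2.1 < δ) ∧
      (0 < p.2.2.2.1 ∧ p.2.2.2.1 < δ) ∧ (0 < p.2.2.2.2 ∧ p.2.2.2.2 < δ) ∧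
      p.2.2.2.1 ≤ C5 * p.2.2.2.2)
    (fun δ δ' p hδ h => ⟨g2f_Sz_mono hδ h.1, ⟨h.2.1.1, h.2.1.2.trans_le hδ⟩,
      ⟨h.2.2.1.1, h.2.2.1.2.trans_le hδ⟩, ⟨h.2.2.2.1.1, h.2.2.2.1.2.trans_le hδ⟩, h.2.2.2.2⟩)
    (fun p => p.1 * p.2.1 ^ 2 * p.2.2.1) (fun p => p.1) (fun p => p.1 * p.2.2.2.1)
    (fun p => p.2.1 * p.2.2.1) (fun p => p.2.1)
    (fun p => p.2.1 * p.1 ^ 2 * p.2.2.2.2 * p.2.2.2.1)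
    x0 y0 C7 hC7 (by
      intro z0 hz1 hz2
      obtain ⟨δ, hδ, C, hC, h⟩ := hloc z0 hz1 hz2
      refine ⟨δ, hδ, C, hC, ?_⟩
      rintro T ⟨al, be, ρ, γ, κ⟩ hT ⟨hS, ⟨hρ, hρδ⟩, ⟨hγ, hγδ⟩, ⟨hκ, hκδ⟩, hγκ⟩ A B hA hB hA1 hB1
        hAs hBs
      exact h T al be ρ γ κ hT hS hρ hρδ hγ hγδ hκ hκδ hγκ A B hA hB hA1 hB1 hAs hBs)
  refine ⟨δ, hδ, C, hC, ?_⟩
  intro T al be ρ γ κ hT hS hρ hρδ hγ hγδ hκ hκδ hγκ A B hA hB hA1 hB1 hAs hBs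
  exact h T (al, be, ρ, γ, κ) hT ⟨hS, ⟨hρ, hρδ⟩, ⟨hγ, hγδ⟩, ⟨hκ, hκδ⟩, hγκ⟩ A B hA hB hA1 hB1
    hAs hBs

end Pool.Agent.N1F
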