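import Pool.Agent.N1F.G2a

/-!
N1F, block G2: both differences of type O, from points to the global statement.
-/

namespace Pool.Agent.N1F

open MeasureTheory Set Metric Pool.Agent.MP_6cbfb8_an Pool.Agent.MST Pool.Agent.N1
open scoped ENNReal Real ContDiff

/-- Restriction to a cell for three functions. -/
noncomputable def g2f_cut3 (φ₁ φ₂ φ₃ : V → ℝ) (R δ : ℝ) (A : V → ℂ) (i : ℕ × ℕ × ℕ) : V → ℂ :=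
  g2_cut φ₁ R δ (g2_cut φ₂ R δ (g2_cut φ₃ R δ A i.2.2) i.2.1) i.1

lemma g2f_cut3_meas {φ₁ φ₂ φ₃ : V → ℝ} (h1 : Measurable φ₁) (h2 : Measurable φ₂)
    (h3 : Measurable φ₃) (R δ : ℝ) {A : V → ℂ} (hA : Measurable A) (i : ℕ × ℕ × ℕ) :
    Measurable (g2f_cut3 φ₁ φ₂ φ₃ R δ A i) :=
  g2_cut_meas h1 R δ (g2_cut_meas h2 R δ (g2_cut_meas h3 R δ hA _) _) _

lemma g2f_cut3_norm (φ₁ φ₂ φ₃ : V → ℝ) (R δ : ℝ) {A : V → ℂ} (hA : ∀ a, ‖A a‖ ≤ 1)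
    (i : ℕ × ℕ × ℕ) (u : V) : ‖g2f_cut3 φ₁ φ₂ φ₃ R δ A i u‖ ≤ 1 :=
  g2_cut_norm φ₁ R δ (g2_cut_norm φ₂ R δ (g2_cut_norm φ₃ R δ hA _) _) _ u

lemma g2f_cut3_ne {φ₁ φ₂ φ₃ : V → ℝ} {R δ : ℝ} {A : V → ℂ} {i : ℕ × ℕ × ℕ} {u : V}
    (h : g2f_cut3 φ₁ φ₂ φ₃ R δ A i u ≠ 0) : (g2_ix R δ (φ₁ u) = i.1 ∧ g2_ix R δ (φ₂ u) = i.2.1 ∧
      g2_ix R δ (φ₃ u) = i.2.2) ∧ A u ≠ 0 := by
  have h1 := g2_cut_ne h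
  have h2 := g2_cut_ne h1.2
  have h3 := g2_cut_ne h2.2
  exact ⟨⟨h1.1, h2.1, h3.1⟩, h3.2⟩

lemma g2f_cut3_sum (φ₁ φ₂ φ₃ : V → ℝ) (R δ : ℝ) (hδ : 0 < δ) (A : V → ℂ)
    (hAs : ∀ u, A u ≠ 0 → |φ₁ u| ≤ R ∧ |φ₂ u| ≤ R ∧ |φ₃ u| ≤ R) (u : V) :
    ∑ i ∈ Finset.range (⌊2 * R / δ⌋₊ + 1) ×ˢ (Finset.range (⌊2 * R / δ⌋₊ + 1) ×ˢ
      Finset.range (⌊2 * R / δ⌋₊ + 1)), g2f_cut3 φ₁ φ₂ φ₃ R δ A i u = A u := by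
  rw [Finset.sum_product_right]
  have h1 : ∀ y ∈ Finset.range (⌊2 * R / δ⌋₊ + 1) ×ˢ Finset.range (⌊2 * R / δ⌋₊ + 1),
      ∑ x ∈ Finset.range (⌊2 * R / δ⌋₊ + 1), g2f_cut3 φ₁ φ₂ φ₃ R δ A (x, y) u =
        g2_cut φ₂ R δ (g2_cut φ₃ R δ A y.2) y.1 u := by
    intro y _
    refine g2_cut_sum φ₁ R δ hδ (g2_cut φ₂ R δ (g2_cut φ₃ R δ A y.2) y.1) (fun v hv => ?_) u
    exact (hAs v (g2_cut_ne (g2_cut_ne hv).2).2).1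
  rw [Finset.sum_congr rfl h1, Finset.sum_product_right]
  have h2 : ∀ y ∈ Finset.range (⌊2 * R / δ⌋₊ + 1),
      ∑ x ∈ Finset.range (⌊2 * R / δ⌋₊ + 1), g2_cut φ₂ R δ (g2_cut φ₃ R δ A y) x u =
        g2_cut φ₃ R δ A y u := by
    intro y _
    refine g2_cut_sum φ₂ R δ hδ (g2_cut φ₃ R δ A y) (fun v hv => ?_) u
    exact (hAs v (g2_cut_ne hv).2).2.1
  rw [Finset.sum_congr rfl h2]
  exact g2_cut_sum φ₃ R δ hδ A (fun v hv => (hAs v hv).2.2) u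

/-- Splitting in cells in all six variables. -/
theorem g2f_split3 (c : ℝ) (hc : 0 < c) (T : ℝ) (hT : 0 < T) (A B : V → ℂ) (hA : Measurable A)
    (hB : Measurable B) (hA1 : ∀ a, ‖A a‖ ≤ 1) (hB1 : ∀ b, ‖B b‖ ≤ 1)
    (φ₁ φ₂ φ₃ ψ₁ ψ₂ ψ₃ : V → ℝ)
    (m1 : Measurable φ₁) (m2 : Measurable φ₂) (m3 : Measurable φ₃)
    (n1 : Measurable ψ₁) (n2 : Measurable ψ₂) (n3 : Measurable ψ₃)
    (R δ K : ℝ) (hδ : 0 < δ) (hK : 0 ≤ K)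
    (hAs : ∀ u, A u ≠ 0 → |φ₁ u| ≤ R ∧ |φ₂ u| ≤ R ∧ |φ₃ u| ≤ R)
    (hBs : ∀ v, B v ≠ 0 → |ψ₁ v| ≤ R ∧ |ψ₂ v| ≤ R ∧ |ψ₃ v| ≤ R)
    (hloc : ∀ A' B' : V → ℂ, Measurable A' → Measurable B' → (∀ a, ‖A' a‖ ≤ 1) →
      (∀ b, ‖B' b‖ ≤ 1) → ∀ u0 v0, A u0 ≠ 0 → B v0 ≠ 0 → Wr c u0 v0 ≠ 0 →
      (∀ u, A' u ≠ 0 → A u ≠ 0 ∧ |φ₁ u - φ₁ u0| ≤ δ ∧ |φ₂ u - φ₂ u0| ≤ δ ∧
        |φ₃ u - φ₃ u0| ≤ δ) →
      (∀ v, B' v ≠ 0 → B v ≠ 0 ∧ |ψ₁ v - ψ₁ v0| ≤ δ ∧ |ψ₂ v - ψ₂ v0| ≤ δ ∧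
        |ψ₃ v - ψ₃ v0| ≤ δ) → ‖FF c T (tp A' B')‖ ≤ K) :
    ‖FF c T (tp A B)‖ ≤ ((⌊2 * R / δ⌋₊ + 1 : ℕ) : ℝ) ^ 6 * K := by
  set N : ℕ := ⌊2 * R / δ⌋₊ + 1 with hN
  set S : Finset (ℕ × ℕ × ℕ) := Finset.range N ×ˢ (Finset.range N ×ˢ Finset.range N) with hS
  have h1 : tp A B = fun q => ∑ p ∈ S ×ˢ S,
      tp (g2f_cut3 φ₁ φ₂ φ₃ R δ A p.1) (g2f_cut3 ψ₁ ψ₂ ψ₃ R δ B p.2) q := by
    funext q
    rw [Finset.sum_product]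
    unfold tp
    simp only
    rw [← Finset.sum_mul_sum, hS, hN, g2f_cut3_sum φ₁ φ₂ φ₃ R δ hδ A hAs,
      g2f_cut3_sum ψ₁ ψ₂ ψ₃ R δ hδ B hBs]
  rw [h1, FF_sum c hc T hT _ _ (fun p => ?_) 1 (fun p q => ?_)]
  · refine (norm_sum_le _ _).trans ?_
    have h2 : ∀ p ∈ S ×ˢ S,
        ‖FF c T (tp (g2f_cut3 φ₁ φ₂ φ₃ R δ A p.1) (g2f_cut3 ψ₁ ψ₂ ψ₃ R δ B p.2))‖ ≤ K := by
      intro p _
      by_cases hu : ∃ u0 v0, g2f_cut3 φ₁ φ₂ φ₃ R δ A p.1 u0 ≠ 0 ∧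
          g2f_cut3 ψ₁ ψ₂ ψ₃ R δ B p.2 v0 ≠ 0 ∧ Wr c u0 v0 ≠ 0
      · obtain ⟨u0, v0, hu0, hv0, hW⟩ := hu
        have a0 := g2f_cut3_ne hu0
        have b0 := g2f_cut3_ne hv0
        have a0' := hAs u0 a0.2
        have b0' := hBs v0 b0.2
        refine hloc _ _ (g2f_cut3_meas m1 m2 m3 R δ hA _) (g2f_cut3_meas n1 n2 n3 R δ hB _)
          (g2f_cut3_norm φ₁ φ₂ φ₃ R δ hA1 _) (g2f_cut3_norm ψ₁ ψ₂ ψ₃ R δ hB1 _) u0 v0 a0.2 b0.2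
          hW ?_ ?_
        · intro u hu
          have a1 := g2f_cut3_ne hu
          have a1' := hAs u a1.2
          exact ⟨a1.2, g2_ix_near hδ a1'.1 a0'.1 (a1.1.1.trans a0.1.1.symm),
            g2_ix_near hδ a1'.2.1 a0'.2.1 (a1.1.2.1.trans a0.1.2.1.symm),
            g2_ix_near hδ a1'.2.2 a0'.2.2 (a1.1.2.2.trans a0.1.2.2.symm)⟩
        · intro v hv
          have b1 := g2f_cut3_ne hv
          have b1' := hBs v b1.2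
          exact ⟨b1.2, g2_ix_near hδ b1'.1 b0'.1 (b1.1.1.trans b0.1.1.symm),
            g2_ix_near hδ b1'.2.1 b0'.2.1 (b1.1.2.1.trans b0.1.2.1.symm),
            g2_ix_near hδ b1'.2.2 b0'.2.2 (b1.1.2.2.trans b0.1.2.2.symm)⟩
      · push Not at hu
        have h3 : FF c T (tp (g2f_cut3 φ₁ φ₂ φ₃ R δ A p.1) (g2f_cut3 ψ₁ ψ₂ ψ₃ R δ B p.2)) = 0 := by
          unfold FF tp
          have h4 : (fun q : V × V => g2f_cut3 φ₁ φ₂ φ₃ R δ A p.1 q.1 *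
              g2f_cut3 ψ₁ ψ₂ ψ₃ R δ B p.2 q.2 * ((Wr c q.1 q.2 : ℝ) : ℂ) * Kt T (Fr c q.1 q.2)) =
              fun _ => 0 := by
            funext q
            by_cases h5 : g2f_cut3 φ₁ φ₂ φ₃ R δ A p.1 q.1 = 0
            · rw [h5]; simp
            · by_cases h6 : g2f_cut3 ψ₁ ψ₂ ψ₃ R δ B p.2 q.2 = 0
              · rw [h6]; simp
              · rw [hu q.1 q.2 h5 h6]; simp
          rw [h4]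
          simp
        rw [h3]
        simpa using hK
    refine (Finset.sum_le_sum h2).trans (le_of_eq ?_)
    rw [Finset.sum_const, Finset.card_product, hS, Finset.card_product, Finset.card_product,
      Finset.card_range, nsmul_eq_mul]
    push_cast
    ring
  · exact ((g2f_cut3_meas m1 m2 m3 R δ hA _).comp measurable_fst).mul
      ((g2f_cut3_meas n1 n2 n3 R δ hB _).comp measurable_snd)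
  · unfold tp
    rw [norm_mul]
    exact mul_le_one₀ (g2f_cut3_norm φ₁ φ₂ φ₃ R δ hA1 _ _) (norm_nonneg _)
      (g2f_cut3_norm ψ₁ ψ₂ ψ₃ R δ hB1 _ _)

/-- The space of base points `(A0, B0, x0, y0, z0, k1)`. -/
abbrev XI : Type := ℝ × ℝ × (ℝ × ℝ) × (ℝ × ℝ) × (ℝ × ℝ) × ℝ

/-- The local statement. -/
def PI (c : ℝ) (x : XI) (δ C : ℝ) : Prop :=
  ∀ T al be ρ₁ ρ₂ γ₁ γ₂ : ℝ, 0 < T → Sz al be x.1 x.2.1 δ →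
      0 < ρ₁ → ρ₁ < δ → 0 < ρ₂ → ρ₂ < δ → 0 < γ₁ → γ₁ < δ → 0 < γ₂ → γ₂ < δ →
      al ^ 2 * ρ₁ * γ₁ = be ^ 2 * ρ₂ * γ₂ → |be ^ 2 * γ₂ / γ₁ - x.2.2.2.2.2| < δ →
      be ^ 2 * ρ₂ / ρ₁ ≤ be ^ 2 * γ₂ / γ₁ →
      ∀ A B : V → ℂ, Measurable A → Measurable B → (∀ a, ‖A a‖ ≤ 1) → (∀ b, ‖B b‖ ≤ 1) →
      (∀ u, A u ≠ 0 → LB (al * ρ₁) al (al * γ₁) x.2.2.2.1.1 x.2.2.1.1 x.2.2.2.2.1.1 δ u) →
      (∀ v, B v ≠ 0 → LB (be * ρ₂) be (be * γ₂) x.2.2.2.1.2 x.2.2.1.2 x.2.2.2.2.1.2 δ v) →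
      ‖FF c T (tp A B)‖ ≤ C / T

/-- The compact set of base points. -/
def KI (c K : ℝ) : Set XI :=
  (Icc 0 1 ×ˢ Icc 0 1 ×ˢ (Icc (1 / K) K ×ˢ Icc (1 / K) K) ×ˢ g2_Z K ×ˢ g2_Z K ×ˢ Icc 0 K) ∩
    ({x | x.1 * x.2.1 = 0} ∩
      {x | x.1 * x.2.2.1.1 ^ 2 + x.2.1 * x.2.2.1.2 ^ 2 ≤ 1 - c ^ 2 / 4})

theorem KI_compact (c K : ℝ) : IsCompact (KI c K) := by
  refine IsCompact.inter_right ?_ (IsClosed.inter ?_ ?_)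
  · exact isCompact_Icc.prod (isCompact_Icc.prod ((isCompact_Icc.prod isCompact_Icc).prod
      ((g2_Z_compact K).prod ((g2_Z_compact K).prod isCompact_Icc))))
  · exact isClosed_eq (by fun_prop) continuous_const
  · exact isClosed_le (by fun_prop) continuous_const

lemma g2f_LB_shift3 {sy sx sz y x z y' x' z' δ : ℝ} {u : V} (hy : |y' - y| ≤ δ / 2)
    (hx : |x' - x| ≤ δ / 2) (hz : |z' - z| ≤ δ / 2)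
    (hs : LB sy sx sz y' x' z' (δ / 2) u) : LB sy sx sz y x z δ u := by
  obtain ⟨h1, h2, h3⟩ := hs
  refine ⟨?_, ?_, ?_⟩
  · have h4 := abs_sub_le (u.1 / sy) y' y
    linarith
  · have h4 := abs_sub_le (u.2.1 / sx) x' x
    linarith
  · have h4 := abs_sub_le (u.2.2 / sz) z' z
    linarith

lemma g2f_dist {x x' : XI} {d : ℝ} (h : dist x' x ≤ d) :
    |x'.1 - x.1| ≤ d ∧ |x'.2.1 - x.2.1| ≤ d ∧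
      (|x'.2.2.1.1 - x.2.2.1.1| ≤ d ∧ |x'.2.2.1.2 - x.2.2.1.2| ≤ d) ∧
      (|x'.2.2.2.1.1 - x.2.2.2.1.1| ≤ d ∧ |x'.2.2.2.1.2 - x.2.2.2.1.2| ≤ d) ∧
      (|x'.2.2.2.2.1.1 - x.2.2.2.2.1.1| ≤ d ∧ |x'.2.2.2.2.1.2 - x.2.2.2.2.1.2| ≤ d) ∧
      |x'.2.2.2.2.2 - x.2.2.2.2.2| ≤ d := by
  simpa only [Prod.dist_eq, max_le_iff, Real.dist_eq] using h

/-- Uniform version of the local statement. -/
theorem PI_unif (c : ℝ) (K : ℝ) (hK : 1 ≤ K)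
    (hI : ∀ (A0 B0 : ℝ) (x0 y0 z0 : ℝ × ℝ) (k1 : ℝ), Bs c A0 B0 x0 → y0.1 ≠ 0 → y0.2 ≠ 0 →
      z0.1 ≠ 0 → z0.2 ≠ 0 → 0 ≤ k1 → ∃ δ : ℝ, 0 < δ ∧ ∃ C : ℝ, 0 ≤ C ∧
        PI c (A0, B0, x0, y0, z0, k1) δ C) :
    ∃ δ : ℝ, 0 < δ ∧ ∃ C : ℝ, 0 ≤ C ∧ ∀ x ∈ KI c K, PI c x δ C := by
  refine g2_unif (KI_compact c K) (PI c) ?_ ?_ ?_
  · intro x δ δ' C C' hδ' hδδ hCC h T al be ρ₁ ρ₂ γ₁ γ₂ hT hS r1 r1' r2 r2' g1 g1' g2 g2' hbal hk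
      hle A B hA hB hA1 hB1 hAs hBs
    refine (h T al be ρ₁ ρ₂ γ₁ γ₂ hT (g2f_Sz_mono hδδ hS) r1 (r1'.trans_le hδδ) r2
      (r2'.trans_le hδδ) g1 (g1'.trans_le hδδ) g2 (g2'.trans_le hδδ) hbal (hk.trans_le hδδ) hle
      A B hA hB hA1 hB1 (fun u hu => g2f_LB_mono hδδ (hAs u hu))
      (fun v hv => g2f_LB_mono hδδ (hBs v hv))).trans ?_
    gcongr
  · rintro ⟨A0, B0, x0, y0, z0, k1⟩ ⟨⟨hA0, hB0, ⟨hx1, hx2⟩, hy, hz, hk⟩, hAB, hx⟩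
    simp only [mem_ofPred_eq] at hAB hx hA0 hB0 hx1 hx2 hk
    have h3 : 0 < 1 / K := by positivity
    refine hI A0 B0 x0 y0 z0 k1 ⟨hA0.1, hB0.1, hAB, h3.trans_le hx1.1, h3.trans_le hx2.1, hx⟩
      (abs_pos.1 (h3.trans_le hy.1.1)) (abs_pos.1 (h3.trans_le hy.2.1))
      (abs_pos.1 (h3.trans_le hz.1.1)) (abs_pos.1 (h3.trans_le hz.2.1)) hk.1
  · intro x x' δ C hδ hd h T al be ρ₁ ρ₂ γ₁ γ₂ hT hS r1 r1' r2 r2' g1 g1' g2 g2' hbal hk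
      hle A B hA hB hA1 hB1 hAs hBs
    obtain ⟨d1, d2, ⟨d3, d3'⟩, ⟨d4, d4'⟩, ⟨d5, d5'⟩, d6⟩ := g2f_dist hd
    refine h T al be ρ₁ ρ₂ γ₁ γ₂ hT ?_ r1 (by linarith) r2
      (by linarith) g1 (by linarith) g2 (by linarith) hbal ?_ hle
      A B hA hB hA1 hB1 (fun u hu => g2f_LB_shift3 d4 d3 d5 (hAs u hu))
      (fun v hv => g2f_LB_shift3 d4' d3' d5' (hBs v hv))
    · obtain ⟨s1, s2, s3, s4, s5, s6⟩ := hS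
      refine ⟨s1, s2, s3, s4, ?_, ?_⟩
      · have h4 := abs_sub_le (al ^ 2) x'.1 x.1
        linarith
      · have h4 := abs_sub_le (be ^ 2) x'.2.1 x.2.1
        linarith
    · have h4 := abs_sub_le (be ^ 2 * γ₂ / γ₁) x'.2.2.2.2.2 x.2.2.2.2.2
      linarith

/-- The global statement with exact balance and one order. -/
theorem propI3_of (c : ℝ) (hc : 0 < c) (K : ℝ) (hK : 1 ≤ K)
    (hI : ∀ (A0 B0 : ℝ) (x0 y0 z0 : ℝ × ℝ) (k1 : ℝ), Bs c A0 B0 x0 → y0.1 ≠ 0 → y0.2 ≠ 0 →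
      z0.1 ≠ 0 → z0.2 ≠ 0 → 0 ≤ k1 → ∃ δ : ℝ, 0 < δ ∧ ∃ C : ℝ, 0 ≤ C ∧
        PI c (A0, B0, x0, y0, z0, k1) δ C) :
    ∃ δ : ℝ, 0 < δ ∧ ∃ C : ℝ, 0 ≤ C ∧ ∀ T al be ρ₁ ρ₂ γ₁ γ₂ : ℝ, 0 < T →
      0 < al → al ≤ 1 → 0 < be → be ≤ 1 → al * be < δ →
      0 < ρ₁ → ρ₁ < δ → 0 < ρ₂ → ρ₂ < δ → 0 < γ₁ → γ₁ < δ → 0 < γ₂ → γ₂ < δ →
      al ^ 2 * ρ₁ * γ₁ = be ^ 2 * ρ₂ * γ₂ → be ^ 2 * γ₂ ≤ K * γ₁ →
      be ^ 2 * ρ₂ / ρ₁ ≤ be ^ 2 * γ₂ / γ₁ →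
      ∀ A B : V → ℂ, Measurable A → Measurable B → (∀ a, ‖A a‖ ≤ 1) → (∀ b, ‖B b‖ ≤ 1) →
      (∀ u, A u ≠ 0 → GB (al * ρ₁) al (al * γ₁) K u) →
      (∀ v, B v ≠ 0 → GB (be * ρ₂) be (be * γ₂) K v) →
      ‖FF c T (tp A B)‖ ≤ C / T := by
  obtain ⟨δ, hδ, C, hC, h⟩ := PI_unif c K hK hI
  have hK0 : 0 < K := by linarith
  refine ⟨δ, hδ, ((⌊2 * K / δ⌋₊ + 1 : ℕ) : ℝ) ^ 6 * C, by positivity, ?_⟩
  intro T al be ρ₁ ρ₂ γ₁ γ₂ hT hal hal1 hbe hbe1 hab r1 r1' r2 r2' g1 g1' g2 g2' hbal hk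
      hle A B hA hB hA1 hB1 hAs hBs
  rw [mul_div_assoc]
  have pos_le : ∀ t : ℝ, 1 / K ≤ t → t ≤ K → |t| ≤ K := by
    intro t h1 h2
    rw [abs_of_pos (lt_of_lt_of_le (by positivity) h1)]
    exact h2
  refine g2f_split3 c hc T hT A B hA hB hA1 hB1 (fun u => u.1 / (al * ρ₁)) (fun u => u.2.1 / al)
    (fun u => u.2.2 / (al * γ₁)) (fun v => v.1 / (be * ρ₂)) (fun v => v.2.1 / be)
    (fun v => v.2.2 / (be * γ₂)) (by fun_prop) (by fun_prop) (by fun_prop) (by fun_prop)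
    (by fun_prop) (by fun_prop) K δ (C / T) hδ (by positivity)
    (fun u hu => ⟨(hAs u hu).1.2, pos_le _ (hAs u hu).2.1.1 (hAs u hu).2.1.2, (hAs u hu).2.2.2⟩)
    (fun v hv => ⟨(hBs v hv).1.2, pos_le _ (hBs v hv).2.1.1 (hBs v hv).2.1.2, (hBs v hv).2.2.2⟩) ?_
  intro A' B' hA' hB' hA1' hB1' u0 v0 hu0 hv0 hW hAs' hBs'
  have hu := hAs u0 hu0
  have hv := hBs v0 hv0
  -- the support condition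
  have hwf := wf_ne c hc _ _ (f1_Wr_ne c u0 v0 hW).1
  have hx : al ^ 2 * (u0.2.1 / al) ^ 2 + be ^ 2 * (v0.2.1 / be) ^ 2 < 1 - c ^ 2 / 4 := by
    have e1 : al ^ 2 * (u0.2.1 / al) ^ 2 = u0.2.1 ^ 2 := by field_simp
    have e2 : be ^ 2 * (v0.2.1 / be) ^ 2 = v0.2.1 ^ 2 := by field_simp
    rw [e1, e2]
    linarith
  have hk0 : 0 ≤ be ^ 2 * γ₂ / γ₁ := by positivity
  have hkK : be ^ 2 * γ₂ / γ₁ ≤ K := by rwa [div_le_iff₀ g1]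
  have hal2 : al ^ 2 ≤ 1 := pow_le_one₀ hal.le hal1
  have hbe2 : be ^ 2 ≤ 1 := pow_le_one₀ hbe.le hbe1
  rcases le_total al be with hle' | hle'
  · refine h (0, be ^ 2, (u0.2.1 / al, v0.2.1 / be), (u0.1 / (al * ρ₁), v0.1 / (be * ρ₂)),
      (u0.2.2 / (al * γ₁), v0.2.2 / (be * γ₂)), be ^ 2 * γ₂ / γ₁) ?_ T al be ρ₁ ρ₂ γ₁ γ₂ hT ?_
      r1 r1' r2 r2' g1 g1' g2 g2' hbal ?_ hle A' B' hA' hB' hA1' hB1' ?_ ?_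
    · refine ⟨⟨⟨le_rfl, zero_le_one⟩, ⟨by positivity, hbe2⟩, ⟨⟨hu.2.1.1, hu.2.1.2⟩,
        ⟨hv.2.1.1, hv.2.1.2⟩⟩, ⟨hu.1, hv.1⟩, ⟨hu.2.2, hv.2.2⟩, ⟨hk0, hkK⟩⟩, ?_, ?_⟩
      · simp
      · simp only [mem_ofPred_eq, zero_mul, zero_add]
        have : 0 ≤ al ^ 2 * (u0.2.1 / al) ^ 2 := by positivity
        linarith
    · refine ⟨hal, hal1, hbe, hbe1, ?_, ?_⟩
      · simp only [sub_zero]
        rw [abs_of_nonneg (by positivity)]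
        calc al ^ 2 = al * al := by ring
          _ ≤ al * be := by gcongr
          _ < δ := hab
      · simpa using hδ
    · simpa using hδ
    · intro u hu'
      have h1 := hAs' u hu'
      exact ⟨h1.2.1, h1.2.2.1, h1.2.2.2⟩
    · intro v hv'
      have h1 := hBs' v hv'
      exact ⟨h1.2.1, h1.2.2.1, h1.2.2.2⟩
  · refine h (al ^ 2, 0, (u0.2.1 / al, v0.2.1 / be), (u0.1 / (al * ρ₁), v0.1 / (be * ρ₂)),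
      (u0.2.2 / (al * γ₁), v0.2.2 / (be * γ₂)), be ^ 2 * γ₂ / γ₁) ?_ T al be ρ₁ ρ₂ γ₁ γ₂ hT ?_
      r1 r1' r2 r2' g1 g1' g2 g2' hbal ?_ hle A' B' hA' hB' hA1' hB1' ?_ ?_
    · refine ⟨⟨⟨by positivity, hal2⟩, ⟨le_rfl, zero_le_one⟩, ⟨⟨hu.2.1.1, hu.2.1.2⟩,
        ⟨hv.2.1.1, hv.2.1.2⟩⟩, ⟨hu.1, hv.1⟩, ⟨hu.2.2, hv.2.2⟩, ⟨hk0, hkK⟩⟩, ?_, ?_⟩
      · simp
      · simp only [mem_ofPred_eq, zero_mul, add_zero]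
        have : 0 ≤ be ^ 2 * (v0.2.1 / be) ^ 2 := by positivity
        linarith
    · refine ⟨hal, hal1, hbe, hbe1, ?_, ?_⟩
      · simpa using hδ
      · simp only [sub_zero]
        rw [abs_of_nonneg (by positivity)]
        calc be ^ 2 = be * be := by ring
          _ ≤ al * be := by gcongr
          _ < δ := hab
    · simpa using hδ
    · intro u hu'
      have h1 := hAs' u hu'
      exact ⟨h1.2.1, h1.2.2.1, h1.2.2.2⟩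
    · intro v hv'
      have h1 := hBs' v hv'
      exact ⟨h1.2.1, h1.2.2.1, h1.2.2.2⟩

end Pool.Agent.N1F
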