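import Pool.Agent.N1F.G2b

/-!
N1F, block G2: both differences of type O, the final global statement.
-/

namespace Pool.Agent.N1F

open MeasureTheory Set Metric Pool.Agent.MP_6cbfb8_an Pool.Agent.MST Pool.Agent.N1
open scoped ENNReal Real ContDiff

lemma g2f_GB_mono {sy sx sz K K' : ℝ} {u : V} (hK : 1 ≤ K) (h : K ≤ K') (hu : GB sy sx sz K u) :
    GB sy sx sz K' u := by
  have h1 : 1 / K' ≤ 1 / K := one_div_le_one_div_of_le (by linarith) h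
  obtain ⟨⟨a1, a2⟩, ⟨b1, b2⟩, ⟨c1, c2⟩⟩ := hu
  exact ⟨⟨h1.trans a1, a2.trans h⟩, ⟨h1.trans b1, b2.trans h⟩, ⟨h1.trans c1, c2.trans h⟩⟩

lemma g2f_GB_swap {sy sx sz K : ℝ} {u : V} (hu : GB sy sx sz K (u.2.2, u.2.1, u.1)) :
    GB sz sx sy K u := ⟨hu.2.2, hu.2.1, hu.1⟩

lemma g2f_GB_scale {s τ sx sz K : ℝ} {u : V} (hK : 1 ≤ K) (hτ1 : 1 / K ≤ τ) (hτ2 : τ ≤ K)
    (hu : GB s sx sz K u) : GB (s * τ) sx sz (K ^ 2) u := by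
  have hK2 : K ≤ K ^ 2 := by nlinarith
  have hK0 : 0 < K := by linarith
  have hτ : 0 < τ := lt_of_lt_of_le (by positivity) hτ1
  refine ⟨?_, (g2f_GB_mono hK hK2 hu).2⟩
  have h1 := hu.1
  have e1 : |u.1 / (s * τ)| = |u.1 / s| / τ := by
    rw [← div_div, abs_div (u.1 / s) τ, abs_of_pos hτ]
  rw [e1]
  constructor
  · rw [le_div_iff₀ hτ]
    calc 1 / K ^ 2 * τ ≤ 1 / K ^ 2 * K := by gcongr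
      _ = 1 / K := by field_simp
      _ ≤ _ := h1.1
  · rw [div_le_iff₀ hτ]
    calc |u.1 / s| ≤ K := h1.2
      _ = K ^ 2 * (1 / K) := by field_simp
      _ ≤ K ^ 2 * τ := by gcongr

theorem propI2_of (c : ℝ) (hc : 0 < c) (K : ℝ) (hK : 1 ≤ K)
    (hI : ∀ (A0 B0 : ℝ) (x0 y0 z0 : ℝ × ℝ), Bs c A0 B0 x0 → y0.1 ≠ 0 → y0.2 ≠ 0 →
      z0.1 ≠ 0 → z0.2 ≠ 0 → ∀ k1 : ℝ, 0 ≤ k1 → ∃ δ : ℝ, 0 < δ ∧ ∃ C : ℝ, 0 ≤ C ∧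
      ∀ T al be ρ₁ ρ₂ γ₁ γ₂ : ℝ, 0 < T → Sz al be A0 B0 δ →
      0 < ρ₁ → ρ₁ < δ → 0 < ρ₂ → ρ₂ < δ → 0 < γ₁ → γ₁ < δ → 0 < γ₂ → γ₂ < δ →
      al ^ 2 * ρ₁ * γ₁ = be ^ 2 * ρ₂ * γ₂ → |be ^ 2 * γ₂ / γ₁ - k1| < δ →
      be ^ 2 * ρ₂ / ρ₁ ≤ be ^ 2 * γ₂ / γ₁ →
      ∀ A B : V → ℂ, Measurable A → Measurable B → (∀ a, ‖A a‖ ≤ 1) → (∀ b, ‖B b‖ ≤ 1) →
      (∀ u, A u ≠ 0 → LB (al * ρ₁) al (al * γ₁) y0.1 x0.1 z0.1 δ u) →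
      (∀ v, B v ≠ 0 → LB (be * ρ₂) be (be * γ₂) y0.2 x0.2 z0.2 δ v) →
      ‖FF c T (tp A B)‖ ≤ C / T) :
    ∃ δ : ℝ, 0 < δ ∧ ∃ C : ℝ, 0 ≤ C ∧ ∀ T al be ρ₁ ρ₂ γ₁ γ₂ : ℝ, 0 < T →
      0 < al → al ≤ 1 → 0 < be → be ≤ 1 → al * be ≤ δ →
      0 < ρ₁ → ρ₁ < δ → 0 < ρ₂ → ρ₂ < δ → 0 < γ₁ → γ₁ < δ → 0 < γ₂ → γ₂ < δ →
      al ^ 2 * ρ₁ * γ₁ ≤ K * (be ^ 2 * ρ₂ * γ₂) → be ^ 2 * ρ₂ * γ₂ ≤ K * (al ^ 2 * ρ₁ * γ₁) →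
      be ^ 2 * γ₂ ≤ K * γ₁ → be ^ 2 * ρ₂ ≤ K * ρ₁ →
      ∀ A B : V → ℂ, Measurable A → Measurable B → (∀ a, ‖A a‖ ≤ 1) → (∀ b, ‖B b‖ ≤ 1) →
      (∀ u, A u ≠ 0 → GB (al * ρ₁) al (al * γ₁) K u) →
      (∀ v, B v ≠ 0 → GB (be * ρ₂) be (be * γ₂) K v) →
      ‖FF c T (tp A B)‖ ≤ C / T := by
  have hK2 : K ≤ K ^ 2 := by nlinarith
  have hK0 : 0 < K := by linarith
  obtain ⟨δ, hδ, C, hC, h⟩ := propI3_of c hc (K ^ 2) (hK.trans hK2)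
    (fun A0 B0 x0 y0 z0 k1 hb hy1 hy2 hz1 hz2 hk => hI A0 B0 x0 y0 z0 hb hy1 hy2 hz1 hz2 k1 hk)
  have hδK : δ / (2 * K) < δ := by
    rw [div_lt_iff₀ (by positivity)]
    nlinarith
  refine ⟨δ / (2 * K), by positivity, C, hC, ?_⟩
  intro T al be ρ₁ ρ₂ γ₁ γ₂ hT hal hal1 hbe hbe1 hab r1 r1' r2 r2' g1 g1' g2 g2' hb1 hb2 hk1 hk2
    A B hA hB hA1 hB1 hAs hBs
  have hden : 0 < be ^ 2 * ρ₂ * γ₂ := by positivity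
  set τ : ℝ := al ^ 2 * ρ₁ * γ₁ / (be ^ 2 * ρ₂ * γ₂) with hτdef
  have hτ2 : τ ≤ K := by rwa [hτdef, div_le_iff₀ hden]
  have hτ1 : 1 / K ≤ τ := by
    rw [hτdef, div_le_div_iff₀ hK0 hden]
    linarith
  have hτ : 0 < τ := lt_of_lt_of_le (by positivity) hτ1
  have r3 : 0 < ρ₂ * τ := by positivity
  have r3' : ρ₂ * τ < δ := by
    calc ρ₂ * τ ≤ ρ₂ * K := by gcongr
      _ < δ / (2 * K) * K := by gcongr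
      _ = δ / 2 := by field_simp
      _ < δ := by linarith
  have hbal : al ^ 2 * ρ₁ * γ₁ = be ^ 2 * (ρ₂ * τ) * γ₂ := by
    rw [hτdef]
    field_simp
  have hA2 : ∀ u, A u ≠ 0 → GB (al * ρ₁) al (al * γ₁) (K ^ 2) u :=
    fun u hu => g2f_GB_mono hK hK2 (hAs u hu)
  have hB2 : ∀ v, B v ≠ 0 → GB (be * (ρ₂ * τ)) be (be * γ₂) (K ^ 2) v := by
    intro v hv
    have h1 := g2f_GB_scale hK hτ1 hτ2 (hBs v hv)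
    rwa [mul_assoc] at h1
  rcases le_total (be ^ 2 * (ρ₂ * τ) / ρ₁) (be ^ 2 * γ₂ / γ₁) with hle | hle
  · refine h T al be ρ₁ (ρ₂ * τ) γ₁ γ₂ hT hal hal1 hbe hbe1 (hab.trans_lt hδK) r1
      (r1'.trans hδK) r3 r3' g1 (g1'.trans hδK) g2 (g2'.trans hδK) hbal ?_ hle A B hA hB hA1 hB1
      hA2 hB2
    exact hk1.trans (by gcongr)
  · have hsw : FF c T (tp A B) = FF c T (tp (fun u : V => A (u.2.2, u.2.1, u.1))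
        (fun v : V => B (v.2.2, v.2.1, v.1))) := (FF_swp c T (tp A B)).symm
    rw [hsw]
    refine h T al be γ₁ γ₂ ρ₁ (ρ₂ * τ) hT hal hal1 hbe hbe1 (hab.trans_lt hδK) g1
      (g1'.trans hδK) g2 (g2'.trans hδK) r1 (r1'.trans hδK) r3 r3' ?_ ?_ hle _ _
      (hA.comp (by fun_prop)) (hB.comp (by fun_prop)) (fun u => hA1 _) (fun v => hB1 _)
      (fun u hu => g2f_GB_swap (hA2 _ hu)) (fun v hv => g2f_GB_swap (hB2 _ hv))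
    · linarith [hbal, mul_comm ρ₁ γ₁, mul_comm (ρ₂ * τ) γ₂]
    · calc be ^ 2 * (ρ₂ * τ) = (be ^ 2 * ρ₂) * τ := by ring
        _ ≤ (K * ρ₁) * K := by gcongr
        _ = K ^ 2 * ρ₁ := by ring

end Pool.Agent.N1F
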