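import Pool.Agent.N1.HL1
import Pool.Agent.N1.AN1

/-!
The volume integral for the anisotropic estimate, by a change of variables
`a ↦ (w (p, a), α (p, a), l a)`.
-/

namespace Pool.Agent.N1F

open MeasureTheory Set Metric Pool.Agent.MST Pool.Agent.N1
open scoped ContDiff

theorem hm2_haar : (volume : Measure V).IsAddHaarMeasure := by
  have h : ((volume : Measure ℝ).prod (volume : Measure ℝ)).IsAddHaarMeasure :=
    (inferInstance : ((volume : Measure ℝ).prod (volume : Measure ℝ)).IsAddHaarMeasure)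
  exact (inferInstance : ((volume : Measure ℝ).prod (volume : Measure (ℝ × ℝ))).IsAddHaarMeasure)

theorem hm2_one (R m y : ℝ) (hm : 0 < m) :
    ∫ t in ball (0 : ℝ) R, 1 / (1 + m * |t - y|) ^ 2 ≤ 2 / m := by
  rcases le_or_gt R 0 with hR | hR
  · rw [ball_eq_empty.2 hR]
    simp only [Measure.restrict_empty, integral_zero_measure]
    positivity
  have hab : (0 : ℝ) - R ≤ 0 + R := by linarith
  have h1 := mono_int (fun t => t - y) (0 - R) (0 + R) 1 m hab (by fun_prop) one_pos hm (by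
    intro t _
    have : deriv (fun t : ℝ => t - y) t = 1 := by
      rw [deriv_sub_const]; simp
    rw [this]; simp)
  rw [intervalIntegral.integral_of_le hab, integral_Ioc_eq_integral_Ioo, one_mul] at h1
  rw [Real.ball_eq_Ioo]
  exact h1

/-- the model integrand -/
noncomputable def hmF (m1 m2 m3 : ℝ) (y t : V) : ℝ :=
  1 / (1 + m1 * |t.1 - y.1|) ^ 2 *
    (1 / (1 + m2 * |t.2.1 - y.2.1|) ^ 2 * (1 / (1 + m3 * |t.2.2 - y.2.2|) ^ 2))

theorem hmF_nonneg (m1 m2 m3 : ℝ) (y t : V) : 0 ≤ hmF m1 m2 m3 y t := by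
  unfold hmF
  positivity

theorem hmF_cont (m1 m2 m3 : ℝ) (h1 : 0 < m1) (h2 : 0 < m2) (h3 : 0 < m3) (y : V) :
    Continuous (hmF m1 m2 m3 y) := by
  unfold hmF
  have c1 : Continuous (fun t : V => 1 / (1 + m1 * |t.1 - y.1|) ^ 2) :=
    continuous_const.div (by fun_prop) (fun t => by positivity)
  have c2 : Continuous (fun t : V => 1 / (1 + m2 * |t.2.1 - y.2.1|) ^ 2) :=
    continuous_const.div (by fun_prop) (fun t => by positivity)
  have c3 : Continuous (fun t : V => 1 / (1 + m3 * |t.2.2 - y.2.2|) ^ 2) :=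
    continuous_const.div (by fun_prop) (fun t => by positivity)
  exact c1.mul (c2.mul c3)

theorem hmF_int (m1 m2 m3 : ℝ) (h1 : 0 < m1) (h2 : 0 < m2) (h3 : 0 < m3) (y : V) (R : ℝ) :
    ∫ t in ball (0 : V) R, hmF m1 m2 m3 y t ≤ 8 / (m1 * m2 * m3) := by
  have e1 : ball (0 : V) R = ball (0 : ℝ) R ×ˢ (ball (0 : ℝ) R ×ˢ ball (0 : ℝ) R) := by
    rw [ball_prod_same, ball_prod_same]
    rfl
  have e2 : ∫ t in ball (0 : V) R, hmF m1 m2 m3 y t =
      (∫ x in ball (0 : ℝ) R, 1 / (1 + m1 * |x - y.1|) ^ 2) *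
        ((∫ x in ball (0 : ℝ) R, 1 / (1 + m2 * |x - y.2.1|) ^ 2) *
          ∫ x in ball (0 : ℝ) R, 1 / (1 + m3 * |x - y.2.2|) ^ 2) := by
    rw [e1]
    have h4 := setIntegral_prod_mul (μ := (volume : Measure ℝ)) (ν := (volume : Measure (ℝ × ℝ)))
      (fun x : ℝ => 1 / (1 + m1 * |x - y.1|) ^ 2)
      (fun v : ℝ × ℝ => 1 / (1 + m2 * |v.1 - y.2.1|) ^ 2 * (1 / (1 + m3 * |v.2 - y.2.2|) ^ 2))
      (ball (0 : ℝ) R) (ball (0 : ℝ) R ×ˢ ball (0 : ℝ) R)
    have h5 := setIntegral_prod_mul (μ := (volume : Measure ℝ)) (ν := (volume : Measure ℝ))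
      (fun x : ℝ => 1 / (1 + m2 * |x - y.2.1|) ^ 2) (fun x : ℝ => 1 / (1 + m3 * |x - y.2.2|) ^ 2)
      (ball (0 : ℝ) R) (ball (0 : ℝ) R)
    rw [← h5]
    exact h4
  rw [e2]
  have a1 := hm2_one R m1 y.1 h1
  have a2 := hm2_one R m2 y.2.1 h2
  have a3 := hm2_one R m3 y.2.2 h3
  have n2 : 0 ≤ ∫ x in ball (0 : ℝ) R, 1 / (1 + m2 * |x - y.2.1|) ^ 2 :=
    integral_nonneg fun x => by positivity
  have n3 : 0 ≤ ∫ x in ball (0 : ℝ) R, 1 / (1 + m3 * |x - y.2.2|) ^ 2 :=
    integral_nonneg fun x => by positivity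
  calc _ ≤ (2 / m1) * ((2 / m2) * (2 / m3)) := by
        refine mul_le_mul a1 (mul_le_mul a2 a3 n3 (by positivity)) (mul_nonneg n2 n3)
          (by positivity)
    _ = 8 / (m1 * m2 * m3) := by
      field_simp
      norm_num

theorem hm2_alg (X p q r : ℝ) (hp : 0 ≤ p) (hq : 0 ≤ q) (hr : 0 ≤ r)
    (hpX : p ≤ X) (hqX : q ≤ X) (hrX : r ≤ X) :
    1 / (1 + X) ^ 6 ≤ 1 / (1 + p) ^ 2 * (1 / (1 + q) ^ 2 * (1 / (1 + r) ^ 2)) := by
  have hX : 0 ≤ X := hp.trans hpX
  rw [one_div_mul_one_div, one_div_mul_one_div]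
  apply one_div_le_one_div_of_le
  · positivity
  · have e : (1 + X) ^ 6 = (1 + X) ^ 2 * ((1 + X) ^ 2 * (1 + X) ^ 2) := by ring
    rw [e]
    gcongr

theorem vol_HLa {P : Type*} [NormedAddCommGroup P] [NormedSpace ℝ P] [FiniteDimensional ℝ P]
    (w α : P × V → ℝ) (hw : ContDiff ℝ ∞ w) (hα : ContDiff ℝ ∞ α) (p0 : P) (a0 : V)
    (l : V →L[ℝ] ℝ)
    (hinj : ∀ v : V, fderiv ℝ w (p0, a0) (0, v) = 0 → fderiv ℝ α (p0, a0) (0, v) = 0 →
      l v = 0 → v = 0) :
    ∃ δ C : ℝ, 0 < δ ∧ 0 ≤ C ∧ ∀ p ∈ ball p0 δ, ∀ δ' ≤ δ, ∀ lam k1 k2 : ℝ, 0 < lam →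
      0 < k1 → 0 < k2 →
      ∫ a in ball a0 δ', ∫ a' in ball a0 δ', 1 / (1 + lam * (|w (p, a) - w (p, a')| +
        (k1 * |α (p, a) - α (p, a')| + k2 * ‖a - a'‖))) ^ 6 ≤ C / (lam ^ 3 * (k1 * k2)) := by
  have hPp : ProperSpace P := FiniteDimensional.proper_real P
  have hhaar := hm2_haar
  let Ψ : P × V → V := fun q => (w q, α q, l q.2)
  have hΨ : ContDiff ℝ ∞ Ψ := hw.prodMk (hα.prodMk (l.contDiff.comp contDiff_snd))
  let D : P × V → (V →L[ℝ] V) := fun q => (fderiv ℝ Ψ q) ∘L (ContinuousLinearMap.inr ℝ P V)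
  have hDc : Continuous D :=
    (hΨ.continuous_fderiv (by simp)).clm_comp continuous_const
  have hDv : ∀ q v, D q v = (fderiv ℝ w q (0, v), fderiv ℝ α q (0, v), l v) := by
    intro q v
    have h1 : HasFDerivAt w (fderiv ℝ w q) q := ((hw.differentiable (by simp)) _).hasFDerivAt
    have h2 : HasFDerivAt α (fderiv ℝ α q) q := ((hα.differentiable (by simp)) _).hasFDerivAt
    have h3 : HasFDerivAt (fun q : P × V => l q.2) (l ∘L ContinuousLinearMap.snd ℝ P V) q :=
      l.hasFDerivAt.comp q hasFDerivAt_snd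
    have h4 := (h1.prodMk (h2.prodMk h3)).fderiv
    show fderiv ℝ Ψ q (0, v) = _
    have h5 : fderiv ℝ Ψ q = (fderiv ℝ w q).prod ((fderiv ℝ α q).prod
        (l ∘L ContinuousLinearMap.snd ℝ P V)) := h4
    rw [h5]
    rfl
  set A : V →L[ℝ] V := D (p0, a0) with hA
  have hker : LinearMap.ker A.toLinearMap = ⊥ := by
    rw [LinearMap.ker_eq_bot']
    intro v hv
    have hv' : D (p0, a0) v = 0 := hv
    rw [hDv, Prod.mk_eq_zero, Prod.mk_eq_zero] at hv'
    exact hinj v hv'.1 hv'.2.1 hv'.2.2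
  have hdet : A.det ≠ 0 := by
    intro h0
    have h1 : LinearMap.det A.toLinearMap = 0 := h0
    have h2 := LinearMap.bot_lt_ker_of_det_eq_zero h1
    rw [hker] at h2
    exact lt_irrefl _ h2
  obtain ⟨K, hK, hanti⟩ := LinearMap.exists_antilipschitzWith A.toLinearMap hker
  have hK' : (0 : ℝ) < K := hK
  have hlow : ∀ v, ‖v‖ ≤ K * ‖A v‖ := by
    intro v
    have h0 := hanti.le_mul_dist v 0
    have h1 : dist (A.toLinearMap v) (A.toLinearMap 0) = ‖A v‖ := by
      rw [map_zero]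
      exact dist_zero_right (A v)
    rw [h1, dist_zero_right] at h0
    exact h0
  obtain ⟨r1, hr1, hN1⟩ := hl_strict Ψ _ (p0, a0) (hΨ.hasStrictFDerivAt (by simp)) (1 / (2 * K))
    (by positivity)
  obtain ⟨r2, hr2, hN2⟩ := hl_cont (fun q => (D q).det) (p0, a0)
    (ContinuousLinearMap.continuous_det.comp hDc).continuousAt (|A.det| / 2) (by positivity)
  set Λ : ℝ := ‖l‖ + 1 with hΛ
  have hΛp : 0 < Λ := by positivity
  set δ : ℝ := min r1 r2 with hδ
  have hδp : 0 < δ := lt_min hr1 hr2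
  refine ⟨δ, volume.real (ball a0 δ) * (2 / |A.det| * (8 * Λ)), hδp, by positivity, ?_⟩
  intro p hp δ' hδ' lam k1 k2 hlam hk1 hk2
  have hin : ∀ a ∈ ball a0 δ', (p, a) ∈ ball (p0, a0) δ := by
    intro a ha
    rw [← ball_prod_same]
    exact ⟨hp, ball_subset_ball hδ' ha⟩
  let ψ : V → V := fun a => Ψ (p, a)
  have hψc : Continuous ψ := hΨ.continuous.comp (by fun_prop)
  have hψd : ∀ a ∈ ball a0 δ', HasFDerivWithinAt ψ (D (p, a)) (ball a0 δ') a := by
    intro a _
    have h1 : HasFDerivAt Ψ (fderiv ℝ Ψ (p, a)) (p, a) :=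
      ((hΨ.differentiable (by simp)) _).hasFDerivAt
    have h2 : HasFDerivAt (fun a : V => ((p, a) : P × V)) (ContinuousLinearMap.inr ℝ P V) a :=
      (hasFDerivAt_const p a).prodMk (hasFDerivAt_id a)
    exact (h1.comp a h2).hasFDerivWithinAt
  have hψinj : InjOn ψ (ball a0 δ') := by
    intro a ha a' ha' he
    have h1 := hN1 (p, a) (ball_subset_ball (min_le_left _ _) (hin a ha)) (p, a')
      (ball_subset_ball (min_le_left _ _) (hin a' ha'))
    have h2 : ((p, a) : P × V) - (p, a') = (0, a - a') := by simp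
    have h3 : ‖((0, a - a') : P × V)‖ = ‖a - a'‖ := by simp [Prod.norm_def]
    have h4 : Ψ (p, a) - Ψ (p, a') = 0 := sub_eq_zero.2 he
    rw [h4, h2, h3, zero_sub, norm_neg] at h1
    have h5 : fderiv ℝ Ψ (p0, a0) (0, a - a') = A (a - a') := rfl
    rw [h5] at h1
    have h6 := hlow (a - a')
    have h7 : ‖a - a'‖ ≤ K * (1 / (2 * K) * ‖a - a'‖) :=
      h6.trans (mul_le_mul_of_nonneg_left h1 hK'.le)
    have h8 : (K : ℝ) * (1 / (2 * K) * ‖a - a'‖) = ‖a - a'‖ / 2 := by field_simp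
    rw [h8] at h7
    have h9 : ‖a - a'‖ = 0 := le_antisymm (by linarith) (norm_nonneg _)
    exact sub_eq_zero.1 (norm_eq_zero.1 h9)
  have hdetlow : ∀ a ∈ ball a0 δ', |A.det| / 2 ≤ |(D (p, a)).det| := by
    intro a ha
    have h1 := hN2 (p, a) (ball_subset_ball (min_le_right _ _) (hin a ha))
    rw [Real.norm_eq_abs] at h1
    have h2 := abs_sub_abs_le_abs_sub A.det (D (p, a)).det
    rw [abs_sub_comm] at h2
    have h3 : |A.det| - |(D (p, a)).det| ≤ |A.det| / 2 := h2.trans h1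
    linarith
  obtain ⟨R, hR⟩ : ∃ R : ℝ, ∀ a ∈ ball a0 δ', ψ a ∈ ball (0 : V) R := by
    obtain ⟨C, hC⟩ := (isCompact_closedBall a0 δ').exists_bound_of_continuousOn hψc.continuousOn
    refine ⟨C + 1, fun a ha => ?_⟩
    rw [mem_ball_zero_iff]
    have := hC a (ball_subset_closedBall ha)
    linarith
  -- the inner integral
  have hinner : ∀ a, a ∈ ball a0 δ' → ∫ a' in ball a0 δ', 1 / (1 + lam * (|w (p, a) - w (p, a')| +
        (k1 * |α (p, a) - α (p, a')| + k2 * ‖a - a'‖))) ^ 6 ≤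
      2 / |A.det| * (8 * Λ) / (lam ^ 3 * (k1 * k2)) := by
    intro a _
    have hm1 : 0 < lam := hlam
    have hm2 : 0 < lam * k1 := by positivity
    have hm3 : 0 < lam * (k2 / Λ) := by positivity
    set F : V → ℝ := hmF lam (lam * k1) (lam * (k2 / Λ)) (ψ a) with hF
    have hFc : Continuous F := hmF_cont _ _ _ hm1 hm2 hm3 _
    have hFn : ∀ t, 0 ≤ F t := hmF_nonneg _ _ _ _
    have hcomp : IsCompact (closure (ball a0 δ')) := isBounded_ball.isCompact_closure
    have hI1 : IntegrableOn (fun a' => F (ψ a')) (ball a0 δ') volume :=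
      ((hFc.comp hψc).continuousOn.integrableOn_compact hcomp).mono_set subset_closure
    have hcompR : IsCompact (closure (ball (0 : V) R)) := isBounded_ball.isCompact_closure
    have hIR : IntegrableOn F (ball (0 : V) R) volume :=
      (hFc.continuousOn.integrableOn_compact hcompR).mono_set subset_closure
    have hsub : ψ '' ball a0 δ' ⊆ ball (0 : V) R := by
      rintro _ ⟨a', ha', rfl⟩
      exact hR a' ha'
    have hIim : IntegrableOn F (ψ '' ball a0 δ') volume := hIR.mono_set hsub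
    have hI2 : IntegrableOn (fun a' => |(D (p, a')).det| • F (ψ a')) (ball a0 δ') volume :=
      (integrableOn_image_iff_integrableOn_abs_det_fderiv_smul volume measurableSet_ball hψd
        hψinj F).1 hIim
    have s1 : ∫ a' in ball a0 δ', 1 / (1 + lam * (|w (p, a) - w (p, a')| +
        (k1 * |α (p, a) - α (p, a')| + k2 * ‖a - a'‖))) ^ 6 ≤ ∫ a' in ball a0 δ', F (ψ a') := by
      refine integral_mono_of_nonneg (Filter.Eventually.of_forall fun a' => by positivity) hI1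
        (Filter.Eventually.of_forall fun a' => ?_)
      have b1 : 0 ≤ |w (p, a) - w (p, a')| := abs_nonneg _
      have b2 : 0 ≤ k1 * |α (p, a) - α (p, a')| := by positivity
      have b3 : 0 ≤ k2 * ‖a - a'‖ := by positivity
      have b4 : |l a' - l a| ≤ Λ * ‖a - a'‖ := by
        have h1 := l.le_opNorm (a' - a)
        rw [map_sub, Real.norm_eq_abs, norm_sub_rev] at h1
        refine h1.trans (mul_le_mul_of_nonneg_right ?_ (norm_nonneg _))
        linarith
      refine hm2_alg _ _ _ _ (by positivity) (by positivity) (by positivity) ?_ ?_ ?_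
      · have : |(ψ a').1 - (ψ a).1| = |w (p, a) - w (p, a')| := abs_sub_comm _ _
        rw [this]
        exact mul_le_mul_of_nonneg_left (by linarith) hlam.le
      · have : |(ψ a').2.1 - (ψ a).2.1| = |α (p, a) - α (p, a')| := abs_sub_comm _ _
        rw [this, mul_assoc]
        exact mul_le_mul_of_nonneg_left (by linarith) hlam.le
      · have h1 : |(ψ a').2.2 - (ψ a).2.2| = |l a' - l a| := rfl
        rw [h1, mul_assoc]
        refine mul_le_mul_of_nonneg_left ?_ hlam.le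
        have h2 : k2 / Λ * |l a' - l a| ≤ k2 / Λ * (Λ * ‖a - a'‖) :=
          mul_le_mul_of_nonneg_left b4 (by positivity)
        have h3 : k2 / Λ * (Λ * ‖a - a'‖) = k2 * ‖a - a'‖ := by field_simp
        linarith
    have s2 : ∫ a' in ball a0 δ', F (ψ a') ≤
        ∫ a' in ball a0 δ', 2 / |A.det| * (|(D (p, a')).det| • F (ψ a')) := by
      refine setIntegral_mono_on hI1 (hI2.const_mul _) measurableSet_ball fun a' ha' => ?_
      have h1 := hdetlow a' ha'
      have h2 : 0 < |A.det| := abs_pos.2 hdet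
      rw [smul_eq_mul, ← mul_assoc]
      have h3 : 1 ≤ 2 / |A.det| * |(D (p, a')).det| := by
        rw [div_mul_eq_mul_div, le_div_iff₀ h2]
        linarith
      calc F (ψ a') = 1 * F (ψ a') := (one_mul _).symm
        _ ≤ _ := mul_le_mul_of_nonneg_right h3 (hFn _)
    have s3 : ∫ a' in ball a0 δ', 2 / |A.det| * (|(D (p, a')).det| • F (ψ a')) =
        2 / |A.det| * ∫ t in ψ '' ball a0 δ', F t := by
      rw [integral_const_mul, integral_image_eq_integral_abs_det_fderiv_smul volume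
        measurableSet_ball hψd hψinj F]
    have s4 : ∫ t in ψ '' ball a0 δ', F t ≤ ∫ t in ball (0 : V) R, F t :=
      setIntegral_mono_set hIR (Filter.Eventually.of_forall hFn) hsub.eventuallyLE
    have s5 := hmF_int lam (lam * k1) (lam * (k2 / Λ)) hm1 hm2 hm3 (ψ a) R
    have h2 : 0 < |A.det| := abs_pos.2 hdet
    calc _ ≤ 2 / |A.det| * (8 / (lam * (lam * k1) * (lam * (k2 / Λ)))) := by
          refine s1.trans (s2.trans ?_)
          rw [s3]
          exact mul_le_mul_of_nonneg_left (s4.trans s5) (by positivity)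
      _ = 2 / |A.det| * (8 * Λ) / (lam ^ 3 * (k1 * k2)) := by
        field_simp
  have hb : ‖∫ a in ball a0 δ', ∫ a' in ball a0 δ', 1 / (1 + lam * (|w (p, a) - w (p, a')| +
        (k1 * |α (p, a) - α (p, a')| + k2 * ‖a - a'‖))) ^ 6‖ ≤
      2 / |A.det| * (8 * Λ) / (lam ^ 3 * (k1 * k2)) * volume.real (ball a0 δ') := by
    refine norm_setIntegral_le_of_norm_le_const measure_ball_lt_top fun a ha => ?_
    rw [Real.norm_of_nonneg (integral_nonneg fun a' => by positivity)]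
    exact hinner a ha
  have hv : volume.real (ball a0 δ') ≤ volume.real (ball a0 δ) :=
    measureReal_mono (ball_subset_ball hδ') measure_ball_lt_top.ne
  refine (le_abs_self _).trans (hb.trans ?_)
  calc _ ≤ 2 / |A.det| * (8 * Λ) / (lam ^ 3 * (k1 * k2)) * volume.real (ball a0 δ) :=
        mul_le_mul_of_nonneg_left hv (by positivity)
    _ = _ := by ring

end Pool.Agent.N1F
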