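import Pool.Agent.N1F.HM5
import Pool.Agent.N1F.HM2
import Pool.Agent.N1.HL4

/-!
The anisotropic local oscillatory estimate (interface statement `HLa`).
-/

namespace Pool.Agent.N1F

open MeasureTheory Set Metric Pool.Agent.MP_6cbfb8_an Pool.Agent.MST Pool.Agent.N1
open scoped ENNReal Real ContDiff

theorem hla_tri (wl αl γ : V →L[ℝ] ℝ) (u1 u2 u3 : V) (h11 : wl u1 ≠ 0) (h12 : wl u2 = 0)
    (h22 : αl u2 ≠ 0) (h13 : wl u3 = 0) (h23 : αl u3 = 0) (h33 : γ u3 ≠ 0) (v : V)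
    (hv1 : wl v = 0) (hv2 : αl v = 0) (hv3 : γ v = 0) : v = 0 := by
  let L : V →ₗ[ℝ] V := (wl.prod (αl.prod γ)).toLinearMap
  have hL : ∀ v, L v = (wl v, αl v, γ v) := fun v => rfl
  have hsurj : Function.Surjective L := by
    rintro ⟨x, y, z⟩
    refine ⟨(x / wl u1) • u1 + (((y - x / wl u1 * αl u1) / αl u2) • u2 +
      ((z - x / wl u1 * γ u1 - (y - x / wl u1 * αl u1) / αl u2 * γ u2) / γ u3) • u3), ?_⟩
    rw [hL]
    simp only [map_add, map_smul, smul_eq_mul, h12, h13, h23]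
    refine Prod.ext ?_ (Prod.ext ?_ ?_)
    · show x / wl u1 * wl u1 + (_ * 0 + _ * 0) = x
      field_simp
      ring
    · show x / wl u1 * αl u1 + ((y - x / wl u1 * αl u1) / αl u2 * αl u2 + _ * 0) = y
      rw [div_mul_cancel₀ _ h22]
      ring
    · show x / wl u1 * γ u1 + ((y - x / wl u1 * αl u1) / αl u2 * γ u2 +
        (z - x / wl u1 * γ u1 - (y - x / wl u1 * αl u1) / αl u2 * γ u2) / γ u3 * γ u3) = z
      rw [div_mul_cancel₀ _ h33]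
      ring
  have hinj : Function.Injective L := LinearMap.injective_iff_surjective.2 hsurj
  apply hinj
  rw [hL, map_zero, hv1, hv2, hv3]
  rfl

theorem hla_norm (v : V) : ‖(1 / (‖v‖ + 1)) • v‖ ≤ 1 := by
  have h := norm_nonneg v
  rw [norm_smul, Real.norm_of_nonneg (by positivity), div_mul_eq_mul_div, one_mul,
    div_le_one (by positivity)]
  linarith

theorem HLa {P : Type*} [NormedAddCommGroup P] [NormedSpace ℝ P] [FiniteDimensional ℝ P]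
    (w l : P × V → ℝ) (σ m : P × V → ℝ) (g : P × V × V → ℝ)
    (c : ℝ × P × V × V → ℝ) (p0 : P) (a0 b0 : V) (r s0 s1 : ℝ)
    (hr : 0 < r) (hs0 : 0 < s0)
    (hw : ContDiffOn ℝ ∞ w (ball (p0, a0) r)) (hl : ContDiffOn ℝ ∞ l (ball (p0, a0) r))
    (hσ : ContDiffOn ℝ ∞ σ (ball (p0, b0) r)) (hm : ContDiffOn ℝ ∞ m (ball (p0, b0) r))
    (hg : ContDiffOn ℝ ∞ g (ball (p0, a0, b0) r))
    (hc : ContDiffOn ℝ ∞ c (univ ×ˢ ball (p0, a0, b0) r))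
    (hcs : ∀ s, ∀ q ∈ ball (p0, a0, b0) r, c (s, q) ≠ 0 → s0 ≤ |s| ∧ |s| ≤ s1)
    (u1 u2 u3 e1 e2 e3 : V)
    (h11 : fderiv ℝ (fun a => w (p0, a)) a0 u1 ≠ 0)
    (h12 : fderiv ℝ (fun a => w (p0, a)) a0 u2 = 0) (h22 : fderiv ℝ (fun a => l (p0, a)) a0 u2 ≠ 0)
    (h13 : fderiv ℝ (fun a => w (p0, a)) a0 u3 = 0) (h23 : fderiv ℝ (fun a => l (p0, a)) a0 u3 = 0)
    (k11 : fderiv ℝ (fun b => σ (p0, b)) b0 e1 ≠ 0)
    (k12 : fderiv ℝ (fun b => σ (p0, b)) b0 e2 = 0) (k22 : fderiv ℝ (fun b => m (p0, b)) b0 e2 ≠ 0)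
    (k13 : fderiv ℝ (fun b => σ (p0, b)) b0 e3 = 0) (k23 : fderiv ℝ (fun b => m (p0, b)) b0 e3 = 0)
    (hnd : fderiv ℝ (fun b => fderiv ℝ (fun a => g (p0, a, b)) a0 u3) b0 e3 ≠ 0) :
    ∃ δ : ℝ, 0 < δ ∧ ∃ C : ℝ, 0 ≤ C ∧ ∀ p ∈ ball p0 δ, ∀ κ ε lam : ℝ, 0 < κ → κ ≤ 1 → 0 < ε →
      ε < δ → 0 < lam →
      ∀ A B : V → ℂ, Measurable A → Measurable B → (∀ a, ‖A a‖ ≤ 1) → (∀ b, ‖B b‖ ≤ 1) →
      (∀ a, A a ≠ 0 → a ∈ ball a0 δ) → (∀ b, B b ≠ 0 → b ∈ ball b0 δ) →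
      ‖∫ q : V × V, A q.1 * B q.2 * ∫ s : ℝ, ((c (s, p, q.1, q.2) : ℝ) : ℂ) *
        ex (lam * (s * (w (p, q.1) - σ (p, q.2) + κ * (l (p, q.1) * m (p, q.2) +
          ε * g (p, q.1, q.2)))))‖ ≤ C / (lam ^ 2 * κ * √ε) := by
  obtain ⟨wt, hwt, ewt⟩ := ext_smooth w (p0, a0) r hr hw
  obtain ⟨lt, hlt, elt⟩ := ext_smooth l (p0, a0) r hr hl
  obtain ⟨σt, hσt, eσt⟩ := ext_smooth σ (p0, b0) r hr hσ
  obtain ⟨mt, hmt, emt⟩ := ext_smooth m (p0, b0) r hr hm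
  obtain ⟨gt, hgt, egt⟩ := ext_smooth g (p0, a0, b0) r hr hg
  obtain ⟨ct, hct, ect, sct⟩ := ext_amp c (p0, a0, b0) r hr hc
  have hs : ∀ s q, ct (s, q) ≠ 0 → s0 ≤ |s| ∧ |s| ≤ s1 :=
    fun s q h => hcs s q (sct s q h).1 (sct s q h).2
  have hr2 : 0 < r / 2 := by positivity
  have dA : ∀ (f ft : P × V → ℝ), (∀ q ∈ ball (p0, a0) (r / 2), ft q = f q) →
      ContDiff ℝ ∞ ft → ∀ v, fderiv ℝ ft (p0, a0) (0, v) = fderiv ℝ (fun a => f (p0, a)) a0 v := by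
    intro f ft he hft v
    rw [← hl_fd1 ft hft]
    have ee1 : fderiv ℝ (fun a => ft (p0, a)) a0 = fderiv ℝ (fun a => f (p0, a)) a0 := by
      apply Filter.EventuallyEq.fderiv_eq
      filter_upwards [ball_mem_nhds a0 hr2] with a ha
      exact he _ (hl_mem2.2 ⟨mem_ball_self hr2, ha⟩)
    rw [ee1]
  have dB : ∀ (f ft : P × V → ℝ), (∀ q ∈ ball (p0, b0) (r / 2), ft q = f q) →
      ContDiff ℝ ∞ ft → ∀ v, fderiv ℝ ft (p0, b0) (0, v) = fderiv ℝ (fun a => f (p0, a)) b0 v := by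
    intro f ft he hft v
    rw [← hl_fd1 ft hft]
    have ee1 : fderiv ℝ (fun a => ft (p0, a)) b0 = fderiv ℝ (fun a => f (p0, a)) b0 := by
      apply Filter.EventuallyEq.fderiv_eq
      filter_upwards [ball_mem_nhds b0 hr2] with a ha
      exact he _ (hl_mem2.2 ⟨mem_ball_self hr2, ha⟩)
    rw [ee1]
  have e3' : ∀ b ∈ ball b0 (r / 2), fderiv ℝ (fun a => gt (p0, a, b)) a0
      = fderiv ℝ (fun a => g (p0, a, b)) a0 := by
    intro b hb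
    apply Filter.EventuallyEq.fderiv_eq
    filter_upwards [ball_mem_nhds a0 hr2] with a ha
    exact egt _ (mem_ball3.2 ⟨mem_ball_self hr2, ha, hb⟩)
  have ee3 : ∀ u : V, fderiv ℝ (fun b => fderiv ℝ (fun a => gt (p0, a, b)) a0 u) b0
      = fderiv ℝ (fun b => fderiv ℝ (fun a => g (p0, a, b)) a0 u) b0 := by
    intro u
    apply Filter.EventuallyEq.fderiv_eq
    filter_upwards [ball_mem_nhds b0 hr2] with b hb
    rw [e3' b hb]
  have e4 : ∀ u e : V, fderiv ℝ (fderiv ℝ gt) (p0, a0, b0) (0, u, 0) (0, 0, e) =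
      fderiv ℝ (fun b => fderiv ℝ (fun a => g (p0, a, b)) a0 u) b0 e := by
    intro u e
    rw [← ee3 u, ← hl_fd3 gt hgt]
    have h5 : (fun b => fderiv ℝ (fun a => gt (p0, a, b)) a0 u) =
        fun b => fderiv ℝ gt (p0, a0, b) (0, u, 0) := by
      funext b
      exact hl_fd2 gt hgt p0 a0 b u
    rw [h5]
  -- the directions on the `b` side
  have smB : ∀ (T : P × V →L[ℝ] ℝ) (x : ℝ) (v : V), T (0, x • v) = x * T (0, v) := by
    intro T x v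
    have h1 : ((0, x • v) : P × V) = x • (0, v) := by simp
    rw [h1, map_smul, smul_eq_mul]
  have adB : ∀ (T : P × V →L[ℝ] ℝ) (v v' : V), T (0, v - v') = T (0, v) - T (0, v') := by
    intro T v v'
    have h1 : ((0, v - v') : P × V) = (0, v) - (0, v') := by simp
    rw [h1, map_sub]
  set q : ℝ := fderiv ℝ (fun b => m (p0, b)) b0 e1 / fderiv ℝ (fun b => m (p0, b)) b0 e2 with hq
  set d1 : V := e1 - q • e2 with hd1
  have hd1σ : fderiv ℝ σt (p0, b0) (0, d1) = fderiv ℝ (fun b => σ (p0, b)) b0 e1 := by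
    rw [hd1, adB, smB, dB σ σt eσt hσt, dB σ σt eσt hσt, k12, mul_zero, sub_zero]
  have hd1m : fderiv ℝ mt (p0, b0) (0, d1) = 0 := by
    rw [hd1, adB, smB, dB m mt emt hmt, dB m mt emt hmt, hq, div_mul_cancel₀ _ k22, sub_self]
  have sc : ∀ v : V, (1 / (‖v‖ + 1) : ℝ) ≠ 0 := fun v => by
    have := norm_nonneg v
    positivity
  set f1 : V := (1 / (‖d1‖ + 1)) • d1 with hf1
  set f2 : V := (1 / (‖e2‖ + 1)) • e2 with hf2
  set f3 : V := (1 / (‖e3‖ + 1)) • e3 with hf3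
  let iA : V →L[ℝ] P × V × V := (ContinuousLinearMap.inr ℝ P (V × V)) ∘L
    (ContinuousLinearMap.inl ℝ V V)
  let γ : V →L[ℝ] ℝ := (ContinuousLinearMap.apply ℝ ℝ ((0, 0, f3) : P × V × V)) ∘L
      (fderiv ℝ (fderiv ℝ gt) (p0, a0, b0) ∘L iA)
  have hγ : ∀ v, γ v = fderiv ℝ (fderiv ℝ gt) (p0, a0, b0) (0, v, 0) (0, 0, f3) := fun v => rfl
  have hγ3 : γ u3 ≠ 0 := by
    rw [hγ]
    have h1 : ((0, 0, f3) : P × V × V) = (1 / (‖e3‖ + 1)) • (0, 0, e3) := by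
      rw [hf3]
      simp
    rw [h1, map_smul, smul_eq_mul, e4]
    exact mul_ne_zero (sc e3) hnd
  have hnd' : ∀ v : V, fderiv ℝ wt (p0, a0) (0, v) = 0 → fderiv ℝ lt (p0, a0) (0, v) = 0 →
      fderiv ℝ (fderiv ℝ gt) (p0, a0, b0) (0, v, 0) (0, 0, f3) = 0 → v = 0 := by
    intro v hv1 hv2 hv3
    refine hla_tri ((fderiv ℝ wt (p0, a0)) ∘L (ContinuousLinearMap.inr ℝ P V))
      ((fderiv ℝ lt (p0, a0)) ∘L (ContinuousLinearMap.inr ℝ P V)) γ u1 u2 u3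
      ?_ ?_ ?_ ?_ ?_ hγ3 v hv1 hv2 hv3
    · show fderiv ℝ wt (p0, a0) (0, u1) ≠ 0
      rw [dA w wt ewt hwt]
      exact h11
    · show fderiv ℝ wt (p0, a0) (0, u2) = 0
      rw [dA w wt ewt hwt]
      exact h12
    · show fderiv ℝ lt (p0, a0) (0, u2) ≠ 0
      rw [dA l lt elt hlt]
      exact h22
    · show fderiv ℝ wt (p0, a0) (0, u3) = 0
      rw [dA w wt ewt hwt]
      exact h13
    · show fderiv ℝ lt (p0, a0) (0, u3) = 0
      rw [dA l lt elt hlt]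
      exact h23
  obtain ⟨δ₀, c₀, C₁, hδ₀, hc₀, hC₁, hD⟩ := HLa_geo wt lt σt mt gt p0 a0 b0 s0 s1 hs0 hwt hlt
    hσt hmt hgt f1 f2 f3 (hla_norm d1) (hla_norm e2) (hla_norm e3)
    (by rw [hf1, smB, hd1σ]; exact mul_ne_zero (sc d1) k11)
    (by rw [hf1, smB, hd1m, mul_zero])
    (by rw [hf2, smB, dB m mt emt hmt]; exact mul_ne_zero (sc e2) k22)
    (by rw [hf3, smB, dB σ σt eσt hσt, k13, mul_zero])
    (by rw [hf3, smB, dB m mt emt hmt, k23, mul_zero]) hnd'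
  obtain ⟨δv, Cv, hδv, hCv, hv⟩ := vol_HLa wt lt hwt hlt p0 a0 γ
    (fun v h1 h2 h3 => hnd' v h1 h2 h3)
  set δ₁ := min (min δ₀ δv) (r / 2) with hδ₁
  have hδ₁0 : 0 < δ₁ := lt_min (lt_min hδ₀ hδv) hr2
  have hδ₁δ : δ₁ ≤ δ₀ := (min_le_left _ _).trans (min_le_left _ _)
  have hδ₁v : δ₁ ≤ δv := (min_le_left _ _).trans (min_le_right _ _)
  obtain ⟨φ, C₂, hC₂, hA⟩ := ampl ct hct s0 s1 hs p0 a0 b0 δ₁ δ₁ hδ₁0
  obtain ⟨Cb, hCb, hb⟩ := bil c₀ (max C₁ C₂) δ₁ s0 s1 hc₀ hδ₁0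
  refine ⟨δ₁ / 2, by positivity, Real.sqrt (Cb * Cv), Real.sqrt_nonneg _, ?_⟩
  intro p hp κ ε lam hκ hκ1 hε hεδ hlam A B mA mB bA bB sA sB
  have hp1 : p ∈ ball p0 δ₁ := ball_subset_ball (by linarith) hp
  have hDich := hD p (ball_subset_ball hδ₁δ hp1) κ ε hκ hκ1 hε (by linarith) δ₁ δ₁ hδ₁δ hδ₁δ
  have key := hb (fun a b => wt (p, a) - σt (p, b) + κ * (lt (p, a) * mt (p, b) +
      ε * gt (p, a, b)))
    (fun a a' => |wt (p, a) - wt (p, a')| +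
            (κ * |lt (p, a) - lt (p, a')| + κ * ε * ‖a - a'‖)) a0 b0 δ₁
    (fun s a b => ct (s, p, a, b)) φ (hDich.mono (le_max_left _ _))
    ((hA p hp1).mono (le_max_right _ _)) lam hlam A B mA mB bA bB
    (fun a ha => ball_subset_ball (by linarith) (sA a ha)) sB
  have hle : δ₁ / 2 ≤ r / 2 := by
    have : δ₁ ≤ r / 2 := min_le_right _ _
    linarith
  have heq : ∫ q : V × V, A q.1 * B q.2 * ∫ s : ℝ, ((c (s, p, q.1, q.2) : ℝ) : ℂ) *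
        ex (lam * (s * (w (p, q.1) - σ (p, q.2) + κ * (l (p, q.1) * m (p, q.2) +
          ε * g (p, q.1, q.2)))))
      = ∫ q : V × V, A q.1 * B q.2 * kk lam (fun s a b => ct (s, p, a, b))
        (fun a b => wt (p, a) - σt (p, b) + κ * (lt (p, a) * mt (p, b) +
          ε * gt (p, a, b))) q.1 q.2 := by
    apply integral_congr_ae
    filter_upwards with q
    by_cases h1 : A q.1 = 0
    · simp [h1]
    by_cases h2 : B q.2 = 0
    · simp [h2]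
    have hpr : p ∈ ball p0 (r / 2) := ball_subset_ball hle hp
    have har : q.1 ∈ ball a0 (r / 2) := ball_subset_ball hle (sA _ h1)
    have hbr : q.2 ∈ ball b0 (r / 2) := ball_subset_ball hle (sB _ h2)
    have hq : ((p, q.1, q.2) : P × V × V) ∈ ball ((p0, a0, b0) : P × V × V) (r / 2) :=
      mem_ball3.2 ⟨hpr, har, hbr⟩
    unfold kk
    congr 1
    apply integral_congr_ae
    filter_upwards with s
    rw [ect s _ hq, egt _ hq, ewt _ (hl_mem2.2 ⟨hpr, har⟩), elt _ (hl_mem2.2 ⟨hpr, har⟩),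
      eσt _ (hl_mem2.2 ⟨hpr, hbr⟩), emt _ (hl_mem2.2 ⟨hpr, hbr⟩)]
  rw [heq]
  have hv' := hv p (ball_subset_ball hδ₁v hp1) δ₁ hδ₁v lam κ (κ * ε) hlam hκ (by positivity)
  have h3 : ‖∫ q : V × V, A q.1 * B q.2 * kk lam (fun s a b => ct (s, p, a, b))
        (fun a b => wt (p, a) - σt (p, b) + κ * (lt (p, a) * mt (p, b) +
          ε * gt (p, a, b))) q.1 q.2‖ ^ 2 ≤
        (Cb * Cv) / (lam ^ 2 * κ * √ε) ^ 2 := by
    refine key.trans ?_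
    calc Cb / lam * ∫ a in ball a0 δ₁, ∫ a' in ball a0 δ₁,
          1 / (1 + lam * (|wt (p, a) - wt (p, a')| +
            (κ * |lt (p, a) - lt (p, a')| + κ * ε * ‖a - a'‖))) ^ 6
        ≤ Cb / lam * (Cv / (lam ^ 3 * (κ * (κ * ε)))) :=
          mul_le_mul_of_nonneg_left hv' (by positivity)
      _ = (Cb * Cv) / (lam ^ 2 * κ * √ε) ^ 2 := by
        have h4 : √ε ^ 2 = ε := Real.sq_sqrt hε.le
        rw [mul_pow, mul_pow, h4]
        field_simp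
  have h4 := Real.abs_le_sqrt h3
  rw [abs_of_nonneg (norm_nonneg _), Real.sqrt_div' _ (by positivity),
    Real.sqrt_sq (by positivity)] at h4
  exact h4

end Pool.Agent.N1F
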