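import Pool.Agent.N1.HL3

/-!
The local oscillatory estimate with a general coupling: abstract form.

Phase `w a - σ b + G a b`; `N a a'` is a size function for the differences `G a · - G a' ·`.
-/

namespace Pool.Agent.N1F

open MeasureTheory Set Metric Pool.Agent.MST Pool.Agent.N1
open scoped ContDiff

theorem hm_iter (f1 f2 f3 : ℝ → ℝ) (h1 : ContDiff ℝ ∞ f1) (h2 : ContDiff ℝ ∞ f2)
    (h3 : ContDiff ℝ ∞ f3) (s s' W W' : ℝ) (j : ℕ) (hj : 1 ≤ j) :
    iteratedDeriv j (fun t => s * (W - f1 t + f2 t) - s' * (W' - f1 t + f3 t)) 0 =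
      (s - s') * (-iteratedDeriv j f1 0 + iteratedDeriv j f3 0) +
        s * (iteratedDeriv j f2 0 - iteratedDeriv j f3 0) := by
  have h := hl_iter f1 f2 f3 h1 h2 h3 s s' W W' 1 j hj
  simpa only [one_mul, mul_one] using h

theorem hm_num1 (d X Y Z s N S σ1 t t0 M W c : ℝ) (hN : 0 ≤ N) (hs : |s| ≤ S)
    (hσ : 0 < σ1) (hX : σ1 ≤ |X|) (hY : |Y| ≤ σ1 / 4) (hZ : S * |Z| ≤ σ1 / 4 * (t * N))
    (ht0 : 0 < t0) (ht : t0 ≤ t) (hd : t * N ≤ |d|) (hW : |W| ≤ M * N) (hM : 0 < M)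
    (hc : 0 < c) (hcM : c * (t0 + M + 1) ≤ σ1 / 2 * t0) :
    c * (|d| + (|W| + N)) ≤ |d * (-X + Y) + s * Z| := by
  have h1 : 3 * σ1 / 4 ≤ |-X + Y| := by
    have h3 := abs_sub_abs_le_abs_sub (-X) (-Y)
    rw [abs_neg, abs_neg, sub_neg_eq_add] at h3
    linarith
  have h4 : |s * Z| ≤ S * |Z| := by
    rw [abs_mul]
    exact mul_le_mul_of_nonneg_right hs (abs_nonneg _)
  have h5 : σ1 / 4 * (t * N) ≤ σ1 / 4 * |d| := mul_le_mul_of_nonneg_left hd (by positivity)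
  have h6 : |d| * (3 * σ1 / 4) ≤ |d * (-X + Y)| := by
    rw [abs_mul]
    exact mul_le_mul_of_nonneg_left h1 (abs_nonneg _)
  have h7 : |d * (-X + Y)| - |s * Z| ≤ |d * (-X + Y) + s * Z| := by
    have h3 := abs_sub_abs_le_abs_sub (d * (-X + Y)) (-(s * Z))
    rw [abs_neg, sub_neg_eq_add] at h3
    exact h3
  have h8 : t0 * N ≤ |d| := (mul_le_mul_of_nonneg_right ht hN).trans hd
  have h9 : c * (|d| + (|W| + N)) * t0 ≤ c * (t0 + M + 1) * |d| := by
    have h10 : (|d| + (|W| + N)) * t0 ≤ (t0 + M + 1) * |d| := by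
      have h11 : (M + 1) * (t0 * N) ≤ (M + 1) * |d| := mul_le_mul_of_nonneg_left h8 (by positivity)
      have h12 : |W| * t0 ≤ M * N * t0 := mul_le_mul_of_nonneg_right hW ht0.le
      nlinarith
    calc c * (|d| + (|W| + N)) * t0 = c * ((|d| + (|W| + N)) * t0) := by ring
      _ ≤ c * ((t0 + M + 1) * |d|) := mul_le_mul_of_nonneg_left h10 hc.le
      _ = c * (t0 + M + 1) * |d| := by ring
  have h12 : c * (t0 + M + 1) * |d| ≤ σ1 / 2 * t0 * |d| :=
    mul_le_mul_of_nonneg_right hcM (abs_nonneg _)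
  have h13 : c * (|d| + (|W| + N)) ≤ σ1 / 2 * |d| := by
    have h14 : c * (|d| + (|W| + N)) * t0 ≤ σ1 / 2 * |d| * t0 := by linarith
    exact le_of_mul_le_mul_right h14 ht0
  linarith

theorem hm_num2 (d X Y Z s N s0 c3 t t1 M W c : ℝ) (hN : 0 ≤ N) (hs : s0 ≤ |s|) (hs0 : 0 < s0)
    (hXY : t * (|X| + |Y|) ≤ s0 * c3 / 2) (hZ : c3 * N ≤ |Z|) (ht1 : t ≤ t1)
    (hd : |d| ≤ t * N) (hW : |W| ≤ M * N) (hc : 0 < c) (hcM : c * (t1 + M + 1) ≤ s0 * c3 / 2) :
    c * (|d| + (|W| + N)) ≤ |d * (-X + Y) + s * Z| := by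
  have h1 : |-X + Y| ≤ |X| + |Y| := by
    have h2 := abs_add_le (-X) Y
    rwa [abs_neg] at h2
  have h2 : |d * (-X + Y)| ≤ t * N * (|X| + |Y|) := by
    rw [abs_mul]
    exact mul_le_mul hd h1 (abs_nonneg _) ((abs_nonneg _).trans hd)
  have h3 : t * N * (|X| + |Y|) ≤ s0 * c3 / 2 * N := by
    calc t * N * (|X| + |Y|) = t * (|X| + |Y|) * N := by ring
      _ ≤ s0 * c3 / 2 * N := mul_le_mul_of_nonneg_right hXY hN
  have h4 : s0 * (c3 * N) ≤ |s * Z| := by
    rw [abs_mul]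
    calc s0 * (c3 * N) ≤ s0 * |Z| := mul_le_mul_of_nonneg_left hZ hs0.le
      _ ≤ |s| * |Z| := mul_le_mul_of_nonneg_right hs (abs_nonneg _)
  have h5 : |s * Z| - |d * (-X + Y)| ≤ |d * (-X + Y) + s * Z| := by
    have h6 := abs_sub_abs_le_abs_sub (s * Z) (-(d * (-X + Y)))
    rw [abs_neg, sub_neg_eq_add, add_comm (s * Z)] at h6
    exact h6
  have h6 : c * (|d| + (|W| + N)) ≤ c * (t1 + M + 1) * N := by
    have h7 : |d| + (|W| + N) ≤ (t1 + M + 1) * N := by
      have h8 : t * N ≤ t1 * N := mul_le_mul_of_nonneg_right ht1 hN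
      linarith
    calc c * (|d| + (|W| + N)) ≤ c * ((t1 + M + 1) * N) :=
          mul_le_mul_of_nonneg_left h7 hc.le
      _ = c * (t1 + M + 1) * N := by ring
  have h8 : c * (t1 + M + 1) * N ≤ s0 * c3 / 2 * N := mul_le_mul_of_nonneg_right hcM hN
  linarith

/-- the hypotheses of the abstract lemma, for the phase `w a - σ b + G a b` and the size `N` -/
structure Cpl (w σ : V → ℝ) (G N : V → V → ℝ) (SA : Set V) (b₀ e1 : V)
    (ρ s0 S σ1 L c3 t0 t1 M : ℝ) : Prop where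
  sw : ContDiff ℝ ∞ w
  sσ : ContDiff ℝ ∞ σ
  sG : ContDiff ℝ ∞ (fun x : V × V => G x.1 x.2)
  sN : Continuous (fun x : V × V => N x.1 x.2)
  nonneg : ∀ a a', 0 ≤ N a a'
  en : ‖e1‖ ≤ 1
  es : ∀ b ∈ closedBall b₀ (3 * ρ), σ1 ≤ |deriv (fun t : ℝ => σ (b + t • e1)) 0| ∧
    ∀ a ∈ SA, |deriv (fun t : ℝ => G a (b + t • e1)) 0| ≤ σ1 / 4
  bσ : ∀ e : V, ‖e‖ ≤ 1 → ∀ b ∈ closedBall b₀ (3 * ρ), ∀ j : ℕ, 1 ≤ j → j ≤ 9 →
    |iteratedDeriv j (fun t : ℝ => σ (b + t • e)) 0| ≤ L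
  bG : ∀ e : V, ‖e‖ ≤ 1 → ∀ a ∈ SA, ∀ b ∈ closedBall b₀ (3 * ρ), ∀ j : ℕ, 1 ≤ j → j ≤ 9 →
    |iteratedDeriv j (fun t : ℝ => G a (b + t • e)) 0| ≤ L
  bN : ∀ e : V, ‖e‖ ≤ 1 → ∀ a ∈ SA, ∀ a' ∈ SA, ∀ b ∈ closedBall b₀ (3 * ρ), ∀ j : ℕ, j ≤ 9 →
    |iteratedDeriv j (fun t : ℝ => G a (b + t • e)) 0 -
      iteratedDeriv j (fun t : ℝ => G a' (b + t • e)) 0| ≤ L * N a a'
  key : ∀ a ∈ SA, ∀ a' ∈ SA, |w a - w a'| ≤ M * N a a' → ∃ (t c : ℝ) (e : V), t0 ≤ t ∧
    t ≤ t1 ∧ c3 ≤ c ∧ ‖e‖ ≤ 1 ∧ ∀ b ∈ closedBall b₀ (3 * ρ),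
      S * |deriv (fun t : ℝ => G a (b + t • e1)) 0 - deriv (fun t : ℝ => G a' (b + t • e1)) 0| ≤
        σ1 / 4 * (t * N a a') ∧
      t * (|deriv (fun t : ℝ => σ (b + t • e)) 0| + |deriv (fun t : ℝ => G a' (b + t • e)) 0|) ≤
        s0 * c / 2 ∧
      c * N a a' ≤ |deriv (fun t : ℝ => G a (b + t • e)) 0 -
        deriv (fun t : ℝ => G a' (b + t • e)) 0|

theorem HL_abs (s0 s1 σ1 L c3 t0 t1 : ℝ) (hs0 : 0 < s0) (hσ1 : 0 < σ1) (hL : 0 < L)
    (hc3 : 0 < c3) (ht0 : 0 < t0) (ht1 : 0 ≤ t1) :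
    ∃ c0 C0 : ℝ, 0 < c0 ∧ 0 ≤ C0 ∧
      ∀ (w σ : V → ℝ) (G N : V → V → ℝ) (SA : Set V) (b₀ e1 : V) (ρ : ℝ),
        Cpl w σ G N SA b₀ e1 ρ s0 (|s1| + 1) σ1 L c3 t0 t1 (2 * L + 2) →
        Dich (fun a b => w a - σ b + G a b) (fun a a' => |w a - w a'| + N a a') SA b₀ ρ
          c0 C0 s0 s1 := by
  set S : ℝ := |s1| + 1 with hS
  have hSp : 0 < S := by positivity
  set M : ℝ := 2 * L + 2 with hM
  have hMp : 0 < M := by positivity
  obtain ⟨c0, hc0, hc1, hc2, hc3', hc4⟩ : ∃ c : ℝ, 0 < c ∧ c ≤ 1 / 3 ∧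
      c * (t0 + M + 1) ≤ σ1 / 2 * t0 ∧ c * (t1 + M + 1) ≤ s0 * c3 / 2 ∧ c ≤ σ1 / 2 := by
    refine ⟨min (1 / 3) (min (σ1 / 2 * t0 / (t0 + M + 1)) (min (s0 * c3 / 2 / (t1 + M + 1))
      (σ1 / 2))), ?_, ?_, ?_, ?_, ?_⟩
    · refine lt_min (by norm_num) (lt_min (by positivity) (lt_min (by positivity) (by positivity)))
    · exact min_le_left _ _
    · rw [← le_div_iff₀ (by positivity)]
      exact (min_le_right _ _).trans (min_le_left _ _)
    · rw [← le_div_iff₀ (by positivity)]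
      exact (min_le_right _ _).trans ((min_le_right _ _).trans (min_le_left _ _))
    · exact (min_le_right _ _).trans ((min_le_right _ _).trans (min_le_right _ _))
  refine ⟨c0, 2 * L + S * L, hc0, by positivity, ?_⟩
  intro w σ G N SA b₀ e1 ρ H
  have sm1 : ∀ b e : V, ContDiff ℝ ∞ (fun t : ℝ => σ (b + t • e)) := fun b e =>
    H.sσ.comp (by fun_prop)
  have sm2 : ∀ a b e : V, ContDiff ℝ ∞ (fun t : ℝ => G a (b + t • e)) := fun a b e =>
    H.sG.comp (g := fun x : V × V => G x.1 x.2) (f := fun t : ℝ => (a, b + t • e)) (by fun_prop)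
  have key1 : ∀ (s s' : ℝ) (a a' b e : V),
      deriv (fun t : ℝ => s * (w a - σ (b + t • e) + G a (b + t • e)) -
        s' * (w a' - σ (b + t • e) + G a' (b + t • e))) 0 =
      (s - s') * (-(deriv (fun t : ℝ => σ (b + t • e)) 0) +
          deriv (fun t : ℝ => G a' (b + t • e)) 0) +
        s * (deriv (fun t : ℝ => G a (b + t • e)) 0 -
          deriv (fun t : ℝ => G a' (b + t • e)) 0) := by
    intro s s' a a' b e
    rw [← iteratedDeriv_one, hm_iter _ _ _ (sm1 b e) (sm2 a b e) (sm2 a' b e) s s' _ _ 1 le_rfl,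
      iteratedDeriv_one, iteratedDeriv_one, iteratedDeriv_one]
  refine ⟨?_, ?_, ?_, ?_, ?_, ?_⟩
  · exact ((H.sw.comp (by fun_prop)).sub (H.sσ.comp (by fun_prop))).add H.sG
  · have c1 : Continuous (fun x : V × V => w x.1) := H.sw.continuous.comp (by fun_prop)
    have c2 : Continuous (fun x : V × V => w x.2) := H.sw.continuous.comp (by fun_prop)
    exact (c1.sub c2).abs.add H.sN
  · intro a a'
    have := H.nonneg a a'
    positivity
  · refine ⟨e1, H.en, fun a ha b hb => ?_⟩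
    have h3 := key1 1 0 a a b e1
    have h4 : (fun t : ℝ => 1 * (w a - σ (b + t • e1) + G a (b + t • e1)) -
        0 * (w a - σ (b + t • e1) + G a (b + t • e1))) =
        fun t : ℝ => w a - σ (b + t • e1) + G a (b + t • e1) := by
      funext t
      ring
    rw [h4] at h3
    show c0 ≤ |deriv (fun t : ℝ => w a - σ (b + t • e1) + G a (b + t • e1)) 0|
    rw [h3]
    have h5 := (H.es b hb).1
    have h6 := (H.es b hb).2 a ha
    set X := deriv (fun t : ℝ => σ (b + t • e1)) 0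
    set Y := deriv (fun t : ℝ => G a (b + t • e1)) 0
    have h7 : |X| - |Y| ≤ |-X + Y| := by
      have h8 := abs_sub_abs_le_abs_sub (-X) (-Y)
      rw [abs_neg, abs_neg, sub_neg_eq_add] at h8
      exact h8
    have h9 : (1 - 0 : ℝ) * (-X + Y) + 1 * (Y - Y) = -X + Y := by ring
    rw [h9]
    linarith
  · intro a ha a' ha'
    have hN0 := H.nonneg a a'
    by_cases hW : |w a - w a'| ≤ M * N a a'
    · right
      intro s s' hs hs1 hs' hs1'
      have hsS : |s| ≤ S := by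
        have := le_abs_self s1
        linarith
      obtain ⟨t, c, e, ht0', ht1', hcc, he, hke⟩ := H.key a ha a' ha' hW
      by_cases hd : t * N a a' ≤ |s - s'|
      · refine ⟨e1, H.en, fun b hb => ?_⟩
        show c0 * (|s - s'| + (|w a - w a'| + N a a')) ≤
          |deriv (fun t : ℝ => s * (w a - σ (b + t • e1) + G a (b + t • e1)) -
            s' * (w a' - σ (b + t • e1) + G a' (b + t • e1))) 0|
        rw [key1]
        exact hm_num1 (s - s') _ _ _ s (N a a') S σ1 t t0 M (w a - w a') c0 hN0 hsS hσ1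
          (H.es b hb).1 ((H.es b hb).2 a' ha') (hke b hb).1 ht0 ht0' hd hW hMp hc0 hc2
      · have hd' : |s - s'| ≤ t * N a a' := (not_le.mp hd).le
        refine ⟨e, he, fun b hb => ?_⟩
        show c0 * (|s - s'| + (|w a - w a'| + N a a')) ≤
          |deriv (fun t : ℝ => s * (w a - σ (b + t • e) + G a (b + t • e)) -
            s' * (w a' - σ (b + t • e) + G a' (b + t • e))) 0|
        rw [key1]
        have hc3'' : s0 * c3 / 2 ≤ s0 * c / 2 := by
          have := mul_le_mul_of_nonneg_left hcc hs0.le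
          linarith
        exact hm_num2 (s - s') _ _ _ s (N a a') s0 c t t1 M (w a - w a') c0 hN0 hs hs0
          (hke b hb).2.1 (hke b hb).2.2 ht1' hd' hW hc0 (hc3'.trans hc3'')
    · left
      have hW' : M * N a a' ≤ |w a - w a'| := (not_le.mp hW).le
      intro b hb
      show c0 * (|w a - w a'| + N a a') ≤ |w a - σ b + G a b - (w a' - σ b + G a' b)|
      have h3 := H.bN 0 (by simp) a ha a' ha' b hb 0 (by norm_num)
      simp only [iteratedDeriv_zero, smul_zero, add_zero] at h3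
      have h5 : w a - σ b + G a b - (w a' - σ b + G a' b) = (w a - w a') + (G a b - G a' b) := by
        ring
      rw [h5]
      have h6 : |w a - w a'| - |G a b - G a' b| ≤ |(w a - w a') + (G a b - G a' b)| := by
        have h8 := abs_sub_abs_le_abs_sub (w a - w a') (-(G a b - G a' b))
        rw [abs_neg, sub_neg_eq_add] at h8
        exact h8
      have h7 : M * N a a' = 2 * (L * N a a') + 2 * N a a' := by rw [hM]; ring
      have h8 : 0 ≤ L * N a a' := by positivity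
      have h9 : 0 ≤ |w a - w a'| := abs_nonneg _
      have h10 : c0 * (|w a - w a'| + N a a') ≤ 1 / 3 * (|w a - w a'| + N a a') :=
        mul_le_mul_of_nonneg_right hc1 (by positivity)
      linarith
  · intro a ha a' ha' s s' hs hs' e he b hb j hj hj9
    show |iteratedDeriv j (fun t : ℝ => s * (w a - σ (b + t • e) + G a (b + t • e)) -
        s' * (w a' - σ (b + t • e) + G a' (b + t • e))) 0| ≤
      (2 * L + S * L) * (|s - s'| + (|w a - w a'| + N a a'))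
    rw [hm_iter _ _ _ (sm1 b e) (sm2 a b e) (sm2 a' b e) s s' _ _ j hj]
    have h3 := H.bσ e he b hb j hj hj9
    have h4 := H.bG e he a' ha' b hb j hj hj9
    have h5 := H.bN e he a ha a' ha' b hb j hj9
    have hN0 := H.nonneg a a'
    have hsS : |s| ≤ S := by
      have := le_abs_self s1
      linarith
    have h6 : |-iteratedDeriv j (fun t : ℝ => σ (b + t • e)) 0 +
        iteratedDeriv j (fun t : ℝ => G a' (b + t • e)) 0| ≤ 2 * L := by
      refine (abs_add_le _ _).trans ?_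
      rw [abs_neg]
      linarith
    have h7 : |(s - s') * (-iteratedDeriv j (fun t : ℝ => σ (b + t • e)) 0 +
        iteratedDeriv j (fun t : ℝ => G a' (b + t • e)) 0)| ≤ |s - s'| * (2 * L) := by
      rw [abs_mul]
      exact mul_le_mul_of_nonneg_left h6 (abs_nonneg _)
    have h8 : |s * (iteratedDeriv j (fun t : ℝ => G a (b + t • e)) 0 -
        iteratedDeriv j (fun t : ℝ => G a' (b + t • e)) 0)| ≤ S * (L * N a a') := by
      rw [abs_mul]
      exact mul_le_mul hsS h5 (abs_nonneg _) hSp.le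
    refine ((abs_add_le _ _).trans (add_le_add h7 h8)).trans ?_
    have h9 : 0 ≤ |w a - w a'| := abs_nonneg _
    have h10 : 0 ≤ |s - s'| := abs_nonneg _
    have h12 : 0 ≤ S * L * |s - s'| := by positivity
    have h13 : 0 ≤ L * N a a' := by positivity
    have h14 : 0 ≤ (2 * L + S * L) * |w a - w a'| := by positivity
    nlinarith

end Pool.Agent.N1F
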