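import Pool.Agent.N1F.HM1

/-!
The geometry for the anisotropic estimate: phase
`w (p, a) - σ (p, b) + κ (α (p, a) β (p, b) + ε g (p, a, b))`.
-/

namespace Pool.Agent.N1F

open MeasureTheory Set Metric Pool.Agent.MST Pool.Agent.N1
open scoped ContDiff

theorem hm_alg (wl αl γ : V →L[ℝ] ℝ) (h : ∀ u, wl u = 0 → αl u = 0 → γ u = 0 → u = 0) :
    ∃ η c : ℝ, 0 < η ∧ 0 < c ∧ ∀ v, |wl v| ≤ η * ‖v‖ → |αl v| ≤ η * ‖v‖ → c * ‖v‖ ≤ |γ v| := by
  let L : V →L[ℝ] V := wl.prod (αl.prod γ)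
  have hL : ∀ v, L v = (wl v, αl v, γ v) := fun v => rfl
  have hker : LinearMap.ker L.toLinearMap = ⊥ := by
    rw [LinearMap.ker_eq_bot']
    intro v hv
    have hv' : L v = 0 := hv
    rw [hL, Prod.mk_eq_zero, Prod.mk_eq_zero] at hv'
    exact h v hv'.1 hv'.2.1 hv'.2.2
  obtain ⟨K, hK, hanti⟩ := LinearMap.exists_antilipschitzWith L.toLinearMap hker
  have hK' : (0 : ℝ) < K := hK
  have hb : ∀ v, ‖v‖ ≤ K * ‖L v‖ := by
    intro v
    have h0 := hanti.le_mul_dist v 0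
    have h1 : dist (L.toLinearMap v) (L.toLinearMap 0) = ‖L v‖ := by
      rw [map_zero]
      exact dist_zero_right (L v)
    rw [h1, dist_zero_right] at h0
    exact h0
  refine ⟨1 / (2 * K), 1 / K, by positivity, by positivity, fun v hv1 hv2 => ?_⟩
  rcases eq_or_ne v 0 with hv0 | hv0
  · simp [hv0]
  have hvp : 0 < ‖v‖ := norm_pos_iff.mpr hv0
  have h1 := hb v
  rw [hL, Prod.norm_def, Prod.norm_def] at h1
  have h2 : 1 / K * ‖v‖ ≤ max ‖wl v‖ (max ‖αl v‖ ‖γ v‖) := by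
    rw [one_div, inv_mul_le_iff₀ hK']
    exact h1
  have h3 : 1 / (2 * K) * ‖v‖ < 1 / K * ‖v‖ := by
    refine mul_lt_mul_of_pos_right ?_ hvp
    rw [div_lt_div_iff₀ (by positivity) hK']
    linarith
  rw [Real.norm_eq_abs, Real.norm_eq_abs, Real.norm_eq_abs] at h2
  rcases le_max_iff.mp h2 with h5 | h5
  · exact absurd h5 (not_le.mpr (hv1.trans_lt h3))
  · rcases le_max_iff.mp h5 with h6 | h6
    · exact absurd h6 (not_le.mpr (hv2.trans_lt h3))
    · exact h6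

/-- choice of the closeness parameter -/
theorem hm_pick (m1 m2 σ1 L S tB tC s0 c3 K c4 η M : ℝ) (h1 : 0 < m1) (h2 : 0 < m2) (h3 : 0 < σ1)
    (hL : 0 < L) (hS : 0 < S) (hB : 0 < tB) (hC : 0 < tC) (hs0 : 0 < s0) (hc3 : 0 < c3)
    (hK : 0 < K) (hc4 : 0 < c4) (hη : 0 < η) (hM : 0 < M) :
    ∃ x : ℝ, 0 < x ∧ x ≤ 1 ∧ x ≤ m1 / 2 ∧ x ≤ m2 / 2 ∧ L * x ≤ σ1 / 8 ∧ S * x ≤ σ1 * tB / 8 ∧
      tC * ((1 + L) * x) ≤ s0 * c3 / 4 ∧ (1 + K) * x ≤ c4 / 2 ∧ x ≤ η / 2 ∧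
      M * ((1 + K) * x) ≤ η / 2 ∧ K * x ≤ η / 2 ∧ tC * (L * x) ≤ s0 * c3 / 4 := by
  have key : ∀ (l : List (ℝ × ℝ)), (∀ q ∈ l, 0 < q.1 ∧ 0 < q.2) →
      ∃ x : ℝ, 0 < x ∧ ∀ q ∈ l, q.1 * x ≤ q.2 := by
    intro l
    induction l with
    | nil => exact fun _ => ⟨1, one_pos, by simp⟩
    | cons q l ih =>
      intro hq
      obtain ⟨x, hx, hx2⟩ := ih fun r hr => hq r (List.mem_cons_of_mem _ hr)
      have hq0 := hq q List.mem_cons_self
      refine ⟨min x (q.2 / q.1), lt_min hx (div_pos hq0.2 hq0.1), fun r hr => ?_⟩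
      rcases List.mem_cons.1 hr with h | h
      · subst h
        calc r.1 * min x (r.2 / r.1) ≤ r.1 * (r.2 / r.1) :=
              mul_le_mul_of_nonneg_left (min_le_right _ _) hq0.1.le
          _ = r.2 := by
            have := hq0.1.ne'
            field_simp
      · have hr0 := hq r (List.mem_cons_of_mem _ h)
        exact (mul_le_mul_of_nonneg_left (min_le_left _ _) hr0.1.le).trans (hx2 r h)
  obtain ⟨x, hx, hx2⟩ := key [(1, 1), (1, m1 / 2), (1, m2 / 2), (L, σ1 / 8), (S, σ1 * tB / 8),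
    (tC * (1 + L), s0 * c3 / 4), (1 + K, c4 / 2), (1, η / 2), (M * (1 + K), η / 2), (K, η / 2),
    (tC * L, s0 * c3 / 4)] (by
      simp only [List.forall_mem_cons]
      refine ⟨⟨by positivity, by positivity⟩, ⟨by positivity, by positivity⟩,
        ⟨by positivity, by positivity⟩, ⟨by positivity, by positivity⟩,
        ⟨by positivity, by positivity⟩, ⟨by positivity, by positivity⟩,
        ⟨by positivity, by positivity⟩, ⟨by positivity, by positivity⟩,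
        ⟨by positivity, by positivity⟩, ⟨by positivity, by positivity⟩,
        ⟨by positivity, by positivity⟩, by simp⟩)
  simp only [List.forall_mem_cons, one_mul] at hx2
  obtain ⟨a1, a2, a3, a4, a5, a6, a7, a8, a9, a10, a11, _⟩ := hx2
  exact ⟨x, hx, a1, a2, a3, a4, a5, by linarith, a7, a8, by linarith, a10, by linarith⟩

end Pool.Agent.N1F
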