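import Pool.Agent.N1F.HM3

/-!
The geometry for the anisotropic estimate, continued.
-/

namespace Pool.Agent.N1F

open MeasureTheory Set Metric Pool.Agent.MST Pool.Agent.N1
open scoped ContDiff

theorem hm_B3 (κ ε A u b g K L m2 : ℝ) (hκ : 0 < κ) (hε : 0 < ε) (hu : 0 ≤ u)
    (hL : 0 < L) (hK : 1 ≤ K) (hm2 : 0 < m2) (hA : K * (ε * u) ≤ |A|) (hb : m2 / 2 ≤ |b|)
    (hg : |g| ≤ L * u) (hKL : L ≤ K * (m2 / 4)) :
    m2 / 8 * (κ * |A| + κ * ε * u) ≤ |κ * (A * b + ε * g)| := by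
  have h1 : |A * b| - |ε * g| ≤ |A * b + ε * g| := by
    have h8 := abs_sub_abs_le_abs_sub (A * b) (-(ε * g))
    rw [abs_neg, sub_neg_eq_add] at h8
    exact h8
  have h2 : |A| * (m2 / 2) ≤ |A * b| := by
    rw [abs_mul]
    exact mul_le_mul_of_nonneg_left hb (abs_nonneg _)
  have h3 : |ε * g| ≤ ε * (L * u) := by
    rw [abs_mul, abs_of_pos hε]
    exact mul_le_mul_of_nonneg_left hg hε.le
  have h4 : ε * (L * u) ≤ m2 / 4 * |A| := by
    calc ε * (L * u) = L * (ε * u) := by ring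
      _ ≤ K * (m2 / 4) * (ε * u) := mul_le_mul_of_nonneg_right hKL (by positivity)
      _ = m2 / 4 * (K * (ε * u)) := by ring
      _ ≤ m2 / 4 * |A| := mul_le_mul_of_nonneg_left hA (by positivity)
  have h5 : ε * u ≤ |A| := by
    have : 1 * (ε * u) ≤ K * (ε * u) := mul_le_mul_of_nonneg_right hK (by positivity)
    linarith
  have h6 : m2 / 8 * (|A| + ε * u) ≤ |A * b + ε * g| := by
    have h7 : m2 / 8 * (|A| + ε * u) ≤ m2 / 8 * (|A| + |A|) :=
      mul_le_mul_of_nonneg_left (by linarith) (by positivity)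
    linarith
  rw [abs_mul, abs_of_pos hκ]
  calc m2 / 8 * (κ * |A| + κ * ε * u) = κ * (m2 / 8 * (|A| + ε * u)) := by ring
    _ ≤ κ * |A * b + ε * g| := mul_le_mul_of_nonneg_left h6 hκ.le

theorem hm_B1 (κ ε A u b g K L S σ1 t x : ℝ) (hκ : 0 < κ) (hε : 0 < ε) (hu : 0 ≤ u) (hS : 0 < S)
    (hσ1 : 0 < σ1) (ht : 0 < t) (hA : K * (ε * u) ≤ |A|) (hb : |b| ≤ x)
    (hg : |g| ≤ L * u) (hx : S * x ≤ σ1 * t / 8) (hKL : S * L ≤ K * (σ1 * t / 8)) :
    S * |κ * (A * b + ε * g)| ≤ σ1 / 4 * (t * (κ * |A| + κ * ε * u)) := by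
  have h1 : |A * b + ε * g| ≤ |A| * x + ε * (L * u) := by
    refine (abs_add_le _ _).trans (add_le_add ?_ ?_)
    · rw [abs_mul]
      exact mul_le_mul_of_nonneg_left hb (abs_nonneg _)
    · rw [abs_mul, abs_of_pos hε]
      exact mul_le_mul_of_nonneg_left hg hε.le
  have h2 : S * (|A| * x) ≤ σ1 * t / 8 * |A| := by
    calc S * (|A| * x) = S * x * |A| := by ring
      _ ≤ σ1 * t / 8 * |A| := mul_le_mul_of_nonneg_right hx (abs_nonneg _)
  have h3 : S * (ε * (L * u)) ≤ σ1 * t / 8 * |A| := by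
    calc S * (ε * (L * u)) = S * L * (ε * u) := by ring
      _ ≤ K * (σ1 * t / 8) * (ε * u) := mul_le_mul_of_nonneg_right hKL (by positivity)
      _ = σ1 * t / 8 * (K * (ε * u)) := by ring
      _ ≤ σ1 * t / 8 * |A| := mul_le_mul_of_nonneg_left hA (by positivity)
  have h4 : S * |A * b + ε * g| ≤ σ1 * t / 4 * |A| := by
    calc S * |A * b + ε * g| ≤ S * (|A| * x + ε * (L * u)) := mul_le_mul_of_nonneg_left h1 hS.le
      _ = S * (|A| * x) + S * (ε * (L * u)) := by ring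
      _ ≤ σ1 * t / 4 * |A| := by linarith
  have h5 : 0 ≤ σ1 / 4 * (t * (κ * ε * u)) := by positivity
  rw [abs_mul, abs_of_pos hκ]
  calc S * (κ * |A * b + ε * g|) = κ * (S * |A * b + ε * g|) := by ring
    _ ≤ κ * (σ1 * t / 4 * |A|) := mul_le_mul_of_nonneg_left h4 hκ.le
    _ ≤ σ1 / 4 * (t * (κ * |A| + κ * ε * u)) := by
      have e : σ1 / 4 * (t * (κ * |A| + κ * ε * u)) =
        κ * (σ1 * t / 4 * |A|) + σ1 / 4 * (t * (κ * ε * u)) := by ring
      linarith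

theorem hm_C3 (κ ε A u b g B K c4 c3 x : ℝ) (hκ : 0 < κ) (hε : 0 < ε) (hu : 0 ≤ u)
    (hK : 1 ≤ K) (hc3 : 0 < c3) (hx : 0 < x) (hA : |A| ≤ K * (ε * u)) (hb : |b| ≤ x)
    (hg : |g - B| ≤ x * u) (hB : c4 * u ≤ |B|) (hKx : (1 + K) * x ≤ c4 / 2)
    (hcc : c3 * (2 * (1 + K)) ≤ c4) :
    c3 * (κ * |A| + κ * ε * u) ≤ |κ * (A * b + ε * g)| := by
  have h1 : |ε * g| - |A * b| ≤ |A * b + ε * g| := by
    have h8 := abs_sub_abs_le_abs_sub (ε * g) (-(A * b))
    rw [abs_neg, sub_neg_eq_add, add_comm (ε * g)] at h8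
    exact h8
  have h2 : |A * b| ≤ K * (ε * u) * x := by
    rw [abs_mul]
    exact mul_le_mul hA hb (abs_nonneg _) (by positivity)
  have h3 : c4 * u - x * u ≤ |g| := by
    have h4 := abs_sub_abs_le_abs_sub B (B - g)
    rw [sub_sub_cancel, abs_sub_comm B g] at h4
    linarith
  have h4 : ε * (c4 * u - x * u) ≤ |ε * g| := by
    rw [abs_mul, abs_of_pos hε]
    exact mul_le_mul_of_nonneg_left h3 hε.le
  have h5 : c3 * (|A| + ε * u) ≤ |A * b + ε * g| := by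
    have h6 : c3 * (|A| + ε * u) ≤ c3 * ((1 + K) * (ε * u)) :=
      mul_le_mul_of_nonneg_left (by linarith) hc3.le
    have h7 : c3 * ((1 + K) * (ε * u)) ≤ c4 / 2 * (ε * u) := by
      have h8 : c3 * (1 + K) ≤ c4 / 2 := by linarith
      calc c3 * ((1 + K) * (ε * u)) = c3 * (1 + K) * (ε * u) := by ring
        _ ≤ c4 / 2 * (ε * u) := mul_le_mul_of_nonneg_right h8 (by positivity)
    have h9 : (1 + K) * x * (ε * u) ≤ c4 / 2 * (ε * u) :=
      mul_le_mul_of_nonneg_right hKx (by positivity)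
    have h10 : ε * (c4 * u - x * u) - K * (ε * u) * x = c4 * (ε * u) - (1 + K) * x * (ε * u) := by
      ring
    linarith
  rw [abs_mul, abs_of_pos hκ]
  calc c3 * (κ * |A| + κ * ε * u) = κ * (c3 * (|A| + ε * u)) := by ring
    _ ≤ κ * |A * b + ε * g| := mul_le_mul_of_nonneg_left h5 hκ.le

/-- upper bound for a derivative of the coupling -/
theorem hm_up (κ ε A b g La Lg x y : ℝ) (hκ : 0 < κ) (hκ1 : κ ≤ 1) (hε : 0 < ε) (hεx : ε ≤ x)
    (hA : |A| ≤ La) (hb : |b| ≤ y) (hg : |g| ≤ Lg) : |κ * (A * b + ε * g)| ≤ La * y + x * Lg := by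
  have h1 : |A * b + ε * g| ≤ La * y + x * Lg := by
    refine (abs_add_le _ _).trans (add_le_add ?_ ?_)
    · rw [abs_mul]
      exact mul_le_mul hA hb (abs_nonneg _) ((abs_nonneg _).trans hA)
    · rw [abs_mul, abs_of_pos hε]
      exact mul_le_mul hεx hg (abs_nonneg _) (hε.le.trans hεx)
  rw [abs_mul, abs_of_pos hκ]
  calc κ * |A * b + ε * g| ≤ 1 * |A * b + ε * g| := mul_le_mul_of_nonneg_right hκ1 (abs_nonneg _)
    _ ≤ La * y + x * Lg := by rw [one_mul]; exact h1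

/-- upper bound for a difference of derivatives of the coupling -/
theorem hm_upD (κ ε A b g u Lb Lg L : ℝ) (hκ : 0 < κ) (hε : 0 < ε) (hu : 0 ≤ u)
    (hb : |b| ≤ Lb) (hg : |g| ≤ Lg * u) (h1 : Lb ≤ L) (h2 : Lg ≤ L) :
    |κ * (A * b + ε * g)| ≤ L * (κ * |A| + κ * ε * u) := by
  have h3 : |A * b + ε * g| ≤ L * (|A| + ε * u) := by
    have h4 : |A * b| ≤ L * |A| := by
      rw [abs_mul, mul_comm]
      exact mul_le_mul_of_nonneg_right (hb.trans h1) (abs_nonneg _)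
    have h5 : |ε * g| ≤ L * (ε * u) := by
      rw [abs_mul, abs_of_pos hε]
      calc ε * |g| ≤ ε * (Lg * u) := mul_le_mul_of_nonneg_left hg hε.le
        _ = Lg * (ε * u) := by ring
        _ ≤ L * (ε * u) := mul_le_mul_of_nonneg_right h2 (by positivity)
    refine (abs_add_le _ _).trans ?_
    linarith
  rw [abs_mul, abs_of_pos hκ]
  calc κ * |A * b + ε * g| ≤ κ * (L * (|A| + ε * u)) := mul_le_mul_of_nonneg_left h3 hκ.le
    _ = L * (κ * |A| + κ * ε * u) := by ring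

theorem hm_iterG (b1 g1 : ℝ → ℝ) (h1 : ContDiff ℝ ∞ b1) (h2 : ContDiff ℝ ∞ g1) (κ ε A : ℝ)
    (j : ℕ) : iteratedDeriv j (fun t => κ * (A * b1 t + ε * g1 t)) 0 =
      κ * (A * iteratedDeriv j b1 0 + ε * iteratedDeriv j g1 0) := by
  have k1 : ContDiffAt ℝ j b1 0 := (h1.of_le (by exact_mod_cast le_top)).contDiffAt
  have k2 : ContDiffAt ℝ j g1 0 := (h2.of_le (by exact_mod_cast le_top)).contDiffAt
  rw [iteratedDeriv_const_mul_field, iteratedDeriv_fun_add (contDiffAt_const.mul k1)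
    (contDiffAt_const.mul k2), iteratedDeriv_const_mul_field, iteratedDeriv_const_mul_field]

end Pool.Agent.N1F
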