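import Pool.Agent.N1.G1

/-!
N1F, Proposition I: the second differences of `√(1 - u - s)` in divided form.
-/

namespace Pool.Agent.N1F

open MeasureTheory Set Metric Pool.Agent.MP_6cbfb8_an Pool.Agent.MST Pool.Agent.N1
open scoped ENNReal Real ContDiff

/-- The height function in the squared coordinates. -/
noncomputable def Qs (c u s : ℝ) : ℝ := Sq c (1 - u - s)

/-- The pure second difference, divided. -/
noncomputable def E1 (c A x1 x2 x3 x4 s : ℝ) : ℝ :=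
  (A * (x1 + x2) * ((x1 + x3) / (Qs c (A * x1 ^ 2) s + Qs c (A * x3 ^ 2) s) +
      (x2 + x4) / (Qs c (A * x2 ^ 2) s + Qs c (A * x4 ^ 2) s)) +
    2 * (Qs c (A * x1 ^ 2) s + Qs c (A * x2 ^ 2) s)) /
  ((Qs c (A * x1 ^ 2) s + Qs c (A * x2 ^ 2) s) * (Qs c (A * x3 ^ 2) s + Qs c (A * x4 ^ 2) s))

/-- The mixed second difference, divided. -/
noncomputable def E3 (c A B x x' w w' : ℝ) : ℝ :=
  (x + x') * (w + w') * (1 / (Qs c (A * x ^ 2) (B * w ^ 2) + Qs c (A * x ^ 2) (B * w' ^ 2)) +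
    1 / (Qs c (A * x' ^ 2) (B * w ^ 2) + Qs c (A * x' ^ 2) (B * w' ^ 2))) /
  ((Qs c (A * x ^ 2) (B * w ^ 2) + Qs c (A * x' ^ 2) (B * w ^ 2)) *
    (Qs c (A * x ^ 2) (B * w' ^ 2) + Qs c (A * x' ^ 2) (B * w' ^ 2)))

lemma Qs_comm (c u s : ℝ) : Qs c u s = Qs c s u := by
  unfold Qs
  congr 1
  ring

lemma Qs_sq (c : ℝ) (hc : 0 < c) (u s : ℝ) (h : c ^ 2 / 8 ≤ 1 - u - s) :
    Qs c u s ^ 2 = 1 - u - s := by
  unfold Qs
  rw [Sq_eq c hc _ h, Real.sq_sqrt (le_trans (by positivity) h)]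

lemma Qs_pos (c : ℝ) (hc : 0 < c) (u s : ℝ) (h : c ^ 2 / 8 ≤ 1 - u - s) : 0 < Qs c u s := by
  unfold Qs
  rw [Sq_eq c hc _ h]
  exact Real.sqrt_pos.2 (lt_of_lt_of_le (by positivity) h)

lemma Qs_zero (c : ℝ) (hc : 0 < c) (hc2 : c ^ 2 / 8 ≤ 1) : Qs c 0 0 = 1 := by
  unfold Qs
  rw [sub_zero, sub_zero, Sq_eq c hc _ hc2, Real.sqrt_one]

lemma Qs_mul (c : ℝ) (hc : 0 < c) (u s : ℝ) (h : c ^ 2 / 8 ≤ 1 - u - s) :
    Qs c u s * Qs c u s = 1 - u - s := by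
  rw [← sq]
  exact Qs_sq c hc u s h

/-- The pure second difference. -/
lemma E1_id (c : ℝ) (hc : 0 < c) (A x1 r g s : ℝ)
    (h1 : c ^ 2 / 8 ≤ 1 - A * x1 ^ 2 - s) (h2 : c ^ 2 / 8 ≤ 1 - A * (x1 - r) ^ 2 - s)
    (h3 : c ^ 2 / 8 ≤ 1 - A * (x1 - g) ^ 2 - s) (h4 : c ^ 2 / 8 ≤ 1 - A * (x1 - r - g) ^ 2 - s) :
    Qs c (A * x1 ^ 2) s - Qs c (A * (x1 - r) ^ 2) s - Qs c (A * (x1 - g) ^ 2) s +
      Qs c (A * (x1 - r - g) ^ 2) s =
      -(A * r * g * E1 c A x1 (x1 - r) (x1 - g) (x1 - r - g) s) := by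
  unfold E1
  have p1 := Qs_pos c hc _ _ h1
  have p2 := Qs_pos c hc _ _ h2
  have p3 := Qs_pos c hc _ _ h3
  have p4 := Qs_pos c hc _ _ h4
  have q1 := Qs_sq c hc _ _ h1
  have q2 := Qs_sq c hc _ _ h2
  have q3 := Qs_sq c hc _ _ h3
  have q4 := Qs_sq c hc _ _ h4
  set Q1 := Qs c (A * x1 ^ 2) s
  set Q2 := Qs c (A * (x1 - r) ^ 2) s
  set Q3 := Qs c (A * (x1 - g) ^ 2) s
  set Q4 := Qs c (A * (x1 - r - g) ^ 2) s
  have e12 : (Q1 - Q2) * (Q1 + Q2) = -(A * r * (x1 + (x1 - r))) := by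
    linear_combination q1 - q2
  have e34 : (Q3 - Q4) * (Q3 + Q4) = -(A * r * ((x1 - g) + (x1 - r - g))) := by
    linear_combination q3 - q4
  have e31 : (Q3 - Q1) * (Q1 + Q3) = A * g * (x1 + (x1 - g)) := by
    linear_combination q3 - q1
  have e42 : (Q4 - Q2) * (Q2 + Q4) = A * g * ((x1 - r) + (x1 - r - g)) := by
    linear_combination q4 - q2
  have d12 : Q1 - Q2 = -(A * r * (x1 + (x1 - r))) / (Q1 + Q2) := by
    rw [eq_div_iff (by positivity)]; exact e12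
  have d34 : Q3 - Q4 = -(A * r * ((x1 - g) + (x1 - r - g))) / (Q3 + Q4) := by
    rw [eq_div_iff (by positivity)]; exact e34
  have d31 : A * g * ((x1 + (x1 - g)) / (Q1 + Q3)) = Q3 - Q1 := by
    rw [← mul_div_assoc, div_eq_iff (by positivity)]; exact e31.symm
  have d42 : A * g * (((x1 - r) + (x1 - r - g)) / (Q2 + Q4)) = Q4 - Q2 := by
    rw [← mul_div_assoc, div_eq_iff (by positivity)]; exact e42.symm
  have l1 : Q1 - Q2 - Q3 + Q4 = (Q1 - Q2) - (Q3 - Q4) := by ring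
  have l2 : A * r * g * ((A * (x1 + (x1 - r)) * ((x1 + (x1 - g)) / (Q1 + Q3) +
      (x1 - r + (x1 - r - g)) / (Q2 + Q4)) + 2 * (Q1 + Q2)) / ((Q1 + Q2) * (Q3 + Q4))) =
      A * r * ((x1 + (x1 - r)) * (A * g * ((x1 + (x1 - g)) / (Q1 + Q3)) +
        A * g * (((x1 - r) + (x1 - r - g)) / (Q2 + Q4))) + 2 * g * (Q1 + Q2)) /
        ((Q1 + Q2) * (Q3 + Q4)) := by
    ring
  rw [l1, d12, d34, l2, d31, d42]
  field_simp
  ring

/-- The mixed second difference. -/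
lemma E3_id (c : ℝ) (hc : 0 < c) (A B x r w g : ℝ)
    (h1 : c ^ 2 / 8 ≤ 1 - A * x ^ 2 - B * w ^ 2)
    (h2 : c ^ 2 / 8 ≤ 1 - A * (x - r) ^ 2 - B * w ^ 2)
    (h3 : c ^ 2 / 8 ≤ 1 - A * x ^ 2 - B * (w - g) ^ 2)
    (h4 : c ^ 2 / 8 ≤ 1 - A * (x - r) ^ 2 - B * (w - g) ^ 2) :
    Qs c (A * x ^ 2) (B * w ^ 2) - Qs c (A * (x - r) ^ 2) (B * w ^ 2) -
      Qs c (A * x ^ 2) (B * (w - g) ^ 2) + Qs c (A * (x - r) ^ 2) (B * (w - g) ^ 2) =
      -(A * B * r * g * E3 c A B x (x - r) w (w - g)) := by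
  unfold E3
  have p1 := Qs_pos c hc _ _ h1
  have p2 := Qs_pos c hc _ _ h2
  have p3 := Qs_pos c hc _ _ h3
  have p4 := Qs_pos c hc _ _ h4
  have q1 := Qs_sq c hc _ _ h1
  have q2 := Qs_sq c hc _ _ h2
  have q3 := Qs_sq c hc _ _ h3
  have q4 := Qs_sq c hc _ _ h4
  set Q1 := Qs c (A * x ^ 2) (B * w ^ 2)
  set Q2 := Qs c (A * (x - r) ^ 2) (B * w ^ 2)
  set Q3 := Qs c (A * x ^ 2) (B * (w - g) ^ 2)
  set Q4 := Qs c (A * (x - r) ^ 2) (B * (w - g) ^ 2)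
  have e12 : (Q1 - Q2) * (Q1 + Q2) = -(A * r * (x + (x - r))) := by
    linear_combination q1 - q2
  have e34 : (Q3 - Q4) * (Q3 + Q4) = -(A * r * (x + (x - r))) := by
    linear_combination q3 - q4
  have e31 : (Q3 - Q1) * (Q1 + Q3) = B * g * (w + (w - g)) := by
    linear_combination q3 - q1
  have e42 : (Q4 - Q2) * (Q2 + Q4) = B * g * (w + (w - g)) := by
    linear_combination q4 - q2
  have d12 : Q1 - Q2 = -(A * r * (x + (x - r))) / (Q1 + Q2) := by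
    rw [eq_div_iff (by positivity)]; exact e12
  have d34 : Q3 - Q4 = -(A * r * (x + (x - r))) / (Q3 + Q4) := by
    rw [eq_div_iff (by positivity)]; exact e34
  have d31 : B * g * (w + (w - g)) * (1 / (Q1 + Q3)) = Q3 - Q1 := by
    rw [mul_one_div, div_eq_iff (by positivity)]; exact e31.symm
  have d42 : B * g * (w + (w - g)) * (1 / (Q2 + Q4)) = Q4 - Q2 := by
    rw [mul_one_div, div_eq_iff (by positivity)]; exact e42.symm
  have l1 : Q1 - Q2 - Q3 + Q4 = (Q1 - Q2) - (Q3 - Q4) := by ring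
  have l2 : A * B * r * g * ((x + (x - r)) * (w + (w - g)) * (1 / (Q1 + Q3) + 1 / (Q2 + Q4)) /
      ((Q1 + Q2) * (Q3 + Q4))) =
      A * r * (x + (x - r)) * (B * g * (w + (w - g)) * (1 / (Q1 + Q3)) +
        B * g * (w + (w - g)) * (1 / (Q2 + Q4))) / ((Q1 + Q2) * (Q3 + Q4)) := by
    ring
  rw [l1, d12, d34, l2, d31, d42]
  field_simp
  ring

end Pool.Agent.N1F
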