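import Pool.Agent.N1F.P1c
import Pool.Agent.N1.A1

/-!
N1F, Proposition I: local Hadamard lemma in two variables and the normal form.
-/

namespace Pool.Agent.N1F

open MeasureTheory Set Metric Pool.Agent.MP_6cbfb8_an Pool.Agent.MST Pool.Agent.N1
open scoped ENNReal Real ContDiff Topology

/-- Replace the coordinate `i` of the parameter by `t`. -/
noncomputable def upd {Q : Type*} (i : Fin 7) (x : P7 × Q) (t : ℝ) : P7 × Q :=
  (x.1 + (t - x.1 i) • (Pi.single i (1 : ℝ) : P7), x.2)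

lemma upd_same {Q : Type*} (i : Fin 7) (x : P7 × Q) (t : ℝ) : (upd i x t).1 i = t := by
  unfold upd
  simp

lemma upd_ne {Q : Type*} (i j : Fin 7) (h : j ≠ i) (x : P7 × Q) (t : ℝ) :
    (upd i x t).1 j = x.1 j := by
  unfold upd
  simp [Pi.single_eq_of_ne h]

lemma upd_self {Q : Type*} (i : Fin 7) (x : P7 × Q) : upd i x (x.1 i) = x := by
  unfold upd
  simp

lemma upd_dist {Q : Type*} [PseudoMetricSpace Q] (i : Fin 7) (x x0 : P7 × Q) (h : x0.1 i = 0)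
    (r : ℝ) (hx : x ∈ ball x0 r) : upd i x 0 ∈ ball x0 r := by
  have hr : 0 < r := pos_of_mem_ball hx
  rw [mem_ball, Prod.dist_eq, max_lt_iff, dist_pi_lt_iff hr] at hx ⊢
  refine ⟨fun j => ?_, hx.2⟩
  by_cases hj : j = i
  · subst hj
    rw [upd_same, h, dist_self]
    exact hr
  · rw [upd_ne i j hj]
    exact hx.1 j

lemma had_glob {Q : Type*} [NormedAddCommGroup Q] [NormedSpace ℝ Q] [FiniteDimensional ℝ Q]
    (i : Fin 7) (f : P7 × Q → ℝ) (hf : ContDiff ℝ ∞ f) :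
    ∃ k : P7 × Q → ℝ, ContDiff ℝ ∞ k ∧ ∀ x, f x - f (upd i x 0) = x.1 i * k x := by
  have hu : ContDiff ℝ ∞ fun y : ℝ × (P7 × Q) => upd i y.2 y.1 := by
    unfold upd
    fun_prop
  have hu0 : ContDiff ℝ ∞ fun y : ℝ × (P7 × Q) => upd i y.2 0 := by
    unfold upd
    fun_prop
  obtain ⟨k, hk, h1⟩ := hadamard (fun y : ℝ × (P7 × Q) => f (upd i y.2 y.1) - f (upd i y.2 0))
    ((hf.comp hu).sub (hf.comp hu0)) (fun q => by simp)
  refine ⟨fun x => k (x.1 i, x), hk.comp (by fun_prop), fun x => ?_⟩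
  have h2 := h1 (x.1 i) x
  simp only [upd_self] at h2
  exact h2

lemma had_loc {Q : Type*} [NormedAddCommGroup Q] [NormedSpace ℝ Q] [FiniteDimensional ℝ Q]
    (i : Fin 7) (f : P7 × Q → ℝ) (x0 : P7 × Q) (r : ℝ) (hr : 0 < r)
    (hf : ContDiffOn ℝ ∞ f (ball x0 r)) (h0 : ∀ x ∈ ball x0 r, x.1 i = 0 → f x = 0) :
    ∃ r' : ℝ, 0 < r' ∧ r' ≤ r ∧ ∃ k : P7 × Q → ℝ, ContDiffOn ℝ ∞ k (ball x0 r') ∧
      ∀ x ∈ ball x0 r', f x = x.1 i * k x := by
  by_cases hi : x0.1 i = 0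
  · obtain ⟨g, hg, hgf⟩ := ext_smooth f x0 r hr hf
    obtain ⟨k, hk, h1⟩ := had_glob i g hg
    refine ⟨r / 2, by positivity, by linarith, k, hk.contDiffOn, fun x hx => ?_⟩
    have h2 := h1 x
    have h3 := upd_dist i x x0 hi _ hx
    rw [hgf _ hx, hgf _ h3, h0 _ (ball_subset_ball (by linarith) h3) (upd_same i x 0),
      sub_zero] at h2
    exact h2
  · have hi' : 0 < |x0.1 i| := abs_pos.2 hi
    refine ⟨min r |x0.1 i|, lt_min hr hi', min_le_left _ _, fun x => f x / x.1 i, ?_, ?_⟩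
    · refine (hf.mono (ball_subset_ball (min_le_left _ _))).div (by fun_prop) ?_
      intro x hx h
      have hx2 := ball_subset_ball (min_le_right r |x0.1 i|) hx
      rw [mem_ball, Prod.dist_eq, max_lt_iff, dist_pi_lt_iff hi'] at hx2
      have h4 := hx2.1 i
      rw [h, dist_comm, Real.dist_eq, sub_zero] at h4
      exact lt_irrefl _ h4
    · intro x hx
      have hx2 := ball_subset_ball (min_le_right r |x0.1 i|) hx
      rw [mem_ball, Prod.dist_eq, max_lt_iff, dist_pi_lt_iff hi'] at hx2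
      have h4 := hx2.1 i
      have h5 : x.1 i ≠ 0 := by
        intro h
        rw [h, dist_comm, Real.dist_eq, sub_zero] at h4
        exact lt_irrefl _ h4
      field_simp

/-- A function which vanishes on punctured lines through `x`. -/
lemma zero_lim {Q : Type*} [NormedAddCommGroup Q] [NormedSpace ℝ Q] (k : P7 × Q → ℝ)
    (x : P7 × Q) (v : P7) (hk : ContinuousAt k x)
    (h : ∀ᶠ t : ℝ in 𝓝[≠] (0 : ℝ), k (x.1 + t • v, x.2) = 0) : k x = 0 := by
  have h1 : Filter.Tendsto (fun t : ℝ => ((x.1 + t • v, x.2) : P7 × Q)) (𝓝[≠] (0 : ℝ)) (𝓝 x) := by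
    have h2 : ContinuousAt (fun t : ℝ => ((x.1 + t • v, x.2) : P7 × Q)) 0 := by fun_prop
    have h3 : Filter.Tendsto (fun t : ℝ => ((x.1 + t • v, x.2) : P7 × Q)) (𝓝 (0 : ℝ)) (𝓝 x) := by
      simpa [ContinuousAt] using h2
    exact h3.mono_left nhdsWithin_le_nhds
  have h4 : Filter.Tendsto (fun t : ℝ => k (x.1 + t • v, x.2)) (𝓝[≠] (0 : ℝ)) (𝓝 (k x)) :=
    hk.tendsto.comp h1
  have h5 : Filter.Tendsto (fun t : ℝ => k (x.1 + t • v, x.2)) (𝓝[≠] (0 : ℝ)) (𝓝 0) :=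
    tendsto_const_nhds.congr' (h.mono fun t ht => ht.symm)
  exact tendsto_nhds_unique h4 h5

lemma line_ball {Q : Type*} [NormedAddCommGroup Q] [NormedSpace ℝ Q] (x x0 : P7 × Q) (v : P7)
    (r : ℝ) (hx : x ∈ ball x0 r) :
    ∀ᶠ t : ℝ in 𝓝[≠] (0 : ℝ), ((x.1 + t • v, x.2) : P7 × Q) ∈ ball x0 r := by
  have h2 : ContinuousAt (fun t : ℝ => ((x.1 + t • v, x.2) : P7 × Q)) 0 := by fun_prop
  have h3 : ∀ᶠ t : ℝ in 𝓝 (0 : ℝ), ((x.1 + t • v, x.2) : P7 × Q) ∈ ball x0 r := by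
    refine h2.eventually (isOpen_ball.mem_nhds ?_)
    simpa using hx
  exact nhdsWithin_le_nhds h3

/-- Division by the product of the first two parameters. -/
lemma had_two {Q : Type*} [NormedAddCommGroup Q] [NormedSpace ℝ Q] [FiniteDimensional ℝ Q]
    (f : P7 × Q → ℝ) (x0 : P7 × Q) (r : ℝ) (hr : 0 < r)
    (hf : ContDiffOn ℝ ∞ f (ball x0 r)) (h0 : ∀ x ∈ ball x0 r, x.1 0 = 0 → f x = 0)
    (h1 : ∀ x ∈ ball x0 r, x.1 1 = 0 → f x = 0) :
    ∃ r' : ℝ, 0 < r' ∧ r' ≤ r ∧ ∃ k : P7 × Q → ℝ, ContDiffOn ℝ ∞ k (ball x0 r') ∧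
      (∀ x ∈ ball x0 r', f x = x.1 0 * x.1 1 * k x) ∧
      ((∀ x ∈ ball x0 r, x.1 2 = 0 → x.1 3 = 0 → x.1 4 = 0 → x.1 5 = 0 → f x = 0) →
        ∀ x ∈ ball x0 r', x.1 2 = 0 → x.1 3 = 0 → x.1 4 = 0 → x.1 5 = 0 → k x = 0) := by
  obtain ⟨r1, hr1, hr1', k1, hk1, e1⟩ := had_loc 0 f x0 r hr hf h0
  have hz : ∀ x ∈ ball x0 r1, x.1 1 = 0 → k1 x = 0 := by
    intro x hx hx1
    have hc : ContinuousAt k1 x := (hk1.continuousOn.continuousAt (isOpen_ball.mem_nhds hx))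
    refine zero_lim k1 x (Pi.single 0 1) hc ?_
    have hne : ∀ᶠ t : ℝ in 𝓝[≠] (0 : ℝ), x.1 0 + t ≠ 0 := by
      by_cases h : x.1 0 = 0
      · filter_upwards [self_mem_nhdsWithin] with t ht
        rw [h, zero_add]
        exact ht
      · have : ∀ᶠ t : ℝ in 𝓝 (0 : ℝ), x.1 0 + t ≠ 0 :=
          (by fun_prop : ContinuousAt (fun t : ℝ => x.1 0 + t) 0).eventually_ne (by simpa using h)
        exact nhdsWithin_le_nhds this
    filter_upwards [hne, line_ball x x0 (Pi.single 0 1) r1 hx] with t ht hb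
    have h2 := e1 _ hb
    have h3 : (x.1 + t • (Pi.single 0 (1 : ℝ) : P7)) 1 = 0 := by
      simp [hx1]
    have h4 : (x.1 + t • (Pi.single 0 (1 : ℝ) : P7)) 0 = x.1 0 + t := by
      simp
    rw [h1 _ (ball_subset_ball hr1' hb) h3] at h2
    simp only [h4] at h2
    rcases mul_eq_zero.1 h2.symm with h5 | h5
    · exact absurd h5 ht
    · exact h5
  obtain ⟨r2, hr2, hr2', k2, hk2, e2⟩ := had_loc 1 k1 x0 r1 hr1 hk1 hz
  refine ⟨r2, hr2, hr2'.trans hr1', k2, hk2, ?_, ?_⟩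
  · intro x hx
    rw [e1 x (ball_subset_ball hr2' hx), e2 x hx]
    ring
  · intro hd x hx g2 g3 g4 g5
    have hc : ContinuousAt k2 x := (hk2.continuousOn.continuousAt (isOpen_ball.mem_nhds hx))
    refine zero_lim k2 x (Pi.single 0 1 + Pi.single 1 1) hc ?_
    have hne : ∀ i : Fin 7, ∀ᶠ t : ℝ in 𝓝[≠] (0 : ℝ), x.1 i + t ≠ 0 := by
      intro i
      by_cases h : x.1 i = 0
      · filter_upwards [self_mem_nhdsWithin] with t ht
        rw [h, zero_add]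
        exact ht
      · have : ∀ᶠ t : ℝ in 𝓝 (0 : ℝ), x.1 i + t ≠ 0 :=
          (by fun_prop : ContinuousAt (fun t : ℝ => x.1 i + t) 0).eventually_ne (by simpa using h)
        exact nhdsWithin_le_nhds this
    filter_upwards [hne 0, hne 1, line_ball x x0 (Pi.single 0 1 + Pi.single 1 1) r2 hx]
      with t ht ht' hb
    have h4 : (x.1 + t • (Pi.single 0 (1 : ℝ) + Pi.single 1 1 : P7)) 0 = x.1 0 + t := by
      simp
    have h5 : (x.1 + t • (Pi.single 0 (1 : ℝ) + Pi.single 1 1 : P7)) 1 = x.1 1 + t := by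
      simp
    have h6 : (x.1 + t • (Pi.single 0 (1 : ℝ) + Pi.single 1 1 : P7)) 2 = 0 := by
      simp [g2]
    have h7 : (x.1 + t • (Pi.single 0 (1 : ℝ) + Pi.single 1 1 : P7)) 3 = 0 := by
      simp [g3]
    have h8 : (x.1 + t • (Pi.single 0 (1 : ℝ) + Pi.single 1 1 : P7)) 4 = 0 := by
      simp [g4]
    have h9 : (x.1 + t • (Pi.single 0 (1 : ℝ) + Pi.single 1 1 : P7)) 5 = 0 := by
      simp [g5]
    have h2 := hd _ (ball_subset_ball (hr2'.trans hr1') hb) h6 h7 h8 h9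
    rw [e1 _ (ball_subset_ball hr2' hb), e2 _ hb] at h2
    simp only [h4, h5] at h2
    rcases mul_eq_zero.1 h2 with h10 | h10
    · exact absurd h10 ht
    · rcases mul_eq_zero.1 h10 with h11 | h11
      · exact absurd h11 ht'
      · exact h11

end Pool.Agent.N1F
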