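import Pool.Agent.N1F.P1d
import Pool.Agent.N1.GF

/-!
N1F, Proposition I: the normal form and the derivatives at the base points.
-/

namespace Pool.Agent.N1F

open MeasureTheory Set Metric Pool.Agent.MP_6cbfb8_an Pool.Agent.MST Pool.Agent.N1
open scoped ENNReal Real ContDiff Topology

theorem nfI (c : ℝ) (hc : 0 < c) (p0 : P7) (a0 b0 : V) (hok : okI c (p0, a0, b0)) :
    ∃ r : ℝ, 0 < r ∧ ∃ g : P7 × V × V → ℝ, ContDiffOn ℝ ∞ g (ball (p0, a0, b0) r) ∧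
      (∀ x ∈ ball (p0, a0, b0) r, okI c x) ∧
      (∀ x ∈ ball (p0, a0, b0) r, ∀ κ₂ : ℝ, x.1 0 * x.1 1 = x.1 6 * κ₂ →
        P11 c x + P22 c x + x.1 6 * P12 c x + κ₂ * P21 c x =
          -(UI c x * (omI c (prA x) - sgI c (prB x) + x.1 6 * (alI c (prA x) * beI c (prB x)) +
            κ₂ * g x))) ∧
      (∀ x ∈ ball (p0, a0, b0) r, x.1 2 = 0 → x.1 3 = 0 → x.1 4 = 0 → x.1 5 = 0 →
        g x = f2 (x.1 0) x.2.1 * f1 (x.1 1) x.2.2) := by
  obtain ⟨r0, hr0, hball⟩ := Metric.eventually_nhds_iff_ball.1 (okI_ev c _ hok)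
  obtain ⟨r, hr, hrr, k, hk, hRk, hz⟩ := had_two (RI c) (p0, a0, b0) r0 hr0
    (fun x hx => (RI_cd c hc x (hball x hx)).contDiffWithinAt)
    (fun x hx h => RI_A c hc x (hball x hx) h) (fun x hx h => RI_B c hc x (hball x hx) h)
  have hb : ∀ x ∈ ball (p0, a0, b0) r, okI c x := fun x hx => hball x (ball_subset_ball hrr hx)
  refine ⟨r, hr, fun x => -(P21 c x + x.1 6 * k x) / UI c x, ?_, hb, ?_, ?_⟩
  · intro x hx
    have h1 := UI_pos c hc x (hb x hx)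
    exact (((P21_cd c hc x (hb x hx)).contDiffWithinAt.add
      ((pi_cd 6).contDiffAt.contDiffWithinAt.mul (hk x hx))).neg).div
      (UI_cd c hc x (hb x hx)).contDiffWithinAt h1.ne'
  · intro x hx κ₂ hκ
    have h1 := UI_pos c hc x (hb x hx)
    have h2 := hRk x hx
    have h1' := h1.ne'
    unfold RI at h2
    have h3 : UI c x * (κ₂ * (-(P21 c x + x.1 6 * k x) / UI c x)) =
        -(κ₂ * P21 c x + x.1 6 * κ₂ * k x) := by
      field_simp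
    rw [mul_add, h3, ← hκ]
    linarith
  · intro x hx g2 g3 g4 g5
    have h1 := (UI_pos c hc x (hb x hx)).ne'
    have h2 := hz (fun y hy e2 e3 e4 e5 => (base_nf c hc y (hball y hy) e2 e3 e4 e5).1) x hx
      g2 g3 g4 g5
    have h3 := (base_nf c hc x (hb x hx) g2 g3 g4 g5).2
    simp only
    rw [h2, h3, mul_zero, add_zero, neg_neg]
    field_simp

/-! ### derivatives of the base functions -/

lemma f0_diff (A : ℝ) (a : V) (h : 1 - A * a.2.1 ^ 2 ≠ 0) : DifferentiableAt ℝ (f0 A) a := by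
  unfold f0
  fun_prop (disch := exact h)

lemma f1_diff (A : ℝ) (a : V) (h : 1 - A * a.2.1 ^ 2 ≠ 0) : DifferentiableAt ℝ (f1 A) a := by
  unfold f1
  fun_prop (disch := exact h)

lemma f2_diff (A : ℝ) (a : V) (h : 1 - A * a.2.1 ^ 2 ≠ 0) : DifferentiableAt ℝ (f2 A) a := by
  unfold f2
  fun_prop (disch := exact h)

lemma f0_fd (A : ℝ) (a u : V) (h : 1 - A * a.2.1 ^ 2 ≠ 0) : fderiv ℝ (f0 A) a u =
    ((u.1 * a.2.2 + a.1 * u.2.2) * (1 - A * a.2.1 ^ 2) + a.1 * a.2.2 * (2 * A * a.2.1 * u.2.1)) /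
      (1 - A * a.2.1 ^ 2) ^ 2 := by
  refine fd_of _ _ _ _ (f0_diff A a h) ?_
  have h := ((g_lin a.1 u.1).fun_mul (g_lin a.2.2 u.2.2)).fun_div
    ((((g_lin a.2.1 u.2.1).fun_pow 2).const_mul A).const_sub 1) (by simpa using h)
  refine HasDerivAt.congr_deriv h ?_
  simp
  ring

lemma f1_fd (A : ℝ) (a u : V) (h : 1 - A * a.2.1 ^ 2 ≠ 0) : fderiv ℝ (f1 A) a u =
    ((u.2.1 * a.1 + a.2.1 * u.1) * (1 - A * a.2.1 ^ 2) + a.2.1 * a.1 * (2 * A * a.2.1 * u.2.1)) /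
      (1 - A * a.2.1 ^ 2) ^ 2 := by
  refine fd_of _ _ _ _ (f1_diff A a h) ?_
  have h := ((g_lin a.2.1 u.2.1).fun_mul (g_lin a.1 u.1)).fun_div
    ((((g_lin a.2.1 u.2.1).fun_pow 2).const_mul A).const_sub 1) (by simpa using h)
  refine HasDerivAt.congr_deriv h ?_
  simp
  ring

lemma f2_fd (A : ℝ) (a u : V) (h : 1 - A * a.2.1 ^ 2 ≠ 0) : fderiv ℝ (f2 A) a u =
    ((u.2.1 * a.2.2 + a.2.1 * u.2.2) * (1 - A * a.2.1 ^ 2) +
      a.2.1 * a.2.2 * (2 * A * a.2.1 * u.2.1)) / (1 - A * a.2.1 ^ 2) ^ 2 := by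
  refine fd_of _ _ _ _ (f2_diff A a h) ?_
  have h := ((g_lin a.2.1 u.2.1).fun_mul (g_lin a.2.2 u.2.2)).fun_div
    ((((g_lin a.2.1 u.2.1).fun_pow 2).const_mul A).const_sub 1) (by simpa using h)
  refine HasDerivAt.congr_deriv h ?_
  simp
  ring

/-- Directions. -/
noncomputable def dU2 (a : V) : V := (a.1, 0, -a.2.2)
/-- kernel of `f0`, `f1` -/
noncomputable def dU3 (A : ℝ) (a : V) : V :=
  (-(a.1 * (1 + A * a.2.1 ^ 2)), a.2.1 * (1 - A * a.2.1 ^ 2), a.2.2 * (1 - A * a.2.1 ^ 2))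
/-- kernel of `f0`, `f2` -/
noncomputable def dE3 (A : ℝ) (a : V) : V :=
  (a.1 * (1 - A * a.2.1 ^ 2), a.2.1 * (1 - A * a.2.1 ^ 2), -(a.2.2 * (1 + A * a.2.1 ^ 2)))

section dirs

variable (A : ℝ) (a : V) (h : 1 - A * a.2.1 ^ 2 ≠ 0)
include h

lemma f0_e1 : fderiv ℝ (f0 A) a (1, 0, 0) = a.2.2 / (1 - A * a.2.1 ^ 2) := by
  rw [f0_fd A a _ h]
  simp only [one_mul, mul_zero, add_zero]
  field_simp

lemma f0_U2 : fderiv ℝ (f0 A) a (dU2 a) = 0 := by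
  rw [f0_fd A a _ h]
  unfold dU2
  simp only [mul_zero, add_zero]
  rw [div_eq_zero_iff]
  left
  ring

lemma f1_U2 : fderiv ℝ (f1 A) a (dU2 a) = a.2.1 * a.1 / (1 - A * a.2.1 ^ 2) := by
  rw [f1_fd A a _ h]
  unfold dU2
  simp only [zero_mul, mul_zero, add_zero, zero_add]
  field_simp

lemma f2_U2 : fderiv ℝ (f2 A) a (dU2 a) = -(a.2.1 * a.2.2 / (1 - A * a.2.1 ^ 2)) := by
  rw [f2_fd A a _ h]
  unfold dU2
  simp only [zero_mul, mul_zero, add_zero, zero_add]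
  field_simp

lemma f0_U3 : fderiv ℝ (f0 A) a (dU3 A a) = 0 := by
  rw [f0_fd A a _ h]
  unfold dU3
  simp only
  rw [div_eq_zero_iff]
  left
  ring

lemma f1_U3 : fderiv ℝ (f1 A) a (dU3 A a) = 0 := by
  rw [f1_fd A a _ h]
  unfold dU3
  simp only
  rw [div_eq_zero_iff]
  left
  ring

lemma f2_U3 : fderiv ℝ (f2 A) a (dU3 A a) = 2 * (a.2.1 * a.2.2) / (1 - A * a.2.1 ^ 2) := by
  rw [f2_fd A a _ h]
  unfold dU3
  simp only
  rw [div_eq_div_iff (pow_ne_zero 2 h) h]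
  ring

lemma f0_E3 : fderiv ℝ (f0 A) a (dE3 A a) = 0 := by
  rw [f0_fd A a _ h]
  unfold dE3
  simp only
  rw [div_eq_zero_iff]
  left
  ring

lemma f2_E3 : fderiv ℝ (f2 A) a (dE3 A a) = 0 := by
  rw [f2_fd A a _ h]
  unfold dE3
  simp only
  rw [div_eq_zero_iff]
  left
  ring

lemma f1_E3 : fderiv ℝ (f1 A) a (dE3 A a) = 2 * (a.2.1 * a.1) / (1 - A * a.2.1 ^ 2) := by
  rw [f1_fd A a _ h]
  unfold dE3
  simp only
  rw [div_eq_div_iff (pow_ne_zero 2 h) h]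
  ring

end dirs

/-- The three gradients are independent. -/
lemma f_indep (A : ℝ) (a u : V) (h : 1 - A * a.2.1 ^ 2 ≠ 0)
    (h1 : a.1 ≠ 0) (h2 : a.2.1 ≠ 0) (h3 : a.2.2 ≠ 0)
    (k0 : fderiv ℝ (f0 A) a u = 0) (k1 : fderiv ℝ (f1 A) a u = 0) (k2 : fderiv ℝ (f2 A) a u = 0) :
    u = 0 := by
  rw [f0_fd A a u h, div_eq_zero_iff] at k0
  rw [f1_fd A a u h, div_eq_zero_iff] at k1
  rw [f2_fd A a u h, div_eq_zero_iff] at k2
  have e0 := k0.resolve_right (pow_ne_zero 2 h)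
  have e1 := k1.resolve_right (pow_ne_zero 2 h)
  have e2 := k2.resolve_right (pow_ne_zero 2 h)
  -- in log coordinates v_i = u_i / a_i : v1 + v3 + e v2 = 0, v1 + (1 + e) v2 = 0, (1 + e) v2 + v3 = 0
  have k3 : a.1 * a.2.2 * u.2.1 * 2 = 0 := by
    linear_combination a.2.2 * e1 + a.1 * e2 - a.2.1 * e0
  have k4 : u.2.1 = 0 := by
    have h5 : a.1 * a.2.2 ≠ 0 := mul_ne_zero h1 h3
    rcases mul_eq_zero.1 k3 with k | k
    · exact (mul_eq_zero.1 k).resolve_left h5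
    · norm_num at k
  rw [k4] at e1 e2
  have k5 : u.1 = 0 := by
    have : a.2.1 * (1 - A * a.2.1 ^ 2) * u.1 = 0 := by linear_combination e1
    exact (mul_eq_zero.1 this).resolve_left (mul_ne_zero h2 h)
  have k6 : u.2.2 = 0 := by
    have : a.2.1 * (1 - A * a.2.1 ^ 2) * u.2.2 = 0 := by linear_combination e2
    exact (mul_eq_zero.1 this).resolve_left (mul_ne_zero h2 h)
  exact Prod.ext k5 (Prod.ext k4 k6)

end Pool.Agent.N1F
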