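import Pool.Agent.N1F.A3i
import Pool.Agent.N1F.HLa

/-!
N1F, block A3: the oscillatory estimate for one cell, outer difference of type N.
-/

namespace Pool.Agent.N1F

open MeasureTheory Set Metric Pool.Agent.MP_6cbfb8_an Pool.Agent.MST Pool.Agent.N1
open scoped ENNReal Real ContDiff Topology

theorem propF (c : ℝ) (hc : 0 < c) (A0 B0 : ℝ) (x0 y0 z0 : ℝ × ℝ) (hb : Bs c A0 B0 x0)
    (hy1 : y0.1 ≠ 0) (hy2 : y0.2 ≠ 0) (hz1 : z0.1 ≠ 0) (hz2 : z0.2 ≠ 0) (k0 : ℝ) (hk : 0 ≤ k0)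
    (hk' : k0 ≤ 1) (C5 : ℝ) :
    ∃ δ : ℝ, 0 < δ ∧ ∃ C : ℝ, 0 ≤ C ∧ ∀ T al be ρ γ κ : ℝ, 0 < T → Sz al be A0 B0 δ →
      0 < ρ → ρ < δ → 0 < γ → γ < δ → 0 < κ → κ ≤ 1 → |κ - k0| < δ → γ ≤ C5 * κ →
      ∀ A B : V → ℂ, Measurable A → Measurable B → (∀ a, ‖A a‖ ≤ 1) → (∀ b, ‖B b‖ ≤ 1) →
      (∀ u, A u ≠ 0 → LB (al * be ^ 2 * ρ) al (al * γ) y0.1 x0.1 z0.1 δ u) →
      (∀ v, B v ≠ 0 → LB (be * ρ) be (be * al ^ 2 * κ * γ) y0.2 x0.2 z0.2 δ v) →
      ‖FF c T (tp A B)‖ ≤ C / T := by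
  obtain ⟨w, l, σ, m, g, Ef, r1, hr1, hw, hl, hσ, hm, hg, hE, hE0, hbw, hbσ, hbg, hnf⟩ :=
    nfF c hc A0 B0 x0 y0 z0 hb hy1 hy2 hz1 hz2 k0 hk hk'
  set a0 : V := (y0.1, x0.1, z0.1) with ha0
  set b0 : V := (y0.2, x0.2, z0.2) with hb0
  set p0 : P6 := (A0, B0, 0, 0, k0, 0) with hp0
  obtain ⟨hA0, hB0, hAB, hx1, hx2, hx3⟩ := hb
  have hc8 : 0 < c ^ 2 / 4 := by positivity
  have n1 : 1 - A0 * a0.2.1 ^ 2 ≠ 0 := by
    have : 0 ≤ B0 * x0.2 ^ 2 := by positivity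
    simp only [ha0]
    linarith
  have n2 : 1 - B0 * b0.2.1 ^ 2 ≠ 0 := by
    have : 0 ≤ A0 * x0.1 ^ 2 := by positivity
    simp only [hb0]
    linarith
  -- the factor E near the base point
  have hmem : (p0, a0, b0) ∈ ball (p0, a0, b0) r1 := mem_ball_self hr1
  have hEc : ContinuousAt (fun x => |Ef x|) (p0, a0, b0) :=
    ((hE.continuousOn).continuousAt (ball_mem_nhds _ hr1)).abs
  have he : 0 < |Ef (p0, a0, b0)| := abs_pos.2 (hE0 _ hmem)
  set e := |Ef (p0, a0, b0)| with hedef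
  have ev : ∀ᶠ x in 𝓝 (p0, a0, b0), e / 2 ≤ |Ef x| ∧ |Ef x| ≤ 2 * e := by
    filter_upwards [hEc.eventually (lt_mem_nhds (show e / 2 < e by linarith)),
      hEc.eventually (gt_mem_nhds (show e < 2 * e by linarith))] with x d2 d3
    exact ⟨d2.le, d3.le⟩
  obtain ⟨r2, hr2, hball2⟩ := g_ball ev
  set r := min r1 r2 with hrdef
  have hr : 0 < r := lt_min hr1 hr2
  have hrr1 : r ≤ r1 := min_le_left _ _
  have hball : ∀ y ∈ ball (p0, a0, b0) r, e / 2 ≤ |Ef y| ∧ |Ef y| ≤ 2 * e :=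
    fun y hy => hball2 y (ball_subset_ball (min_le_right _ _) hy)
  -- apply HLa
  have hcc : ContDiffOn ℝ ∞ (amF c Ef) (univ ×ˢ ball (p0, a0, b0) r) :=
    amF_smooth c hc _ _ (hE.mono (ball_subset_ball hrr1))
      (fun x hx => hE0 x (ball_subset_ball hrr1 hx))
  have hcs : ∀ s, ∀ q ∈ ball (p0, a0, b0) r, amF c Ef (s, q) ≠ 0 →
      e / 2 / 2 ≤ |s| ∧ |s| ≤ 3 * (2 * e) := fun s q hq h =>
    amF_supp c Ef (e / 2) (2 * e) s q (by linarith) (hball q hq).1 (hball q hq).2 h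
  have ew : (fun a : V => w (p0, a)) =ᶠ[𝓝 a0] w0 := by
    filter_upwards [ball_mem_nhds a0 hr1] with a ha
    exact (hbw a ha).1
  have el : (fun a : V => l (p0, a)) =ᶠ[𝓝 a0] l0 A0 := by
    filter_upwards [ball_mem_nhds a0 hr1] with a ha
    exact (hbw a ha).2
  have eσ : (fun b : V => σ (p0, b)) =ᶠ[𝓝 b0] σ0 B0 := by
    filter_upwards [ball_mem_nhds b0 hr1] with b hb
    exact (hbσ b hb).1
  have em : (fun b : V => m (p0, b)) =ᶠ[𝓝 b0] m0 B0 := by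
    filter_upwards [ball_mem_nhds b0 hr1] with b hb
    exact (hbσ b hb).2
  have eg : ∀ᶠ q in 𝓝 (a0, b0), (fun q : V × V => g (p0, q.1, q.2)) q = gX q.1 * gY B0 q.2 := by
    filter_upwards [ball_mem_nhds (a0, b0) hr1] with q hq
    rw [mem_ball, Prod.dist_eq, max_lt_iff] at hq
    exact hbg q.1 hq.1 q.2 hq.2
  obtain ⟨a11, a12, a22, a13, a23, a33⟩ := base_A A0 a0 hy1 hx1.ne' hz1 n1
  obtain ⟨b11, b12, b22, b13, b23, b33⟩ := base_B B0 b0 hy2 hx2.ne' hz2 n2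
  have hnd : fderiv ℝ (fun b => fderiv ℝ (fun a => g (p0, a, b)) a0 (dirA A0 a0)) b0
      (dirB B0 b0) ≠ 0 := by
    rw [base_g B0 a0 b0 (dirA A0 a0) (dirB B0 b0) hz1 n2 (fun q : V × V => g (p0, q.1, q.2)) eg]
    exact mul_ne_zero a33 b33
  obtain ⟨δ, hδ, C, hC, hHL⟩ := HLa w l σ m g (amF c Ef) p0 a0 b0 r
    (e / 2 / 2) (3 * (2 * e)) hr (by positivity) (hw.mono (ball_subset_ball hrr1))
    (hl.mono (ball_subset_ball hrr1)) (hσ.mono (ball_subset_ball hrr1))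
    (hm.mono (ball_subset_ball hrr1)) (hg.mono (ball_subset_ball hrr1)) hcc hcs
    (1, 0, 0) (0, 0, 1) (dirA A0 a0) (1, 0, 0) (0, 0, 1) (dirB B0 b0)
    (by rw [ew.fderiv_eq]; exact a11) (by rw [ew.fderiv_eq]; exact a12)
    (by rw [el.fderiv_eq]; exact a22) (by rw [ew.fderiv_eq]; exact a13)
    (by rw [el.fderiv_eq]; exact a23) (by rw [eσ.fderiv_eq]; exact b11)
    (by rw [eσ.fderiv_eq]; exact b12) (by rw [em.fderiv_eq]; exact b22)
    (by rw [eσ.fderiv_eq]; exact b13) (by rw [em.fderiv_eq]; exact b23) hnd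
  -- the small constant
  set M := 1 + |C5| with hM
  have hM1 : 1 ≤ M := by rw [hM]; linarith [abs_nonneg C5]
  set δ' := min δ r / (2 * M) with hδ'
  have hδp : 0 < min δ r := lt_min hδ hr
  have hδM : M * δ' = min δ r / 2 := by rw [hδ']; field_simp
  have hδ'p : 0 < δ' := by rw [hδ']; positivity
  have hδ1 : M * δ' < δ := by
    have := min_le_left δ r
    rw [hδM]; linarith
  have hδ2 : M * δ' < r := by
    have := min_le_right δ r
    rw [hδM]; linarith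
  have hδle : δ' ≤ M * δ' := by nlinarith
  refine ⟨δ', hδ'p, C, hC, ?_⟩
  intro T al be ρ γ κ hT hSz hρ hρδ hγ hγδ hκ hκ1 hκδ hγκ A B hA hB hA1 hB1 hAs hBs
  obtain ⟨hal, hal1, hbe, hbe1, hsA, hsB⟩ := hSz
  have hball' : ∀ (u : V) (x y z : ℝ), |u.1 - x| ≤ δ' ∧ |u.2.1 - y| ≤ δ' ∧ |u.2.2 - z| ≤ δ' →
      ∀ R, M * δ' < R → u ∈ ball ((x, y, z) : V) R := by
    intro u x y z h R hR
    rw [mem_ball, Prod.dist_eq, Prod.dist_eq, Real.dist_eq, Real.dist_eq, Real.dist_eq]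
    exact max_lt (lt_of_le_of_lt (h.1.trans hδle) hR) (max_lt (lt_of_le_of_lt
      (h.2.1.trans hδle) hR) (lt_of_le_of_lt (h.2.2.trans hδle) hR))
  set s1 := al * be ^ 2 * ρ with hs1
  set s3 := al * γ with hs3
  set t1 := be * ρ with ht1
  set t3 := be * al ^ 2 * κ * γ with ht3
  have hs1p : 0 < s1 := by rw [hs1]; positivity
  have hs3p : 0 < s3 := by rw [hs3]; positivity
  have ht1p : 0 < t1 := by rw [ht1]; positivity
  have ht3p : 0 < t3 := by rw [ht3]; positivity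
  have hAs' : ∀ u, A (Sc3 s1 al s3 u) ≠ 0 →
      |u.1 - y0.1| ≤ δ' ∧ |u.2.1 - x0.1| ≤ δ' ∧ |u.2.2 - z0.1| ≤ δ' := by
    intro u hu
    have h := hAs _ hu
    unfold LB Sc3 at h
    simp only at h
    rwa [mul_div_cancel_left₀ _ hs1p.ne', mul_div_cancel_left₀ _ hal.ne',
      mul_div_cancel_left₀ _ hs3p.ne'] at h
  have hBs' : ∀ u, B (Sc3 t1 be t3 u) ≠ 0 →
      |u.1 - y0.2| ≤ δ' ∧ |u.2.1 - x0.2| ≤ δ' ∧ |u.2.2 - z0.2| ≤ δ' := by
    intro u hu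
    have h := hBs _ hu
    unfold LB Sc3 at h
    simp only at h
    rwa [mul_div_cancel_left₀ _ ht1p.ne', mul_div_cancel_left₀ _ hbe.ne',
      mul_div_cancel_left₀ _ ht3p.ne'] at h
  set η := γ ^ 2 / κ with hη
  have hη0 : 0 ≤ η := by rw [hη]; positivity
  have hηle : η ≤ M * δ' := by
    rw [hη, div_le_iff₀ hκ]
    have h3 : γ ≤ |C5| * κ := hγκ.trans (mul_le_mul_of_nonneg_right (le_abs_self _) hκ.le)
    calc γ ^ 2 = γ * γ := by ring
      _ ≤ (|C5| * κ) * δ' := mul_le_mul h3 hγδ.le hγ.le (by positivity)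
      _ ≤ M * δ' * κ := by
        rw [hM]
        nlinarith [mul_pos hδ'p hκ]
  have hκη : κ * η = γ ^ 2 := by rw [hη]; field_simp
  set p : P6 := (al ^ 2, be ^ 2, ρ, γ, κ, η) with hp
  have hpR : ∀ R, M * δ' < R → p ∈ ball p0 R := by
    intro R hR
    have hle := hδle.trans hR.le
    rw [hp, hp0, mem_ball]
    simp only [Prod.dist_eq, Real.dist_eq, sub_zero, abs_of_pos hρ, abs_of_pos hγ,
      abs_of_nonneg hη0]
    exact max_lt (lt_of_lt_of_le hsA hle) (max_lt (lt_of_lt_of_le hsB hle)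
      (max_lt (lt_of_lt_of_le hρδ hle) (max_lt (lt_of_lt_of_le hγδ hle)
      (max_lt (lt_of_lt_of_le hκδ hle) (lt_of_le_of_lt hηle hR)))))
  set ε := al ^ 2 * be ^ 2 with hε
  have hε0 : 0 < ε := by rw [hε]; positivity
  have hεδ : ε < δ := by
    have q1 : al ^ 2 ≤ 1 := pow_le_one₀ hal.le hal1
    have q2 : be ^ 2 ≤ 1 := pow_le_one₀ hbe.le hbe1
    have q3 : δ' < δ := lt_of_le_of_lt hδle hδ1
    rcases mul_eq_zero.1 hAB with h | h
    · rw [h, sub_zero, abs_of_pos (by positivity)] at hsA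
      calc ε ≤ al ^ 2 * 1 := mul_le_mul_of_nonneg_left q2 (by positivity)
        _ < δ := by rw [mul_one]; exact hsA.trans q3
    · rw [h, sub_zero, abs_of_pos (by positivity)] at hsB
      calc ε ≤ 1 * be ^ 2 := mul_le_mul_of_nonneg_right q1 (by positivity)
        _ < δ := by rw [one_mul]; exact hsB.trans q3
  have hsε : √ε = al * be := by
    rw [hε, ← mul_pow, Real.sqrt_sq (by positivity)]
  set lam := T * (al ^ 2 * be ^ 2 * ρ * γ) with hlam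
  have hlam0 : 0 < lam := by rw [hlam]; positivity
  have hmain := hHL p (hpR δ hδ1) κ ε lam hκ hκ1 hε0 hεδ hlam0
    (fun u => A (Sc3 s1 al s3 u)) (fun u => B (Sc3 t1 be t3 u))
    (hA.comp (Sc3_cont s1 al s3).measurable) (hB.comp (Sc3_cont t1 be t3).measurable)
    (fun a => hA1 _) (fun b => hB1 _)
    (fun a ha => hball' a _ _ _ (hAs' a ha) δ hδ1) (fun b hb => hball' b _ _ _ (hBs' b hb) δ hδ1)
  have hid : FF c T (tp A B) = ((((s1 * al * s3) * (t1 * be * t3) : ℝ) : ℂ) * (T : ℂ)) *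
      ∫ q : V × V, A (Sc3 s1 al s3 q.1) * B (Sc3 t1 be t3 q.2) * ∫ s : ℝ,
        ((amF c Ef (s, p, q.1, q.2) : ℝ) : ℂ) *
        ex (lam * (s * (w (p, q.1) - σ (p, q.2) + κ * (l (p, q.1) * m (p, q.2) +
          ε * g (p, q.1, q.2))))) := by
    unfold FF
    rw [integral_scale3 _ s1 al s3 t1 be t3 hs1p hal hs3p ht1p hbe ht3p,
      mul_assoc ((((s1 * al * s3) * (t1 * be * t3) : ℝ) : ℂ)) (T : ℂ),
      ← integral_const_mul (T : ℂ)]
    congr 1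
    refine integral_congr_ae (Filter.Eventually.of_forall fun q => ?_)
    simp only [tp]
    by_cases hq : A (Sc3 s1 al s3 q.1) = 0
    · rw [hq]; simp
    by_cases hq' : B (Sc3 t1 be t3 q.2) = 0
    · rw [hq']; simp
    have hqa : q.1 ∈ ball a0 r := hball' _ _ _ _ (hAs' _ hq) r hδ2
    have hqb : q.2 ∈ ball b0 r := hball' _ _ _ _ (hBs' _ hq') r hδ2
    have hin : ((p, q.1, q.2) : P6 × V × V) ∈ ball (p0, a0, b0) r := by
      rw [mem_ball, Prod.dist_eq, Prod.dist_eq]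
      exact max_lt (hpR r hδ2) (max_lt hqa hqb)
    have hEne := hE0 _ (ball_subset_ball hrr1 hin)
    have hfac := hnf al be ρ γ κ η hal hal1 hbe hbe1 hρ hγ hκ hκη
      (ball_subset_ball hrr1 (hpR r hδ2)) q.1 (ball_subset_ball hrr1 hqa) q.2
      (ball_subset_ball hrr1 hqb)
    rw [Kt_scale T _ (Ef (p, q.1, q.2)) (w (p, q.1) - σ (p, q.2) + κ * (l (p, q.1) * m (p, q.2) +
          ε * g (p, q.1, q.2))) hT hEne (al ^ 2 * be ^ 2 * ρ * γ) hfac, WF_eq]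
    have h5 : ∀ s : ℝ, ((amF c Ef (s, p, q.1, q.2) : ℝ) : ℂ) *
        ex (lam * (s * (w (p, q.1) - σ (p, q.2) + κ * (l (p, q.1) * m (p, q.2) +
          ε * g (p, q.1, q.2))))) =
        ((WF c (al ^ 2) (be ^ 2) ρ γ κ q.1 q.2 : ℝ) : ℂ) *
        (((chi (s / Ef (p, q.1, q.2)) / |Ef (p, q.1, q.2)| : ℝ) : ℂ) *
        ex (T * (al ^ 2 * be ^ 2 * ρ * γ) * (s * (w (p, q.1) - σ (p, q.2) +
          κ * (l (p, q.1) * m (p, q.2) + ε * g (p, q.1, q.2)))))) := by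
      intro s
      unfold amF
      simp only [hp]
      rw [Complex.ofReal_mul]
      ring
    simp only [h5]
    rw [integral_const_mul]
    ring
  rw [hid, norm_mul, norm_mul, Complex.norm_real, Complex.norm_real, Real.norm_eq_abs,
    Real.norm_eq_abs, abs_of_pos hT, abs_of_pos (by positivity)]
  calc s1 * al * s3 * (t1 * be * t3) * T * ‖_‖ ≤
      s1 * al * s3 * (t1 * be * t3) * T * (C / (lam ^ 2 * κ * √ε)) :=
        mul_le_mul_of_nonneg_left hmain (by positivity)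
    _ = C / T := by
      rw [hsε, hlam, hs1, hs3, ht1, ht3]
      field_simp

end Pool.Agent.N1F
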