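import Pool.Agent.N1F.Defs

/-!
N1F, block A3: scaling with three factors, amplitude in scaled variables.
-/

namespace Pool.Agent.N1F

open MeasureTheory Set Metric Pool.Agent.MP_6cbfb8_an Pool.Agent.MST Pool.Agent.N1
open scoped ENNReal Real ContDiff Topology

/-- Scaling of a triple, three factors. -/
noncomputable def Sc3 (s1 s2 s3 : ℝ) (u : V) : V := (s1 * u.1, s2 * u.2.1, s3 * u.2.2)

lemma Sc3_cont (s1 s2 s3 : ℝ) : Continuous (Sc3 s1 s2 s3) := by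
  unfold Sc3
  fun_prop

lemma Sc3_eq (s1 s2 s3 : ℝ) : Sc3 s1 s2 s3 = Prod.map (fun x : ℝ => s1 * x)
    (Prod.map (fun x : ℝ => s2 * x) (fun x : ℝ => s3 * x)) := rfl

lemma map_Sc3 (s1 s2 s3 : ℝ) (h1 : 0 < s1) (h2 : 0 < s2) (h3 : 0 < s3) :
    Measure.map (Sc3 s1 s2 s3) (volume : Measure V) =
      ENNReal.ofReal ((s1 * s2 * s3)⁻¹) • volume := by
  rw [Sc3_eq]
  have hv : (volume : Measure V) = (volume : Measure ℝ).prod
    ((volume : Measure ℝ).prod (volume : Measure ℝ)) := rfl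
  rw [hv, ← Measure.map_prod_map _ _ (by fun_prop) (by fun_prop),
    ← Measure.map_prod_map _ _ (by fun_prop) (by fun_prop)]
  rw [Real.map_volume_mul_left h1.ne', Real.map_volume_mul_left h2.ne',
    Real.map_volume_mul_left h3.ne']
  rw [Measure.prod_smul_right, Measure.prod_smul_left, Measure.prod_smul_right,
    Measure.prod_smul_left, smul_smul, Measure.prod_smul_right, smul_smul]
  congr 1
  rw [abs_of_pos (by positivity), abs_of_pos (by positivity), abs_of_pos (by positivity),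
    ← ENNReal.ofReal_mul (by positivity), ← ENNReal.ofReal_mul (by positivity), mul_inv, mul_inv]
  congr 1
  ring

/-- Scaling as a measurable equivalence. -/
noncomputable def Sc3E (s1 s2 s3 : ℝ) (h1 : s1 ≠ 0) (h2 : s2 ≠ 0) (h3 : s3 ≠ 0) : V ≃ᵐ V :=
  ((Homeomorph.mulLeft₀ s1 h1).prodCongr ((Homeomorph.mulLeft₀ s2 h2).prodCongr
    (Homeomorph.mulLeft₀ s3 h3))).toMeasurableEquiv

theorem integral_scale3 (f : V × V → ℂ) (s1 s2 s3 t1 t2 t3 : ℝ) (h1 : 0 < s1) (h2 : 0 < s2)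
    (h3 : 0 < s3) (k1 : 0 < t1) (k2 : 0 < t2) (k3 : 0 < t3) :
    ∫ q : V × V, f q = (((s1 * s2 * s3) * (t1 * t2 * t3) : ℝ) : ℂ) *
      ∫ q : V × V, f (Sc3 s1 s2 s3 q.1, Sc3 t1 t2 t3 q.2) := by
  have h0 : Measure.map (fun q : V × V => (Sc3 s1 s2 s3 q.1, Sc3 t1 t2 t3 q.2)) volume =
      ENNReal.ofReal (((s1 * s2 * s3) * (t1 * t2 * t3))⁻¹) • (volume : Measure (V × V)) := by
    have e1 : (volume : Measure (V × V)) = (volume : Measure V).prod (volume : Measure V) := rfl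
    have e2 : (fun q : V × V => (Sc3 s1 s2 s3 q.1, Sc3 t1 t2 t3 q.2)) =
      Prod.map (Sc3 s1 s2 s3) (Sc3 t1 t2 t3) := rfl
    rw [e1, e2, ← Measure.map_prod_map _ _ (Sc3_cont s1 s2 s3).measurable
      (Sc3_cont t1 t2 t3).measurable, map_Sc3 s1 s2 s3 h1 h2 h3, map_Sc3 t1 t2 t3 k1 k2 k3,
      Measure.prod_smul_right, Measure.prod_smul_left, smul_smul]
    congr 1
    rw [← ENNReal.ofReal_mul (by positivity)]
    congr 1
    rw [← mul_inv, mul_comm]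
  have e3 := integral_map_equiv (μ := (volume : Measure (V × V)))
    (MeasurableEquiv.prodCongr (Sc3E s1 s2 s3 h1.ne' h2.ne' h3.ne')
      (Sc3E t1 t2 t3 k1.ne' k2.ne' k3.ne')) f
  have e4 : (⇑(MeasurableEquiv.prodCongr (Sc3E s1 s2 s3 h1.ne' h2.ne' h3.ne')
      (Sc3E t1 t2 t3 k1.ne' k2.ne' k3.ne'))) =
    fun q : V × V => (Sc3 s1 s2 s3 q.1, Sc3 t1 t2 t3 q.2) := rfl
  rw [e4, h0, integral_smul_measure] at e3
  rw [← e3, ENNReal.toReal_ofReal (by positivity), Complex.real_smul, ← mul_assoc,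
    ← Complex.ofReal_mul, mul_inv_cancel₀ (by positivity), Complex.ofReal_one, one_mul]

/-- Parameters `(A, B, ρ, γ, κ, η)`. -/
abbrev P6 : Type := ℝ × ℝ × ℝ × ℝ × ℝ × ℝ

/-- The amplitude in scaled variables; `A = al ^ 2`, `B = be ^ 2`,
`y = (al be² ρ y₁', be ρ y₂')`, `z = (al γ z₁', be al² κ γ z₂')`. -/
noncomputable def WF (c A B ρ γ κ : ℝ) (a b : V) : ℝ :=
  sma c (1 - A * a.2.1 ^ 2 - B * b.2.1 ^ 2) *
    sma c (1 - A * (a.2.1 - B * ρ * a.1) ^ 2 - B * (b.2.1 - ρ * b.1) ^ 2) *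
    sma c (1 - A * (a.2.1 - γ * a.2.2) ^ 2 - B * (b.2.1 - A * κ * γ * b.2.2) ^ 2) *
    sma c (1 - A * (a.2.1 - B * ρ * a.1 - γ * a.2.2) ^ 2 -
      B * (b.2.1 - ρ * b.1 - A * κ * γ * b.2.2) ^ 2)

lemma WF_eq (c al be ρ γ κ : ℝ) (a b : V) :
    Wr c (Sc3 (al * be ^ 2 * ρ) al (al * γ) a) (Sc3 (be * ρ) be (be * al ^ 2 * κ * γ) b) =
      WF c (al ^ 2) (be ^ 2) ρ γ κ a b := by
  unfold Wr WF wf Sc3
  simp only
  congr 1
  · congr 1
    · congr 1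
      · congr 1
        ring
      · congr 1
        ring
    · congr 1
      ring
  · congr 1
    ring

/-- The amplitude for `HLa`. -/
noncomputable def amF (c : ℝ) (Ef : P6 × V × V → ℝ) (x : ℝ × P6 × V × V) : ℝ :=
  WF c x.2.1.1 x.2.1.2.1 x.2.1.2.2.1 x.2.1.2.2.2.1 x.2.1.2.2.2.2.1 x.2.2.1 x.2.2.2 *
    (chi (x.1 / Ef x.2) / |Ef x.2|)

lemma amF_smooth (c : ℝ) (hc : 0 < c) (Ef : P6 × V × V → ℝ) (S : Set (P6 × V × V))
    (hE : ContDiffOn ℝ ∞ Ef S) (hE0 : ∀ x ∈ S, Ef x ≠ 0) :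
    ContDiffOn ℝ ∞ (amF c Ef) (univ ×ˢ S) := by
  have h1 : ContDiffOn ℝ ∞ (fun x : ℝ × P6 × V × V => Ef x.2) (univ ×ˢ S) :=
    hE.comp contDiff_snd.contDiffOn (fun x hx => hx.2)
  have hs := sma_smooth c hc
  have h2 : ContDiff ℝ ∞ (fun x : ℝ × P6 × V × V =>
      WF c x.2.1.1 x.2.1.2.1 x.2.1.2.2.1 x.2.1.2.2.2.1 x.2.1.2.2.2.2.1 x.2.2.1 x.2.2.2) := by
    unfold WF
    refine ContDiff.mul (ContDiff.mul (ContDiff.mul ?_ ?_) ?_) ?_
    · exact hs.comp (by fun_prop)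
    · exact hs.comp (by fun_prop)
    · exact hs.comp (by fun_prop)
    · exact hs.comp (by fun_prop)
  have h4 : ContDiffOn ℝ ∞ (fun x : ℝ × P6 × V × V => chi (x.1 / Ef x.2)) (univ ×ˢ S) :=
    chi_smooth.comp_contDiffOn (contDiff_fst.contDiffOn.div h1 (fun x hx => hE0 _ hx.2))
  have h5 : ContDiffOn ℝ ∞ (fun x : ℝ × P6 × V × V => |Ef x.2|) (univ ×ˢ S) := by
    intro x hx
    exact (contDiffAt_abs (hE0 _ hx.2)).comp_contDiffWithinAt x (h1 x hx)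
  exact h2.contDiffOn.mul (h4.div h5 (fun x hx => abs_ne_zero.2 (hE0 _ hx.2)))

lemma amF_supp (c : ℝ) (Ef : P6 × V × V → ℝ) (e0 e1 s : ℝ) (q : P6 × V × V)
    (he0 : 0 < e0) (h0 : e0 ≤ |Ef q|) (h1 : |Ef q| ≤ e1) (h : amF c Ef (s, q) ≠ 0) :
    e0 / 2 ≤ |s| ∧ |s| ≤ 3 * e1 := by
  have hchi : chi (s / Ef q) ≠ 0 := by
    intro h2
    apply h
    unfold amF
    simp only
    rw [h2, zero_div, mul_zero]
  obtain ⟨g1, g2⟩ := chi_zero _ hchi
  have hE : 0 < |Ef q| := lt_of_lt_of_le he0 h0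
  have h3 : |s| = |s / Ef q| * |Ef q| := by
    rw [abs_div]
    field_simp
  have h4 : |s / Ef q| = s / Ef q := abs_of_nonneg (by linarith)
  rw [h4] at h3
  rw [h3]
  constructor
  · nlinarith
  · nlinarith

end Pool.Agent.N1F
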